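import Mathlib
import Pool.Agent.Lib.MP_fdb342_lc.Code0
import Pool.Agent.Lib.MP_fdb342_lc.Omega

section

/-!
# A small calculus of definable predicates

`M` is a commutative ring with an injective ring homomorphism `ι : M →+* ℂ`.
`Tm ι f` : `f : (Fin n → M) → ℂ` is given by a term of the language of rings.
`Dfn P` : the set `{v | P v}` is definable without parameters.
-/

open FirstOrder FirstOrder.Language FirstOrder.Ring

namespace Pool.Agent.Lib.MP_fdb342_lc

variable {M : Type} [CommRing M] [CompatibleRing M] {n m : ℕ}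

/-- `f` is given by a term. -/
def Tm (ι : M →+* ℂ) (f : (Fin n → M) → ℂ) : Prop :=
  ∃ t : Language.ring.Term (Fin n), ∀ v, ι (t.realize v) = f v

/-- `P` is definable without parameters. -/
def Dfn (P : (Fin n → M) → Prop) : Prop :=
  ∃ φ : Language.ring.Formula (Fin n), ∀ v, φ.Realize v ↔ P v

/-- the predicate `P` on complex numbers is definable on the image of `M`. -/
def DP1 (ι : M →+* ℂ) (P : ℂ → Prop) : Prop :=
  ∀ (n : ℕ) (f : (Fin n → M) → ℂ), Tm ι f → Dfn fun v => P (f v)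

def DP2 (ι : M →+* ℂ) (P : ℂ → ℂ → Prop) : Prop :=
  ∀ (n : ℕ) (f g : (Fin n → M) → ℂ), Tm ι f → Tm ι g → Dfn fun v => P (f v) (g v)

def DP3 (ι : M →+* ℂ) (P : ℂ → ℂ → ℂ → Prop) : Prop :=
  ∀ (n : ℕ) (f g h : (Fin n → M) → ℂ), Tm ι f → Tm ι g → Tm ι h →
    Dfn fun v => P (f v) (g v) (h v)

def DP4 (ι : M →+* ℂ) (P : ℂ → ℂ → ℂ → ℂ → Prop) : Prop :=
  ∀ (n : ℕ) (f g h k : (Fin n → M) → ℂ), Tm ι f → Tm ι g → Tm ι h → Tm ι k →
    Dfn fun v => P (f v) (g v) (h v) (k v)

def DP5 (ι : M →+* ℂ) (P : ℂ → ℂ → ℂ → ℂ → ℂ → Prop) : Prop :=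
  ∀ (n : ℕ) (f g h k l : (Fin n → M) → ℂ), Tm ι f → Tm ι g → Tm ι h → Tm ι k → Tm ι l →
    Dfn fun v => P (f v) (g v) (h v) (k v) (l v)

variable {ι : M →+* ℂ}

lemma Tm.var (i : Fin n) : Tm ι fun v : Fin n → M => ι (v i) :=
  ⟨Term.var i, fun v => by simp⟩

lemma Tm.zero : Tm ι fun _ : Fin n → M => (0 : ℂ) := ⟨0, fun v => by simp⟩

lemma Tm.one : Tm ι fun _ : Fin n → M => (1 : ℂ) := ⟨1, fun v => by simp⟩

lemma Tm.add {f g : (Fin n → M) → ℂ} (hf : Tm ι f) (hg : Tm ι g) : Tm ι fun v => f v + g v := by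
  obtain ⟨s, hs⟩ := hf
  obtain ⟨t, ht⟩ := hg
  exact ⟨s + t, fun v => by rw [realize_add, map_add, hs, ht]⟩

lemma Tm.mul {f g : (Fin n → M) → ℂ} (hf : Tm ι f) (hg : Tm ι g) : Tm ι fun v => f v * g v := by
  obtain ⟨s, hs⟩ := hf
  obtain ⟨t, ht⟩ := hg
  exact ⟨s * t, fun v => by rw [realize_mul, map_mul, hs, ht]⟩

lemma Tm.neg {f : (Fin n → M) → ℂ} (hf : Tm ι f) : Tm ι fun v => - f v := by
  obtain ⟨s, hs⟩ := hf
  exact ⟨-s, fun v => by rw [realize_neg, map_neg, hs]⟩

lemma Tm.sub {f g : (Fin n → M) → ℂ} (hf : Tm ι f) (hg : Tm ι g) : Tm ι fun v => f v - g v := by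
  have := hf.add hg.neg
  simpa only [sub_eq_add_neg] using this

lemma Tm.natCast (k : ℕ) : Tm ι fun _ : Fin n → M => (k : ℂ) := by
  induction k with
  | zero => simpa using (Tm.zero (ι := ι) (n := n))
  | succ k ih => simpa using ih.add Tm.one

lemma Tm.ofNat (k : ℕ) [k.AtLeastTwo] : Tm ι fun _ : Fin n → M => (OfNat.ofNat k : ℂ) :=
  Tm.natCast (ι := ι) (n := n) k

lemma Tm.pow {f : (Fin n → M) → ℂ} (hf : Tm ι f) (k : ℕ) : Tm ι fun v => f v ^ k := by
  induction k with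
  | zero => simpa using (Tm.one (ι := ι) (n := n))
  | succ k ih => simpa only [pow_succ] using ih.mul hf

/-- forget the last variable -/
lemma Tm.weak {f : (Fin n → M) → ℂ} (hf : Tm ι f) :
    Tm ι fun v : Fin (n + 1) → M => f fun i => v i.castSucc := by
  obtain ⟨s, hs⟩ := hf
  refine ⟨s.relabel Fin.castSucc, fun v => ?_⟩
  rw [Term.realize_relabel, hs]
  rfl

/-- permutation and duplication of the variables -/
lemma Tm.reindex {f : (Fin n → M) → ℂ} (hf : Tm ι f) (s : Fin n → Fin m) :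
    Tm ι fun v : Fin m → M => f fun i => v (s i) := by
  obtain ⟨t, ht⟩ := hf
  refine ⟨t.relabel s, fun v => ?_⟩
  rw [Term.realize_relabel, ht]
  rfl

lemma Tm.last : Tm ι fun v : Fin (n + 1) → M => ι (v (Fin.last n)) := Tm.var _

lemma dfn_iff {P : (Fin n → M) → Prop} :
    Dfn P ↔ (∅ : Set M).Definable Language.ring {v | P v} := by
  rw [Set.empty_definable_iff]
  constructor
  · rintro ⟨φ, h⟩
    refine ⟨φ, ?_⟩
    ext v
    exact (h v).symm
  · rintro ⟨φ, h⟩
    refine ⟨φ, fun v => ?_⟩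
    have : v ∈ {v | P v} ↔ v ∈ Set.ofPred φ.Realize := by rw [h]
    exact this.symm

lemma Dfn.congr {P Q : (Fin n → M) → Prop} (hP : Dfn P) (h : ∀ v, Q v ↔ P v) : Dfn Q := by
  obtain ⟨φ, hφ⟩ := hP
  exact ⟨φ, fun v => (hφ v).trans (h v).symm⟩

lemma Dfn.and {P Q : (Fin n → M) → Prop} (hP : Dfn P) (hQ : Dfn Q) : Dfn fun v => P v ∧ Q v := by
  obtain ⟨φ, hφ⟩ := hP
  obtain ⟨ψ, hψ⟩ := hQ
  exact ⟨φ ⊓ ψ, fun v => by rw [Formula.realize_inf, hφ, hψ]⟩

lemma Dfn.not {P : (Fin n → M) → Prop} (hP : Dfn P) : Dfn fun v => ¬ P v := by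
  obtain ⟨φ, hφ⟩ := hP
  exact ⟨φ.not, fun v => by rw [Formula.realize_not, hφ]⟩

lemma Dfn.or {P Q : (Fin n → M) → Prop} (hP : Dfn P) (hQ : Dfn Q) : Dfn fun v => P v ∨ Q v :=
  (hP.not.and hQ.not).not.congr fun v => by tauto

lemma Dfn.imp {P Q : (Fin n → M) → Prop} (hP : Dfn P) (hQ : Dfn Q) : Dfn fun v => P v → Q v :=
  (hP.not.or hQ).congr fun v => by tauto

lemma Dfn.iff {P Q : (Fin n → M) → Prop} (hP : Dfn P) (hQ : Dfn Q) : Dfn fun v => P v ↔ Q v :=
  ((hP.imp hQ).and (hQ.imp hP)).congr fun v => by tauto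

lemma Dfn.eq (hι : Function.Injective ι) {f g : (Fin n → M) → ℂ} (hf : Tm ι f) (hg : Tm ι g) :
    Dfn fun v => f v = g v := by
  obtain ⟨s, hs⟩ := hf
  obtain ⟨t, ht⟩ := hg
  refine ⟨Term.equal s t, fun v => ?_⟩
  show _ ↔ f v = g v
  rw [Formula.realize_equal, ← hs, ← ht, hι.eq_iff]

lemma Dfn.ne (hι : Function.Injective ι) {f g : (Fin n → M) → ℂ} (hf : Tm ι f) (hg : Tm ι g) :
    Dfn fun v => f v ≠ g v := (Dfn.eq hι hf hg).not

/-- permutation and duplication of variables -/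
lemma Dfn.reindex {P : (Fin n → M) → Prop} (hP : Dfn P) (s : Fin n → Fin m) :
    Dfn fun v : Fin m → M => P fun i => v (s i) := by
  obtain ⟨φ, hφ⟩ := hP
  refine ⟨φ.relabel s, fun v => ?_⟩
  rw [Formula.realize_relabel, hφ]
  rfl

/-- existential quantification over `M` -/
lemma Dfn.ex {Q : (Fin n → M) → M → Prop}
    (hQ : Dfn fun v : Fin (n + 1) → M => Q (fun i => v i.castSucc) (v (Fin.last n))) :
    Dfn fun v : Fin n → M => ∃ x : M, Q v x := by
  have h := Set.Definable.image_comp (dfn_iff.1 hQ) (Fin.castSucc : Fin n → Fin (n + 1))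
  rw [dfn_iff]
  have e : {v : Fin n → M | ∃ x : M, Q v x} = (fun g : Fin (n + 1) → M => g ∘ Fin.castSucc) ''
      {v | Q (fun i => v i.castSucc) (v (Fin.last n))} := by
    ext v
    constructor
    · rintro ⟨x, hx⟩
      refine ⟨Fin.snoc v x, ?_, ?_⟩
      · simpa using hx
      · ext i; simp
    · rintro ⟨w, hw, rfl⟩
      exact ⟨_, hw⟩
  rw [e]
  exact h

lemma Dfn.all {Q : (Fin n → M) → M → Prop}
    (hQ : Dfn fun v : Fin (n + 1) → M => Q (fun i => v i.castSucc) (v (Fin.last n))) :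
    Dfn fun v : Fin n → M => ∀ x : M, Q v x :=
  (Dfn.ex (Q := fun v x => ¬ Q v x) hQ.not).not.congr fun v => by simp

/-- existential quantification over a definable subset of `ℂ` contained in the image of `M` -/
lemma Dfn.exIn {R : ℂ → Prop} (hR : DP1 ι R) (hRM : ∀ x, R x → ∃ y, ι y = x)
    {Q : (Fin n → M) → ℂ → Prop}
    (hQ : Dfn fun v : Fin (n + 1) → M => Q (fun i => v i.castSucc) (ι (v (Fin.last n)))) :
    Dfn fun v : Fin n → M => ∃ x : ℂ, R x ∧ Q v x := by
  refine Dfn.congr (Dfn.ex (Q := fun v x => R (ι x) ∧ Q v (ι x)) ((hR _ _ Tm.last).and hQ)) ?_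
  intro v
  constructor
  · rintro ⟨x, hx, h⟩
    obtain ⟨y, rfl⟩ := hRM x hx
    exact ⟨y, hx, h⟩
  · rintro ⟨x, hx, h⟩
    exact ⟨ι x, hx, h⟩

lemma Dfn.allIn {R : ℂ → Prop} (hR : DP1 ι R) (hRM : ∀ x, R x → ∃ y, ι y = x)
    {Q : (Fin n → M) → ℂ → Prop}
    (hQ : Dfn fun v : Fin (n + 1) → M => Q (fun i => v i.castSucc) (ι (v (Fin.last n)))) :
    Dfn fun v : Fin n → M => ∀ x : ℂ, R x → Q v x :=
  (Dfn.exIn hR hRM (Q := fun v x => ¬ Q v x) hQ.not).not.congr fun v => by simp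

/-- it is enough to treat variables -/
lemma DP1.of_var {P : ℂ → Prop} (h : Dfn fun v : Fin 1 → M => P (ι (v 0))) : DP1 ι P := by
  rintro n f ⟨t, ht⟩
  obtain ⟨φ, hφ⟩ := h
  refine ⟨φ.subst fun _ => t, fun v => ?_⟩
  rw [Formula.Realize, BoundedFormula.realize_subst]
  have := hφ fun _ => t.realize v
  rw [Formula.Realize] at this
  rw [this]
  show P (ι (t.realize v)) ↔ P (f v)
  rw [ht]

end Pool.Agent.Lib.MP_fdb342_lc
end

section

/-!
# Decidable theories, and two products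
-/

open FirstOrder FirstOrder.Language FirstOrder.Ring

namespace Pool.Agent.Lib.MP_fdb342_lc

/-- The first-order theory of the ring structure `M` is decidable. -/
def DecidableTheory (M : Type) [Language.ring.Structure M] : Prop :=
  ∃ f : ℕ → Bool, Computable f ∧ ∀ φ : Language.ring.Sentence, (f (formulaCode φ) = true ↔ M ⊨ φ)

/-- `∏_{1 ≤ j ≤ e} (6 - g ^ j)` -/
def tt {M : Type} [CommRing M] (e : ℕ) (g : M) : M := ∏ j ∈ Finset.range e, (6 - g ^ (j + 1))

/-- `∏_{1 ≤ j ≤ e} (1 - g ^ j)` -/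
def dd {M : Type} [CommRing M] (e : ℕ) (g : M) : M := ∏ j ∈ Finset.range e, (1 - g ^ (j + 1))

end Pool.Agent.Lib.MP_fdb342_lc
end

section

/-!
# The Gödel numbering is injective
-/

open FirstOrder FirstOrder.Language FirstOrder.Ring

namespace Pool.Agent.Lib.MP_fdb342_lc

theorem funcCode_inj {l l' : ℕ} (f : ringFunc l) (f' : ringFunc l') (c : Fin l → ℕ)
    (c' : Fin l' → ℕ) (h : funcCode f c = funcCode f' c') :
    l = l' ∧ HEq f f' ∧ ∀ (i : ℕ) (hi : i < l) (hi' : i < l'), c ⟨i, hi⟩ = c' ⟨i, hi'⟩ := by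
  cases f <;> cases f' <;> simp only [funcCode] at h <;> first
    | (exfalso; omega)
    | skip
  · refine ⟨rfl, HEq.rfl, ?_⟩
    have h1 : Nat.pair (c 0) (c 1) = Nat.pair (c' 0) (c' 1) := by omega
    rw [Nat.pair_eq_pair] at h1
    intro i hi hi'
    interval_cases i
    · exact h1.1
    · exact h1.2
  · refine ⟨rfl, HEq.rfl, ?_⟩
    have h1 : Nat.pair (c 0) (c 1) = Nat.pair (c' 0) (c' 1) := by omega
    rw [Nat.pair_eq_pair] at h1
    intro i hi hi'
    interval_cases i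
    · exact h1.1
    · exact h1.2
  · refine ⟨rfl, HEq.rfl, ?_⟩
    have h1 : c 0 = c' 0 := by omega
    intro i hi hi'
    interval_cases i
    exact h1
  · refine ⟨rfl, HEq.rfl, ?_⟩
    intro i hi hi'
    omega
  · refine ⟨rfl, HEq.rfl, ?_⟩
    intro i hi hi'
    omega

theorem funcCode_mod {l : ℕ} (f : ringFunc l) (c : Fin l → ℕ) : funcCode f c % 6 ≠ 0 := by
  cases f <;> simp only [funcCode] <;> omega

theorem termCode_injective {n : ℕ} : Function.Injective (termCode (n := n)) := by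
  intro s
  induction s with
  | var x =>
    intro t h
    rcases x with e | i
    · exact e.elim
    · cases t with
      | var y =>
        rcases y with e | j
        · exact e.elim
        · simp only [termCode] at h
          have : i = j := Fin.ext (by omega)
          rw [this]
      | func f ts =>
        exfalso
        simp only [termCode] at h
        have h2 := funcCode_mod (f : ringFunc _) fun i => termCode (ts i)
        rw [← h] at h2
        omega
  | func f ts ih =>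
    intro t h
    cases t with
    | var y =>
      exfalso
      rcases y with e | j
      · exact e.elim
      · simp only [termCode] at h
        have h2 := funcCode_mod (f : ringFunc _) fun i => termCode (ts i)
        rw [h] at h2
        omega
    | func f' ts' =>
      simp only [termCode] at h
      obtain ⟨hl, hf, hc⟩ := funcCode_inj _ _ _ _ h
      subst hl
      have hf' : f = f' := eq_of_heq hf
      subst hf'
      congr 1
      funext i
      exact ih i (hc i.1 i.2 i.2)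

theorem formulaCode_injective {n : ℕ} : Function.Injective (formulaCode (n := n)) := by
  intro φ
  induction φ with
  | falsum =>
    intro ψ h
    cases ψ with
    | falsum => rfl
    | equal t₁ t₂ => simp only [formulaCode] at h; omega
    | rel R _ => exact (R : Empty).elim
    | imp φ ψ => simp only [formulaCode] at h; omega
    | all φ => simp only [formulaCode] at h; omega
  | equal s₁ s₂ =>
    intro ψ h
    cases ψ with
    | falsum => simp only [formulaCode] at h; omega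
    | equal t₁ t₂ =>
      simp only [formulaCode] at h
      have h1 : Nat.pair (termCode s₁) (termCode s₂) = Nat.pair (termCode t₁) (termCode t₂) := by
        omega
      rw [Nat.pair_eq_pair] at h1
      rw [termCode_injective h1.1, termCode_injective h1.2]
    | rel R _ => exact (R : Empty).elim
    | imp φ ψ => simp only [formulaCode] at h; omega
    | all φ => simp only [formulaCode] at h; omega
  | rel R _ => exact (R : Empty).elim
  | imp φ₁ φ₂ ih₁ ih₂ =>
    intro ψ h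
    cases ψ with
    | falsum => simp only [formulaCode] at h; omega
    | equal t₁ t₂ => simp only [formulaCode] at h; omega
    | rel R _ => exact (R : Empty).elim
    | imp ψ₁ ψ₂ =>
      simp only [formulaCode] at h
      have h1 : Nat.pair (formulaCode φ₁) (formulaCode φ₂) =
          Nat.pair (formulaCode ψ₁) (formulaCode ψ₂) := by omega
      rw [Nat.pair_eq_pair] at h1
      rw [ih₁ h1.1, ih₂ h1.2]
    | all φ => simp only [formulaCode] at h; omega
  | all φ ih =>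
    intro ψ h
    cases ψ with
    | falsum => simp only [formulaCode] at h; omega
    | equal t₁ t₂ => simp only [formulaCode] at h; omega
    | rel R _ => exact (R : Empty).elim
    | imp φ ψ => simp only [formulaCode] at h; omega
    | all ψ =>
      simp only [formulaCode] at h
      have h1 : formulaCode φ = formulaCode ψ := by omega
      rw [ih h1]

end Pool.Agent.Lib.MP_fdb342_lc
end

section

/-!
# Constructible numbers: basic definitions

`Omega` is the field of constructible numbers, `RR D` the ring of all `x ∈ Omega` such that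
`D ^ k * x` is an algebraic integer for some `k` (we use it for `D = 1`, the ring of integers of
`Omega`, and for `D = 3`).
-/

namespace Pool.Agent.Lib.MP_fdb342_lc

lemma mem_Omega {z : ℂ} : z ∈ Omega ↔ IsConstructible z := Iff.rfl

lemma Good.le_Omega {K : IntermediateField ℚ ℂ} (h : Good K) {z : ℂ} (hz : z ∈ K) : z ∈ Omega :=
  h.isConstructible hz

/-- The ring of all `x ∈ Omega` such that `D ^ k * x` is an algebraic integer for some `k`. -/
def RR (D : ℕ) : Subring ℂ where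
  carrier := {x | x ∈ Omega ∧ ∃ k : ℕ, IsIntegral ℤ ((D : ℂ) ^ k * x)}
  mul_mem' := by
    rintro a b ⟨ha, k, hk⟩ ⟨hb, l, hl⟩
    refine ⟨mul_mem ha hb, k + l, ?_⟩
    have := hk.mul hl
    have e : (D : ℂ) ^ (k + l) * (a * b) = ((D : ℂ) ^ k * a) * ((D : ℂ) ^ l * b) := by
      rw [pow_add]; ring
    rw [e]
    exact this
  one_mem' := ⟨one_mem _, 0, by simpa using isIntegral_one⟩
  add_mem' := by
    rintro a b ⟨ha, k, hk⟩ ⟨hb, l, hl⟩
    refine ⟨add_mem ha hb, k + l, ?_⟩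
    have hD : ∀ m : ℕ, IsIntegral ℤ ((D : ℂ) ^ m) := fun m => by
      have h := isIntegral_algebraMap (R := ℤ) (A := ℂ) (x := (D : ℤ) ^ m)
      simpa using h
    have e : (D : ℂ) ^ (k + l) * (a + b) = (D : ℂ) ^ l * ((D : ℂ) ^ k * a) +
        (D : ℂ) ^ k * ((D : ℂ) ^ l * b) := by
      rw [pow_add]; ring
    rw [e]
    exact ((hD l).mul hk).add ((hD k).mul hl)
  zero_mem' := ⟨zero_mem _, 0, by simpa using isIntegral_zero⟩
  neg_mem' := by
    rintro a ⟨ha, k, hk⟩
    refine ⟨neg_mem ha, k, ?_⟩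
    rw [mul_neg]
    exact hk.neg

/-- `u` is a unit of `RR D`. -/
def IsU (D : ℕ) (u : ℂ) : Prop := u ∈ RR D ∧ ∃ v ∈ RR D, u * v = 1

/-- `a` divides `b`, with quotient in `RR D`. -/
def DvdR (D : ℕ) (a b : ℂ) : Prop := ∃ c ∈ RR D, b = a * c

/-- `w` is a root of unity of `2`-power order. -/
def InA (w : ℂ) : Prop := ∃ k : ℕ, w ^ (2 ^ k) = 1

/-- `m` and `m'` generate the unit ideal of `RR D`. -/
def Comax (D : ℕ) (m m' : ℂ) : Prop := ∃ a ∈ RR D, ∃ b ∈ RR D, a * m + b * m' = 1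

/-- The first-order definition of the set of roots of unity of `2`-power order in `RR D`. -/
def InM (D : ℕ) (w : ℂ) : Prop :=
  w ∈ RR D ∧ ∀ m ∈ RR D, ∀ m' ∈ RR D, m ≠ 0 → m' ≠ 0 → Comax D m m' →
    ∃ u ∈ RR D, IsU D u ∧ DvdR D m (u - w) ∧ DvdR D m' (u - 1)

/-- `ζ` belongs to the finite set coded by `z`. -/
def Mem1 (D : ℕ) (z ζ : ℂ) : Prop := InA ζ ∧ DvdR D (6 - ζ) z

/-- `(ζ, ξ, θ)` belongs to the finite set of triples coded by `(y, z)`. -/
def Mem3 (D : ℕ) (y z ζ ξ θ : ℂ) : Prop :=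
  InA ζ ∧ InA ξ ∧ InA θ ∧ DvdR D (y - ζ - 3 * ξ - 9 * θ) z

/-- The finite set coded by `z`. -/
def Sz (D : ℕ) (z : ℂ) : Set ℂ := {ζ | Mem1 D z ζ}

/-- The natural number coded by `z`. -/
noncomputable def nn (D : ℕ) (z : ℂ) : ℕ := (Sz D z).ncard

/-- `(y, w)` codes a bijection from the set coded by `z` onto the set coded by `z'`. -/
def BijC (D : ℕ) (y w z z' : ℂ) : Prop :=
  (∀ ζ ∈ RR D, Mem1 D z ζ → ∃ ξ ∈ RR D, Mem1 D z' ξ ∧ Mem3 D y w ζ ξ 1) ∧
  (∀ ξ ∈ RR D, Mem1 D z' ξ → ∃ ζ ∈ RR D, Mem1 D z ζ ∧ Mem3 D y w ζ ξ 1) ∧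
  (∀ ζ ∈ RR D, ∀ ξ ∈ RR D, ∀ ξ' ∈ RR D, Mem1 D z ζ → Mem1 D z' ξ → Mem1 D z' ξ' →
    Mem3 D y w ζ ξ 1 → Mem3 D y w ζ ξ' 1 → ξ = ξ') ∧
  (∀ ζ ∈ RR D, ∀ ζ' ∈ RR D, ∀ ξ ∈ RR D, Mem1 D z ζ → Mem1 D z ζ' → Mem1 D z' ξ →
    Mem3 D y w ζ ξ 1 → Mem3 D y w ζ' ξ 1 → ζ = ζ')

/-- First-order formula for `nn z = nn z'`. -/
def EqC (D : ℕ) (z z' : ℂ) : Prop := ∃ y ∈ RR D, ∃ w ∈ RR D, BijC D y w z z'

/-- First-order formula for `nn z₁ + nn z₂ = nn z₃`. -/
def AddC (D : ℕ) (z₁ z₂ z₃ : ℂ) : Prop :=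
  ∃ a ∈ RR D, ∃ b ∈ RR D, a ≠ 0 ∧ b ≠ 0 ∧ EqC D a z₁ ∧ EqC D b z₂ ∧
    ∀ ζ ∈ RR D, (Mem1 D z₃ ζ ↔ (Mem1 D a ζ ∨ Mem1 D b ζ)) ∧ ¬ (Mem1 D a ζ ∧ Mem1 D b ζ)

/-- First-order formula for `nn z₁ * nn z₂ = nn z₃`. -/
def MulC (D : ℕ) (z₁ z₂ z₃ : ℂ) : Prop :=
  ∃ y ∈ RR D, ∃ w ∈ RR D,
    (∀ ζ ∈ RR D, ∀ ξ ∈ RR D, Mem1 D z₁ ζ → Mem1 D z₂ ξ →
      ∃ θ ∈ RR D, Mem1 D z₃ θ ∧ Mem3 D y w ζ ξ θ) ∧
    (∀ θ ∈ RR D, Mem1 D z₃ θ → ∃ ζ ∈ RR D, ∃ ξ ∈ RR D, Mem1 D z₁ ζ ∧ Mem1 D z₂ ξ ∧
      Mem3 D y w ζ ξ θ) ∧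
    (∀ ζ ∈ RR D, ∀ ξ ∈ RR D, ∀ θ ∈ RR D, ∀ θ' ∈ RR D, Mem1 D z₁ ζ → Mem1 D z₂ ξ →
      Mem1 D z₃ θ → Mem1 D z₃ θ' → Mem3 D y w ζ ξ θ → Mem3 D y w ζ ξ θ' → θ = θ') ∧
    (∀ ζ ∈ RR D, ∀ ξ ∈ RR D, ∀ ζ' ∈ RR D, ∀ ξ' ∈ RR D, ∀ θ ∈ RR D, Mem1 D z₁ ζ →
      Mem1 D z₂ ξ → Mem1 D z₁ ζ' → Mem1 D z₂ ξ' → Mem1 D z₃ θ →
      Mem3 D y w ζ ξ θ → Mem3 D y w ζ' ξ' θ → ζ = ζ' ∧ ξ = ξ')

/-- The group of units of `RR D` lying in `K`. -/
def UK (D : ℕ) (K : IntermediateField ℚ ℂ) : Subgroup Kˣ where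
  carrier := {x | IsU D (x : K)}
  mul_mem' := by
    rintro a b ⟨ha, c, hc, hac⟩ ⟨hb, d, hd, hbd⟩
    refine ⟨?_, c * d, mul_mem hc hd, ?_⟩
    · simpa using mul_mem ha hb
    · have : ((a * b : Kˣ) : K) = (a : K) * (b : K) := rfl
      rw [this]
      push_cast
      calc (a : ℂ) * b * (c * d) = (a * c) * (b * d) := by ring
        _ = 1 := by rw [hac, hbd, one_mul]
  one_mem' := ⟨by simp, 1, one_mem _, by simp⟩
  inv_mem' := by
    rintro a ⟨ha, c, hc, hac⟩
    have h0 : ((a : K) : ℂ) ≠ 0 := fun h => by rw [h, zero_mul] at hac; exact zero_ne_one hac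
    have h1 : ((a⁻¹ : Kˣ) : K) = (a : K)⁻¹ := by simp
    have h2 : (((a⁻¹ : Kˣ) : K) : ℂ) = c := by
      rw [h1]
      push_cast
      field_simp
      rw [eq_comm, mul_comm] at hac; first | exact hac | exact hac.symm | (rw [mul_comm]; exact hac)
    refine ⟨?_, a, ha, ?_⟩
    · rw [h2]; exact hc
    · rw [h2, mul_comm]; exact hac

end Pool.Agent.Lib.MP_fdb342_lc
end

section

/-!
# The field of constructible numbers is quadratically closed
-/

namespace Pool.Agent.Lib.MP_fdb342_lc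

open Polynomial IntermediateField

theorem A2_good_sup {k M : Type*} [Field k] [Field M] [Algebra k M] [CharZero k]
    {K E : IntermediateField k M} [IsGalois k K] [FiniteDimensional k K] {n : ℕ}
    (hn : Module.finrank k K = 2 ^ n) [Normal k E]
    [FiniteDimensional k E] (S : Set M) (hE : adjoin k S = E) (hS : ∀ r ∈ S, r ^ 2 ∈ K) :
    IsGalois k (K ⊔ E : IntermediateField k M) ∧
      ∃ m : ℕ, Module.finrank k (K ⊔ E : IntermediateField k M) = 2 ^ m := by
  have hnorm : Normal k (K ⊔ E : IntermediateField k M) := inferInstance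
  have hgal : IsGalois k (K ⊔ E : IntermediateField k M) := ⟨⟩
  have hKL : K ≤ K ⊔ E := le_sup_left
  have hEL : E ≤ K ⊔ E := le_sup_right
  have hK' : Normal k (restrict hKL) := Normal.of_algEquiv (restrictAlgEquiv hKL)
  have hKg : IsGalois k (restrict hKL) := ⟨⟩
  have hcard : Nat.card (Gal((restrict hKL)/k)) = 2 ^ n := by
    rw [IsGalois.card_aut_eq_finrank, ← hn]
    exact (restrictAlgEquiv hKL).toLinearEquiv.finrank_eq.symm
  have key : ∀ σ : Gal((K ⊔ E : IntermediateField k M)/k), σ ^ (2 ^ (n + 1)) = 1 := by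
    intro σ
    have h1 : AlgEquiv.restrictNormalHom (restrict hKL) (σ ^ (2 ^ n)) = 1 := by
      rw [map_pow, ← hcard, pow_card_eq_one']
    have h2 : ∀ x ∈ restrict hKL, (σ ^ (2 ^ n)) x = x :=
      (AlgEquiv.restrictNormal_eq_one_iff _ _).1 h1
    set τ := σ ^ (2 ^ n) with hτ
    let F : IntermediateField k (K ⊔ E : IntermediateField k M) :=
      fixedField (Subgroup.zpowers (τ ^ 2))
    have hF : ∀ x : (K ⊔ E : IntermediateField k M), τ (τ x) = x → x ∈ F := by
      intro x hx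
      rw [mem_fixedField_iff]
      intro f hf
      have : f ∈ MulAction.stabilizer (Gal((K ⊔ E : IntermediateField k M)/k)) x := by
        refine (Subgroup.zpowers_le.2 ?_) hf
        rw [MulAction.mem_stabilizer_iff, pow_two]
        exact hx
      exact this
    have hKF : K ≤ lift F := by
      intro x hx
      have : (⟨x, hKL hx⟩ : (K ⊔ E : IntermediateField k M)) ∈ F := by
        apply hF
        have := h2 ⟨x, hKL hx⟩ ((mem_restrict hKL _).2 hx)
        rw [this, this]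
      exact (mem_lift (⟨x, hKL hx⟩ : (K ⊔ E : IntermediateField k M))).2 this
    have hEF : E ≤ lift F := by
      refine le_trans (ge_of_eq hE) ?_
      rw [adjoin_le_iff]
      intro r hr
      have hrE : r ∈ E := by rw [← hE]; exact subset_adjoin k S hr
      have hr2 := h2 ⟨r ^ 2, hKL (hS r hr)⟩ ((mem_restrict hKL _).2 (hS r hr))
      have he : (⟨r ^ 2, hKL (hS r hr)⟩ : (K ⊔ E : IntermediateField k M)) =
          (⟨r, hEL hrE⟩ : (K ⊔ E : IntermediateField k M)) ^ 2 := rfl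
      rw [he, map_pow] at hr2
      have : (⟨r, hEL hrE⟩ : (K ⊔ E : IntermediateField k M)) ∈ F := by
        apply hF
        rcases sq_eq_sq_iff_eq_or_eq_neg.1 hr2 with h | h
        · rw [h, h]
        · rw [h, map_neg, h, neg_neg]
      exact (mem_lift (⟨r, hEL hrE⟩ : (K ⊔ E : IntermediateField k M))).2 this
    have hLF : K ⊔ E ≤ lift F := sup_le hKF hEF
    rw [pow_succ, pow_mul, ← hτ]
    ext x
    have hx : x ∈ F := (mem_lift x).1 (hLF x.2)
    have := (mem_fixedField_iff _ _).1 hx (τ ^ 2) (Subgroup.mem_zpowers _)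
    rw [this]
    rfl
  refine ⟨hgal, ?_⟩
  have hp : IsPGroup 2 Gal((K ⊔ E : IntermediateField k M)/k) := fun σ => ⟨n + 1, key σ⟩
  have : Fact (Nat.Prime 2) := ⟨Nat.prime_two⟩
  obtain ⟨m, hm⟩ := (IsPGroup.iff_card).1 hp
  exact ⟨m, by rw [← IsGalois.card_aut_eq_finrank, hm]⟩

theorem A2_sqrt {k M : Type*} [Field k] [Field M] [Algebra k M] [CharZero k] [IsAlgClosed M]
    {K : IntermediateField k M} [IsGalois k K] [FiniteDimensional k K] {n : ℕ}
    (hn : Module.finrank k K = 2 ^ n) {w : M} (hv : w ^ 2 ∈ K) :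
    ∃ L : IntermediateField k M, (IsGalois k L ∧ ∃ m : ℕ, Module.finrank k L = 2 ^ m) ∧
      w ∈ L := by
  have hint : IsIntegral k (w ^ 2) := by
    have := Algebra.IsIntegral.isIntegral (R := k) (⟨w ^ 2, hv⟩ : K)
    exact (isIntegral_algHom_iff K.val (Subtype.val_injective)).2 this
  have hmin : minpoly k (w ^ 2) = minpoly k (⟨w ^ 2, hv⟩ : K) :=
    (minpoly.algHom_eq K.val Subtype.val_injective (⟨w ^ 2, hv⟩ : K))
  have hroots : ∀ x ∈ (minpoly k (w ^ 2)).rootSet M, x ∈ K := by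
    refine (splits_iff_mem (IsAlgClosed.splits _)).1 ?_
    rw [hmin]
    exact Normal.splits inferInstance _
  set q : k[X] := (minpoly k (w ^ 2)).comp (X ^ 2) with hq
  have hq0 : q ≠ 0 := by
    intro h0
    have h1 : (minpoly k (w ^ 2)).comp (X ^ 2) = 0 := h0
    rw [comp_eq_zero_iff] at h1
    rcases h1 with h1 | h1
    · exact minpoly.ne_zero hint h1
    · have h2 := congrArg natDegree h1.2
      simp at h2
  have hroot : ∀ r : M, aeval r q = aeval (r ^ 2) (minpoly k (w ^ 2)) := by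
    intro r
    rw [hq, aeval_comp]
    simp
  have hsplit : IsSplittingField k (adjoin k (q.rootSet M)) q :=
    adjoin_rootSet_isSplittingField (IsAlgClosed.splits _)
  have : Normal k (adjoin k (q.rootSet M)) := Normal.of_isSplittingField q
  have : FiniteDimensional k (adjoin k (q.rootSet M)) :=
    IsSplittingField.finiteDimensional _ q
  have hgood := A2_good_sup (K := K) (E := adjoin k (q.rootSet M)) hn (q.rootSet M) rfl (by
    intro r hr
    apply hroots
    rw [mem_rootSet] at hr ⊢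
    exact ⟨minpoly.ne_zero hint, by rw [← hroot]; exact hr.2⟩)
  refine ⟨_, hgood, ?_⟩
  refine (le_sup_right : adjoin k (q.rootSet M) ≤ _) ?_
  apply subset_adjoin
  rw [mem_rootSet]
  exact ⟨hq0, by rw [hroot]; exact minpoly.aeval _ _⟩

theorem omega_sqrt {w : ℂ} (h : w ^ 2 ∈ Omega) : w ∈ Omega := by
  obtain ⟨K, hK, hv⟩ := IsConstructible.exists_good h
  obtain ⟨n, hn⟩ := hK.2
  obtain ⟨L, hL, hw⟩ := @A2_sqrt ℚ ℂ _ _ _ _ _ K hK.1 hK.finiteDimensional n hn w hv
  have hL' : Good L := hL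
  exact hL'.isConstructible hw

end Pool.Agent.Lib.MP_fdb342_lc
end

section

/-!
# Elementary properties of `Omega` and `RR D`
-/

namespace Pool.Agent.Lib.MP_fdb342_lc

/-- A root of a monic quadratic polynomial with integral coefficients is integral. -/
private theorem b1_quad_integral {b c x : ℂ} (hb : IsIntegral ℤ b) (hc : IsIntegral ℤ c)
    (h : x ^ 2 + b * x + c = 0) : IsIntegral ℤ x := by
  let R := integralClosure ℤ ℂ
  have hx : IsIntegral R x := by
    refine ⟨Polynomial.X ^ 2 + (Polynomial.C (⟨b, hb⟩ : R) * Polynomial.X +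
      Polynomial.C (⟨c, hc⟩ : R)), ?_, ?_⟩
    · refine Polynomial.monic_X_pow_add ?_
      refine lt_of_le_of_lt Polynomial.degree_linear_le ?_
      norm_num
    · rw [Polynomial.eval₂_add, Polynomial.eval₂_add, Polynomial.eval₂_mul,
        Polynomial.eval₂_pow, Polynomial.eval₂_X, Polynomial.eval₂_C, Polynomial.eval₂_C]
      rw [← h, add_assoc]
      rfl
  exact isIntegral_trans x hx

private theorem b1_natCast (D n : ℕ) : IsIntegral ℤ ((D : ℂ) ^ n) := by
  have h := isIntegral_algebraMap (R := ℤ) (A := ℂ) (x := (D : ℤ) ^ n)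
  simpa using h

theorem omega_quad {s t w : ℂ} (hs : s ∈ Omega) (ht : t ∈ Omega) (h : w ^ 2 + s * w + t = 0) :
    w ∈ Omega := by
  have h2 : (2 : ℂ) ∈ Omega := by
    have := natCast_mem Omega 2
    simpa using this
  have h4 : (4 : ℂ) ∈ Omega := by
    have := natCast_mem Omega 4
    simpa using this
  have e : (2 * w + s) ^ 2 = s ^ 2 - 4 * t := by linear_combination 4 * h
  have h1 : (2 * w + s) ^ 2 ∈ Omega := by
    rw [e]
    exact Omega.sub_mem (Omega.pow_mem hs 2) (Omega.mul_mem h4 ht)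
  have h3 := omega_sqrt h1
  have e2 : w = ((2 * w + s) - s) / 2 := by ring
  rw [e2]
  exact Omega.div_mem (Omega.sub_mem h3 hs) h2

/-- `RR D` is closed under roots of monic quadratic polynomials. -/
theorem RR_quad {D : ℕ} (hD : D ≠ 0) {s t w : ℂ} (hs : s ∈ RR D) (ht : t ∈ RR D)
    (h : w ^ 2 + s * w + t = 0) : w ∈ RR D := by
  obtain ⟨hsO, k, hk⟩ := hs
  obtain ⟨htO, l, hl⟩ := ht
  refine ⟨omega_quad hsO htO h, k + l, ?_⟩
  have hb : IsIntegral ℤ ((D : ℂ) ^ (k + l) * s) := by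
    have e : (D : ℂ) ^ (k + l) * s = (D : ℂ) ^ l * ((D : ℂ) ^ k * s) := by
      rw [pow_add]; ring
    rw [e]
    exact (b1_natCast D l).mul hk
  have hc : IsIntegral ℤ ((D : ℂ) ^ (2 * (k + l)) * t) := by
    have e : (D : ℂ) ^ (2 * (k + l)) * t = (D : ℂ) ^ (k + (k + l)) * ((D : ℂ) ^ l * t) := by
      rw [← mul_assoc, ← pow_add]; congr 2; ring
    rw [e]
    exact (b1_natCast D _).mul hl
  refine b1_quad_integral hb hc ?_
  have e : ((D : ℂ) ^ (k + l) * w) ^ 2 + (D : ℂ) ^ (k + l) * s * ((D : ℂ) ^ (k + l) * w) +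
      (D : ℂ) ^ (2 * (k + l)) * t = ((D : ℂ) ^ (k + l)) ^ 2 * (w ^ 2 + s * w + t) := by
    rw [mul_comm 2 (k + l), pow_mul]; ring
  rw [e, h, mul_zero]

private theorem b1_inA_omega (k : ℕ) : ∀ w : ℂ, w ^ (2 ^ k) = 1 → w ∈ Omega := by
  induction k with
  | zero =>
    intro w h
    have h1 : w = 1 := by simpa using h
    rw [h1]
    exact Omega.one_mem
  | succ k ih =>
    intro w h
    apply omega_sqrt
    apply ih
    rw [← pow_mul, ← h]
    congr 1
    ring

theorem inA_mem_RR {D : ℕ} {w : ℂ} (h : InA w) : w ∈ RR D := by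
  obtain ⟨k, hk⟩ := h
  refine ⟨b1_inA_omega k w hk, 0, ?_⟩
  rw [pow_zero, one_mul]
  refine IsIntegral.of_pow (n := 2 ^ k) (by positivity) ?_
  rw [hk]
  exact isIntegral_one

theorem inA_inv {w : ℂ} (hw : InA w) : InA w⁻¹ := by
  obtain ⟨k, hk⟩ := hw
  exact ⟨k, by rw [inv_pow, hk, inv_one]⟩

theorem inA_isU {D : ℕ} {w : ℂ} (h : InA w) : IsU D w := by
  refine ⟨inA_mem_RR h, w⁻¹, inA_mem_RR (inA_inv h), ?_⟩
  refine mul_inv_cancel₀ ?_
  rintro rfl
  obtain ⟨k, hk⟩ := h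
  rw [zero_pow (by positivity)] at hk
  exact zero_ne_one hk

theorem inA_mul {w z : ℂ} (hw : InA w) (hz : InA z) : InA (w * z) := by
  obtain ⟨k, hk⟩ := hw
  obtain ⟨l, hl⟩ := hz
  refine ⟨k + l, ?_⟩
  rw [mul_pow]
  nth_rw 1 [pow_add]
  rw [pow_mul, hk, one_pow, one_mul, pow_add, mul_comm, pow_mul, hl, one_pow]

theorem inA_pow {w : ℂ} (hw : InA w) (n : ℕ) : InA (w ^ n) := by
  obtain ⟨k, hk⟩ := hw
  exact ⟨k, by rw [← pow_mul, mul_comm, pow_mul, hk, one_pow]⟩

/-- an element of `RR D` which is rational is of the form `a / D ^ k` -/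
theorem rat_mem_RR {D : ℕ} (hD : D ≠ 0) {q : ℚ} (h : (q : ℂ) ∈ RR D) :
    ∃ (k : ℕ) (a : ℤ), (D : ℚ) ^ k * q = a := by
  obtain ⟨-, k, hk⟩ := h
  have h1 : IsIntegral ℤ (algebraMap ℚ ℂ ((D : ℚ) ^ k * q)) := by
    simpa using hk
  have h2 : IsIntegral ℤ ((D : ℚ) ^ k * q) :=
    (isIntegral_algebraMap_iff (algebraMap ℚ ℂ).injective).1 h1
  obtain ⟨a, ha⟩ := IsIntegrallyClosed.isIntegral_iff.1 h2
  exact ⟨k, a, by rw [← ha]; rfl⟩

theorem two_not_isU {D : ℕ} (hD : D = 1 ∨ D = 3) : ¬ IsU D 2 := by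
  rintro ⟨-, v, hv, h⟩
  have e : v = (((1 / 2 : ℚ)) : ℂ) := by
    push_cast
    linear_combination (1 / 2) * h
  rw [e] at hv
  have hD0 : D ≠ 0 := by rcases hD with rfl | rfl <;> norm_num
  obtain ⟨k, a, ha⟩ := rat_mem_RR hD0 hv
  have h1 : ((D : ℚ) ^ k) = ((2 * a : ℤ) : ℚ) := by
    push_cast
    linear_combination 2 * ha
  have h2 : ((D : ℤ) ^ k) = 2 * a := by exact_mod_cast h1
  have h3 : Odd ((D : ℤ) ^ k) := by
    apply Odd.pow
    rcases hD with rfl | rfl
    · exact ⟨0, by norm_num⟩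
    · exact ⟨1, by norm_num⟩
  rw [h2] at h3
  exact (Int.not_odd_iff_even.2 (even_two_mul a)) h3

theorem not_dvd_one_two {D : ℕ} (hD : D = 1 ∨ D = 3) {u : ℂ} (hu : IsU D u) : ¬ DvdR D 2 u := by
  rintro ⟨c, hc, hcu⟩
  obtain ⟨-, v, hv, h⟩ := hu
  refine two_not_isU hD ⟨?_, c * v, (RR D).mul_mem hc hv, ?_⟩
  · have := natCast_mem (RR D) 2
    simpa using this
  · rw [← h, hcu, mul_assoc]

end Pool.Agent.Lib.MP_fdb342_lc
end

section

/-!
# Hasse norm theorem for cubic Kummer extensions: definitions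
-/

open IsDedekindDomain NumberField

namespace Pool.Agent.Lib.MP_fdb342_lc

/-- the finite places of `K` -/
abbrev Pl (K : Type) [Field K] [NumberField K] : Type := HeightOneSpectrum (𝓞 K)

variable {K : Type} [Field K] [NumberField K]

/-- the (additive) order of `x` at `v` -/
noncomputable def ordv (v : Pl K) (x : K) : ℤ := - WithZero.log (v.valuation K x)

lemma val_ne_zero (v : Pl K) {x : K} (hx : x ≠ 0) : v.valuation K x ≠ 0 :=
  (Valuation.ne_zero_iff _).2 hx

lemma ordv_mul (v : Pl K) {x y : K} (hx : x ≠ 0) (hy : y ≠ 0) :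
    ordv v (x * y) = ordv v x + ordv v y := by
  unfold ordv
  rw [map_mul, WithZero.log_mul (val_ne_zero v hx) (val_ne_zero v hy)]
  ring

@[simp] lemma ordv_one (v : Pl K) : ordv v (1 : K) = 0 := by
  unfold ordv; simp

lemma ordv_inv (v : Pl K) (x : K) : ordv v x⁻¹ = - ordv v x := by
  unfold ordv; rw [map_inv₀, WithZero.log_inv]

lemma ordv_pow (v : Pl K) (x : K) (n : ℕ) : ordv v (x ^ n) = n * ordv v x := by
  unfold ordv; rw [map_pow, WithZero.log_pow]; simp

lemma ordv_zpow (v : Pl K) (x : K) (n : ℤ) : ordv v (x ^ n) = n * ordv v x := by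
  unfold ordv; rw [map_zpow₀, WithZero.log_zpow]; simp

lemma val_eq_exp (v : Pl K) {x : K} (hx : x ≠ 0) :
    v.valuation K x = WithZero.exp (- ordv v x) := by
  unfold ordv; rw [neg_neg, WithZero.exp_log (val_ne_zero v hx)]

lemma val_eq_one_iff (v : Pl K) {x : K} (hx : x ≠ 0) : v.valuation K x = 1 ↔ ordv v x = 0 := by
  rw [val_eq_exp v hx, ← WithZero.exp_zero, WithZero.exp_inj]; omega

lemma val_le_iff (v : Pl K) {x y : K} (hx : x ≠ 0) (hy : y ≠ 0) :
    v.valuation K x ≤ v.valuation K y ↔ ordv v y ≤ ordv v x := by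
  rw [val_eq_exp v hx, val_eq_exp v hy, WithZero.exp_le_exp]; omega

lemma val_lt_iff (v : Pl K) {x y : K} (hx : x ≠ 0) (hy : y ≠ 0) :
    v.valuation K x < v.valuation K y ↔ ordv v y < ordv v x := by
  rw [val_eq_exp v hx, val_eq_exp v hy, WithZero.exp_lt_exp]; omega

/-- `x` is a cube in the completion at `v` (for `v` not above `3`; if `v` is above `3` this is
only a congruence condition): `x y ^ 3 ≡ 1` modulo `v` for some `y`. -/
def LCv (v : Pl K) : Subgroup Kˣ where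
  carrier := {x | ∃ y : Kˣ, v.valuation K (((x * y ^ 3 : Kˣ) : K) - 1) < 1}
  mul_mem' := by
    rintro a b ⟨y, hy⟩ ⟨z, hz⟩
    refine ⟨y * z, ?_⟩
    have e : ((a * b * (y * z) ^ 3 : Kˣ) : K) - 1 =
        (((a * y ^ 3 : Kˣ) : K) - 1) * (((b * z ^ 3 : Kˣ) : K) - 1) +
        (((a * y ^ 3 : Kˣ) : K) - 1) + (((b * z ^ 3 : Kˣ) : K) - 1) := by
      push_cast; ring
    rw [e]
    refine Valuation.map_add_lt _ (Valuation.map_add_lt _ ?_ hy) hz
    rw [map_mul]
    exact mul_lt_one_of_lt_of_le hy hz.le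
  one_mem' := ⟨1, by simp⟩
  inv_mem' := by
    rintro a ⟨y, hy⟩
    have h1 : v.valuation K ((a * y ^ 3 : Kˣ) : K) = 1 := by
      have := Valuation.map_one_add_of_lt (v := v.valuation K) hy
      rw [← this]; congr 1; ring
    refine ⟨y⁻¹, ?_⟩
    have e : ((a⁻¹ * y⁻¹ ^ 3 : Kˣ) : K) - 1 =
        - (((a * y ^ 3 : Kˣ) : K) - 1) * (((a * y ^ 3 : Kˣ) : K))⁻¹ := by
      push_cast
      have ha : (a : K) ≠ 0 := a.ne_zero
      have hy : (y : K) ≠ 0 := y.ne_zero
      field_simp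
      ring
    rw [e, map_mul, map_inv₀, h1, Valuation.map_neg]
    simpa using hy

/-- the places above `3` -/
def Above3 (v : Pl K) : Prop := v.valuation K (3 : K) < 1

variable (K) in
/-- `x y ^ 3 ≡ 1` modulo `9` at all places above `3`, for some `y`. -/
def L3 : Subgroup Kˣ where
  carrier := {x | ∃ y : Kˣ, ∀ v : Pl K, Above3 v →
    v.valuation K (((x * y ^ 3 : Kˣ) : K) - 1) ≤ v.valuation K (9 : K)}
  mul_mem' := by
    rintro a b ⟨y, hy⟩ ⟨z, hz⟩
    refine ⟨y * z, fun v hv => ?_⟩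
    have h9 : v.valuation K (9 : K) ≤ 1 := by
      have : (9 : K) = 3 * 3 := by norm_num
      rw [this, map_mul]
      exact mul_le_one' hv.le hv.le
    have e : ((a * b * (y * z) ^ 3 : Kˣ) : K) - 1 =
        (((a * y ^ 3 : Kˣ) : K) - 1) * (((b * z ^ 3 : Kˣ) : K) - 1) +
        (((a * y ^ 3 : Kˣ) : K) - 1) + (((b * z ^ 3 : Kˣ) : K) - 1) := by
      push_cast; ring
    rw [e]
    refine Valuation.map_add_le _ (Valuation.map_add_le _ ?_ (hy v hv)) (hz v hv)
    rw [map_mul]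
    exact (mul_le_mul' (hy v hv) ((hz v hv).trans h9)).trans (by simp)
  one_mem' := ⟨1, by simp⟩
  inv_mem' := by
    rintro a ⟨y, hy⟩
    refine ⟨y⁻¹, fun v hv => ?_⟩
    have h9 : v.valuation K (9 : K) < 1 := by
      have : (9 : K) = 3 * 3 := by norm_num
      rw [this, map_mul]
      exact mul_lt_one_of_lt_of_le hv hv.le
    have h1 : v.valuation K ((a * y ^ 3 : Kˣ) : K) = 1 := by
      have := Valuation.map_one_add_of_lt (v := v.valuation K) ((hy v hv).trans_lt h9)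
      rw [← this]; congr 1; ring
    have e : ((a⁻¹ * y⁻¹ ^ 3 : Kˣ) : K) - 1 =
        - (((a * y ^ 3 : Kˣ) : K) - 1) * (((a * y ^ 3 : Kˣ) : K))⁻¹ := by
      push_cast
      have ha : (a : K) ≠ 0 := a.ne_zero
      have hy : (y : K) ≠ 0 := y.ne_zero
      field_simp
      ring
    rw [e, map_mul, map_inv₀, h1, Valuation.map_neg]
    simpa using hy v hv

/-- the `S`-units -/
def SU (S : Finset (Pl K)) : Subgroup Kˣ where
  carrier := {x | ∀ v : Pl K, v ∉ S → v.valuation K (x : K) = 1}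
  mul_mem' := by
    intro a b ha hb v hv
    push_cast
    rw [map_mul, ha v hv, hb v hv, one_mul]
  one_mem' := by intro v _; simp
  inv_mem' := by
    intro a ha v hv
    push_cast
    rw [map_inv₀, ha v hv, inv_one]

/-- every prime outside of `S` is principal up to primes in `S` -/
def ClTriv (S : Finset (Pl K)) : Prop :=
  ∀ v : Pl K, v ∉ S → ∃ x : Kˣ, ordv v (x : K) = 1 ∧ ∀ w : Pl K, w ∉ S → w ≠ v → ordv w (x : K) = 0

/-- the tame symbol (modulo cubes) -/
noncomputable def tame (v : Pl K) (c d : Kˣ) : Kˣ :=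
  c ^ (ordv v (d : K)) * (d ^ (ordv v (c : K)))⁻¹

/-- the norm form of the cubic extension defined by `d` -/
def nf {R : Type} [CommRing R] (d x y z : R) : R :=
  x ^ 3 + d * y ^ 3 + d ^ 2 * z ^ 3 - 3 * d * x * y * z

/-- the subgroup of cubes -/
def Cubes (K : Type) [Field K] : Subgroup Kˣ := (powMonoidHom 3 : Kˣ →* Kˣ).range

/-- `E = K(α)` is a cubic Kummer extension of `K` with Galois group generated by `σ`. -/
structure Kum (K : Type) [Field K] [NumberField K] (ζ : K) (d : Kˣ) (E : Type) [Field E]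
    [NumberField E] [Algebra K E] (α : E) (σ : E ≃ₐ[K] E) : Prop where
  prim : IsPrimitiveRoot ζ 3
  gal : IsGalois K E
  deg : Module.finrank K E = 3
  pow : α ^ 3 = algebraMap K E (d : K)
  act : σ α = algebraMap K E ζ * α
  gen : ∀ τ : E ≃ₐ[K] E, ∃ i : ℕ, τ = σ ^ i

/-- the place of `K` below a place of `E` -/
noncomputable abbrev bel (K : Type) {E : Type} [Field K] [NumberField K] [Field E] [NumberField E]
    [Algebra K E] (P : Pl E) : Pl K := HeightOneSpectrum.under (𝓞 K) P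

end Pool.Agent.Lib.MP_fdb342_lc
end

section

/-!
# Places of an extension
-/

open IsDedekindDomain NumberField

namespace Pool.Agent.Lib.MP_fdb342_lc

variable {K : Type} [Field K] [NumberField K] {E : Type} [Field E] [NumberField E] [Algebra K E]


/-- the valuation of a place above is a positive power of the valuation below -/
theorem val_bel (P : Pl E) : ∃ e : ℕ, 0 < e ∧
    ∀ x : K, P.valuation E (algebraMap K E x) = (bel K P).valuation K x ^ e := by
  have hL : P.asIdeal.LiesOver (bel K P).asIdeal := ⟨rfl⟩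
  refine ⟨(bel K P).asIdeal.ramificationIdx' P.asIdeal, ?_, fun x => ?_⟩
  · exact Nat.pos_of_ne_zero
      (Ideal.IsDedekindDomain.ramificationIdx'_ne_zero_of_liesOver P.asIdeal (bel K P).ne_bot)
  · exact (HeightOneSpectrum.valuation_liesOver E (bel K P) P x).symm

theorem pl_ext {P Q : Pl E} (h : ∀ x : E, P.valuation E x = Q.valuation E x) : P = Q := by
  apply HeightOneSpectrum.ext
  ext x
  rw [← HeightOneSpectrum.valuation_lt_one_iff_mem (K := E),
    ← HeightOneSpectrum.valuation_lt_one_iff_mem (K := E), h]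

theorem exists_above (v : Pl K) : ∃ P : Pl E, bel K P = v := by
  have := v.isMaximal
  obtain ⟨Q, hQ, hQ2⟩ := Ideal.exists_maximal_ideal_liesOver_of_isIntegral (S := 𝓞 E) v.asIdeal
  refine ⟨⟨Q, hQ.isPrime, ?_⟩, ?_⟩
  · exact Ideal.ne_bot_of_liesOver_of_ne_bot v.ne_bot Q
  · apply HeightOneSpectrum.ext
    exact hQ2.over.symm

theorem finite_above (v : Pl K) : {P : Pl E | bel K P = v}.Finite := by
  have := v.isMaximal
  have h1 := IsDedekindDomain.primesOver_finite v.asIdeal (𝓞 E)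
  refine Set.Finite.of_finite_image (f := fun P : Pl E => P.asIdeal) (h1.subset ?_) ?_
  · rintro _ ⟨P, hP, rfl⟩
    have hP' : bel K P = v := hP
    subst hP'
    exact ⟨P.isPrime, ⟨rfl⟩⟩
  · intro P _ Q _ hPQ
    exact HeightOneSpectrum.ext hPQ

end Pool.Agent.Lib.MP_fdb342_lc
end

section

/-!
# Approximation
-/

open IsDedekindDomain NumberField

namespace Pool.Agent.Lib.MP_fdb342_lc

variable {K : Type} [Field K] [NumberField K]


/-- approximation at finitely many places -/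
theorem approx_add (T : Finset (Pl K)) (c : Pl K → K) (n : ℤ) :
    ∃ x : K, ∀ v ∈ T, v.valuation K (x - c v) < WithZero.exp (-n) := by
  classical
  obtain ⟨m, hm⟩ := IsLocalization.exist_integer_multiples (nonZeroDivisors (𝓞 K)) T c
  have hm0 : (algebraMap (𝓞 K) K (m : 𝓞 K)) ≠ 0 := by
    have := nonZeroDivisors.ne_zero m.2
    exact fun h => this (by simp at h)
  have hm' : ∀ v : T, ∃ a : 𝓞 K, algebraMap (𝓞 K) K a = algebraMap (𝓞 K) K (m : 𝓞 K) * c v := by
    intro v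
    obtain ⟨a, ha⟩ := hm v v.2
    refine ⟨a, ?_⟩
    rw [ha]
    exact Algebra.smul_def _ _
  choose a ha using hm'
  obtain ⟨y, hy⟩ := IsDedekindDomain.exists_forall_sub_mem_ideal (s := T)
    (fun v : Pl K => v.asIdeal)
    (fun v => (n + ordv v (algebraMap (𝓞 K) K (m : 𝓞 K)) + 1).toNat)
    (fun v _ => v.prime) (fun v _ w _ hvw h => hvw (HeightOneSpectrum.ext h)) a
  refine ⟨algebraMap (𝓞 K) K y / algebraMap (𝓞 K) K (m : 𝓞 K), fun v hv => ?_⟩
  have h1 := hy v hv
  rw [← v.intValuation_le_pow_iff_mem, ← v.valuation_of_algebraMap (K := K)] at h1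
  have h1' : (algebraMap (𝓞 K) K (y - a ⟨v, hv⟩)) =
      algebraMap (𝓞 K) K y - algebraMap (𝓞 K) K (m : 𝓞 K) * c v := by
    rw [map_sub, ha ⟨v, hv⟩]
  replace h1 : v.valuation K (algebraMap (𝓞 K) K (y - a ⟨v, hv⟩)) ≤
    WithZero.exp (-((n + ordv v (algebraMap (𝓞 K) K (m : 𝓞 K)) + 1).toNat : ℤ)) := h1
  rw [h1'] at h1
  have e : algebraMap (𝓞 K) K y / algebraMap (𝓞 K) K (m : 𝓞 K) - c v =
      (algebraMap (𝓞 K) K y - algebraMap (𝓞 K) K (m : 𝓞 K) * c v) *
        (algebraMap (𝓞 K) K (m : 𝓞 K))⁻¹ := by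
    field_simp
  rw [e, map_mul, map_inv₀, val_eq_exp v hm0, ← WithZero.exp_neg, neg_neg]
  refine lt_of_le_of_lt (mul_le_mul_left h1 _) ?_
  rw [← WithZero.exp_add, WithZero.exp_lt_exp]
  omega

theorem weak_approx (T : Finset (Pl K)) (c : Pl K → Kˣ) :
    ∃ x : Kˣ, ∀ v ∈ T, v.valuation K ((x : K) / (c v : K) - 1) < 1 := by
  classical
  rcases T.eq_empty_or_nonempty with rfl | ⟨v₀, hv₀⟩
  · exact ⟨1, by simp⟩
  obtain ⟨n, hn⟩ : ∃ n : ℤ, ∀ v ∈ T, ordv v (c v : K) ≤ n := by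
    obtain ⟨n, hn⟩ := (T.image (fun v => ordv v (c v : K))).exists_le
    exact ⟨n, fun v hv => hn _ (Finset.mem_image_of_mem _ hv)⟩
  obtain ⟨x, hx⟩ := approx_add T (fun v => (c v : K)) n
  have key : ∀ v ∈ T, v.valuation K (x / (c v : K) - 1) < 1 := by
    intro v hv
    have hc : (c v : K) ≠ 0 := (c v).ne_zero
    have e : x / (c v : K) - 1 = (x - c v) * (c v : K)⁻¹ := by field_simp
    rw [e, map_mul, map_inv₀, val_eq_exp v hc, ← WithZero.exp_neg, neg_neg]
    have h1 := hx v hv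
    have h2 : v.valuation K (x - c v) * WithZero.exp (ordv v (c v : K)) <
        WithZero.exp (-n) * WithZero.exp (ordv v (c v : K)) :=
      mul_lt_mul_of_pos_right h1 (WithZero.exp_pos)
    refine h2.trans_le ?_
    rw [← WithZero.exp_add, ← WithZero.exp_zero, WithZero.exp_le_exp]
    have := hn v hv
    omega
  have hx0 : x ≠ 0 := by
    rintro rfl
    have := key v₀ hv₀
    simp at this
  exact ⟨Units.mk0 x hx0, fun v hv => by simpa using key v hv⟩

theorem finite_ordv_ne (x : Kˣ) : {v : Pl K | ordv v (x : K) ≠ 0}.Finite := by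
  obtain ⟨a, b, hb, e⟩ := IsFractionRing.div_surjective (A := 𝓞 K) (x : K)
  have hb0 : b ≠ 0 := nonZeroDivisors.ne_zero hb
  have ha0 : a ≠ 0 := by
    rintro rfl
    exact x.ne_zero (by rw [← e]; simp)
  have hA : ∀ a : 𝓞 K, a ≠ 0 → {v : Pl K | v.asIdeal ∣ Ideal.span {a}}.Finite := fun a ha =>
    Ideal.finite_factors (by simpa [Ideal.span_singleton_eq_bot] using ha)
  refine ((hA a ha0).union (hA b hb0)).subset ?_
  intro v hv
  by_contra hcon
  have h1 : ¬ v.asIdeal ∣ Ideal.span {a} := fun h => hcon (Or.inl h)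
  have h2 : ¬ v.asIdeal ∣ Ideal.span {b} := fun h => hcon (Or.inr h)
  have h3 : ∀ a : 𝓞 K, a ≠ 0 → ¬ v.asIdeal ∣ Ideal.span {a} →
      ordv v (algebraMap (𝓞 K) K a) = 0 := by
    intro a ha h
    rw [← v.valuation_lt_one_iff_dvd (K := K)] at h
    have h4 := v.valuation_le_one (K := K) a
    have h5 := le_antisymm h4 (not_lt.1 h)
    exact (val_eq_one_iff v (by simpa using ha)).1 h5
  apply hv
  rw [← e, div_eq_mul_inv, ordv_mul v (by simpa using ha0) (inv_ne_zero (by simpa using hb0)),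
    ordv_inv, h3 a ha0 h1, h3 b hb0 h2]
  simp

theorem finite_above3 : {v : Pl K | Above3 v}.Finite := by
  refine (Ideal.finite_factors (I := Ideal.span {(3 : 𝓞 K)})
    (by simp)).subset ?_
  intro v hv
  have : v.valuation K (algebraMap (𝓞 K) K 3) < 1 := by
    have e : algebraMap (𝓞 K) K 3 = (3 : K) := map_ofNat _ 3
    rw [e]
    exact hv
  exact (v.valuation_lt_one_iff_dvd (K := K) 3).1 this

end Pool.Agent.Lib.MP_fdb342_lc
end

section

/-!
# The group of local cubes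
-/

open IsDedekindDomain NumberField

namespace Pool.Agent.Lib.MP_fdb342_lc

variable {K : Type} [Field K] [NumberField K]


theorem mem_LCv_of_near {v : Pl K} {x : Kˣ} (h : v.valuation K ((x : K) - 1) < 1) :
    x ∈ LCv v := ⟨1, by simpa using h⟩

theorem cube_mem_LCv (v : Pl K) (x : Kˣ) : x ^ 3 ∈ LCv v := by
  refine ⟨x⁻¹, ?_⟩
  have h : x ^ 3 * x⁻¹ ^ 3 = 1 := by rw [← mul_pow, mul_inv_cancel, one_pow]
  rw [h]
  simp

theorem zpow_mem_LCv (v : Pl K) (x : Kˣ) {n : ℤ} (hn : (3 : ℤ) ∣ n) : x ^ n ∈ LCv v := by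
  obtain ⟨m, rfl⟩ := hn
  have h : x ^ (3 * m) = (x ^ m) ^ 3 := by
    rw [mul_comm, zpow_mul]
    rfl
  rw [h]
  exact cube_mem_LCv v _

private theorem hn2_val_one {v : Pl K} {x : K} (h : v.valuation K (x - 1) < 1) :
    v.valuation K x = 1 := by
  have h1 := Valuation.map_one_add_of_lt (v := v.valuation K) h
  rw [← h1]
  congr 1
  ring

theorem ordv_of_mem_LCv {v : Pl K} {x : Kˣ} (h : x ∈ LCv v) : (3 : ℤ) ∣ ordv v (x : K) := by
  obtain ⟨y, hy⟩ := h
  have h1 := hn2_val_one hy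
  rw [val_eq_one_iff v (Units.ne_zero _)] at h1
  push_cast at h1
  rw [ordv_mul v x.ne_zero (pow_ne_zero _ y.ne_zero), ordv_pow] at h1
  exact ⟨- ordv v (y : K), by push_cast at h1; linarith⟩

/-- if `x / y` is close to `1` then `x` and `y` are in the same class -/
theorem mem_LCv_iff_of_near {v : Pl K} {x y : Kˣ}
    (h : v.valuation K ((x : K) / (y : K) - 1) < 1) :
    ordv v (x : K) = ordv v (y : K) ∧ (x ∈ LCv v ↔ y ∈ LCv v) := by
  have h1 := hn2_val_one h
  have h2 : ((x : K) / (y : K)) = ((x / y : Kˣ) : K) := by push_cast; rfl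
  have h3 : x / y ∈ LCv v := mem_LCv_of_near (by rw [← h2]; exact h)
  have h4 : x = x / y * y := by rw [div_mul_cancel]
  constructor
  · rw [h2, val_eq_one_iff v (Units.ne_zero _)] at h1
    have h5 : (x : K) = ((x / y : Kˣ) : K) * (y : K) := by
      rw [← Units.val_mul, div_mul_cancel]
    rw [h5, ordv_mul v (Units.ne_zero _) y.ne_zero, h1, zero_add]
  · constructor
    · intro hx
      have : y = (x / y)⁻¹ * x := by rw [inv_div, div_mul_cancel]
      rw [this]
      exact (LCv v).mul_mem ((LCv v).inv_mem h3) hx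
    · intro hy
      rw [h4]
      exact (LCv v).mul_mem h3 hy

private theorem hn2_ord_ne_zero {v : Pl K} {a : 𝓞 K}
    (ha : a ∉ v.asIdeal) : (algebraMap (𝓞 K) K a) ≠ 0 := by
  intro h
  rw [map_eq_zero_iff _ (FaithfulSMul.algebraMap_injective (𝓞 K) K)] at h
  rw [h] at ha
  exact ha v.asIdeal.zero_mem

/-- units modulo local cubes form a group of order three -/
theorem exists_nonresidue_unit {ζ : K} (hζ : IsPrimitiveRoot ζ 3) (v : Pl K) (hv : ¬ Above3 v) :
    ∃ g : Kˣ, ordv v (g : K) = 0 ∧ g ∉ LCv v ∧ ∀ u : Kˣ, ordv v (u : K) = 0 →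
      u ∈ LCv v ∨ g⁻¹ * u ∈ LCv v ∨ (g ^ 2)⁻¹ * u ∈ LCv v := by
  classical
  let _ : Field (𝓞 K ⧸ v.asIdeal) := Ideal.Quotient.field v.asIdeal
  have : Finite (𝓞 K ⧸ v.asIdeal) := Ring.HasFiniteQuotients.finiteQuotient v.ne_bot
  let _ : Fintype (𝓞 K ⧸ v.asIdeal) := Fintype.ofFinite _
  let q : 𝓞 K →+* 𝓞 K ⧸ v.asIdeal := Ideal.Quotient.mk v.asIdeal
  have hq : ∀ a b : 𝓞 K, q a = q b ↔
      v.valuation K (algebraMap (𝓞 K) K a - algebraMap (𝓞 K) K b) < 1 := by
    intro a b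
    rw [← map_sub, HeightOneSpectrum.valuation_lt_one_iff_mem]
    exact Ideal.Quotient.mk_eq_mk_iff_sub_mem a b
  have hq0 : ∀ a : 𝓞 K, q a = 0 ↔ v.valuation K (algebraMap (𝓞 K) K a) < 1 := by
    intro a
    have := hq a 0
    simpa using this
  have hle : ∀ a : 𝓞 K, v.valuation K (algebraMap (𝓞 K) K a) ≤ 1 :=
    fun a => HeightOneSpectrum.valuation_le_one v a
  have hq1 : ∀ a : 𝓞 K, q a ≠ 0 → v.valuation K (algebraMap (𝓞 K) K a) = 1 := by
    intro a ha
    rw [Ne, hq0, not_lt] at ha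
    exact le_antisymm (hle a) ha
  obtain ⟨γ, hγ⟩ := IsCyclic.exists_generator (α := (𝓞 K ⧸ v.asIdeal)ˣ)
  have hcard : orderOf γ = Nat.card (𝓞 K ⧸ v.asIdeal)ˣ := orderOf_eq_card_of_forall_mem_zpowers hγ
  -- the order of the group of units of the residue field is divisible by three
  have h3 : 3 ∣ Nat.card (𝓞 K ⧸ v.asIdeal)ˣ := by
    have hz0 : IsIntegral ℤ ζ := hζ.isIntegral (by norm_num)
    let z : 𝓞 K := ⟨ζ, hz0⟩
    have hz : algebraMap (𝓞 K) K z = ζ := rfl
    have hz3 : z ^ 3 = 1 := by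
      apply FaithfulSMul.algebraMap_injective (𝓞 K) K
      rw [map_pow, hz, hζ.pow_eq_one, map_one]
    have hne : q z ≠ 1 := by
      intro h
      have h1 : v.valuation K (ζ - 1) < 1 := by
        have := (hq z 1).1 (by rw [h, map_one])
        simpa [hz] using this
      apply hv
      have h2 : (3 : K) = (ζ - 1) * (-(ζ + 2)) := by
        have h4 : ζ ^ 2 + ζ + 1 = 0 := by
          have h5 : ζ ≠ 1 := hζ.ne_one (by norm_num)
          have h6 : (ζ - 1) * (ζ ^ 2 + ζ + 1) = 0 := by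
            have := hζ.pow_eq_one
            linear_combination this
          rcases mul_eq_zero.1 h6 with h7 | h7
          · exact absurd (sub_eq_zero.1 h7) h5
          · exact h7
        linear_combination h4
      have h3 : v.valuation K (-(ζ + 2)) ≤ 1 := by
        have : -(ζ + 2) = algebraMap (𝓞 K) K (-(z + 2)) := by
          rw [map_neg, map_add, hz, map_ofNat]
        rw [this]
        exact hle _
      show v.valuation K (3 : K) < 1
      rw [h2, map_mul]
      exact mul_lt_one_of_lt_of_le h1 h3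
    have hz' : q z ^ 3 = 1 := by rw [← map_pow, hz3, map_one]
    have hu : IsUnit (q z) := IsUnit.of_pow_eq_one hz' (by norm_num)
    obtain ⟨w, hw⟩ := hu
    have hw3 : w ^ 3 = 1 := by
      apply Units.ext
      push_cast
      rw [hw, hz']
    have hw1 : w ≠ 1 := by
      intro h
      apply hne
      rw [← hw, h]
      rfl
    have : orderOf w = 3 := orderOf_eq_prime hw3 hw1
    rw [← this]
    exact orderOf_dvd_natCard w
  obtain ⟨g0, hg0⟩ := Ideal.Quotient.mk_surjective (γ : 𝓞 K ⧸ v.asIdeal)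
  have hg0' : q g0 = (γ : 𝓞 K ⧸ v.asIdeal) := hg0
  have hg0ne : q g0 ≠ 0 := by rw [hg0']; exact γ.ne_zero
  have hvg0 : v.valuation K (algebraMap (𝓞 K) K g0) = 1 := hq1 g0 hg0ne
  have hg0K : algebraMap (𝓞 K) K g0 ≠ 0 := by
    intro h
    rw [h, map_zero] at hvg0
    exact zero_ne_one hvg0
  -- approximation of units by integers
  have happ : ∀ u : Kˣ, v.valuation K (u : K) = 1 →
      ∃ a : 𝓞 K, v.valuation K (algebraMap (𝓞 K) K a - u) < 1 ∧ q a ≠ 0 := by
    intro u hu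
    obtain ⟨a, ha⟩ := HeightOneSpectrum.exists_valuation_sub_lt_of_integer v (x := (u : K)) hu.le 1
    rw [Units.val_one] at ha
    refine ⟨a, ha, ?_⟩
    intro h
    rw [hq0] at h
    have h1 : v.valuation K (u : K) < 1 := by
      have e : (u : K) = algebraMap (𝓞 K) K a - (algebraMap (𝓞 K) K a - u) := by ring
      rw [e]
      exact Valuation.map_sub_lt _ h ha
    rw [hu] at h1
    exact lt_irrefl _ h1
  refine ⟨Units.mk0 _ hg0K, ?_, ?_, ?_⟩
  · rw [← val_eq_one_iff v (Units.ne_zero _)]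
    exact hvg0
  · rintro ⟨y, hy⟩
    push_cast at hy
    rw [Units.val_mk0] at hy
    have h1 := hn2_val_one hy
    rw [map_mul, hvg0, one_mul, map_pow] at h1
    have hvy : v.valuation K (y : K) = 1 := by
      rw [← map_pow, val_eq_one_iff v (pow_ne_zero 3 y.ne_zero), ordv_pow] at h1
      rw [val_eq_one_iff v y.ne_zero]
      push_cast at h1
      omega
    obtain ⟨b, hb, hb0⟩ := happ y hvy
    have h2 : q (g0 * b ^ 3) = q 1 := by
      rw [hq, map_mul, map_pow, map_one]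
      have e : algebraMap (𝓞 K) K g0 * algebraMap (𝓞 K) K b ^ 3 - 1 =
          (algebraMap (𝓞 K) K g0 * (y : K) ^ 3 - 1) +
          (algebraMap (𝓞 K) K b - y) * (algebraMap (𝓞 K) K g0 *
            (algebraMap (𝓞 K) K b ^ 2 + algebraMap (𝓞 K) K b * y + (y : K) ^ 2)) := by ring
      rw [e]
      refine Valuation.map_add_lt _ hy ?_
      rw [map_mul]
      refine mul_lt_one_of_lt_of_le hb ?_
      rw [map_mul, hvg0, one_mul]
      refine Valuation.map_add_le _ (Valuation.map_add_le _ ?_ ?_) ?_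
      · rw [map_pow]; exact pow_le_one' (hle b) 2
      · rw [map_mul, hvy, mul_one]; exact hle b
      · rw [map_pow, hvy, one_pow]
    rw [map_mul, map_pow, map_one, hg0'] at h2
    obtain ⟨w, hw⟩ : IsUnit (q b) := IsUnit.mk0 _ hb0
    have h3' : γ * w ^ 3 = 1 := by
      apply Units.ext
      push_cast
      rw [hw, h2]
    have h4 : γ = (w⁻¹) ^ 3 := by
      rw [inv_pow]
      exact eq_inv_of_mul_eq_one_left h3'
    obtain ⟨m, hm⟩ := h3
    have hmpos : 0 < m := by
      rcases Nat.eq_zero_or_pos m with h0 | h0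
      · rw [h0, mul_zero] at hm
        have : 0 < Nat.card (𝓞 K ⧸ v.asIdeal)ˣ := Nat.card_pos
        omega
      · exact h0
    have h5 : γ ^ m = 1 := by
      rw [h4, ← pow_mul, ← hm, pow_card_eq_one']
    have h6 : orderOf γ ∣ m := orderOf_dvd_of_pow_eq_one h5
    rw [hcard, hm] at h6
    have := Nat.le_of_dvd hmpos h6
    omega
  · intro u hu
    rw [← val_eq_one_iff v u.ne_zero] at hu
    obtain ⟨a, ha, ha0⟩ := happ u hu
    obtain ⟨w, hw⟩ : IsUnit (q a) := IsUnit.mk0 _ ha0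
    obtain ⟨n, hn⟩ : ∃ n : ℕ, γ ^ n = w := by
      have := hγ w
      rw [← mem_powers_iff_mem_zpowers] at this
      exact this
    have h1 : q a = q (g0 ^ n) := by
      rw [map_pow, hg0', ← hw, ← hn]
      push_cast
      rfl
    rw [hq, map_pow] at h1
    have h2 : v.valuation K ((u : K) - algebraMap (𝓞 K) K g0 ^ n) < 1 := by
      have e : (u : K) - algebraMap (𝓞 K) K g0 ^ n =
          (algebraMap (𝓞 K) K a - algebraMap (𝓞 K) K g0 ^ n) - (algebraMap (𝓞 K) K a - u) := by ring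
      rw [e]
      exact Valuation.map_sub_lt _ h1 ha
    -- the general step
    have h3 : ∀ i m : ℕ, n = i + 3 * m → ((Units.mk0 _ hg0K : Kˣ) ^ i)⁻¹ * u ∈ LCv v := by
      intro i m hnm
      refine ⟨((Units.mk0 _ hg0K : Kˣ) ^ m)⁻¹, ?_⟩
      push_cast
      rw [Units.val_mk0]
      have e : (algebraMap (𝓞 K) K g0 ^ i)⁻¹ * (u : K) * ((algebraMap (𝓞 K) K g0 ^ m)⁻¹) ^ 3 - 1 =
          (algebraMap (𝓞 K) K g0 ^ n)⁻¹ * ((u : K) - algebraMap (𝓞 K) K g0 ^ n) := by
        rw [hnm, pow_add, pow_mul']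
        have h7 : algebraMap (𝓞 K) K g0 ^ i ≠ 0 := pow_ne_zero _ hg0K
        have h8 : algebraMap (𝓞 K) K g0 ^ m ≠ 0 := pow_ne_zero _ hg0K
        field_simp
      rw [e, map_mul, map_inv₀, map_pow, hvg0, one_pow, inv_one, one_mul]
      exact h2
    have h4 : n = n % 3 + 3 * (n / 3) := (Nat.mod_add_div n 3).symm
    have h5 : n % 3 < 3 := Nat.mod_lt _ (by norm_num)
    interval_cases hr : n % 3
    · left
      have := h3 0 (n / 3) h4
      simpa using this
    · right; left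
      have := h3 1 (n / 3) h4
      simpa using this
    · right; right
      exact h3 2 (n / 3) h4

theorem LCv_index {ζ : K} (hζ : IsPrimitiveRoot ζ 3) (v : Pl K) (hv : ¬ Above3 v) :
    (LCv v).index = 9 := by
  obtain ⟨g, hg0, hg, hgu⟩ := exists_nonresidue_unit hζ v hv
  obtain ⟨π, hπ⟩ := v.valuation_exists_uniformizer K
  have hπ0 : π ≠ 0 := by
    rintro rfl
    rw [map_zero] at hπ
    exact WithZero.exp_ne_zero hπ.symm
  have hπord : ordv v ((Units.mk0 π hπ0 : Kˣ) : K) = 1 := by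
    rw [Units.val_mk0]
    unfold ordv
    rw [hπ, WithZero.log_exp]
    norm_num
  set ϖ : Kˣ := Units.mk0 π hπ0 with hϖ
  have hg2 : g ^ 2 ∉ LCv v := by
    intro h
    apply hg
    have e : g = g ^ 3 * (g ^ 2)⁻¹ := by group
    rw [e]
    exact (LCv v).mul_mem (cube_mem_LCv v g) ((LCv v).inv_mem h)
  let f : Fin 3 × Fin 3 → Kˣ ⧸ LCv v := fun x => QuotientGroup.mk (ϖ ^ (x.1 : ℕ) * g ^ (x.2 : ℕ))
  have hf : Function.Bijective f := by
    constructor
    · rintro ⟨i, j⟩ ⟨i', j'⟩ h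
      have h1 : (ϖ ^ (i : ℕ) * g ^ (j : ℕ))⁻¹ * (ϖ ^ (i' : ℕ) * g ^ (j' : ℕ)) ∈ LCv v :=
        QuotientGroup.eq.1 h
      have h2 := ordv_of_mem_LCv h1
      have h3 : ordv v (((ϖ ^ (i : ℕ) * g ^ (j : ℕ))⁻¹ * (ϖ ^ (i' : ℕ) * g ^ (j' : ℕ)) : Kˣ) : K)
          = (i' : ℤ) - (i : ℤ) := by
        push_cast
        rw [ordv_mul v (inv_ne_zero (mul_ne_zero (pow_ne_zero _ ϖ.ne_zero)
          (pow_ne_zero _ g.ne_zero))) (mul_ne_zero (pow_ne_zero _ ϖ.ne_zero)
          (pow_ne_zero _ g.ne_zero)), ordv_inv, ordv_mul v (pow_ne_zero _ ϖ.ne_zero)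
          (pow_ne_zero _ g.ne_zero), ordv_mul v (pow_ne_zero _ ϖ.ne_zero)
          (pow_ne_zero _ g.ne_zero), ordv_pow, ordv_pow, ordv_pow, ordv_pow, hg0, hπord]
        ring
      rw [h3] at h2
      have hi : i = i' := by
        apply Fin.ext
        have := i.2
        have := i'.2
        omega
      subst hi
      have h4 : (ϖ ^ (i : ℕ) * g ^ (j : ℕ))⁻¹ * (ϖ ^ (i : ℕ) * g ^ (j' : ℕ)) =
          (g ^ (j : ℕ))⁻¹ * g ^ (j' : ℕ) := by group
      rw [h4] at h1
      have hj : j = j' := by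
        fin_cases j <;> fin_cases j'
        · rfl
        · exact absurd (by simpa using h1) hg
        · exact absurd (by simpa using h1) hg2
        · exact absurd (by simpa using h1) hg
        · rfl
        · exfalso
          apply hg
          have e : ((g ^ ((1 : Fin 3) : ℕ))⁻¹ * g ^ ((2 : Fin 3) : ℕ)) = g := by
            show (g ^ 1)⁻¹ * g ^ 2 = g
            group
          have h5 : (g ^ ((1 : Fin 3) : ℕ))⁻¹ * g ^ ((2 : Fin 3) : ℕ) ∈ LCv v := h1
          rwa [e] at h5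
        · exact absurd (by simpa using h1) hg2
        · exfalso
          apply hg
          have e : ((g ^ ((2 : Fin 3) : ℕ))⁻¹ * g ^ ((1 : Fin 3) : ℕ)) = g⁻¹ := by
            show (g ^ 2)⁻¹ * g ^ 1 = g⁻¹
            group
          have h5 : (g ^ ((2 : Fin 3) : ℕ))⁻¹ * g ^ ((1 : Fin 3) : ℕ) ∈ LCv v := h1
          rw [e] at h5
          exact (LCv v).inv_mem_iff.1 h5
        · rfl
      rw [hj]
    · intro x
      obtain ⟨x, rfl⟩ := QuotientGroup.mk_surjective x
      -- the order of `x`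
      have hlt : (ordv v (x : K)) % 3 < 3 := Int.emod_lt_of_pos _ (by norm_num)
      have hge : 0 ≤ (ordv v (x : K)) % 3 := Int.emod_nonneg _ (by norm_num)
      obtain ⟨i, hi⟩ : ∃ i : Fin 3, ((i : ℕ) : ℤ) = (ordv v (x : K)) % 3 :=
        ⟨⟨((ordv v (x : K)) % 3).toNat, by omega⟩, by simp [hge]⟩
      have hdiv : ordv v (x : K) = 3 * (ordv v (x : K) / 3) + (i : ℕ) := by
        rw [hi]
        exact (Int.mul_ediv_add_emod _ _).symm
      set n := ordv v (x : K) / 3 with hn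
      have hu : ordv v (((ϖ ^ (3 * n) * ϖ ^ (i : ℕ))⁻¹ * x : Kˣ) : K) = 0 := by
        push_cast
        rw [ordv_mul v (inv_ne_zero (mul_ne_zero (zpow_ne_zero _ ϖ.ne_zero)
          (pow_ne_zero _ ϖ.ne_zero))) x.ne_zero, ordv_inv, ordv_mul v (zpow_ne_zero _ ϖ.ne_zero)
          (pow_ne_zero _ ϖ.ne_zero), ordv_zpow, ordv_pow, hπord, hdiv]
        ring
      have hcube : ϖ ^ (3 * n) ∈ LCv v := zpow_mem_LCv v ϖ ⟨n, rfl⟩
      rcases hgu _ hu with h | h | h
      · refine ⟨(i, 0), QuotientGroup.eq.2 ?_⟩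
        have e : (ϖ ^ (i : ℕ) * g ^ ((0 : Fin 3) : ℕ))⁻¹ * x =
            ϖ ^ (3 * n) * ((ϖ ^ (3 * n) * ϖ ^ (i : ℕ))⁻¹ * x) := by
          show (ϖ ^ (i : ℕ) * g ^ 0)⁻¹ * x = _
          apply Units.ext
          push_cast
          have h7 := ϖ.ne_zero
          have h8 := g.ne_zero
          field_simp
        show (ϖ ^ (i : ℕ) * g ^ ((0 : Fin 3) : ℕ))⁻¹ * x ∈ LCv v
        rw [e]
        exact (LCv v).mul_mem hcube h
      · refine ⟨(i, 1), QuotientGroup.eq.2 ?_⟩
        have e : (ϖ ^ (i : ℕ) * g ^ ((1 : Fin 3) : ℕ))⁻¹ * x =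
            ϖ ^ (3 * n) * (g⁻¹ * ((ϖ ^ (3 * n) * ϖ ^ (i : ℕ))⁻¹ * x)) := by
          show (ϖ ^ (i : ℕ) * g ^ 1)⁻¹ * x = _
          apply Units.ext
          push_cast
          have h7 := ϖ.ne_zero
          have h8 := g.ne_zero
          field_simp
        show (ϖ ^ (i : ℕ) * g ^ ((1 : Fin 3) : ℕ))⁻¹ * x ∈ LCv v
        rw [e]
        exact (LCv v).mul_mem hcube h
      · refine ⟨(i, 2), QuotientGroup.eq.2 ?_⟩
        have e : (ϖ ^ (i : ℕ) * g ^ ((2 : Fin 3) : ℕ))⁻¹ * x =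
            ϖ ^ (3 * n) * ((g ^ 2)⁻¹ * ((ϖ ^ (3 * n) * ϖ ^ (i : ℕ))⁻¹ * x)) := by
          show (ϖ ^ (i : ℕ) * g ^ 2)⁻¹ * x = _
          apply Units.ext
          push_cast
          have h7 := ϖ.ne_zero
          have h8 := g.ne_zero
          field_simp
        show (ϖ ^ (i : ℕ) * g ^ ((2 : Fin 3) : ℕ))⁻¹ * x ∈ LCv v
        rw [e]
        exact (LCv v).mul_mem hcube h
  rw [Subgroup.index, ← Nat.card_congr (Equiv.ofBijective f hf)]
  simp

end Pool.Agent.Lib.MP_fdb342_lc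
end

section

/-!
# The tame symbol
-/

open IsDedekindDomain NumberField

namespace Pool.Agent.Lib.MP_fdb342_lc

variable {K : Type} [Field K] [NumberField K]


theorem tame_mul_left (v : Pl K) (c c' d : Kˣ) :
    tame v (c * c') d = tame v c d * tame v c' d := by
  unfold tame
  have h : ordv v ((c * c' : Kˣ) : K) = ordv v (c : K) + ordv v (c' : K) := by
    rw [Units.val_mul, ordv_mul v c.ne_zero c'.ne_zero]
  rw [h, mul_zpow, zpow_add, mul_inv, mul_mul_mul_comm]

theorem tame_mul_right (v : Pl K) (c d d' : Kˣ) :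
    tame v c (d * d') = tame v c d * tame v c d' := by
  unfold tame
  have h : ordv v ((d * d' : Kˣ) : K) = ordv v (d : K) + ordv v (d' : K) := by
    rw [Units.val_mul, ordv_mul v d.ne_zero d'.ne_zero]
  rw [h, mul_zpow, zpow_add, mul_inv, mul_mul_mul_comm]

theorem ordv_tame (v : Pl K) (c d : Kˣ) : ordv v (tame v c d : K) = 0 := by
  unfold tame
  rw [Units.val_mul, ordv_mul v (Units.ne_zero _) (Units.ne_zero _), Units.val_inv_eq_inv_val,
    ordv_inv, Units.val_zpow_eq_zpow_val, Units.val_zpow_eq_zpow_val, ordv_zpow, ordv_zpow]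
  ring

theorem tame_mem_of_left {v : Pl K} {c d : Kˣ} (h : c ∈ LCv v) : tame v c d ∈ LCv v :=
  mul_mem (Subgroup.zpow_mem _ h _) (inv_mem (zpow_mem_LCv v d (ordv_of_mem_LCv h)))

theorem tame_mem_of_right {v : Pl K} {c d : Kˣ} (h : d ∈ LCv v) : tame v c d ∈ LCv v :=
  mul_mem (zpow_mem_LCv v c (ordv_of_mem_LCv h)) (inv_mem (Subgroup.zpow_mem _ h _))

/-- the elements whose tame symbol with `d` is trivial -/
noncomputable def TK (v : Pl K) (d : Kˣ) : Subgroup Kˣ where
  carrier := {c | tame v c d ∈ LCv v}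
  mul_mem' := by
    intro a b ha hb
    show tame v (a * b) d ∈ LCv v
    rw [tame_mul_left]
    exact mul_mem ha hb
  one_mem' := tame_mem_of_left (one_mem _)
  inv_mem' := by
    intro a ha
    show tame v a⁻¹ d ∈ LCv v
    have h := tame_mul_left v a a⁻¹ d
    rw [mul_inv_cancel] at h
    have h1 : tame v 1 d ∈ LCv v := tame_mem_of_left (one_mem _)
    have h2 : tame v a⁻¹ d = (tame v a d)⁻¹ * tame v 1 d := by rw [h]; group
    rw [h2]
    exact mul_mem (inv_mem ha) h1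

theorem mem_TK {v : Pl K} {c d : Kˣ} : c ∈ TK v d ↔ tame v c d ∈ LCv v := Iff.rfl

theorem TK_index {ζ : K} (hζ : IsPrimitiveRoot ζ 3) {v : Pl K} (hv : ¬ Above3 v) {d : Kˣ}
    (hd : d ∉ LCv v) : (TK v d).index = 3 := by
  obtain ⟨g, hg0, hgn, hg⟩ := exists_nonresidue_unit hζ v hv
  -- a nontrivial value
  have hex : ∃ c : Kˣ, tame v c d ∉ LCv v := by
    by_cases h3 : (3 : ℤ) ∣ ordv v (d : K)
    · obtain ⟨π, hπ⟩ := v.valuation_exists_uniformizer K
      have hπ0 : π ≠ 0 := by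
        rintro rfl
        rw [map_zero] at hπ
        exact absurd hπ (WithZero.coe_ne_zero).symm
      have hπ1 : ordv v π = 1 := by
        unfold ordv
        rw [hπ]
        simp
      refine ⟨Units.mk0 π hπ0, fun hmem => hd ?_⟩
      have h1 : tame v (Units.mk0 π hπ0) d = (Units.mk0 π hπ0) ^ (ordv v (d : K)) * d⁻¹ := by
        unfold tame
        rw [Units.val_mk0, hπ1, zpow_one]
      rw [h1] at hmem
      have h2 := zpow_mem_LCv v (Units.mk0 π hπ0) h3
      have h3 := mul_mem (inv_mem h2) hmem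
      rw [inv_mul_cancel_left] at h3
      exact (inv_mem_iff (H := LCv v)).1 h3
    · refine ⟨g, fun hmem => hgn ?_⟩
      have h1 : tame v g d = g ^ (ordv v (d : K)) := by
        unfold tame
        rw [hg0, zpow_zero, inv_one, mul_one]
      rw [h1] at hmem
      have hcop : IsCoprime (3 : ℤ) (ordv v (d : K)) :=
        (Int.prime_three.coprime_iff_not_dvd).2 h3
      obtain ⟨a, b, hab⟩ := hcop
      have h4 : g = (g ^ (3 : ℤ)) ^ a * (g ^ (ordv v (d : K))) ^ b := by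
        rw [← zpow_mul, ← zpow_mul, ← zpow_add]
        have : 3 * a + ordv v (d : K) * b = 1 := by linarith
        rw [this, zpow_one]
      rw [h4]
      exact mul_mem (Subgroup.zpow_mem _ (zpow_mem_LCv v g (dvd_refl 3)) a)
        (Subgroup.zpow_mem _ hmem b)
  let φ : Kˣ →* Kˣ ⧸ LCv v :=
    { toFun := fun c => (tame v c d : Kˣ ⧸ LCv v)
      map_one' := by
        have : tame v 1 d = 1 := by
          unfold tame
          rw [Units.val_one, ordv_one, zpow_zero, one_zpow, inv_one, mul_one]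
        rw [this]; rfl
      map_mul' := fun a b => by rw [tame_mul_left]; rfl }
  have hker : φ.ker = TK v d := by
    ext c
    rw [MonoidHom.mem_ker, mem_TK]
    exact QuotientGroup.eq_one_iff _
  rw [← hker, Subgroup.index_ker]
  have hgo : orderOf ((g : Kˣ) : Kˣ ⧸ LCv v) = 3 := by
    have : Fact (Nat.Prime 3) := ⟨Nat.prime_three⟩
    refine orderOf_eq_prime ?_ ?_
    · rw [← QuotientGroup.mk_pow]
      exact (QuotientGroup.eq_one_iff _).2 (cube_mem_LCv v g)
    · intro h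
      exact hgn ((QuotientGroup.eq_one_iff _).1 h)
  have hle : φ.range ≤ Subgroup.zpowers ((g : Kˣ) : Kˣ ⧸ LCv v) := by
    rintro _ ⟨c, rfl⟩
    rcases hg (tame v c d) (ordv_tame v c d) with h | h | h
    · have : φ c = 1 := (QuotientGroup.eq_one_iff _).2 h
      rw [this]; exact one_mem _
    · have : φ c = ((g : Kˣ) : Kˣ ⧸ LCv v) := (QuotientGroup.eq.2 h).symm
      rw [this]; exact Subgroup.mem_zpowers _
    · have : φ c = ((g : Kˣ) : Kˣ ⧸ LCv v) ^ 2 := by
        rw [← QuotientGroup.mk_pow]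
        exact (QuotientGroup.eq.2 h).symm
      rw [this]; exact Subgroup.pow_mem _ (Subgroup.mem_zpowers _) 2
  have hdvd : Nat.card φ.range ∣ 3 := by
    have := Subgroup.card_dvd_of_le hle
    rwa [Nat.card_zpowers, hgo] at this
  rcases (Nat.dvd_prime Nat.prime_three).1 hdvd with h1 | h1
  · exfalso
    obtain ⟨c, hc⟩ := hex
    have hbot : φ.range = ⊥ := Subgroup.eq_bot_of_card_eq _ h1
    have : φ c ∈ (⊥ : Subgroup (Kˣ ⧸ LCv v)) := hbot ▸ ⟨c, rfl⟩
    rw [Subgroup.mem_bot] at this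
    exact hc ((QuotientGroup.eq_one_iff _).1 this)
  · exact h1

end Pool.Agent.Lib.MP_fdb342_lc
end

section

/-!
# Integrality outside of `3`
-/

open IsDedekindDomain NumberField

namespace Pool.Agent.Lib.MP_fdb342_lc

private theorem f3a_val_le_one {K : Type} [Field K] [NumberField K] (v : Pl K) {y : K}
    (h : IsIntegral ℤ y) : v.valuation K y ≤ 1 :=
  HeightOneSpectrum.valuation_le_one v (⟨y, h⟩ : 𝓞 K)

private theorem f3a_val_int {K : Type} [Field K] [NumberField K] (v : Pl K) (n : ℤ) :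
    v.valuation K (n : K) ≤ 1 := by
  refine f3a_val_le_one v ?_
  have h := isIntegral_algebraMap (R := ℤ) (A := K) (x := n)
  simpa using h

theorem mem_RR_of_val {K : IntermediateField ℚ ℂ} [NumberField K] (hK : Good K) (x : K)
    (h : ∀ v : Pl K, ¬ Above3 v → v.valuation K x ≤ 1) : (x : ℂ) ∈ RR 3 := by
  refine ⟨hK.le_Omega x.2, ?_⟩
  obtain ⟨n, hn0, hn⟩ : ∃ n : ℤ, n ≠ 0 ∧ IsIntegral ℤ ((n : K) * x) := by
    have halg : IsAlgebraic ℤ x := by
      rw [IsFractionRing.isAlgebraic_iff ℤ ℚ K]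
      exact Algebra.IsAlgebraic.isAlgebraic x
    obtain ⟨y, hy0, hy⟩ := halg.exists_integral_multiple
    exact ⟨y, hy0, by rw [← zsmul_eq_mul]; exact hy⟩
  obtain ⟨k, m, hm, hnm⟩ : ∃ (k : ℕ) (m : ℤ), ¬ (3 : ℤ) ∣ m ∧ n = 3 ^ k * m := by
    have hfin : FiniteMultiplicity (3 : ℤ) n := by
      rw [Int.finiteMultiplicity_iff]
      exact ⟨by norm_num, hn0⟩
    obtain ⟨m, hm1, hm2⟩ := hfin.exists_eq_pow_mul_and_not_dvd
    exact ⟨_, m, hm2, hm1⟩
  refine ⟨k, ?_⟩
  have key : IsIntegral ℤ ((3 : K) ^ k * x) := by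
    have hmem : ∀ v : Pl K, v.valuation K ((3 : K) ^ k * x) ≤ 1 := by
      intro v
      by_cases hv : Above3 v
      · have hcop : IsCoprime m (3 : ℤ) := by
          refine ((Int.prime_three.coprime_iff_not_dvd).2 hm).symm
        obtain ⟨a, b, hab⟩ := hcop
        have hv3 : v.valuation K (3 : K) < 1 := hv
        have hmv : v.valuation K (m : K) = 1 := by
          refine le_antisymm (f3a_val_int v m) ?_
          by_contra hlt
          rw [not_le] at hlt
          have h1 : (1 : K) = (a : K) * (m : K) + (b : K) * 3 := by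
            have := congrArg (Int.cast : ℤ → K) hab
            push_cast at this
            exact this.symm
          have h2 : v.valuation K (1 : K) < 1 := by
            rw [h1]
            refine Valuation.map_add_lt _ ?_ ?_
            · rw [map_mul, mul_comm]
              exact mul_lt_one_of_lt_of_le hlt (f3a_val_int v a)
            · rw [map_mul, mul_comm]
              exact mul_lt_one_of_lt_of_le hv3 (f3a_val_int v b)
          rw [map_one] at h2
          exact lt_irrefl _ h2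
        have h3 : v.valuation K ((3 : K) ^ k * x) = v.valuation K ((n : K) * x) := by
          rw [hnm]
          push_cast
          rw [map_mul, map_mul, map_mul, hmv, mul_one]
        rw [h3]
        exact f3a_val_le_one v hn
      · rw [map_mul]
        refine mul_le_one' ?_ (h v hv)
        rw [map_pow]
        refine pow_le_one' ?_ k
        have := f3a_val_int v 3
        simpa using this
    obtain ⟨y, hy⟩ := HeightOneSpectrum.mem_integers_of_valuation_le_one K _ hmem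
    rw [← hy]
    exact y.2
  have h1 : IsIntegral ℤ (algebraMap K ℂ ((3 : K) ^ k * x)) := key.map (algebraMap K ℂ).toIntAlgHom
  rw [map_mul, map_pow] at h1
  have h3 : algebraMap K ℂ 3 = 3 := map_ofNat _ 3
  rw [h3] at h1
  exact h1

theorem val_of_mem_RR {K : IntermediateField ℚ ℂ} [NumberField K] (x : K)
    (h : (x : ℂ) ∈ RR 3) (v : Pl K) (hv : ¬ Above3 v) : v.valuation K x ≤ 1 := by
  obtain ⟨-, k, hk⟩ := h
  have h3 : algebraMap K ℂ 3 = 3 := map_ofNat _ 3
  have h1 : IsIntegral ℤ (algebraMap K ℂ ((3 : K) ^ k * x)) := by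
    rw [map_mul, map_pow, h3]
    exact hk
  have h2 : IsIntegral ℤ ((3 : K) ^ k * x) :=
    (isIntegral_algebraMap_iff (algebraMap K ℂ).injective).1 h1
  have h4 := f3a_val_le_one v h2
  have h5 : v.valuation K (3 : K) = 1 := by
    have h6 : v.valuation K (3 : K) ≤ 1 := by
      have := f3a_val_int v 3
      simpa using this
    exact le_antisymm h6 (not_lt.1 hv)
  rwa [map_mul, map_pow, h5, one_pow, one_mul] at h4

end Pool.Agent.Lib.MP_fdb342_lc
end

section

/-!
# The first-order definition of `RR 3` in `Omega`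
-/

namespace Pool.Agent.Lib.MP_fdb342_lc

/-- multiplication in `A_f = R[X] / (X ^ 3 - x X ^ 2 + t X - 1)`, in the basis `1, X, X ^ 2` -/
def mulA {R : Type} [CommRing R] (x t : R) (u v : R × R × R) : R × R × R :=
  (u.1 * v.1 + (u.2.1 * v.2.2 + u.2.2 * v.2.1) + x * (u.2.2 * v.2.2),
   u.1 * v.2.1 + u.2.1 * v.1 - t * (u.2.1 * v.2.2 + u.2.2 * v.2.1) +
     (1 - x * t) * (u.2.2 * v.2.2),
   u.1 * v.2.2 + u.2.1 * v.2.1 + u.2.2 * v.1 + x * (u.2.1 * v.2.2 + u.2.2 * v.2.1) +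
     (x ^ 2 - t) * (u.2.2 * v.2.2))

/-- scalar multiplication -/
def smA {R : Type} [CommRing R] (a : R) (u : R × R × R) : R × R × R :=
  (a * u.1, a * u.2.1, a * u.2.2)

/-- addition -/
def addA {R : Type} [CommRing R] (u v : R × R × R) : R × R × R :=
  (u.1 + v.1, u.2.1 + v.2.1, u.2.2 + v.2.2)

/-- the norm form `u ^ 3 + a v ^ 3 + a ^ 2 w ^ 3 - 3 a u v w` in `A_f` -/
def nfA {R : Type} [CommRing R] (x t a : R) (u v w : R × R × R) : R × R × R :=
  addA (mulA x t u (mulA x t u u)) (addA (smA a (mulA x t v (mulA x t v v)))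
    (addA (smA (a ^ 2) (mulA x t w (mulA x t w w))) (smA (-3 * a) (mulA x t u (mulA x t v w)))))

/-- the value of `p + q X + r X ^ 2` at `θ` -/
def ev {R : Type} [CommRing R] (θ : R) (u : R × R × R) : R := u.1 + u.2.1 * θ + u.2.2 * θ ^ 2

lemma ev_mulA {R : Type} [CommRing R] {x t θ : R} (h : θ ^ 3 = x * θ ^ 2 - t * θ + 1)
    (u v : R × R × R) : ev θ (mulA x t u v) = ev θ u * ev θ v := by
  simp only [ev, mulA]
  linear_combination (-(u.2.1 * v.2.2 + u.2.2 * v.2.1) - (u.2.2 * v.2.2) * (θ + x)) * h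

lemma ev_nfA {R : Type} [CommRing R] {x t θ : R} (h : θ ^ 3 = x * θ ^ 2 - t * θ + 1)
    (a : R) (u v w : R × R × R) : ev θ (nfA x t a u v w) = nf a (ev θ u) (ev θ v) (ev θ w) := by
  have hadd : ∀ u v : R × R × R, ev θ (addA u v) = ev θ u + ev θ v := by
    intro u v; simp only [ev, addA]; ring
  have hsm : ∀ (a : R) (u : R × R × R), ev θ (smA a u) = a * ev θ u := by
    intro a u; simp only [ev, smA]; ring
  simp only [nfA, hadd, hsm, ev_mulA h, nf]
  ring

/-- `b` is a value of the norm form of `a` in `A_f`, with coefficients in `Omega` -/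
def Spl (x t a b : ℂ) : Prop :=
  ∃ p₀ ∈ Omega, ∃ q₀ ∈ Omega, ∃ r₀ ∈ Omega, ∃ p₁ ∈ Omega, ∃ q₁ ∈ Omega, ∃ r₁ ∈ Omega,
    ∃ p₂ ∈ Omega, ∃ q₂ ∈ Omega, ∃ r₂ ∈ Omega,
      nfA x t a (p₀, q₀, r₀) (p₁, q₁, r₁) (p₂, q₂, r₂) = (b, 0, 0)

/-- the first-order definition of `RR 3` in `Omega` -/
def QQ (x : ℂ) : Prop :=
  x ∈ Omega ∧ ∀ β ∈ Omega, ∀ a ∈ Omega, ∀ b ∈ Omega, b ≠ 0 →
    (a * (1 + 3 * β ^ 3) = 10 + 3 * β ^ 3 ∨ a * (1 + 3 * β ^ 3) = 19 + 3 * β ^ 3) →
    ∃ t ∈ Omega, Spl x t a b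

end Pool.Agent.Lib.MP_fdb342_lc
end

section

/-!
# Irreducible cubic polynomials modulo a place
-/

open IsDedekindDomain NumberField

namespace Pool.Agent.Lib.MP_fdb342_lc

variable {K : Type} [Field K] [NumberField K]

private theorem f4a_field {k : Type*} [Field k] [Finite k] (x : k) :
    ∃ t : k, ∀ y : k, y ^ 3 - x * y ^ 2 + t * y - 1 ≠ 0 := by
  classical
  let _ : Fintype k := Fintype.ofFinite k
  let g : kˣ → k := fun y => (1 + x * (y : k) ^ 2 - (y : k) ^ 3) / (y : k)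
  have hns : ¬ Function.Surjective g := by
    intro h
    have h1 := Fintype.card_le_of_surjective g h
    have h2 : Fintype.card kˣ = Fintype.card k - 1 := Fintype.card_units k
    have h3 : 0 < Fintype.card k := Fintype.card_pos
    omega
  obtain ⟨t, ht⟩ := not_forall.1 hns
  refine ⟨t, fun y hy => ?_⟩
  have hy0 : y ≠ 0 := by
    rintro rfl
    simp at hy
  refine ht ⟨Units.mk0 y hy0, ?_⟩
  show (1 + x * ((Units.mk0 y hy0 : kˣ) : k) ^ 2 - ((Units.mk0 y hy0 : kˣ) : k) ^ 3) /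
    ((Units.mk0 y hy0 : kˣ) : k) = t
  rw [Units.val_mk0, div_eq_iff hy0]
  linear_combination -hy

theorem exists_t (v : Pl K) {x : K} (hx : v.valuation K x ≤ 1) :
    ∃ t₀ : K, v.valuation K t₀ ≤ 1 ∧ ∀ t : K, v.valuation K (t - t₀) < 1 →
      ∀ y : K, v.valuation K y ≤ 1 → v.valuation K (y ^ 3 - x * y ^ 2 + t * y - 1) = 1 := by
  classical
  let _ : Field (𝓞 K ⧸ v.asIdeal) := Ideal.Quotient.field v.asIdeal
  have : Finite (𝓞 K ⧸ v.asIdeal) := Ring.HasFiniteQuotients.finiteQuotient v.ne_bot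
  let q : 𝓞 K →+* 𝓞 K ⧸ v.asIdeal := Ideal.Quotient.mk v.asIdeal
  have hq0 : ∀ a : 𝓞 K, q a = 0 ↔ v.valuation K (algebraMap (𝓞 K) K a) < 1 := by
    intro a
    rw [HeightOneSpectrum.valuation_lt_one_iff_mem]
    exact Ideal.Quotient.eq_zero_iff_mem
  have hle : ∀ a : 𝓞 K, v.valuation K (algebraMap (𝓞 K) K a) ≤ 1 :=
    fun a => HeightOneSpectrum.valuation_le_one v a
  have hq1 : ∀ a : 𝓞 K, q a ≠ 0 → v.valuation K (algebraMap (𝓞 K) K a) = 1 := by
    intro a ha
    rw [Ne, hq0, not_lt] at ha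
    exact le_antisymm (hle a) ha
  have happ : ∀ u : K, v.valuation K u ≤ 1 →
      ∃ a : 𝓞 K, v.valuation K (algebraMap (𝓞 K) K a - u) < 1 := by
    intro u hu
    obtain ⟨a, ha⟩ := HeightOneSpectrum.exists_valuation_sub_lt_of_integer v (x := u) hu 1
    rw [Units.val_one] at ha
    exact ⟨a, ha⟩
  obtain ⟨x₀, hx₀⟩ := happ x hx
  obtain ⟨τ, hτ⟩ := f4a_field (q x₀)
  obtain ⟨t₀, ht₀⟩ := Ideal.Quotient.mk_surjective τ
  have ht₀' : q t₀ = τ := ht₀
  refine ⟨algebraMap (𝓞 K) K t₀, hle _, fun t ht y hy => ?_⟩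
  obtain ⟨y₀, hy₀⟩ := happ y hy
  set X := algebraMap (𝓞 K) K x₀
  set Y := algebraMap (𝓞 K) K y₀
  set T := algebraMap (𝓞 K) K t₀
  have hX : v.valuation K X ≤ 1 := hle _
  have hY : v.valuation K Y ≤ 1 := hle _
  have hT : v.valuation K T ≤ 1 := hle _
  have h1 : v.valuation K (Y ^ 3 - X * Y ^ 2 + T * Y - 1) = 1 := by
    have e : Y ^ 3 - X * Y ^ 2 + T * Y - 1 =
        algebraMap (𝓞 K) K (y₀ ^ 3 - x₀ * y₀ ^ 2 + t₀ * y₀ - 1) := by
      simp only [map_sub, map_add, map_mul, map_pow, map_one, X, Y, T]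
    rw [e]
    refine hq1 _ ?_
    simp only [map_sub, map_add, map_mul, map_pow, map_one]
    rw [ht₀']
    exact hτ _
  have ht' : v.valuation K t ≤ 1 := by
    have e : t = (t - T) + T := by ring
    rw [e]
    exact Valuation.map_add_le _ ht.le hT
  have key : v.valuation K ((y ^ 3 - x * y ^ 2 + t * y - 1) - (Y ^ 3 - X * Y ^ 2 + T * Y - 1)) < 1 := by
    have e : (y ^ 3 - x * y ^ 2 + t * y - 1) - (Y ^ 3 - X * Y ^ 2 + T * Y - 1) =
        (Y - y) * (-(y ^ 2 + y * Y + Y ^ 2) + X * (y + Y) - T) + (X - x) * y ^ 2 + (t - T) * y := by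
      ring
    rw [e]
    refine Valuation.map_add_lt _ (Valuation.map_add_lt _ ?_ ?_) ?_
    · rw [map_mul]
      refine mul_lt_one_of_lt_of_le hy₀ ?_
      refine Valuation.map_sub_le _ ?_ hT
      refine Valuation.map_add_le _ ?_ ?_
      · rw [Valuation.map_neg]
        refine Valuation.map_add_le _ (Valuation.map_add_le _ ?_ ?_) ?_
        · rw [map_pow]; exact pow_le_one' hy 2
        · rw [map_mul]; exact mul_le_one' hy hY
        · rw [map_pow]; exact pow_le_one' hY 2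
      · rw [map_mul]
        exact mul_le_one' hX (Valuation.map_add_le _ hy hY)
    · rw [map_mul]
      refine mul_lt_one_of_lt_of_le hx₀ ?_
      rw [map_pow]; exact pow_le_one' hy 2
    · rw [map_mul]
      exact mul_lt_one_of_lt_of_le ht hy
  have e2 : y ^ 3 - x * y ^ 2 + t * y - 1 = (Y ^ 3 - X * Y ^ 2 + T * Y - 1) +
      ((y ^ 3 - x * y ^ 2 + t * y - 1) - (Y ^ 3 - X * Y ^ 2 + T * Y - 1)) := by ring
  rw [e2]
  rw [← h1] at key
  rw [Valuation.map_add_eq_of_lt_left _ key, h1]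

end Pool.Agent.Lib.MP_fdb342_lc
end

section

/-!
# The unit rank of a field containing a cube root of unity
-/

open IsDedekindDomain NumberField

namespace Pool.Agent.Lib.MP_fdb342_lc

variable {K : Type} [Field K] [NumberField K]


theorem two_rank {ζ : K} (hζ : IsPrimitiveRoot ζ 3) :
    2 * (Units.rank K + 1) = Module.finrank ℚ K := by
  have h1 := InfinitePlace.card_add_two_mul_card_eq_rank K
  have h2 := InfinitePlace.card_eq_nrRealPlaces_add_nrComplexPlaces K
  have h3 : InfinitePlace.nrRealPlaces K = 0 :=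
    NumberField.InfinitePlace.IsPrimitiveRoot.nrRealPlaces_eq_zero_of_two_lt (by norm_num) hζ
  have h4 : 0 < Fintype.card (InfinitePlace K) := Fintype.card_pos
  have h5 : Units.rank K = Fintype.card (InfinitePlace K) - 1 := rfl
  omega

end Pool.Agent.Lib.MP_fdb342_lc
end
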