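import Mathlib
import Pool.Agent.Lib.MP_fdb342_lc.Mg.G001

section

/-!
# Places whose ramification index and residue degree are prime to three
-/

open IsDedekindDomain NumberField

namespace Pool.Agent.Lib.MP_fdb342_lc

variable {K : Type} [Field K] [NumberField K] {E : Type} [Field E] [NumberField E] [Algebra K E]


/-- the image in `Eˣ` -/
noncomputable def up (E : Type) [Field E] [Algebra K E] (x : Kˣ) : Eˣ :=
  Units.map (algebraMap K E : K →* E) x

/-- ramification index and residue degree of `P` over `K` are prime to `3` (the second condition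
is expressed by cubes in the residue fields) -/
def Odd3 (K : Type) {E : Type} [Field K] [NumberField K] [Field E] [NumberField E] [Algebra K E]
    (P : Pl E) : Prop :=
  (∃ e : ℕ, ¬ 3 ∣ e ∧ ∀ x : K, P.valuation E (algebraMap K E x) = (bel K P).valuation K x ^ e) ∧
  ∀ c : Kˣ, ordv (bel K P) (c : K) = 0 → c ∉ LCv (bel K P) → up E c ∉ LCv P

private theorem F2b_not_three_dvd {m k : ℕ} (h : m ∣ 2 ^ k) : ¬ 3 ∣ m := by
  intro h3
  have h1 : 3 ∣ 2 ^ k := h3.trans h
  have h2 := Nat.prime_three.dvd_of_dvd_pow h1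
  omega

/-- a norm argument: an element which becomes a cube in an extension of degree prime to three is a
cube -/
private theorem F2b_cube {k k' : Type} [Field k] [Field k'] [Algebra k k'] [Module.Finite k k']
    (hf : ¬ 3 ∣ Module.finrank k k') {x : k} (hx : x ≠ 0) {y : k'}
    (hy : algebraMap k k' x * y ^ 3 = 1) : ∃ z : k, x * z ^ 3 = 1 := by
  have h1 : x ^ Module.finrank k k' * (Algebra.norm k y) ^ 3 = 1 := by
    have := congrArg (Algebra.norm k) hy
    rw [map_mul, map_pow, map_one, Algebra.norm_algebraMap] at this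
    exact this
  obtain ⟨m, hm⟩ : ∃ m, Module.finrank k k' = 3 * m + 1 ∨ Module.finrank k k' = 3 * m + 2 :=
    ⟨Module.finrank k k' / 3, by omega⟩
  rcases hm with hm | hm
  · refine ⟨x ^ m * Algebra.norm k y, ?_⟩
    rw [hm] at h1
    calc x * (x ^ m * Algebra.norm k y) ^ 3 = x ^ (3 * m + 1) * (Algebra.norm k y) ^ 3 := by ring
      _ = 1 := h1
  · refine ⟨x * (x ^ m * Algebra.norm k y) ^ 2, ?_⟩
    rw [hm] at h1
    calc x * (x * (x ^ m * Algebra.norm k y) ^ 2) ^ 3 =
        (x ^ (3 * m + 2) * (Algebra.norm k y) ^ 3) ^ 2 := by ring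
      _ = 1 := by rw [h1, one_pow]

private theorem F2b_val_one {v : Pl K} {x : K} (h : v.valuation K (x - 1) < 1) :
    v.valuation K x = 1 := by
  have h1 := Valuation.map_one_add_of_lt (v := v.valuation K) h
  rw [← h1]
  congr 1
  ring

private theorem F2b_mk_eq (v : Pl K) (a b : 𝓞 K) :
    (Ideal.Quotient.mk v.asIdeal a = Ideal.Quotient.mk v.asIdeal b) ↔
      v.valuation K (algebraMap (𝓞 K) K a - algebraMap (𝓞 K) K b) < 1 := by
  rw [← map_sub, HeightOneSpectrum.valuation_lt_one_iff_mem]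
  exact Ideal.Quotient.mk_eq_mk_iff_sub_mem a b

/-- replacing factors by integral approximations -/
private theorem F2b_near {v : Pl K} {x y x' y' : K} (hx : v.valuation K x ≤ 1)
    (hy' : v.valuation K y' ≤ 1) (hy : v.valuation K y ≤ 1)
    (h1 : v.valuation K (x' - x) < 1) (h2 : v.valuation K (y' - y) < 1)
    (h : v.valuation K (x * y ^ 3 - 1) < 1) : v.valuation K (x' * y' ^ 3 - 1) < 1 := by
  have e : x' * y' ^ 3 - 1 = (x * y ^ 3 - 1) + ((x' - x) * y' ^ 3 +
      (y' - y) * (x * (y' ^ 2 + y' * y + y ^ 2))) := by ring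
  rw [e]
  refine Valuation.map_add_lt _ h (Valuation.map_add_lt _ ?_ ?_)
  · rw [map_mul, map_pow]
    exact mul_lt_one_of_lt_of_le h1 (pow_le_one' hy' 3)
  · rw [map_mul, map_mul]
    refine mul_lt_one_of_lt_of_le h2 (mul_le_one' hx ?_)
    refine Valuation.map_add_le _ (Valuation.map_add_le _ ?_ ?_) ?_
    · rw [map_pow]; exact pow_le_one' hy' 2
    · rw [map_mul]; exact mul_le_one' hy' hy
    · rw [map_pow]; exact pow_le_one' hy 2

theorem odd3_of_galois [IsGalois K E] {k : ℕ} (hk : Module.finrank K E = 2 ^ k) (P : Pl E)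
    (h3 : ¬ Above3 (bel K P)) : Odd3 K P := by
  classical
  have hL : P.asIdeal.LiesOver (bel K P).asIdeal := ⟨rfl⟩
  have hPp : P.asIdeal.IsPrime := P.isPrime
  have hPm : P.asIdeal.IsMaximal := P.isMaximal
  have hvm : (bel K P).asIdeal.IsMaximal := (bel K P).isMaximal
  have hvp : (bel K P).asIdeal.IsPrime := (bel K P).isPrime
  have hid := Ideal.ncard_primesOver_mul_ramificationIdxIn_mul_inertiaDegIn (bel K P).asIdeal
    (𝓞 E) (E ≃ₐ[K] E)
  rw [IsGalois.card_aut_eq_finrank, hk,
    Ideal.ramificationIdxIn_eq_ramificationIdx (bel K P).asIdeal P.asIdeal (E ≃ₐ[K] E),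
    Ideal.inertiaDegIn_eq_inertiaDeg (bel K P).asIdeal P.asIdeal (E ≃ₐ[K] E)] at hid
  have he : ¬ 3 ∣ P.asIdeal.ramificationIdx (𝓞 K) := by
    apply F2b_not_three_dvd (k := k)
    rw [← hid]
    exact (Dvd.intro _ rfl).mul_left _
  have hf : ¬ 3 ∣ P.asIdeal.inertiaDeg (𝓞 K) := by
    apply F2b_not_three_dvd (k := k)
    rw [← hid]
    exact (Dvd.intro_left _ rfl).mul_left _
  have hval : ∀ x : K, P.valuation E (algebraMap K E x) =
      (bel K P).valuation K x ^ (P.asIdeal.ramificationIdx (𝓞 K)) := by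
    intro x
    rw [← Ideal.ramificationIdx'_eq_ramificationIdx (bel K P).asIdeal P.asIdeal (bel K P).ne_bot]
    exact (HeightOneSpectrum.valuation_liesOver E (bel K P) P x).symm
  refine ⟨⟨_, he, hval⟩, ?_⟩
  intro c hc hc' hup
  apply hc'
  -- residue fields
  let _ : Field (𝓞 K ⧸ (bel K P).asIdeal) := Ideal.Quotient.field _
  let _ : Field (𝓞 E ⧸ P.asIdeal) := Ideal.Quotient.field _
  rw [Ideal.inertiaDeg_eq_of_isMaximal (bel K P).asIdeal P.asIdeal] at hf
  have hfin : Finite (𝓞 E ⧸ P.asIdeal) := Ring.HasFiniteQuotients.finiteQuotient P.ne_bot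
  have hfin' : Module.Finite (𝓞 K ⧸ (bel K P).asIdeal) (𝓞 E ⧸ P.asIdeal) := inferInstance
  obtain ⟨y, hy⟩ := hup
  have hc1 : (bel K P).valuation K (c : K) = 1 := (val_eq_one_iff _ c.ne_zero).2 hc
  have hupc : ((up E c : Eˣ) : E) = algebraMap K E (c : K) := rfl
  have hPc : P.valuation E (algebraMap K E (c : K)) = 1 := by
    rw [hval, hc1, one_pow]
  have hy' : P.valuation E (algebraMap K E (c : K) * (y : E) ^ 3 - 1) < 1 := by
    have : ((up E c * y ^ 3 : Eˣ) : E) = algebraMap K E (c : K) * (y : E) ^ 3 := by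
      push_cast
      rw [hupc]
    rw [this] at hy
    exact hy
  have hvy : P.valuation E (y : E) = 1 := by
    have h1 := F2b_val_one hy'
    rw [map_mul, hPc, one_mul] at h1
    rw [val_eq_one_iff P (pow_ne_zero 3 y.ne_zero), ordv_pow] at h1
    rw [val_eq_one_iff P y.ne_zero]
    push_cast at h1
    omega
  -- integral approximations
  obtain ⟨a, ha⟩ := HeightOneSpectrum.exists_valuation_sub_lt_of_integer (bel K P)
    (x := (c : K)) hc1.le 1
  obtain ⟨b, hb⟩ := HeightOneSpectrum.exists_valuation_sub_lt_of_integer P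
    (x := (y : E)) hvy.le 1
  rw [Units.val_one] at ha hb
  have haE : P.valuation E (algebraMap (𝓞 E) E (algebraMap (𝓞 K) (𝓞 E) a) -
      algebraMap K E (c : K)) < 1 := by
    have h1 : algebraMap (𝓞 E) E (algebraMap (𝓞 K) (𝓞 E) a) - algebraMap K E (c : K) =
        algebraMap K E (algebraMap (𝓞 K) K a - (c : K)) := by
      rw [map_sub, ← IsScalarTower.algebraMap_apply (𝓞 K) (𝓞 E) E,
        ← IsScalarTower.algebraMap_apply (𝓞 K) K E]
    rw [h1, hval]
    exact pow_lt_one' ha (fun h0 => he (by rw [h0]; exact dvd_zero _))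
  have hle : ∀ z : 𝓞 E, P.valuation E (algebraMap (𝓞 E) E z) ≤ 1 :=
    fun z => HeightOneSpectrum.valuation_le_one P z
  have hleK : ∀ z : 𝓞 K, (bel K P).valuation K (algebraMap (𝓞 K) K z) ≤ 1 :=
    fun z => HeightOneSpectrum.valuation_le_one (bel K P) z
  have hq := F2b_near hPc.le (hle b) hvy.le haE hb hy'
  have hq2 : Ideal.Quotient.mk P.asIdeal (algebraMap (𝓞 K) (𝓞 E) a * b ^ 3) =
      Ideal.Quotient.mk P.asIdeal 1 := by
    rw [F2b_mk_eq, map_mul, map_pow, map_one]
    exact hq
  have hq3 : algebraMap (𝓞 K ⧸ (bel K P).asIdeal) (𝓞 E ⧸ P.asIdeal)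
      (Ideal.Quotient.mk (bel K P).asIdeal a) * (Ideal.Quotient.mk P.asIdeal b) ^ 3 = 1 := by
    rw [map_mul, map_pow, map_one] at hq2
    exact hq2
  have ha0 : Ideal.Quotient.mk (bel K P).asIdeal a ≠ 0 := by
    intro h0
    rw [h0, map_zero, zero_mul] at hq3
    exact zero_ne_one hq3
  obtain ⟨z, hz⟩ := F2b_cube hf ha0 hq3
  obtain ⟨z0, rfl⟩ := Ideal.Quotient.mk_surjective z
  have hz1 : (bel K P).valuation K (algebraMap (𝓞 K) K a * algebraMap (𝓞 K) K z0 ^ 3 - 1) < 1 := by
    have h1 : Ideal.Quotient.mk (bel K P).asIdeal (a * z0 ^ 3) =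
        Ideal.Quotient.mk (bel K P).asIdeal 1 := by
      rw [map_mul, map_pow, map_one]
      exact hz
    rw [F2b_mk_eq, map_mul, map_pow, map_one] at h1
    exact h1
  have ha' : (bel K P).valuation K ((c : K) - algebraMap (𝓞 K) K a) < 1 := by
    rw [← neg_sub, Valuation.map_neg]
    exact ha
  have hz2 : (bel K P).valuation K ((c : K) * algebraMap (𝓞 K) K z0 ^ 3 - 1) < 1 :=
    F2b_near (hleK a) (hleK z0) (hleK z0) ha' (by rw [sub_self, map_zero]; exact zero_lt_one) hz1
  have hz0 : algebraMap (𝓞 K) K z0 ≠ 0 := by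
    intro h0
    rw [h0] at hz2
    norm_num at hz2
  refine ⟨Units.mk0 _ hz0, ?_⟩
  push_cast
  rw [Units.val_mk0]
  exact hz2

theorem Odd3.tame {P : Pl E} (hP : Odd3 K P) {a b : Kˣ}
    (ha : ordv (bel K P) (a : K) = 0) (ha' : a ∉ LCv (bel K P))
    (hb : ¬ (3 : ℤ) ∣ ordv (bel K P) (b : K)) :
    ordv P (up E a : E) = 0 ∧ up E a ∉ LCv P ∧ ¬ (3 : ℤ) ∣ ordv P (up E b : E) ∧
      tame P (up E b) (up E a) ∉ LCv P := by
  obtain ⟨⟨e, he, hval⟩, hc⟩ := hP
  have hord : ∀ x : Kˣ, ordv P (up E x : E) = e * ordv (bel K P) (x : K) := by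
    intro x
    unfold ordv
    have h1 : ((up E x : Eˣ) : E) = algebraMap K E (x : K) := rfl
    rw [h1, hval, WithZero.log_pow]
    simp
  have h1 : ordv P (up E a : E) = 0 := by rw [hord, ha, mul_zero]
  have h2 : up E a ∉ LCv P := hc a ha ha'
  have h3 : ¬ (3 : ℤ) ∣ ordv P (up E b : E) := by
    rw [hord]
    intro hd
    rcases Int.prime_three.dvd_or_dvd hd with h | h
    · exact he (by exact_mod_cast h)
    · exact hb h
  refine ⟨h1, h2, h3, ?_⟩
  unfold Pool.Agent.Lib.MP_fdb342_lc.tame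
  rw [h1, zpow_zero, one_mul, Subgroup.inv_mem_iff]
  intro hmem
  apply h2
  set n := ordv P (up E b : E) with hn
  have h4 : ∀ m : ℤ, up E a ^ (3 * m) ∈ LCv P := fun m => zpow_mem_LCv P _ ⟨m, rfl⟩
  obtain ⟨m, hm⟩ : ∃ m : ℤ, n = 3 * m + 1 ∨ n = 3 * m - 1 := ⟨(n + 1) / 3, by omega⟩
  rcases hm with hm | hm
  · have e1 : up E a = up E a ^ n * (up E a ^ (3 * m))⁻¹ := by
      rw [hm, ← zpow_neg, ← zpow_add]
      simp
    rw [e1]
    exact mul_mem hmem (inv_mem (h4 m))
  · have e1 : up E a = (up E a ^ n)⁻¹ * up E a ^ (3 * m) := by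
      rw [hm, ← zpow_neg, ← zpow_add]
      simp
    rw [e1]
    exact mul_mem (inv_mem hmem) (h4 m)

end Pool.Agent.Lib.MP_fdb342_lc
end

section

/-!
# A lemma on finite fields
-/

namespace Pool.Agent.Lib.MP_fdb342_lc

theorem ff_lemma {k : Type} [Field k] [Fintype k] (h3 : (3 : k) ≠ 0)
    (hq : 3 ∣ Fintype.card k - 1) (h4 : 4 < Fintype.card k) :
    ∃ β ε : k, (ε = 1 ∨ ε = 2) ∧ 1 + 3 * β ^ 3 ≠ 0 ∧ 1 + 3 * β ^ 3 + 9 * ε ≠ 0 ∧
      ¬ ∃ y : k, y ^ 3 * (1 + 3 * β ^ 3) = 1 + 3 * β ^ 3 + 9 * ε := by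
  classical
  by_contra hcon
  push Not at hcon
  -- the group of cubes
  let H : Subgroup kˣ := (powMonoidHom 3 : kˣ →* kˣ).range
  obtain ⟨m, hm⟩ := hq
  have hcardU : Nat.card kˣ = 3 * m := by
    rw [Nat.card_eq_fintype_card, Fintype.card_units, hm]
  have hH : Nat.card H = m := by
    have h := IsCyclic.card_powMonoidHom_range (G := kˣ) 3
    rw [hcardU] at h
    rw [Nat.gcd_mul_right_left, Nat.mul_div_cancel_left _ (by norm_num)] at h
    exact h
  have hq' : Fintype.card k = 3 * m + 1 := by omega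
  -- the set of cubes
  let C : Finset k := Finset.univ.image fun h : H => ((h : kˣ) : k)
  have hC0 : (0 : k) ∉ C := by
    intro h
    obtain ⟨a, _, ha⟩ := Finset.mem_image.1 h
    exact (a : kˣ).ne_zero ha
  have hCinj : Function.Injective fun h : H => ((h : kˣ) : k) :=
    fun a b hab => Subtype.ext (Units.ext hab)
  have hCcard : C.card = m := by
    rw [Finset.card_image_of_injective _ hCinj, Finset.card_univ, ← Nat.card_eq_fintype_card, hH]
  let D : Finset k := insert 0 C
  have hDcard : D.card = m + 1 := by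
    rw [Finset.card_insert_of_notMem hC0, hCcard]
  have hD : ∀ x, x ∈ D ↔ ∃ y, y ^ 3 = x := by
    intro x
    constructor
    · intro h
      rcases Finset.mem_insert.1 h with h | h
      · exact ⟨0, by rw [h]; norm_num⟩
      · obtain ⟨⟨a, b, hb⟩, _, ha⟩ := Finset.mem_image.1 h
        refine ⟨(b : k), ?_⟩
        rw [← ha]
        change (b : k) ^ 3 = (a : k)
        rw [← hb]
        simp
    · rintro ⟨y, hy⟩
      by_cases h0 : y = 0
      · rw [h0] at hy
        rw [← hy]
        exact Finset.mem_insert.2 (Or.inl (by norm_num))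
      · refine Finset.mem_insert.2 (Or.inr (Finset.mem_image.2 ⟨⟨(Units.mk0 y h0) ^ 3,
          ⟨Units.mk0 y h0, rfl⟩⟩, Finset.mem_univ _, ?_⟩))
        simpa using hy
  have h1D : (1 : k) ∈ D := (hD 1).2 ⟨1, by norm_num⟩
  have h9 : (9 : k) ≠ 0 := by
    have : (9 : k) = 3 * 3 := by norm_num
    rw [this]
    exact mul_ne_zero h3 h3
  -- what the assumption gives
  have key : ∀ β ε : k, (ε = 1 ∨ ε = 2) → 1 + 3 * β ^ 3 ≠ 0 →
      1 + 9 * ε / (1 + 3 * β ^ 3) ∈ D := by
    intro β ε hε hy
    by_cases h0 : 1 + 3 * β ^ 3 + 9 * ε = 0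
    · rw [hD]
      refine ⟨0, ?_⟩
      field_simp
      rw [h0]
      ring
    · obtain ⟨y, hy'⟩ := hcon β ε hε hy h0
      rw [hD]
      refine ⟨y, ?_⟩
      field_simp
      exact hy'
  by_cases h2 : (2 : k) = 0
  · -- characteristic 2
    have h31 : (3 : k) = 1 := by
      have : (3 : k) = 2 + 1 := by norm_num
      rw [this, h2, zero_add]
    have h91 : (9 : k) = 1 := by
      have : (9 : k) = 3 * 3 := by norm_num
      rw [this, h31, one_mul]
    have step : ∀ x ∈ D, 1 + x ∈ D := by
      intro x hx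
      obtain ⟨β, rfl⟩ := (hD x).1 hx
      by_cases h0 : β = 0
      · rw [h0]
        simpa using h1D
      by_cases h1 : 1 + β ^ 3 = 0
      · rw [h1]
        exact Finset.mem_insert_self _ _
      have h5 := key β 1 (Or.inl rfl) (by rw [h31, one_mul]; exact h1)
      rw [h31, h91, one_mul, one_mul] at h5
      obtain ⟨z, hz⟩ := (hD _).1 h5
      rw [hD]
      have hz0 : z ≠ 0 := by
        rintro rfl
        have h6 : (0 : k) = 1 + 1 / (1 + β ^ 3) := by
          rw [← hz]
          norm_num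
        rw [eq_comm, ← sub_eq_zero] at h6
        have h7 : β ^ 3 = 0 := by
          have h8 : 1 + β ^ 3 + 1 = 0 := by
            have h9' : (1 + 1 / (1 + β ^ 3)) * (1 + β ^ 3) = 0 := by
              rw [sub_zero] at h6
              rw [h6, zero_mul]
            rw [add_mul, one_mul, one_div, inv_mul_cancel₀ h1] at h9'
            exact h9'
          have h10 : 1 + β ^ 3 + 1 = 2 + β ^ 3 := by ring
          rw [h10, h2, zero_add] at h8
          exact h8
        exact h0 (pow_eq_zero_iff (by norm_num) |>.1 h7)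
      refine ⟨β / z, ?_⟩
      have h11 : z ^ 3 * (1 + β ^ 3) = β ^ 3 := by
        rw [hz, add_mul, one_mul, one_div, inv_mul_cancel₀ h1]
        have h10 : 1 + β ^ 3 + 1 = 2 + β ^ 3 := by ring
        rw [h10, h2, zero_add]
      rw [div_pow, div_eq_iff (pow_ne_zero 3 hz0), mul_comm, h11]
    let G : AddSubgroup k :=
      { carrier := {x | x ∈ D}
        zero_mem' := Finset.mem_insert_self _ _
        add_mem' := by
          intro a b ha hb
          change a + b ∈ D
          change a ∈ D at ha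
          change b ∈ D at hb
          by_cases h0 : a = 0
          · rw [h0, zero_add]
            exact hb
          obtain ⟨α, hα⟩ := (hD a).1 ha
          obtain ⟨β, hβ⟩ := (hD b).1 hb
          have h5 : b / a ∈ D := (hD _).2 ⟨β / α, by rw [div_pow, hα, hβ]⟩
          obtain ⟨γ, hγ⟩ := (hD _).1 (step _ h5)
          refine (hD _).2 ⟨α * γ, ?_⟩
          rw [mul_pow, hα, hγ]
          field_simp
        neg_mem' := by
          intro a ha
          change -a ∈ D
          obtain ⟨α, hα⟩ := (hD a).1 ha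
          refine (hD _).2 ⟨-α, ?_⟩
          rw [← hα]
          ring }
    have hG : Nat.card G = m + 1 := by
      rw [← hDcard, ← Nat.card_eq_finsetCard]
      rfl
    have h5 := AddSubgroup.card_addSubgroup_dvd_card G
    rw [hG, Nat.card_eq_fintype_card, hq'] at h5
    have h6 : m + 1 ∣ 2 := by
      have h7 : 3 * (m + 1) = 3 * m + 1 + 2 := by ring
      have h8 : m + 1 ∣ 3 * m + 1 + 2 := by
        rw [← h7]
        exact Dvd.intro_left _ rfl
      exact (Nat.dvd_add_right h5).1 h8
    have := Nat.le_of_dvd (by norm_num) h6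
    omega
  · -- characteristic not 2
    let Y : Finset k := (D.image fun c => 1 + 3 * c).erase 0
    have hinj1 : Function.Injective fun c : k => 1 + 3 * c := by
      intro a b hab
      have : 3 * a = 3 * b := by simpa using hab
      exact mul_left_cancel₀ h3 this
    have hY : m ≤ Y.card := by
      have h5 : (D.image fun c => 1 + 3 * c).card = m + 1 := by
        rw [Finset.card_image_of_injective _ hinj1, hDcard]
      have h6 := Finset.pred_card_le_card_erase (a := (0 : k)) (s := D.image fun c => 1 + 3 * c)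
      rw [h5] at h6
      simpa using h6
    have hYD : ∀ y ∈ Y, y ≠ 0 ∧ 1 + 9 / y ∈ D ∧ 1 + 18 / y ∈ D := by
      intro y hy
      obtain ⟨h0, hy⟩ := Finset.mem_erase.1 hy
      obtain ⟨c, hc, rfl⟩ := Finset.mem_image.1 hy
      obtain ⟨β, rfl⟩ := (hD c).1 hc
      refine ⟨h0, ?_, ?_⟩
      · have := key β 1 (Or.inl rfl) h0
        simpa using this
      · have := key β 2 (Or.inr rfl) h0
        have h18 : (9 : k) * 2 = 18 := by norm_num
        rwa [h18] at this
    have himg : Y.image (fun y => 1 + 9 / y) = D.erase 1 := by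
      apply Finset.eq_of_subset_of_card_le
      · intro x hx
        obtain ⟨y, hy, rfl⟩ := Finset.mem_image.1 hx
        obtain ⟨h0, h1, -⟩ := hYD y hy
        refine Finset.mem_erase.2 ⟨?_, h1⟩
        intro h
        have : 9 / y = 0 := by simpa using h
        exact (div_ne_zero h9 h0) this
      · rw [Finset.card_erase_of_mem h1D, hDcard]
        refine (le_of_eq_of_le (by simp) hY).trans ?_
        rw [Finset.card_image_of_injOn]
        intro a ha b hb hab
        have ha0 := (hYD a ha).1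
        have hb0 := (hYD b hb).1
        have h5 : 9 / a = 9 / b := by simpa using hab
        rw [div_eq_div_iff ha0 hb0] at h5
        exact (mul_left_cancel₀ h9 h5).symm
    have hstep : ∀ x ∈ D, 2 * x - 1 ∈ D := by
      intro x hx
      by_cases h1 : x = 1
      · rw [h1]
        have : (2 : k) * 1 - 1 = 1 := by norm_num
        rwa [this]
      have h5 : x ∈ D.erase 1 := Finset.mem_erase.2 ⟨h1, hx⟩
      rw [← himg] at h5
      obtain ⟨y, hy, rfl⟩ := Finset.mem_image.1 h5
      obtain ⟨h0, -, h6⟩ := hYD y hy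
      have : 2 * (1 + 9 / y) - 1 = 1 + 18 / y := by
        field_simp
        ring
      rw [this]
      exact h6
    have hinj2 : Function.Injective fun x : k => 2 * x - 1 := by
      intro a b hab
      have : 2 * a = 2 * b := by simpa using hab
      exact mul_left_cancel₀ h2 this
    have hperm : D.image (fun x => 2 * x - 1) = D := by
      apply Finset.eq_of_subset_of_card_le
      · intro x hx
        obtain ⟨y, hy, rfl⟩ := Finset.mem_image.1 hx
        exact hstep y hy
      · rw [Finset.card_image_of_injective _ hinj2]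
    have hS : ∑ x ∈ D, x = 0 := by
      rw [Finset.sum_insert hC0, zero_add, Finset.sum_image (fun a _ b _ h => hCinj h)]
      apply FiniteField.sum_subgroup_units_eq_zero
      intro hb
      have hb' : H = ⊥ := hb
      rw [hb'] at hH
      have : Nat.card (⊥ : Subgroup kˣ) = 1 := Subgroup.card_bot
      omega
    have hsum : ∑ x ∈ D, x = ∑ x ∈ D, (2 * x - 1) := by
      conv_lhs => rw [← hperm]
      rw [Finset.sum_image (fun a _ b _ h => hinj2 h)]
    rw [Finset.sum_sub_distrib, ← Finset.mul_sum, hS, mul_zero, zero_sub, Finset.sum_const,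
      hDcard, nsmul_eq_mul, mul_one] at hsum
    have h5 : ((m + 1 : ℕ) : k) = 0 := by
      rw [eq_comm, neg_eq_zero] at hsum
      exact hsum
    have h6 : ((3 * m + 1 : ℕ) : k) = 0 := by
      rw [← hq']
      exact Nat.cast_card_eq_zero k
    apply h2
    push_cast at h5 h6
    linear_combination 3 * h5 - h6

end Pool.Agent.Lib.MP_fdb342_lc
end

section

/-!
# Elements with a prescribed nonresidue
-/

open IsDedekindDomain NumberField

namespace Pool.Agent.Lib.MP_fdb342_lc

variable {K : Type} [Field K] [NumberField K]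


theorem exists_beta {ζ ξ : K} (hζ : IsPrimitiveRoot ζ 3) (hξ : IsPrimitiveRoot ξ 5) (v : Pl K)
    (hv : ¬ Above3 v) :
    ∃ (β ε : K) (a : Kˣ), (ε = 1 ∨ ε = 2) ∧ (a : K) * (1 + 3 * β ^ 3) = 1 + 3 * β ^ 3 + 9 * ε ∧
      ordv v (a : K) = 0 ∧ a ∉ LCv v := by
  classical
  let _ : Field (𝓞 K ⧸ v.asIdeal) := Ideal.Quotient.field v.asIdeal
  have : Finite (𝓞 K ⧸ v.asIdeal) := Ring.HasFiniteQuotients.finiteQuotient v.ne_bot
  let _ : Fintype (𝓞 K ⧸ v.asIdeal) := Fintype.ofFinite _
  let q : 𝓞 K →+* 𝓞 K ⧸ v.asIdeal := Ideal.Quotient.mk v.asIdeal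
  have hq : ∀ a b : 𝓞 K, q a = q b ↔
      v.valuation K (algebraMap (𝓞 K) K a - algebraMap (𝓞 K) K b) < 1 := by
    intro a b
    rw [← map_sub, HeightOneSpectrum.valuation_lt_one_iff_mem]
    exact Ideal.Quotient.mk_eq_mk_iff_sub_mem a b
  have hq0 : ∀ a : 𝓞 K, q a = 0 ↔ v.valuation K (algebraMap (𝓞 K) K a) < 1 := by
    intro a
    have := hq a 0
    simpa using this
  have hle : ∀ a : 𝓞 K, v.valuation K (algebraMap (𝓞 K) K a) ≤ 1 :=
    fun a => HeightOneSpectrum.valuation_le_one v a
  have hq1 : ∀ a : 𝓞 K, q a ≠ 0 → v.valuation K (algebraMap (𝓞 K) K a) = 1 := by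
    intro a ha
    rw [Ne, hq0, not_lt] at ha
    exact le_antisymm (hle a) ha
  have hqK : ∀ a : 𝓞 K, q a ≠ 0 → algebraMap (𝓞 K) K a ≠ 0 := by
    intro a ha h
    have := hq1 a ha
    rw [h, map_zero] at this
    exact zero_ne_one this
  -- the order of the group of units of the residue field is divisible by three
  have h3 : 3 ∣ Nat.card (𝓞 K ⧸ v.asIdeal)ˣ := by
    have hz0 : IsIntegral ℤ ζ := hζ.isIntegral (by norm_num)
    let z : 𝓞 K := ⟨ζ, hz0⟩
    have hz : algebraMap (𝓞 K) K z = ζ := rfl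
    have hz3 : z ^ 3 = 1 := by
      apply FaithfulSMul.algebraMap_injective (𝓞 K) K
      rw [map_pow, hz, hζ.pow_eq_one, map_one]
    have hne : q z ≠ 1 := by
      intro h
      have h1 : v.valuation K (ζ - 1) < 1 := by
        have := (hq z 1).1 (by rw [h, map_one])
        simpa [hz] using this
      apply hv
      have h2 : (3 : K) = (ζ - 1) * (-(ζ + 2)) := by
        have h4 : ζ ^ 2 + ζ + 1 = 0 := by
          have h5 : ζ ≠ 1 := hζ.ne_one (by norm_num)
          have h6 : (ζ - 1) * (ζ ^ 2 + ζ + 1) = 0 := by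
            have := hζ.pow_eq_one
            linear_combination this
          rcases mul_eq_zero.1 h6 with h7 | h7
          · exact absurd (sub_eq_zero.1 h7) h5
          · exact h7
        linear_combination h4
      have h3 : v.valuation K (-(ζ + 2)) ≤ 1 := by
        have : -(ζ + 2) = algebraMap (𝓞 K) K (-(z + 2)) := by
          rw [map_neg, map_add, hz, map_ofNat]
        rw [this]
        exact hle _
      show v.valuation K (3 : K) < 1
      rw [h2, map_mul]
      exact mul_lt_one_of_lt_of_le h1 h3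
    have hz' : q z ^ 3 = 1 := by rw [← map_pow, hz3, map_one]
    have hu : IsUnit (q z) := IsUnit.of_pow_eq_one hz' (by norm_num)
    obtain ⟨w, hw⟩ := hu
    have hw3 : w ^ 3 = 1 := by
      apply Units.ext
      push_cast
      rw [hw, hz']
    have hw1 : w ≠ 1 := by
      intro h
      apply hne
      rw [← hw, h]
      rfl
    have : orderOf w = 3 := orderOf_eq_prime hw3 hw1
    rw [← this]
    exact orderOf_dvd_natCard w
  have hcu : Nat.card (𝓞 K ⧸ v.asIdeal)ˣ = Fintype.card (𝓞 K ⧸ v.asIdeal) - 1 := by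
    rw [Nat.card_eq_fintype_card, Fintype.card_units]
  rw [hcu] at h3
  -- three is not zero in the residue field
  have h30 : (3 : 𝓞 K ⧸ v.asIdeal) ≠ 0 := by
    intro h
    apply hv
    have h1 : q 3 = 0 := by rw [map_ofNat]; exact h
    rw [hq0, map_ofNat] at h1
    exact h1
  -- the residue field has more than four elements
  have h4 : 4 < Fintype.card (𝓞 K ⧸ v.asIdeal) := by
    by_contra hc
    have hc2 : 1 < Fintype.card (𝓞 K ⧸ v.asIdeal) := Fintype.one_lt_card
    have hc4 : Fintype.card (𝓞 K ⧸ v.asIdeal) = 4 := by omega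
    have h40 : ((4 : ℕ) : 𝓞 K ⧸ v.asIdeal) = 0 := by
      rw [← hc4]
      exact Nat.cast_card_eq_zero _
    have h20 : (2 : 𝓞 K ⧸ v.asIdeal) = 0 := by
      have h5 : (2 : 𝓞 K ⧸ v.asIdeal) * 2 = 0 := by
        rw [← h40]
        norm_num
      rcases mul_eq_zero.1 h5 with h6 | h6 <;> exact h6
    have hx0 : IsIntegral ℤ ξ := hξ.isIntegral (by norm_num)
    let x : 𝓞 K := ⟨ξ, hx0⟩
    have hx : algebraMap (𝓞 K) K x = ξ := rfl
    have hx5 : x ^ 5 = 1 := by
      apply FaithfulSMul.algebraMap_injective (𝓞 K) K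
      rw [map_pow, hx, hξ.pow_eq_one, map_one]
    have hxs : 1 + x + x ^ 2 + x ^ 3 + x ^ 4 = 0 := by
      apply FaithfulSMul.algebraMap_injective (𝓞 K) K
      rw [map_zero, map_add, map_add, map_add, map_add, map_pow, map_pow, map_pow, map_one, hx]
      have h5 : ξ ≠ 1 := hξ.ne_one (by norm_num)
      have h6 : (ξ - 1) * (1 + ξ + ξ ^ 2 + ξ ^ 3 + ξ ^ 4) = 0 := by
        have := hξ.pow_eq_one
        linear_combination this
      rcases mul_eq_zero.1 h6 with h7 | h7
      · exact absurd (sub_eq_zero.1 h7) h5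
      · exact h7
    have hy5 : q x ^ 5 = 1 := by rw [← map_pow, hx5, map_one]
    have hys : 1 + q x + q x ^ 2 + q x ^ 3 + q x ^ 4 = 0 := by
      have := congrArg q hxs
      simpa using this
    have hy3 : q x ^ 3 = 1 := by
      have hu : q x ≠ 0 := by
        intro h
        rw [h] at hy5
        norm_num at hy5
      have := FiniteField.pow_card_sub_one_eq_one (q x) hu
      rwa [hc4] at this
    have hy1 : q x = 1 := by
      have h6 : q x ^ 6 = 1 := by
        have : q x ^ 6 = (q x ^ 3) ^ 2 := by ring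
        rw [this, hy3, one_pow]
      have h7 : q x ^ 6 = q x ^ 5 * q x := by ring
      rw [h6, hy5, one_mul] at h7
      exact h7.symm
    rw [hy1] at hys
    have h8 : (1 : 𝓞 K ⧸ v.asIdeal) = 0 := by linear_combination hys - 2 * h20
    exact one_ne_zero h8
  -- approximation of units by integers
  have happ : ∀ u : Kˣ, v.valuation K (u : K) = 1 →
      ∃ a : 𝓞 K, v.valuation K (algebraMap (𝓞 K) K a - u) < 1 ∧ q a ≠ 0 := by
    intro u hu
    obtain ⟨a, ha⟩ := HeightOneSpectrum.exists_valuation_sub_lt_of_integer v (x := (u : K)) hu.le 1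
    rw [Units.val_one] at ha
    refine ⟨a, ha, ?_⟩
    intro h
    rw [hq0] at h
    have h1 : v.valuation K (u : K) < 1 := by
      have e : (u : K) = algebraMap (𝓞 K) K a - (algebraMap (𝓞 K) K a - u) := by ring
      rw [e]
      exact Valuation.map_sub_lt _ h ha
    rw [hu] at h1
    exact lt_irrefl _ h1
  obtain ⟨β, ε, hε, hd, hm, hno⟩ := ff_lemma h30 h3 h4
  obtain ⟨b, hb⟩ := Ideal.Quotient.mk_surjective β
  have hb' : q b = β := hb
  obtain ⟨e, he, heK⟩ : ∃ e : 𝓞 K, q e = ε ∧
      (algebraMap (𝓞 K) K e = 1 ∨ algebraMap (𝓞 K) K e = 2) := by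
    rcases hε with h | h
    · exact ⟨1, by rw [map_one, h], Or.inl (map_one _)⟩
    · exact ⟨2, by rw [map_ofNat, h], Or.inr (map_ofNat _ 2)⟩
  have hqd : q (1 + 3 * b ^ 3) = 1 + 3 * β ^ 3 := by
    rw [map_add, map_mul, map_pow, map_one, map_ofNat, hb']
  have hqm : q (1 + 3 * b ^ 3 + 9 * e) = 1 + 3 * β ^ 3 + 9 * ε := by
    rw [map_add, map_mul, hqd, map_ofNat, he]
  set d : 𝓞 K := 1 + 3 * b ^ 3 with hdd
  set m : 𝓞 K := 1 + 3 * b ^ 3 + 9 * e with hmm
  have hqd0 : q d ≠ 0 := by rw [hqd]; exact hd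
  have hqm0 : q m ≠ 0 := by rw [hqm]; exact hm
  have hvd := hq1 d hqd0
  have hvm := hq1 m hqm0
  have hdK := hqK d hqd0
  have hmK := hqK m hqm0
  have hdK' : algebraMap (𝓞 K) K d = 1 + 3 * (algebraMap (𝓞 K) K b) ^ 3 := by
    rw [hdd, map_add, map_mul, map_pow, map_one, map_ofNat]
  have hmK' : algebraMap (𝓞 K) K m = 1 + 3 * (algebraMap (𝓞 K) K b) ^ 3 +
      9 * algebraMap (𝓞 K) K e := by
    rw [hmm, map_add, map_mul, map_ofNat, ← hdd, hdK']
  have ha0 : algebraMap (𝓞 K) K m / algebraMap (𝓞 K) K d ≠ 0 := div_ne_zero hmK hdK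
  have hva : v.valuation K (algebraMap (𝓞 K) K m / algebraMap (𝓞 K) K d) = 1 := by
    rw [map_div₀, hvd, hvm, div_one]
  refine ⟨algebraMap (𝓞 K) K b, algebraMap (𝓞 K) K e, Units.mk0 _ ha0, heK, ?_, ?_, ?_⟩
  · rw [Units.val_mk0, ← hmK', ← hdK', div_mul_cancel₀ _ hdK]
  · rw [Units.val_mk0, ← val_eq_one_iff v ha0]
    exact hva
  · rintro ⟨y, hy⟩
    push_cast at hy
    rw [Units.val_mk0] at hy
    have h1 : v.valuation K (algebraMap (𝓞 K) K m / algebraMap (𝓞 K) K d * (y : K) ^ 3) = 1 := by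
      have h2 := Valuation.map_one_add_of_lt (v := v.valuation K) hy
      rw [← h2]
      congr 1
      ring
    rw [map_mul, hva, one_mul, map_pow] at h1
    have hvy : v.valuation K (y : K) = 1 := by
      rw [← map_pow, val_eq_one_iff v (pow_ne_zero 3 y.ne_zero), ordv_pow] at h1
      rw [val_eq_one_iff v y.ne_zero]
      push_cast at h1
      omega
    obtain ⟨c, hc, hc0⟩ := happ y hvy
    have h2 : q (m * c ^ 3) = q d := by
      rw [hq, map_mul, map_pow]
      have e1 : algebraMap (𝓞 K) K m * algebraMap (𝓞 K) K c ^ 3 - algebraMap (𝓞 K) K d =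
          algebraMap (𝓞 K) K d * (algebraMap (𝓞 K) K m / algebraMap (𝓞 K) K d * (y : K) ^ 3 - 1) +
          (algebraMap (𝓞 K) K c - y) * (algebraMap (𝓞 K) K m *
            (algebraMap (𝓞 K) K c ^ 2 + algebraMap (𝓞 K) K c * y + (y : K) ^ 2)) := by
        field_simp
        ring
      rw [e1]
      refine Valuation.map_add_lt _ ?_ ?_
      · rw [map_mul, hvd, one_mul]
        exact hy
      rw [map_mul]
      refine mul_lt_one_of_lt_of_le hc ?_
      rw [map_mul, hvm, one_mul]
      refine Valuation.map_add_le _ (Valuation.map_add_le _ ?_ ?_) ?_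
      · rw [map_pow]; exact pow_le_one' (hle c) 2
      · rw [map_mul, hvy, mul_one]; exact hle c
      · rw [map_pow, hvy, one_pow]
    rw [map_mul, map_pow, hqm, hqd] at h2
    refine hno ⟨(q c)⁻¹, ?_⟩
    rw [inv_pow, inv_mul_eq_iff_eq_mul₀ (pow_ne_zero 3 hc0)]
    linear_combination (-1) * h2

end Pool.Agent.Lib.MP_fdb342_lc
end

section

/-!
# Coordinates in a cubic extension
-/

open IsDedekindDomain NumberField

namespace Pool.Agent.Lib.MP_fdb342_lc

private theorem f4c_indep {K E : Type} [Field K] [Field E] [Algebra K E]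
    (hd : Module.finrank K E = 3) {θ : E} (hθK : ∀ y : K, algebraMap K E y ≠ θ) :
    LinearIndependent K (fun i : Fin 3 => θ ^ (i : ℕ)) := by
  have hfin : FiniteDimensional K E := Module.finite_of_finrank_pos (by rw [hd]; norm_num)
  have hint : IsIntegral K θ := IsIntegral.of_finite K θ
  have h1 : (minpoly K θ).natDegree ∣ 3 := by
    have := minpoly.degree_dvd hint
    rwa [hd] at this
  have h2 : (minpoly K θ).natDegree ≠ 1 := by
    intro h
    rw [minpoly.natDegree_eq_one_iff] at h
    obtain ⟨y, hy⟩ := h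
    exact hθK y hy
  have h3 : (minpoly K θ).natDegree = 3 := by
    rcases (Nat.dvd_prime Nat.prime_three).1 h1 with h | h
    · exact absurd h h2
    · exact h
  have h4 := linearIndependent_pow (K := K) θ
  rw [h3] at h4
  exact h4

theorem spl_of_nf {K E : Type} [Field K] [Field E] [Algebra K E] (hd : Module.finrank K E = 3)
    {x t a b : K} {θ : E} (hθ : θ ^ 3 = algebraMap K E x * θ ^ 2 - algebraMap K E t * θ + 1)
    (hθK : ∀ y : K, algebraMap K E y ≠ θ) {w₀ w₁ w₂ : E}
    (h : algebraMap K E b = nf (algebraMap K E a) w₀ w₁ w₂) :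
    ∃ u v w : K × K × K, nfA x t a u v w = (b, 0, 0) := by
  have hfin : FiniteDimensional K E := Module.finite_of_finrank_pos (by rw [hd]; norm_num)
  have hli := f4c_indep hd hθK
  have hspan : ∀ w : E, ∃ u : K × K × K, w = ev θ
      (algebraMap K E u.1, algebraMap K E u.2.1, algebraMap K E u.2.2) := by
    intro w
    have h1 : Submodule.span K (Set.range (fun i : Fin 3 => θ ^ (i : ℕ))) = ⊤ :=
      hli.span_eq_top_of_card_eq_finrank' (by rw [hd]; simp)
    have h2 : w ∈ Submodule.span K (Set.range (fun i : Fin 3 => θ ^ (i : ℕ))) := by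
      rw [h1]; trivial
    rw [Submodule.mem_span_range_iff_exists_fun] at h2
    obtain ⟨c, hc⟩ := h2
    refine ⟨(c 0, c 1, c 2), ?_⟩
    rw [← hc, Fin.sum_univ_three]
    simp [ev, Algebra.smul_def]
  obtain ⟨u, hu⟩ := hspan w₀
  obtain ⟨v, hv⟩ := hspan w₁
  obtain ⟨w, hw⟩ := hspan w₂
  refine ⟨u, v, w, ?_⟩
  have hmap : nfA (algebraMap K E x) (algebraMap K E t) (algebraMap K E a)
      (algebraMap K E u.1, algebraMap K E u.2.1, algebraMap K E u.2.2)
      (algebraMap K E v.1, algebraMap K E v.2.1, algebraMap K E v.2.2)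
      (algebraMap K E w.1, algebraMap K E w.2.1, algebraMap K E w.2.2) =
      (algebraMap K E (nfA x t a u v w).1, algebraMap K E (nfA x t a u v w).2.1,
        algebraMap K E (nfA x t a u v w).2.2) := by
    simp only [nfA, mulA, smA, addA, map_add, map_sub, map_mul, map_pow, map_one, map_neg,
      map_ofNat]
  have h1 := ev_nfA hθ (algebraMap K E a)
      (algebraMap K E u.1, algebraMap K E u.2.1, algebraMap K E u.2.2)
      (algebraMap K E v.1, algebraMap K E v.2.1, algebraMap K E v.2.2)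
      (algebraMap K E w.1, algebraMap K E w.2.1, algebraMap K E w.2.2)
  rw [← hu, ← hv, ← hw, ← h, hmap] at h1
  set r := nfA x t a u v w with hr
  have h2 : ∑ i : Fin 3, (![r.1 - b, r.2.1, r.2.2] i) • (θ ^ (i : ℕ)) = 0 := by
    rw [Fin.sum_univ_three]
    simp only [ev] at h1
    simp only [Algebra.smul_def, Matrix.cons_val_zero, Matrix.cons_val_one, Matrix.cons_val,
      Fin.val_zero, Fin.val_one, Fin.val_two, pow_zero, pow_one, map_sub]
    linear_combination h1
  have h3 := Fintype.linearIndependent_iff.1 hli _ h2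
  have h30 := h3 0
  have h31 := h3 1
  have h32 := h3 2
  simp at h30 h31 h32
  ext
  · exact sub_eq_zero.1 h30
  · exact h31
  · exact h32

end Pool.Agent.Lib.MP_fdb342_lc
end

section

/-!
# The action of the Galois group on places
-/

open IsDedekindDomain NumberField
open scoped Pointwise

namespace Pool.Agent.Lib.MP_fdb342_lc

variable {K : Type} [Field K] [NumberField K] {E : Type} [Field E] [NumberField E] [Algebra K E]

private lemma hn10c_eq {a b : WithZero (Multiplicative ℤ)} (ha : a ≠ 0) (hb : b ≠ 0) (ha1 : a ≤ 1)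
    (hb1 : b ≤ 1) (h : ∀ n : ℕ, a ≤ WithZero.exp (-(n : ℤ)) ↔ b ≤ WithZero.exp (-(n : ℤ))) :
    a = b := by
  have key : ∀ c : WithZero (Multiplicative ℤ), c ≠ 0 → c ≤ 1 →
      ∃ n : ℕ, c = WithZero.exp (-(n : ℤ)) := by
    intro c hc hc1
    refine ⟨(-WithZero.log c).toNat, ?_⟩
    have h1 : c = WithZero.exp (WithZero.log c) := (WithZero.exp_log hc).symm
    have h2 : WithZero.log c ≤ 0 := by
      rw [h1, ← WithZero.exp_zero, WithZero.exp_le_exp] at hc1
      exact hc1
    rw [Int.toNat_of_nonneg (by omega), neg_neg]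
    exact h1
  obtain ⟨n, hn⟩ := key a ha ha1
  obtain ⟨m, hm⟩ := key b hb hb1
  apply le_antisymm
  · rw [hm]; exact (h m).2 hm.le
  · rw [hn]; exact (h n).1 hn.le

private lemma hn10c_coe (σ : E ≃ₐ[K] E) (r : 𝓞 E) : ((σ • r : 𝓞 E) : E) = σ (r : E) := rfl

private lemma hn10c_val (σ : E ≃ₐ[K] E) (P Q : Pl E) (h : σ • P.asIdeal = Q.asIdeal) (x : E) :
    Q.valuation E (σ x) = P.valuation E x := by
  have hint : ∀ r : 𝓞 E, Q.intValuation (σ • r) = P.intValuation r := by
    intro r
    rcases eq_or_ne r 0 with rfl | hr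
    · rw [smul_zero, map_zero, map_zero]
    · have hr' : σ • r ≠ 0 := by
        intro h0
        exact hr ((smul_eq_zero_iff_eq σ).1 h0)
      refine hn10c_eq (Q.intValuation_ne_zero _ hr') (P.intValuation_ne_zero _ hr)
        (Q.intValuation_le_one _) (P.intValuation_le_one _) fun n => ?_
      rw [HeightOneSpectrum.intValuation_le_pow_iff_mem,
        HeightOneSpectrum.intValuation_le_pow_iff_mem, ← h, ← smul_pow',
        Ideal.smul_mem_pointwise_smul_iff]
  obtain ⟨a, b, _, rfl⟩ := IsFractionRing.div_surjective (A := 𝓞 E) x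
  have ha : σ (algebraMap (𝓞 E) E a) = algebraMap (𝓞 E) E (σ • a) := rfl
  have hb : σ (algebraMap (𝓞 E) E b) = algebraMap (𝓞 E) E (σ • b) := rfl
  rw [map_div₀, map_div₀, map_div₀, ha, hb, HeightOneSpectrum.valuation_of_algebraMap,
    HeightOneSpectrum.valuation_of_algebraMap, HeightOneSpectrum.valuation_of_algebraMap,
    HeightOneSpectrum.valuation_of_algebraMap, hint, hint]

/-- the Galois group permutes the places -/
theorem exists_sm (σ : E ≃ₐ[K] E) (P : Pl E) :
    ∃ Q : Pl E, bel K Q = bel K P ∧ ∀ x : E, Q.valuation E (σ x) = P.valuation E x := by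
  have hprime : (σ • P.asIdeal).IsPrime := inferInstance
  have hbot : σ • P.asIdeal ≠ ⊥ := by
    intro h0
    apply P.ne_bot
    have h1 : σ⁻¹ • (σ • P.asIdeal) = σ⁻¹ • (⊥ : Ideal (𝓞 E)) := by rw [h0]
    rw [inv_smul_smul] at h1
    rw [h1, eq_bot_iff]
    intro y hy
    rw [Ideal.mem_inv_pointwise_smul_iff] at hy
    rw [Ideal.mem_bot] at hy ⊢
    exact (smul_eq_zero_iff_eq σ).1 hy
  refine ⟨⟨σ • P.asIdeal, hprime, hbot⟩, ?_, hn10c_val σ P _ rfl⟩
  apply HeightOneSpectrum.ext
  ext r
  show algebraMap (𝓞 K) (𝓞 E) r ∈ σ • P.asIdeal ↔ algebraMap (𝓞 K) (𝓞 E) r ∈ P.asIdeal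
  rw [Ideal.mem_pointwise_smul_iff_inv_smul_mem]
  have h1 : σ⁻¹ • (algebraMap (𝓞 K) (𝓞 E) r) = algebraMap (𝓞 K) (𝓞 E) r := by
    apply RingOfIntegers.ext
    exact (σ⁻¹ : E ≃ₐ[K] E).commutes (r : K)
  rw [h1]

/-- the Galois group acts transitively on the places above a given place -/
theorem exists_trans [IsGalois K E] {P Q : Pl E} (h : bel K P = bel K Q) :
    ∃ σ : E ≃ₐ[K] E, ∀ x : E, Q.valuation E (σ x) = P.valuation E x := by
  have h1 : P.asIdeal.LiesOver (bel K P).asIdeal := ⟨rfl⟩
  have h2 : Q.asIdeal.LiesOver (bel K P).asIdeal := by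
    rw [h]
    exact ⟨rfl⟩
  obtain ⟨σ, hσ⟩ := Ideal.exists_smul_eq_of_isGaloisGroup (bel K P).asIdeal P.asIdeal Q.asIdeal
    (E ≃ₐ[K] E)
  exact ⟨σ, hn10c_val σ P Q hσ⟩

end Pool.Agent.Lib.MP_fdb342_lc
end

section

/-!
# Kummer extensions are unramified at good places
-/

open IsDedekindDomain NumberField

namespace Pool.Agent.Lib.MP_fdb342_lc

variable {K : Type} [Field K] [NumberField K] {E : Type} [Field E] [NumberField E] [Algebra K E]

private theorem HN10b_fixed {ζ : K} {d : Kˣ} {α : E} {σ : E ≃ₐ[K] E} (hk : Kum K ζ d E α σ)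
    {x : E} (hx : σ x = x) : ∃ y : K, algebraMap K E y = x := by
  have := hk.gal
  have : FiniteDimensional K E := Module.finite_of_finrank_pos (by rw [hk.deg]; norm_num)
  have h : x ∈ Set.range (algebraMap K E) := by
    refine (IsGalois.mem_range_algebraMap_iff_fixed x).2 ?_
    intro τ
    obtain ⟨i, rfl⟩ := hk.gen τ
    induction i with
    | zero => rfl
    | succ i ih => rw [pow_succ, AlgEquiv.mul_apply, hx, ih]
  exact h

private theorem HN10b_cube {ζ : K} {d : Kˣ} {α : E} {σ : E ≃ₐ[K] E} (hk : Kum K ζ d E α σ)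
    (x : E) : σ (σ (σ x)) = x := by
  have := hk.gal
  have : FiniteDimensional K E := Module.finite_of_finrank_pos (by rw [hk.deg]; norm_num)
  have h1 : Nat.card (E ≃ₐ[K] E) = 3 := by rw [IsGalois.card_aut_eq_finrank, hk.deg]
  have h2 : σ ^ 3 = 1 := by rw [← h1]; exact pow_card_eq_one'
  have h3 := congrArg (fun τ : E ≃ₐ[K] E => τ x) h2
  exact h3

/-- from an element of order one with good invariance we get `e = 1` -/
private theorem HN10b_disc (v : Pl K) {a : K} {e : ℕ} (h : v.valuation K a < 1) :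
    v.valuation K a ^ e ≤ WithZero.exp (-(e : ℤ)) := by
  by_cases ha : a = 0
  · rcases Nat.eq_zero_or_pos e with he | he
    · subst he; simp
    · rw [ha, map_zero, zero_pow he.ne']; exact zero_le'
  · have h1 : 0 < ordv v a := by
      have := (val_lt_iff v ha one_ne_zero).1 (by simpa using h)
      simpa using this
    rw [val_eq_exp v ha, ← WithZero.exp_nsmul, WithZero.exp_le_exp, nsmul_eq_mul]
    nlinarith [Int.natCast_nonneg e]

theorem unram {ζ : K} {d : Kˣ} {α : E} {σ : E ≃ₐ[K] E} (hk : Kum K ζ d E α σ) (P : Pl E)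
    (h3 : ¬ Above3 (bel K P)) (hd : ordv (bel K P) (d : K) = 0) (x : K) :
    P.valuation E (algebraMap K E x) = (bel K P).valuation K x := by
  classical
  obtain ⟨e, he, hval⟩ := val_bel (K := K) P
  rw [hval x]
  suffices h : e = 1 by rw [h, pow_one]
  suffices h : e ≤ 1 by omega
  -- valuations of constants
  have hv3 : (bel K P).valuation K (3 : K) = 1 := by
    refine le_antisymm ?_ (not_lt.1 h3)
    have h : (bel K P).valuation K (algebraMap (𝓞 K) K (3 : 𝓞 K)) ≤ 1 :=
      (bel K P).valuation_le_one (3 : 𝓞 K)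
    rwa [map_ofNat (algebraMap (𝓞 K) K) 3] at h
  have hP3 : P.valuation E (3 : E) = 1 := by
    have h := hval 3
    rwa [hv3, one_pow, map_ofNat (algebraMap K E) 3] at h
  have hPζ : P.valuation E (algebraMap K E ζ) = 1 := by
    have h1 : (algebraMap K E ζ) ^ 3 = 1 := by
      rw [← map_pow, hk.prim.pow_eq_one, map_one]
    have h2 := congrArg (P.valuation E) h1
    rw [map_pow, map_one] at h2
    exact (pow_eq_one_iff.1 h2).resolve_right (by norm_num)
  have hPα : P.valuation E α = 1 := by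
    have h2 := congrArg (P.valuation E) hk.pow
    rw [map_pow, hval, (val_eq_one_iff _ d.ne_zero).2 hd, one_pow] at h2
    exact (pow_eq_one_iff.1 h2).resolve_right (by norm_num)
  have hσK : ∀ y : K, σ (algebraMap K E y) = algebraMap K E y := fun y => σ.commutes y
  have hα0 : α ≠ 0 := by
    intro h
    rw [h, map_zero] at hPα
    exact zero_ne_one hPα
  have hζ0 : algebraMap K E ζ ≠ 0 := by
    intro h
    rw [h, map_zero] at hPζ
    exact zero_ne_one hPζ
  have hζ3 : (algebraMap K E ζ) ^ 3 = 1 := by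
    rw [← map_pow, hk.prim.pow_eq_one, map_one]
  have hζsum : 1 + algebraMap K E ζ + (algebraMap K E ζ) ^ 2 = 0 := by
    have h1 : 1 + ζ + ζ ^ 2 = 0 := by
      have := hk.prim.geom_sum_eq_zero (by norm_num)
      rw [Finset.sum_range_succ, Finset.sum_range_succ, Finset.sum_range_succ,
        Finset.sum_range_zero] at this
      simpa using this
    have h2 := congrArg (algebraMap K E) h1
    simpa using h2
  -- the three places
  obtain ⟨Q1, -, hQ1⟩ := exists_sm σ P
  obtain ⟨Q2, -, hQ2⟩ := exists_sm σ Q1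
  have hP1 : ∀ y : E, P.valuation E (σ y) = Q2.valuation E y := by
    intro y
    rw [← hQ1, ← hQ2, HN10b_cube hk]
  have hP2 : ∀ y : E, P.valuation E (σ (σ y)) = Q1.valuation E y := by
    intro y
    rw [hP1, hQ2]
  obtain ⟨π, hπ⟩ := P.valuation_exists_uniformizer E
  by_cases hinv : Q1 = P
  · -- `P` is invariant
    have hs1 : ∀ y : E, P.valuation E (σ y) = P.valuation E y := by
      intro y
      have := hQ1 y
      rwa [hinv] at this
    have hs2 : ∀ y : E, P.valuation E (σ (σ y)) = P.valuation E y := by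
      intro y
      rw [hs1, hs1]
    -- components
    have hcomp : ∀ y : E, P.valuation E y < 1 → σ y = y → P.valuation E y ≤ WithZero.exp (-(e : ℤ)) := by
      intro y hy hfix
      obtain ⟨a, rfl⟩ := HN10b_fixed hk hfix
      rw [hval] at hy ⊢
      refine HN10b_disc _ ?_
      by_contra hcon
      exact absurd hy (not_lt.2 (one_le_pow₀ (not_lt.1 hcon)))
    have hπ1 : P.valuation E π < 1 := by
      rw [hπ, ← WithZero.exp_zero, WithZero.exp_lt_exp]; norm_num
    obtain ⟨w, hw⟩ : ∃ w : E, w = algebraMap K E ζ := ⟨_, rfl⟩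
    rw [← hw] at hPζ hζ0 hζ3 hζsum
    have hσw : σ w = w := by rw [hw]; exact hσK ζ
    have hσα : σ α = w * α := by rw [hw]; exact hk.act
    have h30 : (3 : E) ≠ 0 := by norm_num
    have hle : ∀ s t : E, P.valuation E s = 1 → P.valuation E t = 1 →
        P.valuation E ((π + s * σ π + t * σ (σ π)) / 3) < 1 := by
      intro s t hs ht
      rw [map_div₀, hP3, div_one]
      refine Valuation.map_add_lt _ (Valuation.map_add_lt _ hπ1 ?_) ?_
      · rw [map_mul, hs, one_mul, hs1]; exact hπ1
      · rw [map_mul, ht, one_mul, hs2]; exact hπ1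
    have hw2 : P.valuation E (w ^ 2) = 1 := by rw [map_pow, hPζ, one_pow]
    -- first component
    have hA : P.valuation E ((π + 1 * σ π + 1 * σ (σ π)) / 3) ≤ WithZero.exp (-(e : ℤ)) := by
      refine hcomp _ (hle 1 1 (map_one _) (map_one _)) ?_
      rw [map_div₀, map_add, map_add, one_mul, one_mul, HN10b_cube hk]
      have : σ (3 : E) = 3 := map_ofNat σ 3
      rw [this]
      ring
    have hB : P.valuation E ((π + w ^ 2 * σ π + w * σ (σ π)) / 3) ≤ WithZero.exp (-(e : ℤ)) := by
      have h1 : P.valuation E ((π + w ^ 2 * σ π + w * σ (σ π)) / 3 / α) ≤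
          WithZero.exp (-(e : ℤ)) := by
        refine hcomp _ ?_ ?_
        · rw [map_div₀, hPα, div_one]
          exact hle _ _ hw2 hPζ
        · rw [map_div₀, map_div₀, map_add, map_add, map_mul, map_mul, map_pow, hσw, hσα,
            HN10b_cube hk, map_ofNat σ 3]
          have e1 : σ π + w ^ 2 * σ (σ π) + w * π = w * (π + w ^ 2 * σ π + w * σ (σ π)) := by
            linear_combination (- σ π) * hζ3
          rw [e1]
          field_simp
      rwa [map_div₀, hPα, div_one] at h1
    have hC : P.valuation E ((π + w * σ π + w ^ 2 * σ (σ π)) / 3) ≤ WithZero.exp (-(e : ℤ)) := by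
      have h1 : P.valuation E ((π + w * σ π + w ^ 2 * σ (σ π)) / 3 / α ^ 2) ≤
          WithZero.exp (-(e : ℤ)) := by
        refine hcomp _ ?_ ?_
        · rw [map_div₀, map_pow, hPα, one_pow, div_one]
          exact hle _ _ hPζ hw2
        · rw [map_div₀, map_div₀, map_add, map_add, map_mul, map_mul, map_pow, map_pow, hσw, hσα,
            HN10b_cube hk, map_ofNat σ 3]
          have e1 : σ π + w * σ (σ π) + w ^ 2 * π = w ^ 2 * (π + w * σ π + w ^ 2 * σ (σ π)) := by
            linear_combination (- σ π - w * σ (σ π)) * hζ3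
          rw [e1, mul_pow]
          field_simp
      rwa [map_div₀, map_pow, hPα, one_pow, div_one] at h1
    have hsum : P.valuation E π ≤ WithZero.exp (-(e : ℤ)) := by
      have e1 : π = (π + 1 * σ π + 1 * σ (σ π)) / 3 + (π + w ^ 2 * σ π + w * σ (σ π)) / 3 +
          (π + w * σ π + w ^ 2 * σ (σ π)) / 3 := by
        field_simp
        linear_combination (- σ π - σ (σ π)) * hζsum
      rw [e1]
      exact Valuation.map_add_le _ (Valuation.map_add_le _ hA hB) hC
    rw [hπ, WithZero.exp_le_exp] at hsum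
    omega
  · -- `P` is not invariant
    have hinv2 : Q2 ≠ P := by
      intro h
      apply hinv
      apply pl_ext
      intro y
      rw [← hP2, hP1, h, hP1, h]
    obtain ⟨ϖ, hϖ⟩ := approx_add (K := E) {P, Q1, Q2} (fun R => if R = P then π else 1) 2
    have hlt : (WithZero.exp (-(2 : ℤ))) < WithZero.exp (-(1 : ℤ)) := by
      rw [WithZero.exp_lt_exp]; norm_num
    have hlt1 : (WithZero.exp (-(2 : ℤ))) < (1 : WithZero (Multiplicative ℤ)) := by
      rw [← WithZero.exp_zero, WithZero.exp_lt_exp]; norm_num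
    have hϖP : P.valuation E ϖ = WithZero.exp (-1) := by
      have h := hϖ P (by simp)
      rw [if_pos rfl] at h
      have h2 : P.valuation E (ϖ - π) < P.valuation E π := by
        rw [hπ]; exact h.trans hlt
      have h5 := Valuation.map_add_eq_of_lt_left (P.valuation E) h2
      rw [add_sub_cancel] at h5
      rw [h5, hπ]
    have hone : ∀ R : Pl E, R ∈ ({P, Q1, Q2} : Finset (Pl E)) → R ≠ P → R.valuation E ϖ = 1 := by
      intro R hR hne
      have h := hϖ R hR
      rw [if_neg hne] at h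
      have h2 : R.valuation E (ϖ - 1) < R.valuation E 1 := by
        rw [map_one]; exact h.trans hlt1
      have h5 := Valuation.map_add_eq_of_lt_left (R.valuation E) h2
      rw [add_sub_cancel, map_one] at h5
      exact h5
    have hN : σ (ϖ * σ ϖ * σ (σ ϖ)) = ϖ * σ ϖ * σ (σ ϖ) := by
      rw [map_mul, map_mul, HN10b_cube hk]
      ring
    obtain ⟨a, ha⟩ := HN10b_fixed hk hN
    have h1 : P.valuation E (algebraMap K E a) = WithZero.exp (-1) := by
      rw [ha, map_mul, map_mul, hP1, hP2, hϖP, hone Q2 (by simp) hinv2, hone Q1 (by simp) hinv,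
        mul_one, mul_one]
    rw [hval] at h1
    have h2 : (bel K P).valuation K a < 1 := by
      by_contra hcon
      have h6 := one_le_pow₀ (n := e) (not_lt.1 hcon)
      rw [h1, ← WithZero.exp_zero, WithZero.exp_le_exp] at h6
      norm_num at h6
    have h3' := HN10b_disc (bel K P) (e := e) h2
    rw [h1, WithZero.exp_le_exp] at h3'
    omega

end Pool.Agent.Lib.MP_fdb342_lc
end
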