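import Pool.Agent.Lib.MP_fdb342_lc.Mg.G001

section

/-!
# Definability of the basic predicates
-/

open FirstOrder FirstOrder.Language FirstOrder.Ring

namespace Pool.Agent.Lib.MP_fdb342_lc

variable {M : Type} [CommRing M] [CompatibleRing M] {n m : ℕ}

/-- `M` is (isomorphic to) a subring of `ℂ` containing `RR D` as a definable subset. -/
structure Ctx (ι : M →+* ℂ) (D : ℕ) : Prop where
  inj : Function.Injective ι
  defR : DP1 ι fun x => x ∈ RR D
  range : ∀ x, x ∈ RR D → ∃ y, ι y = x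

variable {ι : M →+* ℂ} {D : ℕ}

lemma Ctx.ex (c : Ctx ι D) {Q : (Fin n → M) → ℂ → Prop}
    (hQ : Dfn fun v : Fin (n + 1) → M => Q (fun i => v i.castSucc) (ι (v (Fin.last n)))) :
    Dfn fun v : Fin n → M => ∃ x ∈ RR D, Q v x := Dfn.exIn c.defR c.range hQ

lemma Ctx.all (c : Ctx ι D) {Q : (Fin n → M) → ℂ → Prop}
    (hQ : Dfn fun v : Fin (n + 1) → M => Q (fun i => v i.castSucc) (ι (v (Fin.last n)))) :
    Dfn fun v : Fin n → M => ∀ x ∈ RR D, Q v x := Dfn.allIn c.defR c.range hQ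

theorem Ctx.isU (c : Ctx ι D) : DP1 ι (IsU D) := by
  intro n f hf
  refine (c.defR _ _ hf).and (c.ex (Dfn.eq c.inj ?_ ?_)) <;>
    (focus ((try dsimp only); repeat' first
      | assumption | exact Tm.one | exact Tm.zero | exact Tm.natCast _ | exact Tm.ofNat _
      | exact Tm.var _ | exact Tm.reindex (by assumption) _ | apply Tm.add | apply Tm.sub
      | apply Tm.mul | apply Tm.neg | apply Tm.pow))

theorem Ctx.dvdR (c : Ctx ι D) : DP2 ι (DvdR D) := by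
  intro n f g hf hg
  refine c.ex (Dfn.eq c.inj ?_ ?_) <;>
    (focus ((try dsimp only); repeat' first
      | assumption | exact Tm.one | exact Tm.zero | exact Tm.natCast _ | exact Tm.ofNat _
      | exact Tm.var _ | exact Tm.reindex (by assumption) _ | apply Tm.add | apply Tm.sub
      | apply Tm.mul | apply Tm.neg | apply Tm.pow))

theorem Ctx.comax (c : Ctx ι D) : DP2 ι (Comax D) := by
  intro n f g hf hg
  refine c.ex (c.ex (Dfn.eq c.inj ?_ ?_)) <;>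
    (focus ((try dsimp only); repeat' first
      | assumption | exact Tm.one | exact Tm.zero | exact Tm.natCast _ | exact Tm.ofNat _
      | exact Tm.var _ | exact Tm.reindex (by assumption) _ | apply Tm.add | apply Tm.sub
      | apply Tm.mul | apply Tm.neg | apply Tm.pow))

theorem Ctx.inM (c : Ctx ι D) : DP1 ι (InM D) := by
  intro n f hf
  refine (c.defR _ _ hf).and (c.all (c.all (Dfn.imp (Dfn.ne c.inj ?_ ?_)
    (Dfn.imp (Dfn.ne c.inj ?_ ?_) (Dfn.imp (c.comax _ _ _ ?_ ?_)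
      (c.ex ((c.isU _ _ ?_).and ((c.dvdR _ _ _ ?_ ?_).and (c.dvdR _ _ _ ?_ ?_))))))))) <;>
    (focus ((try dsimp only); repeat' first
      | assumption | exact Tm.one | exact Tm.zero | exact Tm.natCast _ | exact Tm.ofNat _
      | exact Tm.var _ | exact Tm.reindex (by assumption) _ | apply Tm.add | apply Tm.sub
      | apply Tm.mul | apply Tm.neg | apply Tm.pow))

/-- `InA` is definable -/
theorem Ctx.inA (c : Ctx ι D) (h : ∀ w, InM D w ↔ InA w) : DP1 ι InA := by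
  intro n f hf
  exact (c.inM _ _ hf).congr fun v => (h _).symm

theorem Ctx.mem1 (c : Ctx ι D) (h : ∀ w, InM D w ↔ InA w) : DP2 ι (Mem1 D) := by
  intro n f g hf hg
  refine (c.inA h _ _ ?_).and (c.dvdR _ _ _ ?_ ?_) <;>
    (focus ((try dsimp only); repeat' first
      | assumption | exact Tm.one | exact Tm.zero | exact Tm.natCast _ | exact Tm.ofNat _
      | exact Tm.var _ | exact Tm.reindex (by assumption) _ | apply Tm.add | apply Tm.sub
      | apply Tm.mul | apply Tm.neg | apply Tm.pow))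

theorem Ctx.mem3 (c : Ctx ι D) (h : ∀ w, InM D w ↔ InA w) : DP5 ι (Mem3 D) := by
  intro n f g a b d hf hg ha hb hd
  refine (c.inA h _ _ ?_).and ((c.inA h _ _ ?_).and ((c.inA h _ _ ?_).and
    (c.dvdR _ _ _ ?_ ?_))) <;>
    (focus ((try dsimp only); repeat' first
      | assumption | exact Tm.one | exact Tm.zero | exact Tm.natCast _ | exact Tm.ofNat _
      | exact Tm.var _ | exact Tm.reindex (by assumption) _ | apply Tm.add | apply Tm.sub
      | apply Tm.mul | apply Tm.neg | apply Tm.pow))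

theorem Ctx.bijC (c : Ctx ι D) (h : ∀ w, InM D w ↔ InA w) : DP4 ι (BijC D) := by
  intro n f g a b hf hg ha hb
  refine Dfn.and (c.all (Dfn.imp (c.mem1 h _ _ _ ?_ ?_) (c.ex (Dfn.and (c.mem1 h _ _ _ ?_ ?_)
      (c.mem3 h _ _ _ _ _ _ ?_ ?_ ?_ ?_ ?_))))) (Dfn.and (c.all (Dfn.imp (c.mem1 h _ _ _ ?_ ?_)
      (c.ex (Dfn.and (c.mem1 h _ _ _ ?_ ?_)
      (c.mem3 h _ _ _ _ _ _ ?_ ?_ ?_ ?_ ?_))))) (Dfn.and (c.all (c.all (c.all
      (Dfn.imp (c.mem1 h _ _ _ ?_ ?_) (Dfn.imp (c.mem1 h _ _ _ ?_ ?_)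
      (Dfn.imp (c.mem1 h _ _ _ ?_ ?_) (Dfn.imp (c.mem3 h _ _ _ _ _ _ ?_ ?_ ?_ ?_ ?_)
      (Dfn.imp (c.mem3 h _ _ _ _ _ _ ?_ ?_ ?_ ?_ ?_) (Dfn.eq c.inj ?_ ?_)))))))))
      (c.all (c.all (c.all
      (Dfn.imp (c.mem1 h _ _ _ ?_ ?_) (Dfn.imp (c.mem1 h _ _ _ ?_ ?_)
      (Dfn.imp (c.mem1 h _ _ _ ?_ ?_) (Dfn.imp (c.mem3 h _ _ _ _ _ _ ?_ ?_ ?_ ?_ ?_)
      (Dfn.imp (c.mem3 h _ _ _ _ _ _ ?_ ?_ ?_ ?_ ?_) (Dfn.eq c.inj ?_ ?_))))))))))) <;>
    (focus ((try dsimp only); repeat' first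
      | assumption | exact Tm.one | exact Tm.zero | exact Tm.natCast _ | exact Tm.ofNat _
      | exact Tm.var _ | exact Tm.reindex (by assumption) _ | apply Tm.add | apply Tm.sub
      | apply Tm.mul | apply Tm.neg | apply Tm.pow))

theorem Ctx.eqC (c : Ctx ι D) (h : ∀ w, InM D w ↔ InA w) : DP2 ι (EqC D) := by
  intro n f g hf hg
  refine c.ex (c.ex (c.bijC h _ _ _ _ _ ?_ ?_ ?_ ?_)) <;>
    (focus ((try dsimp only); repeat' first
      | assumption | exact Tm.one | exact Tm.zero | exact Tm.natCast _ | exact Tm.ofNat _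
      | exact Tm.var _ | exact Tm.reindex (by assumption) _ | apply Tm.add | apply Tm.sub
      | apply Tm.mul | apply Tm.neg | apply Tm.pow))

theorem Ctx.addC (c : Ctx ι D) (h : ∀ w, InM D w ↔ InA w) : DP3 ι (AddC D) := by
  intro n f g k hf hg hk
  refine c.ex (c.ex (Dfn.and (Dfn.ne c.inj ?_ ?_) (Dfn.and (Dfn.ne c.inj ?_ ?_)
    (Dfn.and (c.eqC h _ _ _ ?_ ?_) (Dfn.and (c.eqC h _ _ _ ?_ ?_)
    (c.all (Dfn.and (Dfn.iff (c.mem1 h _ _ _ ?_ ?_) (Dfn.or (c.mem1 h _ _ _ ?_ ?_)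
      (c.mem1 h _ _ _ ?_ ?_))) (Dfn.not (Dfn.and (c.mem1 h _ _ _ ?_ ?_)
      (c.mem1 h _ _ _ ?_ ?_)))))))))) <;>
    (focus ((try dsimp only); repeat' first
      | assumption | exact Tm.one | exact Tm.zero | exact Tm.natCast _ | exact Tm.ofNat _
      | exact Tm.var _ | exact Tm.reindex (by assumption) _ | apply Tm.add | apply Tm.sub
      | apply Tm.mul | apply Tm.neg | apply Tm.pow))

theorem Ctx.mulC (c : Ctx ι D) (h : ∀ w, InM D w ↔ InA w) : DP3 ι (MulC D) := by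
  intro n f g k hf hg hk
  refine c.ex (c.ex (Dfn.and (c.all (c.all (Dfn.imp (c.mem1 h _ _ _ ?_ ?_)
    (Dfn.imp (c.mem1 h _ _ _ ?_ ?_) (c.ex (Dfn.and (c.mem1 h _ _ _ ?_ ?_)
    (c.mem3 h _ _ _ _ _ _ ?_ ?_ ?_ ?_ ?_)))))))
    (Dfn.and (c.all (Dfn.imp (c.mem1 h _ _ _ ?_ ?_) (c.ex (c.ex (Dfn.and (c.mem1 h _ _ _ ?_ ?_)
    (Dfn.and (c.mem1 h _ _ _ ?_ ?_) (c.mem3 h _ _ _ _ _ _ ?_ ?_ ?_ ?_ ?_)))))))
    (Dfn.and (c.all (c.all (c.all (c.all (Dfn.imp (c.mem1 h _ _ _ ?_ ?_)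
    (Dfn.imp (c.mem1 h _ _ _ ?_ ?_) (Dfn.imp (c.mem1 h _ _ _ ?_ ?_)
    (Dfn.imp (c.mem1 h _ _ _ ?_ ?_) (Dfn.imp (c.mem3 h _ _ _ _ _ _ ?_ ?_ ?_ ?_ ?_)
    (Dfn.imp (c.mem3 h _ _ _ _ _ _ ?_ ?_ ?_ ?_ ?_) (Dfn.eq c.inj ?_ ?_)))))))))))
    (c.all (c.all (c.all (c.all (c.all (Dfn.imp (c.mem1 h _ _ _ ?_ ?_)
    (Dfn.imp (c.mem1 h _ _ _ ?_ ?_) (Dfn.imp (c.mem1 h _ _ _ ?_ ?_)
    (Dfn.imp (c.mem1 h _ _ _ ?_ ?_) (Dfn.imp (c.mem1 h _ _ _ ?_ ?_)
    (Dfn.imp (c.mem3 h _ _ _ _ _ _ ?_ ?_ ?_ ?_ ?_)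
    (Dfn.imp (c.mem3 h _ _ _ _ _ _ ?_ ?_ ?_ ?_ ?_) (Dfn.and (Dfn.eq c.inj ?_ ?_)
      (Dfn.eq c.inj ?_ ?_)))))))))))))))))) <;>
    (focus ((try dsimp only); repeat' first
      | assumption | exact Tm.one | exact Tm.zero | exact Tm.natCast _ | exact Tm.ofNat _
      | exact Tm.var _ | exact Tm.reindex (by assumption) _ | apply Tm.add | apply Tm.sub
      | apply Tm.mul | apply Tm.neg | apply Tm.pow))

end Pool.Agent.Lib.MP_fdb342_lc
end

section

/-!
# Definability of the set `QQ`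
-/

open FirstOrder FirstOrder.Language FirstOrder.Ring

namespace Pool.Agent.Lib.MP_fdb342_lc

variable {M : Type} [CommRing M] [CompatibleRing M] {n : ℕ}

/-- triples of terms -/
def Tm3 (ι : M →+* ℂ) (f : (Fin n → M) → ℂ × ℂ × ℂ) : Prop :=
  (Tm ι fun v => (f v).1) ∧ (Tm ι fun v => (f v).2.1) ∧ Tm ι fun v => (f v).2.2

lemma Tm3.mulA {ι : M →+* ℂ} {x t : (Fin n → M) → ℂ} {f g : (Fin n → M) → ℂ × ℂ × ℂ}
    (hx : Tm ι x) (ht : Tm ι t) (hf : Tm3 ι f) (hg : Tm3 ι g) :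
    Tm3 ι fun v => mulA (x v) (t v) (f v) (g v) := by
  obtain ⟨f1, f2, f3⟩ := hf
  obtain ⟨g1, g2, g3⟩ := hg
  refine ⟨?_, ?_, ?_⟩
  · exact ((f1.mul g1).add ((f2.mul g3).add (f3.mul g2))).add (hx.mul (f3.mul g3))
  · exact (((f1.mul g2).add (f2.mul g1)).sub (ht.mul ((f2.mul g3).add (f3.mul g2)))).add
      ((Tm.one.sub (hx.mul ht)).mul (f3.mul g3))
  · exact ((((f1.mul g3).add (f2.mul g2)).add (f3.mul g1)).add
      (hx.mul ((f2.mul g3).add (f3.mul g2)))).add (((hx.pow 2).sub ht).mul (f3.mul g3))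

lemma Tm3.smA {ι : M →+* ℂ} {x : (Fin n → M) → ℂ} {f : (Fin n → M) → ℂ × ℂ × ℂ}
    (hx : Tm ι x) (hf : Tm3 ι f) : Tm3 ι fun v => smA (x v) (f v) :=
  ⟨hx.mul hf.1, hx.mul hf.2.1, hx.mul hf.2.2⟩

lemma Tm3.addA {ι : M →+* ℂ} {f g : (Fin n → M) → ℂ × ℂ × ℂ}
    (hf : Tm3 ι f) (hg : Tm3 ι g) : Tm3 ι fun v => addA (f v) (g v) :=
  ⟨hf.1.add hg.1, hf.2.1.add hg.2.1, hf.2.2.add hg.2.2⟩

lemma Tm3.nfA {ι : M →+* ℂ} {x t a : (Fin n → M) → ℂ} {f g h : (Fin n → M) → ℂ × ℂ × ℂ}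
    (hx : Tm ι x) (ht : Tm ι t) (ha : Tm ι a) (hf : Tm3 ι f) (hg : Tm3 ι g) (hh : Tm3 ι h) :
    Tm3 ι fun v => nfA (x v) (t v) (a v) (f v) (g v) (h v) := by
  have h3 : Tm ι fun v : Fin n → M => (-3 : ℂ) * a v := (Tm.ofNat 3).neg.mul ha
  exact (Tm3.mulA hx ht hf (Tm3.mulA hx ht hf hf)).addA
    ((Tm3.smA ha (Tm3.mulA hx ht hg (Tm3.mulA hx ht hg hg))).addA
    ((Tm3.smA (ha.pow 2) (Tm3.mulA hx ht hh (Tm3.mulA hx ht hh hh))).addA
    (Tm3.smA h3 (Tm3.mulA hx ht hf (Tm3.mulA hx ht hg hh)))))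

lemma Dfn.eq3 {ι : M →+* ℂ} (hι : Function.Injective ι) {f g : (Fin n → M) → ℂ × ℂ × ℂ}
    (hf : Tm3 ι f) (hg : Tm3 ι g) : Dfn fun v => f v = g v :=
  ((Dfn.eq hι hf.1 hg.1).and ((Dfn.eq hι hf.2.1 hg.2.1).and (Dfn.eq hι hf.2.2 hg.2.2))).congr
    fun v => by rw [Prod.ext_iff, Prod.ext_iff]

theorem dfn_Spl (ι : M →+* ℂ) (hι : Function.Injective ι) (hr : ∀ x, x ∈ Omega ↔ ∃ y, ι y = x) :
    DP4 ι Spl := by
  have hR : DP1 ι (· ∈ Omega) := by
    rintro n f ⟨t, ht⟩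
    refine ⟨⊤, fun v => ?_⟩
    simp only [Formula.realize_top, true_iff]
    rw [hr, ← ht]
    exact ⟨_, rfl⟩
  have hRM : ∀ x, x ∈ Omega → ∃ y, ι y = x := fun x => (hr x).1
  intro n f g h k hf hg hh hk
  unfold Spl
  refine Dfn.exIn hR hRM (Dfn.exIn hR hRM (Dfn.exIn hR hRM (Dfn.exIn hR hRM (Dfn.exIn hR hRM
    (Dfn.exIn hR hRM (Dfn.exIn hR hRM (Dfn.exIn hR hRM (Dfn.exIn hR hRM
    (Dfn.eq3 hι (Tm3.nfA ?_ ?_ ?_ ⟨?_, ?_, ?_⟩ ⟨?_, ?_, ?_⟩ ⟨?_, ?_, ?_⟩) ⟨?_, ?_, ?_⟩)))))))))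
  all_goals
    dsimp only
    first
    | exact Tm.var _
    | exact Tm.zero
    | exact Tm.reindex (by assumption) _

theorem dfn_QQ (ι : M →+* ℂ) (hι : Function.Injective ι) (hr : ∀ x, x ∈ Omega ↔ ∃ y, ι y = x) :
    DP1 ι QQ := by
  have hR : DP1 ι (· ∈ Omega) := by
    rintro n f ⟨t, ht⟩
    refine ⟨⊤, fun v => ?_⟩
    simp only [Formula.realize_top, true_iff]
    rw [hr, ← ht]
    exact ⟨_, rfl⟩
  have hRM : ∀ x, x ∈ Omega → ∃ y, ι y = x := fun x => (hr x).1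
  intro n f hf
  unfold QQ
  refine (hR _ _ hf).and (Dfn.allIn hR hRM (Dfn.allIn hR hRM (Dfn.allIn hR hRM
    (Dfn.imp (Dfn.ne hι ?_ ?_) (Dfn.imp (Dfn.or (Dfn.eq hι ?_ ?_) (Dfn.eq hι ?_ ?_))
    (Dfn.exIn hR hRM (dfn_Spl ι hι hr _ _ _ _ _ ?_ ?_ ?_ ?_)))))))
  all_goals
    (focus ((try dsimp only); repeat' first
      | assumption | exact Tm.one | exact Tm.zero | exact Tm.natCast _ | exact Tm.ofNat _
      | exact Tm.var _ | exact Tm.reindex (by assumption) _ | apply Tm.add | apply Tm.sub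
      | apply Tm.mul | apply Tm.neg | apply Tm.pow))

end Pool.Agent.Lib.MP_fdb342_lc
end

section

/-!
# Square root descent for units
-/

namespace Pool.Agent.Lib.MP_fdb342_lc

/-- If a unit `n` is a square modulo `m`, then it is the square of a unit modulo `m`. -/
theorem descent_sq {D : ℕ} (hD : D ≠ 0) {w m n : ℂ} (hw : w ∈ RR D) (hm : m ∈ RR D) (hm0 : m ≠ 0)
    (hn : IsU D n) (h : DvdR D m (n - w ^ 2)) : ∃ u, IsU D u ∧ DvdR D m (u - w) := by
  obtain ⟨hnR, n', hn', hnn⟩ := hn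
  obtain ⟨c, hc, hcm⟩ := h
  obtain ⟨s, hs⟩ : ∃ s : ℂ, s = -c * n' := ⟨_, rfl⟩
  obtain ⟨v', hv'⟩ : ∃ v' : ℂ, v' = w * n' * (1 - m * s) := ⟨_, rfl⟩
  obtain ⟨t, ht⟩ : ∃ t : ℂ, t = v' * (w ^ 2 + n) := ⟨_, rfl⟩
  have hsR : s ∈ RR D := by
    rw [hs]
    exact mul_mem (neg_mem hc) hn'
  have hv'R : v' ∈ RR D := by
    rw [hv']
    exact mul_mem (mul_mem hw hn') (sub_mem (one_mem _) (mul_mem hm hsR))
  have htR : t ∈ RR D := by
    rw [ht]
    exact mul_mem hv'R (add_mem (pow_mem hw 2) hnR)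
  have h2R : (2 : ℂ) ∈ RR D := by
    have := add_mem (one_mem (RR D)) (one_mem (RR D))
    rwa [one_add_one_eq_two] at this
  have e1 : w * v' = 1 - m ^ 2 * s ^ 2 := by
    have : w ^ 2 * n' = 1 + m * s := by
      have h1 : w ^ 2 = n - m * c := by rw [← hcm]; ring
      rw [h1, hs]
      linear_combination hnn
    rw [hv']
    linear_combination (1 - m * s) * this
  have e2 : w ^ 2 - t * w + n = m ^ 2 * (s ^ 2 * (w ^ 2 + n)) := by
    rw [ht]
    linear_combination (-(w ^ 2 + n)) * e1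
  have e3 : 2 * w - t = m * (2 * w * m * s ^ 2 - c * v') := by
    rw [ht]
    have h1 : n = w ^ 2 + m * c := by rw [← hcm]; ring
    rw [h1]
    linear_combination (-2 * w) * e1
  obtain ⟨δ, hδ⟩ : ∃ δ : ℂ, δ ^ 2 = t ^ 2 - 4 * n :=
    IsAlgClosed.exists_pow_nat_eq _ two_pos
  obtain ⟨u, hu⟩ : ∃ u : ℂ, u = (t + δ) / 2 := ⟨_, rfl⟩
  have hroot : u ^ 2 + (-t) * u + n = 0 := by
    rw [hu]
    linear_combination (1 / 4) * hδ
  have huR : u ∈ RR D := RR_quad hD (neg_mem htR) hnR hroot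
  refine ⟨u, ⟨huR, (t - u) * n', mul_mem (sub_mem htR huR) hn', ?_⟩, ?_⟩
  · linear_combination hnn - n' * hroot
  · refine ⟨(u - w) / m, ?_, by field_simp⟩
    refine RR_quad (s := 2 * w * m * s ^ 2 - c * v') (t := s ^ 2 * (w ^ 2 + n)) hD ?_ ?_ ?_
    · exact sub_mem (mul_mem (mul_mem (mul_mem h2R hw) hm) (pow_mem hsR 2)) (mul_mem hc hv'R)
    · exact mul_mem (pow_mem hsR 2) (add_mem (pow_mem hw 2) hnR)
    · have h0 : m ^ 2 * (((u - w) / m) ^ 2 + (2 * w * m * s ^ 2 - c * v') * ((u - w) / m) +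
          s ^ 2 * (w ^ 2 + n)) = 0 := by
        have h1 : m * ((u - w) / m) = u - w := by field_simp
        calc m ^ 2 * (((u - w) / m) ^ 2 + (2 * w * m * s ^ 2 - c * v') * ((u - w) / m) +
              s ^ 2 * (w ^ 2 + n))
            = (m * ((u - w) / m)) ^ 2 + (m * (2 * w * m * s ^ 2 - c * v')) * (m * ((u - w) / m))
                + m ^ 2 * (s ^ 2 * (w ^ 2 + n)) := by ring
          _ = (u - w) ^ 2 + (2 * w - t) * (u - w) + (w ^ 2 - t * w + n) := by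
              rw [h1, ← e3, ← e2]
          _ = u ^ 2 + (-t) * u + n := by ring
          _ = 0 := hroot
      rcases mul_eq_zero.1 h0 with h | h
      · exact absurd h (pow_ne_zero 2 hm0)
      · exact h

theorem descent {D : ℕ} (hD : D ≠ 0) {x m : ℂ} (hx : x ∈ RR D) (hm : m ∈ RR D) (hm0 : m ≠ 0)
    (k : ℕ) (h : DvdR D m (x ^ (2 ^ k) - 1)) : ∃ u, IsU D u ∧ DvdR D m (u - x) := by
  induction k generalizing x with
  | zero =>
    obtain ⟨c, hc, hcm⟩ := h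
    refine ⟨1, ⟨one_mem _, 1, one_mem _, one_mul 1⟩, -c, neg_mem hc, ?_⟩
    rw [pow_zero, pow_one] at hcm
    linear_combination -hcm
  | succ k ih =>
    have h' : DvdR D m ((x ^ 2) ^ (2 ^ k) - 1) := by
      rw [← pow_mul, ← pow_succ']
      exact h
    obtain ⟨n, hn, hnx⟩ := ih (pow_mem hx 2) h'
    exact descent_sq hD hx hm hm0 hn hnx

end Pool.Agent.Lib.MP_fdb342_lc
end

section

/-!
# Roots of unity of `2`-power order satisfy the definition `InM`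
-/

namespace Pool.Agent.Lib.MP_fdb342_lc

private theorem c1_pow_sub_pow {D : ℕ} {x w : ℂ} (hx : x ∈ RR D) (hw : w ∈ RR D) (n : ℕ) :
    ∃ q ∈ RR D, x ^ n - w ^ n = (x - w) * q := by
  obtain ⟨q, hq⟩ := sub_dvd_pow_sub_pow (⟨x, hx⟩ : RR D) (⟨w, hw⟩ : RR D) n
  refine ⟨q, q.2, ?_⟩
  have := congrArg (Subtype.val : RR D → ℂ) hq
  simpa using this

theorem inM_of_inA {D : ℕ} (hD : D ≠ 0) {w : ℂ} (hw : InA w) : InM D w := by
  have hwR : w ∈ RR D := inA_mem_RR hw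
  refine ⟨hwR, ?_⟩
  rintro m hm m' hm' hm0 hm0' ⟨a, ha, b, hb, hab⟩
  obtain ⟨k, hk⟩ := hw
  have hx : w * b * m' + a * m ∈ RR D :=
    (RR D).add_mem ((RR D).mul_mem ((RR D).mul_mem hwR hb) hm') ((RR D).mul_mem ha hm)
  set x : ℂ := w * b * m' + a * m with hxdef
  have e1 : x - w = m * (a - w * a) := by
    rw [hxdef]; linear_combination w * hab
  have e2 : x - 1 = m' * (w * b - b) := by
    rw [hxdef]; linear_combination hab
  have h1 : a - w * a ∈ RR D := (RR D).sub_mem ha ((RR D).mul_mem hwR ha)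
  have h2 : w * b - b ∈ RR D := (RR D).sub_mem ((RR D).mul_mem hwR hb) hb
  obtain ⟨q, hq, hq'⟩ := c1_pow_sub_pow hx hwR (2 ^ k)
  obtain ⟨r, hr, hr'⟩ := c1_pow_sub_pow hx (RR D).one_mem (2 ^ k)
  rw [hk, e1] at hq'
  rw [one_pow, e2] at hr'
  have hdvd : DvdR D (m * m') (x ^ (2 ^ k) - 1) := by
    refine ⟨a * ((w * b - b) * r) + b * ((a - w * a) * q), ?_, ?_⟩
    · exact (RR D).add_mem ((RR D).mul_mem ha ((RR D).mul_mem h2 hr))
        ((RR D).mul_mem hb ((RR D).mul_mem h1 hq))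
    · calc x ^ (2 ^ k) - 1 = (a * m + b * m') * (x ^ (2 ^ k) - 1) := by rw [hab, one_mul]
        _ = a * m * (x ^ (2 ^ k) - 1) + b * m' * (x ^ (2 ^ k) - 1) := by ring
        _ = a * m * (m' * (w * b - b) * r) + b * m' * (m * (a - w * a) * q) := by
            nth_rewrite 1 [hr']
            rw [hq']
        _ = m * m' * (a * ((w * b - b) * r) + b * ((a - w * a) * q)) := by ring
  obtain ⟨u, hu, c, hc, hcu⟩ := descent hD hx ((RR D).mul_mem hm hm') (mul_ne_zero hm0 hm0') k hdvd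
  refine ⟨u, hu.1, hu, ⟨m' * c + (a - w * a), ?_, ?_⟩, ⟨m * c + (w * b - b), ?_, ?_⟩⟩
  · exact (RR D).add_mem ((RR D).mul_mem hm' hc) h1
  · linear_combination hcu + e1
  · exact (RR D).add_mem ((RR D).mul_mem hm hc) h2
  · linear_combination hcu + e2

end Pool.Agent.Lib.MP_fdb342_lc
end

section

/-!
# Norms of congruent units
-/

namespace Pool.Agent.Lib.MP_fdb342_lc

/-- automorphisms of a good field preserve `RR D` -/
theorem norm_aut_mem {D : ℕ} {L : IntermediateField ℚ ℂ} (hL : Good L) (σ : L ≃ₐ[ℚ] L) {x : L}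
    (hx : (x : ℂ) ∈ RR D) : ((σ x : L) : ℂ) ∈ RR D := by
  obtain ⟨_, k, hk⟩ := hx
  refine ⟨hL.le_Omega (σ x).2, k, ?_⟩
  have h1 : IsIntegral ℤ ((D : L) ^ k * x) := by
    have h := (isIntegral_algHom_iff (L.val.restrictScalars ℤ : L →ₐ[ℤ] ℂ) L.val.injective
      (x := (D : L) ^ k * x))
    refine h.1 ?_
    convert hk using 1
    simp
  have h2 := h1.map (σ.toAlgHom.restrictScalars ℤ : L →ₐ[ℤ] L)
  have h3 := h2.map (L.val.restrictScalars ℤ : L →ₐ[ℤ] ℂ)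
  convert h3 using 1
  simp

theorem norm_isU_prod {D : ℕ} {ι : Type*} (s : Finset ι) (a : ι → ℂ) (h : ∀ i ∈ s, IsU D (a i)) :
    IsU D (∏ i ∈ s, a i) := by
  classical
  induction s using Finset.induction_on with
  | empty => exact ⟨by simp, 1, one_mem _, by simp⟩
  | insert i s hi ih =>
    rw [Finset.prod_insert hi]
    obtain ⟨h1, c, hc, h2⟩ := h i (Finset.mem_insert_self _ _)
    obtain ⟨h3, d, hd, h4⟩ := ih fun j hj => h j (Finset.mem_insert_of_mem hj)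
    refine ⟨mul_mem h1 h3, c * d, mul_mem hc hd, ?_⟩
    calc _ = (a i * c) * ((∏ i ∈ s, a i) * d) := by ring
      _ = 1 := by rw [h2, h4, one_mul]

theorem norm_dvd_prod {D : ℕ} {ι : Type*} (s : Finset ι) (a : ι → ℂ) {m w : ℂ} (hw : w ∈ RR D)
    (ha : ∀ i ∈ s, a i ∈ RR D) (h : ∀ i ∈ s, DvdR D m (a i - w)) :
    DvdR D m (∏ i ∈ s, a i - w ^ s.card) := by
  classical
  induction s using Finset.induction_on with
  | empty => exact ⟨0, zero_mem _, by simp⟩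
  | insert i s hi ih =>
    rw [Finset.prod_insert hi, Finset.card_insert_of_notMem hi]
    obtain ⟨c, hc, h2⟩ := h i (Finset.mem_insert_self _ _)
    obtain ⟨d, hd, h4⟩ := ih (fun j hj => ha j (Finset.mem_insert_of_mem hj))
      fun j hj => h j (Finset.mem_insert_of_mem hj)
    refine ⟨c * ∏ i ∈ s, a i + w * d, ?_, ?_⟩
    · exact add_mem (mul_mem hc (prod_mem fun j hj => ha j (Finset.mem_insert_of_mem hj)))
        (mul_mem hw hd)
    · calc _ = (a i - w) * ∏ i ∈ s, a i + w * (∏ i ∈ s, a i - w ^ s.card) := by ring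
        _ = _ := by rw [h2, h4]; ring

theorem norm_down {D : ℕ} {K : IntermediateField ℚ ℂ} (hK : Good K) {w m m' u : ℂ}
    (hwK : w ∈ K) (hw : w ∈ RR D) (hmK : m ∈ K) (hm : m ∈ RR D) (hmK' : m' ∈ K)
    (hm' : m' ∈ RR D) (hu : IsU D u) (h : DvdR D m (u - w)) (h' : DvdR D m' (u - 1)) :
    ∃ (j : ℕ) (e : ℂ), e ∈ K ∧ IsU D e ∧ DvdR D m (e - w ^ (2 ^ j)) ∧ DvdR D m' (e - 1) := by
  classical
  obtain ⟨huR, v, hvR, huv⟩ := hu
  obtain ⟨K₂, hK₂, huK₂⟩ := IsConstructible.exists_good huR.1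
  obtain ⟨L, hL, hKL, hK₂L⟩ : ∃ L : IntermediateField ℚ ℂ, Good L ∧ K ≤ L ∧ K₂ ≤ L :=
    ⟨K ⊔ K₂, good_sup hK hK₂, le_sup_left, le_sup_right⟩
  haveI := hL.1
  haveI := hL.finiteDimensional
  have huL : u ∈ L := hK₂L huK₂
  have hu0 : u ≠ 0 := fun h0 => by rw [h0, zero_mul] at huv; exact zero_ne_one huv
  have hv : v = u⁻¹ := by
    rw [eq_comm, inv_eq_iff_eq_inv, eq_comm]
    exact inv_eq_of_mul_eq_one_left huv
  have hvL : v ∈ L := by
    rw [hv]
    exact inv_mem huL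
  -- `K` as a subfield of `L`
  let K' : IntermediateField ℚ L := IntermediateField.restrict hKL
  have hK' : ∀ x : L, x ∈ K' ↔ (x : ℂ) ∈ K := fun x => IntermediateField.mem_restrict hKL x
  let H : Subgroup (L ≃ₐ[ℚ] L) := K'.fixingSubgroup
  have hfix : ∀ (σ : H) (x : L), (x : ℂ) ∈ K → (σ : L ≃ₐ[ℚ] L) x = x := fun σ x hx =>
    (IntermediateField.mem_fixingSubgroup_iff _ _).1 σ.2 x ((hK' x).2 hx)
  haveI : Fintype H := Fintype.ofFinite H
  have hcard : ∃ j, Fintype.card H = 2 ^ j := by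
    obtain ⟨n, hn⟩ := hL.2
    have h1 : Nat.card (L ≃ₐ[ℚ] L) = 2 ^ n := by
      rw [IsGalois.card_aut_eq_finrank, hn]
    have h2 : Nat.card H ∣ 2 ^ n := by
      rw [← h1]
      exact Subgroup.card_subgroup_dvd_card H
    obtain ⟨j, _, hj⟩ := (Nat.dvd_prime_pow Nat.prime_two).1 h2
    exact ⟨j, by rw [← Nat.card_eq_fintype_card, hj]⟩
  obtain ⟨j, hj⟩ := hcard
  let uL : L := ⟨u, huL⟩
  let vL : L := ⟨v, hvL⟩
  -- the conjugates
  have hconj : ∀ σ : H, IsU D (((σ : L ≃ₐ[ℚ] L) uL : L) : ℂ) := by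
    intro σ
    refine ⟨norm_aut_mem hL _ huR, (((σ : L ≃ₐ[ℚ] L) vL : L) : ℂ), norm_aut_mem hL _ hvR, ?_⟩
    have h1 : uL * vL = 1 := Subtype.ext huv
    have h2 := congrArg (fun x : L => (((σ : L ≃ₐ[ℚ] L) x : L) : ℂ)) h1
    simpa using h2
  have hdvd : ∀ (a b : ℂ) (ha : a ∈ K) (hb : b ∈ K), DvdR D a (u - b) → ∀ σ : H,
      DvdR D a ((((σ : L ≃ₐ[ℚ] L) uL : L) : ℂ) - b) := by
    rintro a b ha hb ⟨c, hc, hcu⟩ σ
    by_cases ha0 : a = 0
    · rw [ha0, zero_mul, sub_eq_zero] at hcu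
      refine ⟨0, zero_mem _, ?_⟩
      have h1 : (σ : L ≃ₐ[ℚ] L) uL = uL := hfix σ uL (by change u ∈ K; rw [hcu]; exact hb)
      rw [h1]
      change u - b = _
      rw [hcu]
      ring
    · have hcL : c ∈ L := by
        have : c = (u - b) / a := by
          rw [hcu]
          field_simp
        rw [this]
        exact div_mem (sub_mem huL (hKL hb)) (hKL ha)
      refine ⟨(((σ : L ≃ₐ[ℚ] L) ⟨c, hcL⟩ : L) : ℂ), norm_aut_mem hL _ hc, ?_⟩
      have h1 : uL - ⟨b, hKL hb⟩ = ⟨a, hKL ha⟩ * ⟨c, hcL⟩ := Subtype.ext hcu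
      have h2 := congrArg (fun x : L => (σ : L ≃ₐ[ℚ] L) x) h1
      simp only [map_sub, map_mul] at h2
      rw [hfix σ ⟨b, hKL hb⟩ hb, hfix σ ⟨a, hKL ha⟩ ha] at h2
      have h3 := congrArg (fun x : L => (x : ℂ)) h2
      simpa using h3
  refine ⟨j, ∏ σ : H, (((σ : L ≃ₐ[ℚ] L) uL : L) : ℂ), ?_, norm_isU_prod _ _ fun σ _ => hconj σ,
    ?_, ?_⟩
  · have h1 : (∏ σ : H, (σ : L ≃ₐ[ℚ] L) uL) ∈ K' := by
      rw [← IsGalois.fixedField_fixingSubgroup K', IntermediateField.mem_fixedField_iff]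
      intro τ hτ
      rw [map_prod]
      refine Fintype.prod_bijective (fun σ : H => (⟨τ, hτ⟩ : H) * σ)
        (Group.mulLeft_bijective _) _ _ fun σ => ?_
      rfl
    have h2 := (hK' _).1 h1
    simpa using h2
  · have h1 := norm_dvd_prod (Finset.univ : Finset H)
      (fun σ => (((σ : L ≃ₐ[ℚ] L) uL : L) : ℂ)) hw (fun σ _ => (hconj σ).1)
      fun σ _ => hdvd m w hmK hwK h σ
    rwa [Finset.card_univ, hj] at h1
  · have h1 := norm_dvd_prod (Finset.univ : Finset H)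
      (fun σ => (((σ : L ≃ₐ[ℚ] L) uL : L) : ℂ)) (one_mem (RR D)) (fun σ _ => (hconj σ).1)
      fun σ _ => hdvd m' 1 hmK' (one_mem K) h' σ
    rwa [one_pow] at h1

end Pool.Agent.Lib.MP_fdb342_lc
end

section

/-!
# The group `UK D K` is finitely generated
-/

open IsDedekindDomain NumberField

namespace Pool.Agent.Lib.MP_fdb342_lc

/-- a number field element which is a unit at every prime comes from a unit of the integers -/
private theorem UK1_exists_unit {K : Type*} [Field K] [NumberField K] (x : Kˣ)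
    (h : ∀ v : HeightOneSpectrum (𝓞 K), v.valuation K (x : K) = 1) :
    ∃ u : (𝓞 K)ˣ, Units.map (algebraMap (𝓞 K) K : 𝓞 K →* K) u = x := by
  obtain ⟨a, ha⟩ := HeightOneSpectrum.mem_integers_of_valuation_le_one (R := 𝓞 K) K (x : K)
    (fun v => (h v).le)
  obtain ⟨b, hb⟩ := HeightOneSpectrum.mem_integers_of_valuation_le_one (R := 𝓞 K) K
    ((x⁻¹ : Kˣ) : K) (fun v => by
      rw [Units.val_inv_eq_inv_val, map_inv₀, h v, inv_one])
  have hab : a * b = 1 := by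
    apply FaithfulSMul.algebraMap_injective (𝓞 K) K
    rw [map_mul, ha, hb, map_one, Units.mul_inv]
  have hba : b * a = 1 := by rw [mul_comm]; exact hab
  refine ⟨⟨a, b, hab, hba⟩, ?_⟩
  ext
  exact ha

private theorem UK1_val {D : ℕ} {K : IntermediateField ℚ ℂ} [NumberField K] {x : K}
    (hx : (x : ℂ) ∈ RR D) (v : HeightOneSpectrum (𝓞 K)) (hv : v.valuation K (D : K) = 1) :
    v.valuation K x ≤ 1 := by
  obtain ⟨_, k, hk⟩ := hx
  have h1 : IsIntegral ℤ ((D : K) ^ k * x) := by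
    have h : IsIntegral ℤ (algebraMap K ℂ ((D : K) ^ k * x)) := by
      have e : algebraMap K ℂ ((D : K) ^ k * x) = (D : ℂ) ^ k * (x : ℂ) := by
        rw [map_mul, map_pow, map_natCast]
        rfl
      rw [e]
      exact hk
    exact (isIntegral_algebraMap_iff (algebraMap K ℂ).injective).1 h
  have h2 : v.valuation K (algebraMap (𝓞 K) K ⟨(D : K) ^ k * x, h1⟩) ≤ 1 := v.valuation_le_one _
  have h3 : algebraMap (𝓞 K) K ⟨(D : K) ^ k * x, h1⟩ = (D : K) ^ k * x := rfl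
  rw [h3, map_mul, map_pow, hv, one_pow, one_mul] at h2
  exact h2

private theorem UK1_finite (D : ℕ) (hD : D ≠ 0) (K : Type*) [Field K] [NumberField K] :
    Finite {v : HeightOneSpectrum (𝓞 K) // v.valuation K (D : K) ≠ 1} := by
  have hI : Ideal.span {(D : 𝓞 K)} ≠ ⊥ := by
    rw [Ne, Ideal.span_singleton_eq_bot]
    exact_mod_cast hD
  have h := Ideal.finite_factors hI
  have h2 : {v : HeightOneSpectrum (𝓞 K) | v.valuation K (D : K) ≠ 1} ⊆
      {v : HeightOneSpectrum (𝓞 K) | v.asIdeal ∣ Ideal.span {(D : 𝓞 K)}} := by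
    intro v hv
    have hle : v.valuation K (algebraMap (𝓞 K) K (D : 𝓞 K)) ≤ 1 := v.valuation_le_one _
    rw [map_natCast] at hle
    have hlt : v.valuation K (algebraMap (𝓞 K) K (D : 𝓞 K)) < 1 := by
      rw [map_natCast]
      exact lt_of_le_of_ne hle hv
    rw [v.valuation_lt_one_iff_mem] at hlt
    change v.asIdeal ∣ _
    rw [Ideal.dvd_span_singleton]
    exact hlt
  exact (h.subset h2).to_subtype

private theorem UK1_noeth {D : ℕ} (hD : D ≠ 0) {K : IntermediateField ℚ ℂ} (hK : Good K)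
    [NumberField K] : Group.FG (UK D K) := by
  classical
  have hS := UK1_finite D hD K
  -- units of the ring of integers are in `UK D K`
  have hmem : ∀ u : 𝓞 K, (((algebraMap (𝓞 K) K u : K)) : ℂ) ∈ RR D := by
    intro u
    refine ⟨hK.le_Omega (SetLike.coe_mem _), 0, ?_⟩
    rw [pow_zero, one_mul]
    have h := (u.isIntegral_coe : IsIntegral ℤ (algebraMap (𝓞 K) K u))
    exact h.map (IsScalarTower.toAlgHom ℤ K ℂ)
  have hU : ∀ u : (𝓞 K)ˣ, Units.map (algebraMap (𝓞 K) K : 𝓞 K →* K) u ∈ UK D K := by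
    intro u
    refine ⟨hmem u, ((algebraMap (𝓞 K) K ((u⁻¹ : (𝓞 K)ˣ) : 𝓞 K) : K) : ℂ), hmem _, ?_⟩
    have e : (algebraMap (𝓞 K) K (u : 𝓞 K)) * (algebraMap (𝓞 K) K ((u⁻¹ : (𝓞 K)ˣ) : 𝓞 K)) = 1 := by
      rw [← map_mul, Units.mul_inv, map_one]
    have e2 := congrArg (fun t : K => (t : ℂ)) e
    simp
  let f : (𝓞 K)ˣ →* UK D K :=
    (Units.map (algebraMap (𝓞 K) K : 𝓞 K →* K)).codRestrict (UK D K) hU
  let g : UK D K →* ({v : HeightOneSpectrum (𝓞 K) // v.valuation K (D : K) ≠ 1} →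
      Multiplicative ℤ) :=
    MonoidHom.pi (fun v => (v.1.valuationOfNeZero (K := K)).comp (UK D K).subtype)
  let f' : Additive (𝓞 K)ˣ →ₗ[ℤ] Additive (UK D K) := (MonoidHom.toAdditive f).toIntLinearMap
  let g' : Additive (UK D K) →ₗ[ℤ] Additive ({v : HeightOneSpectrum (𝓞 K) //
      v.valuation K (D : K) ≠ 1} → Multiplicative ℤ) := (MonoidHom.toAdditive g).toIntLinearMap
  have hN1 : IsNoetherian ℤ (Additive (𝓞 K)ˣ) := by
    have : Module.Finite ℤ (Additive (𝓞 K)ˣ) := by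
      rw [Module.Finite.iff_addGroup_fg, AddGroup.fg_iff_addMonoid_fg, ← Monoid.fg_iff_add_fg]
      infer_instance
    infer_instance
  have hN2 : IsNoetherian ℤ (Additive ({v : HeightOneSpectrum (𝓞 K) //
      v.valuation K (D : K) ≠ 1} → Multiplicative ℤ)) := by
    have e : ({v : HeightOneSpectrum (𝓞 K) // v.valuation K (D : K) ≠ 1} → ℤ) ≃+
        Additive ({v : HeightOneSpectrum (𝓞 K) // v.valuation K (D : K) ≠ 1} →
          Multiplicative ℤ) :=
      { toFun := fun t => Additive.ofMul (fun v => Multiplicative.ofAdd (t v))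
        invFun := fun t v => Multiplicative.toAdd (Additive.toMul t v)
        left_inv := fun t => rfl
        right_inv := fun t => rfl
        map_add' := fun s t => rfl }
    exact isNoetherian_of_linearEquiv e.toIntLinearEquiv
  have hex : LinearMap.range f' = LinearMap.ker g' := by
    ext x
    constructor
    · rintro ⟨u, rfl⟩
      rw [LinearMap.mem_ker]
      change Additive.ofMul (g (f (Additive.toMul u))) = 0
      have : g (f (Additive.toMul u)) = 1 := by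
        funext v
        exact v.1.valuation_of_unit_eq (K := K) (Additive.toMul u)
      rw [this]
      rfl
    · intro hx
      rw [LinearMap.mem_ker] at hx
      have hx' : g (Additive.toMul x) = 1 := hx
      obtain ⟨y, hy⟩ : ∃ y : UK D K, y = Additive.toMul x := ⟨_, rfl⟩
      rw [← hy] at hx'
      have hv : ∀ v : HeightOneSpectrum (𝓞 K),
          v.valuation K ((y : Kˣ) : K) = 1 := by
        intro v
        by_cases h : v.valuation K (D : K) = 1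
        · have h1 : v.valuation K ((y : Kˣ) : K) ≤ 1 := UK1_val y.2.1 v h
          have h2 : v.valuation K (((y⁻¹ : UK D K) : Kˣ) : K) ≤ 1 := UK1_val (y⁻¹).2.1 v h
          rw [Subgroup.coe_inv, Units.val_inv_eq_inv_val, map_inv₀] at h2
          refine le_antisymm h1 ?_
          have h0 : v.valuation K ((y : Kˣ) : K) ≠ 0 :=
            (Valuation.ne_zero_iff _).2 (Units.ne_zero _)
          exact (inv_le_one₀ (zero_lt_iff.2 h0)).1 h2
        · have h1 := congrFun hx' ⟨v, h⟩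
          have h2 : v.valuationOfNeZero (K := K) ((y : UK D K) : Kˣ) = 1 := h1
          rw [← HeightOneSpectrum.valuationOfNeZero_eq, h2]
          rfl
      obtain ⟨u, hu⟩ := UK1_exists_unit _ hv
      refine ⟨Additive.ofMul u, ?_⟩
      change Additive.ofMul (f u) = x
      have : f u = y := Subtype.ext hu
      rw [this, hy]
      rfl
  have hN : IsNoetherian ℤ (Additive (UK D K)) := isNoetherian_of_range_eq_ker f' g' hex
  have hfin : Module.Finite ℤ (Additive (UK D K)) := inferInstance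
  rw [Module.Finite.iff_addGroup_fg, AddGroup.fg_iff_addMonoid_fg, ← Monoid.fg_iff_add_fg,
    ← Group.fg_iff_monoid_fg] at hfin
  exact hfin

theorem UK_fin {D : ℕ} (hD : D = 1 ∨ D = 3) {K : IntermediateField ℚ ℂ} (hK : Good K) (l : ℕ)
    (hl : l ≠ 0) : Finite (UK D K ⧸ (powMonoidHom l : UK D K →* UK D K).range) := by
  have : FiniteDimensional ℚ K := hK.finiteDimensional
  have : NumberField K := { to_charZero := inferInstance, to_finiteDimensional := inferInstance }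
  have hD0 : D ≠ 0 := by
    rcases hD with h | h <;> omega
  have : Group.FG (UK D K) := UK1_noeth hD0 hK
  have h := Subgroup.finiteIndex_range_powMonoidHom_of_fg (UK D K) hl
  exact Subgroup.finiteIndex_iff_finite_quotient.mp h

end Pool.Agent.Lib.MP_fdb342_lc
end

section

/-!
# Congruences modulo primes in `UK D K`
-/

open IsDedekindDomain NumberField

namespace Pool.Agent.Lib.MP_fdb342_lc

/-- elements of `RR D` are integral at the primes not dividing `D` -/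
theorem valuation_le_one {D : ℕ} {K : IntermediateField ℚ ℂ} [NumberField K] {x : K}
    (hx : (x : ℂ) ∈ RR D) (v : HeightOneSpectrum (𝓞 K)) (hv : v.valuation K (D : K) = 1) :
    v.valuation K x ≤ 1 := by
  obtain ⟨_, k, hk⟩ := hx
  have h1 : IsIntegral ℤ ((D : K) ^ k * x) := by
    have h : IsIntegral ℤ (algebraMap K ℂ ((D : K) ^ k * x)) := by
      have e : algebraMap K ℂ ((D : K) ^ k * x) = (D : ℂ) ^ k * (x : ℂ) := by
        rw [map_mul, map_pow, map_natCast]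
        rfl
      rw [e]
      exact hk
    exact (isIntegral_algebraMap_iff (algebraMap K ℂ).injective).1 h
  have h2 : v.valuation K (algebraMap (𝓞 K) K ⟨(D : K) ^ k * x, h1⟩) ≤ 1 := v.valuation_le_one _
  have h3 : algebraMap (𝓞 K) K ⟨(D : K) ^ k * x, h1⟩ = (D : K) ^ k * x := rfl
  rw [h3, map_mul, map_pow, hv, one_pow, one_mul] at h2
  exact h2

/-- congruence subgroups have finite index -/
theorem UK_cong {D : ℕ} {K : IntermediateField ℚ ℂ} [NumberField K] (v : HeightOneSpectrum (𝓞 K))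
    (hv : v.valuation K (D : K) = 1) :
    ∃ V : Subgroup (UK D K), V.FiniteIndex ∧
      ∀ x : UK D K, x ∈ V ↔ v.valuation K (((x : Kˣ) : K) - 1) < 1 := by
  classical
  have hle : ∀ x : UK D K, v.valuation K ((x : Kˣ) : K) ≤ 1 := fun x =>
    valuation_le_one x.2.1 v hv
  have hinv : ∀ x : UK D K, (((x⁻¹ : UK D K) : Kˣ) : K) * ((x : Kˣ) : K) = 1 := by
    intro x
    rw [Subgroup.coe_inv, Units.inv_mul]
  have key : ∀ x y : UK D K, v.valuation K (((x : Kˣ) : K) - ((y : Kˣ) : K)) < 1 →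
      v.valuation K ((((y⁻¹ * x : UK D K) : Kˣ) : K) - 1) < 1 := by
    intro x y h
    have e : (((y⁻¹ * x : UK D K) : Kˣ) : K) - 1 =
        (((y⁻¹ : UK D K) : Kˣ) : K) * (((x : Kˣ) : K) - ((y : Kˣ) : K)) := by
      rw [mul_sub, hinv y, Subgroup.coe_mul, Units.val_mul]
    rw [e, map_mul]
    exact lt_of_le_of_lt (mul_le_of_le_one_left' (hle _)) h
  let V : Subgroup (UK D K) :=
    { carrier := {x | v.valuation K (((x : Kˣ) : K) - 1) < 1}
      one_mem' := by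
        change v.valuation K ((((1 : UK D K) : Kˣ) : K) - 1) < 1
        simp
      mul_mem' := by
        intro a b ha hb
        change v.valuation K ((((a * b : UK D K) : Kˣ) : K) - 1) < 1
        have e : (((a * b : UK D K) : Kˣ) : K) - 1 =
            ((a : Kˣ) : K) * (((b : Kˣ) : K) - 1) + (((a : Kˣ) : K) - 1) := by
          rw [Subgroup.coe_mul, Units.val_mul]
          ring
        rw [e]
        refine lt_of_le_of_lt (Valuation.map_add _ _ _) (max_lt ?_ ha)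
        rw [map_mul]
        exact lt_of_le_of_lt (mul_le_of_le_one_left' (hle _)) hb
      inv_mem' := by
        intro a ha
        change v.valuation K ((((a⁻¹ : UK D K) : Kˣ) : K) - 1) < 1
        have h1 : v.valuation K ((((1 : UK D K) : Kˣ) : K) - ((a : Kˣ) : K)) < 1 := by
          rw [Valuation.map_sub_swap]
          simpa using ha
        have := key 1 a h1
        rwa [mul_one] at this }
  have hV : ∀ x : UK D K, x ∈ V ↔ v.valuation K (((x : Kˣ) : K) - 1) < 1 := fun x => Iff.rfl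
  refine ⟨V, ?_, hV⟩
  have hf : ∀ x : UK D K, ∃ a : 𝓞 K,
      v.valuation K (algebraMap (𝓞 K) K a - ((x : Kˣ) : K)) < 1 := by
    intro x
    obtain ⟨a, ha⟩ := v.exists_valuation_sub_lt_of_integer (hle x) 1
    exact ⟨a, by simpa using ha⟩
  choose f hf using hf
  have hfin : Finite (𝓞 K ⧸ v.asIdeal) := v.asIdeal.finiteQuotientOfFreeOfNeBot v.ne_bot
  let g : (UK D K ⧸ V) → (𝓞 K ⧸ v.asIdeal) := fun q => Ideal.Quotient.mk _ (f (Quotient.out q))
  have hg : Function.Injective g := by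
    intro q q' h
    have h1 : f (Quotient.out q) - f (Quotient.out q') ∈ v.asIdeal := Ideal.Quotient.eq.1 h
    have h2 : v.valuation K (algebraMap (𝓞 K) K (f (Quotient.out q) - f (Quotient.out q'))) < 1 :=
      (v.valuation_lt_one_iff_mem _).2 h1
    have h3 : v.valuation K ((((Quotient.out q : UK D K) : Kˣ) : K) -
        (((Quotient.out q' : UK D K) : Kˣ) : K)) < 1 := by
      have e : (((Quotient.out q : UK D K) : Kˣ) : K) - (((Quotient.out q' : UK D K) : Kˣ) : K) =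
          algebraMap (𝓞 K) K (f (Quotient.out q) - f (Quotient.out q')) -
          ((algebraMap (𝓞 K) K (f (Quotient.out q)) - (((Quotient.out q : UK D K) : Kˣ) : K)) -
          (algebraMap (𝓞 K) K (f (Quotient.out q')) -
            (((Quotient.out q' : UK D K) : Kˣ) : K))) := by
        rw [map_sub]
        ring
      rw [e]
      refine lt_of_le_of_lt (Valuation.map_sub _ _ _) (max_lt h2 ?_)
      exact lt_of_le_of_lt (Valuation.map_sub _ _ _) (max_lt (hf _) (hf _))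
    have h4 := key _ _ h3
    rw [← QuotientGroup.out_eq' q, ← QuotientGroup.out_eq' q']
    symm
    exact QuotientGroup.eq.2 h4
  have : Finite (UK D K ⧸ V) := Finite.of_injective g hg
  exact Subgroup.finiteIndex_of_finite_quotient

end Pool.Agent.Lib.MP_fdb342_lc
end

section

/-!
# Algebraic integers: conjugates and quotients
-/

namespace Pool.Agent.Lib.MP_fdb342_lc

/-- a nonzero algebraic integer in `Omega` has a conjugate of absolute value at least `1` -/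
theorem exists_conj_ge_one {K : Type*} [Field K] [NumberField K] {c : K} (hc : IsIntegral ℤ c)
    (hc0 : c ≠ 0) : ∃ σ : K →+* ℂ, 1 ≤ ‖σ c‖ := by
  by_contra hcon
  push Not at hcon
  have h1 : algebraMap ℚ ℂ (Algebra.norm ℚ c) = ∏ σ : K →ₐ[ℚ] ℂ, σ c :=
    Algebra.norm_eq_prod_embeddings ℚ ℂ c
  have h2 : IsIntegral ℤ (Algebra.norm ℚ c) := Algebra.isIntegral_norm ℚ hc
  obtain ⟨n, hn⟩ := IsIntegrallyClosed.isIntegral_iff.mp h2
  have hn' : (n : ℚ) = Algebra.norm ℚ c := by simpa using hn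
  have h3 : Algebra.norm ℚ c ≠ 0 := Algebra.norm_ne_zero_iff.mpr hc0
  have hn0 : n ≠ 0 := by
    rintro rfl
    exact h3 (by rw [← hn']; simp)
  have h4 : (1 : ℝ) ≤ ‖algebraMap ℚ ℂ (Algebra.norm ℚ c)‖ := by
    rw [← hn']
    have h5 : algebraMap ℚ ℂ (n : ℚ) = ((n : ℤ) : ℂ) := by simp
    rw [h5, Complex.norm_intCast]
    have h6 : (1 : ℤ) ≤ |n| := Int.one_le_abs hn0
    exact_mod_cast h6
  rw [h1, norm_prod] at h4
  have : Nonempty (K →ₐ[ℚ] ℂ) := ⟨IsAlgClosed.lift⟩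
  have h7 : ∏ σ : K →ₐ[ℚ] ℂ, ‖σ c‖ < 1 := by
    have h8 : ∏ σ : K →ₐ[ℚ] ℂ, ‖σ c‖ < ∏ _σ : K →ₐ[ℚ] ℂ, (1 : ℝ) := by
      apply Finset.prod_lt_prod_of_nonempty
      · intro σ _
        have : σ c ≠ 0 := by
          intro h
          exact hc0 ((map_eq_zero_iff σ σ.toRingHom.injective).mp h)
        exact norm_pos_iff.mpr this
      · intro σ _
        exact hcon σ.toRingHom
      · exact Finset.univ_nonempty
    simpa using h8
  exact absurd h7 (not_lt.mpr h4)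

/-- a quotient which is `D`-integral is integral if the denominator is prime to `D` -/
theorem isIntegral_of_coprime {D : ℕ} {a b c x y : ℂ} (ha : IsIntegral ℤ a) (hb : IsIntegral ℤ b)
    (hx : IsIntegral ℤ x) (hy : IsIntegral ℤ y) (hxy : x * a + y * D = 1)
    (hc : c ∈ RR D) (h : b = a * c) : IsIntegral ℤ c := by
  have _ := ha
  have hD : IsIntegral ℤ (D : ℂ) := by
    have h := isIntegral_algebraMap (R := ℤ) (A := ℂ) (x := (D : ℤ))
    simpa using h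
  have key : ∀ k : ℕ, IsIntegral ℤ ((D : ℂ) ^ k * c) → IsIntegral ℤ c := by
    intro k
    induction k with
    | zero => intro h; simpa using h
    | succ k ih =>
      intro hk
      apply ih
      have e : (D : ℂ) ^ k * c = x * ((D : ℂ) ^ k * b) + y * ((D : ℂ) ^ (k + 1) * c) := by
        calc (D : ℂ) ^ k * c = (x * a + y * D) * ((D : ℂ) ^ k * c) := by rw [hxy, one_mul]
          _ = _ := by rw [h, pow_succ]; ring
      rw [e]
      exact (hx.mul ((hD.pow k).mul hb)).add (hy.mul hk)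
  obtain ⟨_, k, hk⟩ := hc
  exact key k hk

end Pool.Agent.Lib.MP_fdb342_lc
end

section

/-!
# The elements `6 - ζ`
-/

namespace Pool.Agent.Lib.MP_fdb342_lc

private lemma cod2_norm {ζ : ℂ} (hζ : InA ζ) : ‖ζ‖ = 1 := by
  obtain ⟨k, hk⟩ := hζ
  exact Complex.norm_eq_one_of_pow_eq_one hk (by positivity)

private lemma cod2_isIntegral {ζ : ℂ} (hζ : InA ζ) : IsIntegral ℤ ζ := by
  obtain ⟨k, hk⟩ := hζ
  refine IsIntegral.of_pow (n := 2 ^ k) (by positivity) ?_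
  rw [hk]
  exact isIntegral_one

private lemma cod2_ne_zero {ζ : ℂ} (hζ : InA ζ) : ζ ≠ 0 := by
  intro h
  have := cod2_norm hζ
  rw [h, norm_zero] at this
  exact zero_ne_one this

private lemma cod2_ofNat_mem {D : ℕ} (n : ℕ) : (n : ℂ) ∈ RR D := natCast_mem (RR D) n

private lemma cod2_six_mem {D : ℕ} {ζ : ℂ} (hζ : InA ζ) : 6 - ζ ∈ RR D := by
  have h6 : (6 : ℂ) ∈ RR D := by simpa using cod2_ofNat_mem (D := D) 6
  exact sub_mem h6 (inA_mem_RR hζ)

theorem six_sub_not_isU {D : ℕ} (hD : D = 1 ∨ D = 3) {ζ : ℂ} (hζ : InA ζ) : ¬ IsU D (6 - ζ) := by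
  rintro ⟨-, v, hv, h1⟩
  have hζ0 := cod2_ne_zero hζ
  have hi := cod2_isIntegral hζ
  have hi' := cod2_isIntegral (inA_inv hζ)
  have h6 : IsIntegral ℤ (6 : ℂ) := by
    have := isIntegral_algebraMap (R := ℤ) (A := ℂ) (x := 6)
    simpa using this
  have h2 : IsIntegral ℤ (2 : ℂ) := by
    have := isIntegral_algebraMap (R := ℤ) (A := ℂ) (x := 2)
    simpa using this
  have hvint : IsIntegral ℤ v := by
    rcases hD with rfl | rfl
    · exact isIntegral_of_coprime (D := 1) (a := 6 - ζ) (b := 1) (x := 0) (y := 1)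
        (h6.sub hi) isIntegral_one isIntegral_zero isIntegral_one (by push_cast; ring) hv h1.symm
    · refine isIntegral_of_coprime (D := 3) (a := 6 - ζ) (b := 1) (x := -ζ⁻¹) (y := 2 * ζ⁻¹)
        (h6.sub hi) isIntegral_one hi'.neg (h2.mul hi') ?_ hv h1.symm
      push_cast
      field_simp
      ring
  -- the number field generated by `ζ`
  have hiQ : IsIntegral ℚ ζ := hi.tower_top
  have : FiniteDimensional ℚ (IntermediateField.adjoin ℚ {ζ}) :=
    IntermediateField.adjoin.finiteDimensional hiQ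
  have : NumberField (IntermediateField.adjoin ℚ {ζ}) := ⟨⟩
  have hζK : ζ ∈ IntermediateField.adjoin ℚ {ζ} := IntermediateField.mem_adjoin_simple_self ℚ ζ
  have h60 : 6 - ζ ≠ 0 := by
    intro h
    rw [h, zero_mul] at h1
    exact zero_ne_one h1
  have hvK : v ∈ IntermediateField.adjoin ℚ {ζ} := by
    have e : v = (6 - ζ)⁻¹ := by
      field_simp
      rw [mul_comm]
      exact h1
    rw [e]
    apply inv_mem
    apply sub_mem _ hζK
    have := (IntermediateField.adjoin ℚ {ζ}).algebraMap_mem 6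
    simpa using this
  set c : IntermediateField.adjoin ℚ {ζ} := ⟨v, hvK⟩ with hc
  set z : IntermediateField.adjoin ℚ {ζ} := ⟨ζ, hζK⟩ with hz
  have hcz : (6 - z) * c = 1 := by
    apply Subtype.ext
    push_cast
    exact h1
  have hcint : IsIntegral ℤ c := by
    have hinj : Function.Injective (algebraMap (IntermediateField.adjoin ℚ {ζ}) ℂ) :=
      (algebraMap (IntermediateField.adjoin ℚ {ζ}) ℂ).injective
    rw [← isIntegral_algebraMap_iff hinj]
    exact hvint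
  have hc0 : c ≠ 0 := by
    intro h
    rw [h, mul_zero] at hcz
    exact zero_ne_one hcz
  obtain ⟨σ, hσ⟩ := exists_conj_ge_one hcint hc0
  have hσz : ‖σ z‖ = 1 := by
    obtain ⟨k, hk⟩ := hζ
    have hzk : z ^ (2 ^ k) = 1 := by
      apply Subtype.ext
      push_cast
      exact hk
    refine Complex.norm_eq_one_of_pow_eq_one (n := 2 ^ k) ?_ (by positivity)
    rw [← map_pow, hzk, map_one]
  have hprod : (6 - σ z) * σ c = 1 := by
    have := congrArg σ hcz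
    rwa [map_mul, map_sub, map_ofNat, map_one] at this
  have h5 : 5 ≤ ‖6 - σ z‖ := by
    have h3 : ‖(6 : ℂ)‖ - ‖σ z‖ ≤ ‖6 - σ z‖ := norm_sub_norm_le _ _
    rw [hσz] at h3
    have h4 : ‖(6 : ℂ)‖ = 6 := by simp
    rw [h4] at h3
    linarith
  have h7 : ‖6 - σ z‖ * ‖σ c‖ = 1 := by
    rw [← norm_mul, hprod, norm_one]
  nlinarith [norm_nonneg (σ c)]

private lemma cod2_two {D : ℕ} (k : ℕ) : ∀ η : ℂ, η ^ (2 ^ k) = 1 → η ≠ 1 →
    ∃ e ∈ RR D, (1 - η) * e = 2 := by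
  induction k with
  | zero =>
    intro η h h1
    rw [pow_zero, pow_one] at h
    exact absurd h h1
  | succ k ih =>
    intro η h h1
    by_cases h2 : η ^ 2 = 1
    · have h3 : η = -1 := by
        have h4 : (η - 1) * (η + 1) = 0 := by linear_combination h2
        rcases mul_eq_zero.1 h4 with h5 | h5
        · exact absurd (sub_eq_zero.1 h5) h1
        · exact eq_neg_of_add_eq_zero_left h5
      refine ⟨1, one_mem _, ?_⟩
      rw [h3]
      norm_num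
    · obtain ⟨e, he, hee⟩ := ih (η ^ 2) (by rw [← pow_mul, ← pow_succ']; exact h) h2
      refine ⟨(1 + η) * e, mul_mem (add_mem (one_mem _) (inA_mem_RR ⟨k + 1, h⟩)) he, ?_⟩
      rw [← hee]
      ring

theorem six_sub_comax {D : ℕ} (hD : D ≠ 0) {ζ ξ : ℂ} (hζ : InA ζ) (hξ : InA ξ) (h : ζ ≠ ξ) :
    Comax D (6 - ζ) (6 - ξ) := by
  have hζ0 := cod2_ne_zero hζ
  have hη : InA (ξ * ζ⁻¹) := inA_mul hξ (inA_inv hζ)
  have hη1 : ξ * ζ⁻¹ ≠ 1 := by
    intro h1
    apply h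
    field_simp at h1
    exact h1.symm
  obtain ⟨k, hk⟩ := hη
  obtain ⟨e, he, hee⟩ := cod2_two (D := D) k _ hk hη1
  have hi : ζ⁻¹ ∈ RR D := inA_mem_RR (inA_inv hζ)
  have h3 : (3 : ℂ) ∈ RR D := by simpa using cod2_ofNat_mem (D := D) 3
  have hb : 3 * e * ζ⁻¹ * ζ⁻¹ ∈ RR D := mul_mem (mul_mem (mul_mem h3 he) hi) hi
  refine ⟨-(3 * e * ζ⁻¹ * ζ⁻¹) - ζ⁻¹, sub_mem (neg_mem hb) hi, 3 * e * ζ⁻¹ * ζ⁻¹, hb, ?_⟩
  have h4 : e * (ζ - ξ) = 2 * ζ := by
    have : (1 - ξ * ζ⁻¹) * e * ζ = 2 * ζ := by rw [hee]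
    have h5 : (1 - ξ * ζ⁻¹) * e * ζ = e * (ζ - ξ) := by
      field_simp
    rw [← h5, this]
  have h5 : (-(3 * e * ζ⁻¹ * ζ⁻¹) - ζ⁻¹) * (6 - ζ) + 3 * e * ζ⁻¹ * ζ⁻¹ * (6 - ξ) =
      3 * ζ⁻¹ * ζ⁻¹ * (e * (ζ - ξ)) - ζ⁻¹ * (6 - ζ) := by ring
  rw [h5, h4]
  field_simp
  ring

theorem prod_mem {D : ℕ} (F : Finset ℂ) (hF : ∀ ζ ∈ F, InA ζ) :
    ∏ ζ ∈ F, (6 - ζ) ∈ RR D ∧ ∏ ζ ∈ F, (6 - ζ) ≠ 0 := by
  refine ⟨Subring.prod_mem _ fun ζ hζ => cod2_six_mem (hF ζ hζ), ?_⟩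
  rw [Finset.prod_ne_zero_iff]
  intro ζ hζ h
  have h1 := cod2_norm (hF ζ hζ)
  have h2 : ζ = 6 := (sub_eq_zero.1 h).symm
  rw [h2] at h1
  norm_num at h1

private lemma cod2_comax_prod {D : ℕ} {ξ : ℂ} (hξ : InA ξ) (hD : D ≠ 0) (F : Finset ℂ)
    (hF : ∀ ζ ∈ F, InA ζ) (hξF : ξ ∉ F) : Comax D (6 - ξ) (∏ ζ ∈ F, (6 - ζ)) := by
  classical
  induction F using Finset.induction_on with
  | empty => exact ⟨0, zero_mem _, 1, one_mem _, by simp⟩
  | insert x F hx ih =>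
    obtain ⟨a, ha, b, hb, hab⟩ := ih (fun ζ hζ => hF ζ (Finset.mem_insert_of_mem hζ))
      (fun h => hξF (Finset.mem_insert_of_mem h))
    obtain ⟨a', ha', b', hb', hab'⟩ := six_sub_comax hD hξ (hF x (Finset.mem_insert_self _ _))
      (fun h => hξF (h ▸ Finset.mem_insert_self _ _))
    have hP := (prod_mem (D := D) F (fun ζ hζ => hF ζ (Finset.mem_insert_of_mem hζ))).1
    have hx6 : 6 - x ∈ RR D := cod2_six_mem (hF x (Finset.mem_insert_self _ _))
    have hξ6 : 6 - ξ ∈ RR D := cod2_six_mem hξ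
    rw [Finset.prod_insert hx]
    refine ⟨a * a' * (6 - ξ) + a * (b' * (6 - x)) + b * (∏ ζ ∈ F, (6 - ζ)) * a', ?_, b' * b,
      mul_mem hb' hb, ?_⟩
    · exact add_mem (add_mem (mul_mem (mul_mem ha ha') hξ6) (mul_mem ha (mul_mem hb' hx6)))
        (mul_mem (mul_mem hb hP) ha')
    · calc _ = (a * (6 - ξ) + b * ∏ ζ ∈ F, (6 - ζ)) * (a' * (6 - ξ) + b' * (6 - x)) := by ring
        _ = 1 := by rw [hab, hab', one_mul]

theorem Sz_prod {D : ℕ} (hD : D = 1 ∨ D = 3) (F : Finset ℂ) (hF : ∀ ζ ∈ F, InA ζ) :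
    Sz D (∏ ζ ∈ F, (6 - ζ)) = F := by
  classical
  ext ξ
  simp only [Sz, Mem1, Set.mem_setOf_eq, Finset.mem_coe]
  constructor
  · rintro ⟨hξ, c, hc, hcc⟩
    by_contra hξF
    have hD0 : D ≠ 0 := by rcases hD with rfl | rfl <;> norm_num
    obtain ⟨a, ha, b, hb, hab⟩ := cod2_comax_prod hξ hD0 F hF hξF
    apply six_sub_not_isU hD hξ
    refine ⟨cod2_six_mem hξ, a + b * c, add_mem ha (mul_mem hb hc), ?_⟩
    rw [← hab, hcc]
    ring
  · intro hξF
    refine ⟨hF ξ hξF, ∏ ζ ∈ F.erase ξ, (6 - ζ),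
      (prod_mem (D := D) _ (fun ζ hζ => hF ζ (Finset.mem_of_mem_erase hζ))).1, ?_⟩
    rw [Finset.mul_prod_erase F (fun ζ => 6 - ζ) hξF]

end Pool.Agent.Lib.MP_fdb342_lc
end

section

/-!
# Coded sets are finite
-/

namespace Pool.Agent.Lib.MP_fdb342_lc

private lemma cod3_norm {ζ : ℂ} (hζ : InA ζ) : ‖ζ‖ = 1 := by
  obtain ⟨k, hk⟩ := hζ
  exact Complex.norm_eq_one_of_pow_eq_one hk (by positivity)

private lemma cod3_isIntegral {ζ : ℂ} (hζ : InA ζ) : IsIntegral ℤ ζ := by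
  obtain ⟨k, hk⟩ := hζ
  refine IsIntegral.of_pow (n := 2 ^ k) (by positivity) ?_
  rw [hk]
  exact isIntegral_one

private lemma cod3_ne_zero {ζ : ℂ} (hζ : InA ζ) : ζ ≠ 0 := by
  intro h
  have := cod3_norm hζ
  rw [h, norm_zero] at this
  exact zero_ne_one this

private lemma cod3_isIntegral_nat (n : ℕ) : IsIntegral ℤ (n : ℂ) := by
  have h := isIntegral_algebraMap (R := ℤ) (A := ℂ) (x := (n : ℤ))
  simpa using h

private lemma cod3_six_mem {D : ℕ} {ζ : ℂ} (hζ : InA ζ) : 6 - ζ ∈ RR D := by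
  have h6 : (6 : ℂ) ∈ RR D := by simpa using natCast_mem (RR D) 6
  exact sub_mem h6 (inA_mem_RR hζ)

private lemma cod3_comax_prod {D : ℕ} {ξ : ℂ} (hξ : InA ξ) (hD : D ≠ 0) (F : Finset ℂ)
    (hF : ∀ ζ ∈ F, InA ζ) (hξF : ξ ∉ F) : Comax D (6 - ξ) (∏ ζ ∈ F, (6 - ζ)) := by
  classical
  induction F using Finset.induction_on with
  | empty => exact ⟨0, zero_mem _, 1, one_mem _, by simp⟩
  | insert x F hx ih =>
    obtain ⟨a, ha, b, hb, hab⟩ := ih (fun ζ hζ => hF ζ (Finset.mem_insert_of_mem hζ))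
      (fun h => hξF (Finset.mem_insert_of_mem h))
    obtain ⟨a', ha', b', hb', hab'⟩ := six_sub_comax hD hξ (hF x (Finset.mem_insert_self _ _))
      (fun h => hξF (h ▸ Finset.mem_insert_self _ _))
    have hP := (prod_mem (D := D) F (fun ζ hζ => hF ζ (Finset.mem_insert_of_mem hζ))).1
    have hx6 : 6 - x ∈ RR D := cod3_six_mem (hF x (Finset.mem_insert_self _ _))
    have hξ6 : 6 - ξ ∈ RR D := cod3_six_mem hξ
    rw [Finset.prod_insert hx]
    refine ⟨a * a' * (6 - ξ) + a * (b' * (6 - x)) + b * (∏ ζ ∈ F, (6 - ζ)) * a', ?_, b' * b,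
      mul_mem hb' hb, ?_⟩
    · exact add_mem (add_mem (mul_mem (mul_mem ha ha') hξ6) (mul_mem ha (mul_mem hb' hx6)))
        (mul_mem (mul_mem hb hP) ha')
    · calc _ = (a * (6 - ξ) + b * ∏ ζ ∈ F, (6 - ζ)) * (a' * (6 - ξ) + b' * (6 - x)) := by ring
        _ = 1 := by rw [hab, hab', one_mul]

private lemma cod3_dvd {D : ℕ} (hD : D ≠ 0) {z : ℂ} (F : Finset ℂ)
    (hF : ∀ ζ ∈ F, Mem1 D z ζ) (hz : z ∈ RR D) : DvdR D (∏ ζ ∈ F, (6 - ζ)) z := by
  classical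
  induction F using Finset.induction_on with
  | empty => exact ⟨z, hz, by simp⟩
  | insert x F hx ih =>
    obtain ⟨d, hd, hzd⟩ := ih (fun ζ hζ => hF ζ (Finset.mem_insert_of_mem hζ))
    obtain ⟨hxA, c, hc, hzc⟩ := hF x (Finset.mem_insert_self _ _)
    obtain ⟨a, ha, b, hb, hab⟩ := cod3_comax_prod hxA hD F
      (fun ζ hζ => (hF ζ (Finset.mem_insert_of_mem hζ)).1) hx
    rw [Finset.prod_insert hx]
    refine ⟨a * d + b * c, add_mem (mul_mem ha hd) (mul_mem hb hc), ?_⟩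
    calc z = (a * (6 - x) + b * ∏ ζ ∈ F, (6 - ζ)) * z := by rw [hab, one_mul]
      _ = a * (6 - x) * z + b * (∏ ζ ∈ F, (6 - ζ)) * z := by ring
      _ = a * (6 - x) * ((∏ ζ ∈ F, (6 - ζ)) * d) + b * (∏ ζ ∈ F, (6 - ζ)) * ((6 - x) * c) := by
        rw [← hzd, ← hzc]
      _ = _ := by ring

private lemma cod3_coprime (F : Finset ℂ) (hF : ∀ ζ ∈ F, InA ζ) :
    ∃ x y : ℂ, IsIntegral ℤ x ∧ IsIntegral ℤ y ∧ x * (∏ ζ ∈ F, (6 - ζ)) + y * 3 = 1 := by
  classical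
  have h6 : IsIntegral ℤ (6 : ℂ) := by simpa using cod3_isIntegral_nat 6
  have h3 : IsIntegral ℤ (3 : ℂ) := by simpa using cod3_isIntegral_nat 3
  have h2 : IsIntegral ℤ (2 : ℂ) := by simpa using cod3_isIntegral_nat 2
  induction F using Finset.induction_on with
  | empty => exact ⟨1, 0, isIntegral_one, isIntegral_zero, by simp⟩
  | insert x F hx ih =>
    obtain ⟨a, b, ha, hb, hab⟩ := ih (fun ζ hζ => hF ζ (Finset.mem_insert_of_mem hζ))
    have hxA := hF x (Finset.mem_insert_self _ _)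
    have hx0 := cod3_ne_zero hxA
    have hi := cod3_isIntegral hxA
    have hi' := cod3_isIntegral (inA_inv hxA)
    rw [Finset.prod_insert hx]
    refine ⟨a * (-x⁻¹), b + a * (∏ ζ ∈ F, (6 - ζ)) * (2 * x⁻¹), ha.mul hi'.neg, hb.add
      ((ha.mul (IsIntegral.prod _ fun ζ hζ => h6.sub (cod3_isIntegral
        (hF ζ (Finset.mem_insert_of_mem hζ))))).mul (h2.mul hi')), ?_⟩
    have e : -x⁻¹ * (6 - x) + 2 * x⁻¹ * 3 = 1 := by
      field_simp
      ring
    calc _ = a * (∏ ζ ∈ F, (6 - ζ)) * (-x⁻¹ * (6 - x) + 2 * x⁻¹ * 3) + b * 3 := by ring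
      _ = 1 := by rw [e, mul_one, hab]

private lemma cod3_bound {D : ℕ} (hD : D = 1 ∨ D = 3) {z : ℂ} (hz : z ∈ RR D) (hz0 : z ≠ 0)
    (hzi : IsIntegral ℤ z) : ∃ M : ℝ, ∀ F : Finset ℂ, (∀ ζ ∈ F, Mem1 D z ζ) →
      (5 : ℝ) ^ F.card ≤ M := by
  classical
  have hD0 : D ≠ 0 := by rcases hD with rfl | rfl <;> norm_num
  have h6 : IsIntegral ℤ (6 : ℂ) := by simpa using cod3_isIntegral_nat 6
  have hzQ : IsIntegral ℚ z := hzi.tower_top
  -- the bound
  have hfin : ((fun x : ℂ => ‖x‖) '' ((minpoly ℚ z).rootSet ℂ)).Finite :=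
    (Polynomial.rootSet_finite _ _).image _
  obtain ⟨M, hM⟩ := hfin.bddAbove
  refine ⟨M, fun F hF => ?_⟩
  obtain ⟨c, hc, hzc⟩ := cod3_dvd hD0 F hF hz
  have hFA : ∀ ζ ∈ F, InA ζ := fun ζ hζ => (hF ζ hζ).1
  have hP0 := (prod_mem (D := D) F hFA).2
  have hPi : IsIntegral ℤ (∏ ζ ∈ F, (6 - ζ)) :=
    IsIntegral.prod _ fun ζ hζ => h6.sub (cod3_isIntegral (hFA ζ hζ))
  have hci : IsIntegral ℤ c := by
    rcases hD with rfl | rfl
    · exact isIntegral_of_coprime (D := 1) (x := 0) (y := 1) hPi hzi isIntegral_zero isIntegral_one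
        (by push_cast; ring) hc hzc
    · obtain ⟨x, y, hx, hy, hxy⟩ := cod3_coprime F hFA
      exact isIntegral_of_coprime (D := 3) (x := x) (y := y) hPi hzi hx hy
        (by push_cast; exact hxy) hc hzc
  -- the number field
  set S : Set ℂ := insert z (F : Set ℂ) with hS
  have hSfin : S.Finite := (Finset.finite_toSet F).insert z
  have : Finite S := hSfin
  have hSint : ∀ x ∈ S, IsIntegral ℚ x := by
    intro x hx
    rcases hx with rfl | hx
    · exact hzQ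
    · exact (cod3_isIntegral (hFA x hx)).tower_top
  have : FiniteDimensional ℚ (IntermediateField.adjoin ℚ S) :=
    IntermediateField.finiteDimensional_adjoin hSint
  have : NumberField (IntermediateField.adjoin ℚ S) := ⟨⟩
  set K := IntermediateField.adjoin ℚ S with hK
  have hzK : z ∈ K := IntermediateField.subset_adjoin ℚ S (Set.mem_insert _ _)
  have h6K : (6 : ℂ) ∈ K := by simpa using natCast_mem K 6
  have hFK : ∀ ζ ∈ F, ζ ∈ K := fun ζ hζ =>
    IntermediateField.subset_adjoin ℚ S (Set.mem_insert_of_mem _ hζ)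
  have hPK : ∏ ζ ∈ F, (6 - ζ) ∈ K := by
    have hh : ∀ ζ ∈ F, 6 - ζ ∈ K := fun ζ hζ => sub_mem h6K (hFK ζ hζ)
    exact _root_.prod_mem hh
  have hcK : c ∈ K := by
    have e : c = z * (∏ ζ ∈ F, (6 - ζ))⁻¹ := by
      rw [hzc]; field_simp
    rw [e]
    exact mul_mem hzK (inv_mem hPK)
  set c' : K := ⟨c, hcK⟩ with hc'
  set z' : K := ⟨z, hzK⟩ with hz'
  have hinj : Function.Injective (algebraMap K ℂ) := (algebraMap K ℂ).injective
  have hc'i : IsIntegral ℤ c' := by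
    rw [← isIntegral_algebraMap_iff hinj]
    exact hci
  have hc'0 : c' ≠ 0 := by
    intro h
    apply hz0
    have : c = 0 := congrArg Subtype.val h
    rw [hzc, this, mul_zero]
  obtain ⟨σ, hσ⟩ := exists_conj_ge_one hc'i hc'0
  -- the conjugate of `z`
  have hroot : ‖σ z'‖ ≤ M := by
    apply hM
    refine ⟨σ z', ?_, rfl⟩
    rw [Polynomial.mem_rootSet]
    refine ⟨minpoly.ne_zero hzQ, ?_⟩
    have h1 : Polynomial.aeval z' (minpoly ℚ z) = 0 := by
      apply hinj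
      rw [map_zero, ← Polynomial.aeval_algebraMap_apply]
      exact minpoly.aeval ℚ z
    have h2 := Polynomial.aeval_algHom_apply σ.toRatAlgHom z' (minpoly ℚ z)
    rw [h1, map_zero] at h2
    exact h2
  have hprod : z' = (∏ ζ ∈ F.attach, (6 - (⟨ζ.1, hFK ζ.1 ζ.2⟩ : K))) * c' := by
    apply Subtype.ext
    have : (∏ ζ ∈ F, (6 - ζ)) = ∏ ζ ∈ F.attach, (6 - ζ.1) :=
      (Finset.prod_attach F (fun ζ => 6 - ζ)).symm
    rw [this] at hzc
    have e2 : ((∏ ζ ∈ F.attach, (6 - (⟨ζ.1, hFK ζ.1 ζ.2⟩ : K)) : K) : ℂ) =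
        ∏ ζ ∈ F.attach, (6 - ζ.1) := by
      have := map_prod (algebraMap K ℂ) (fun ζ : {x // x ∈ F} => 6 - (⟨ζ.1, hFK ζ.1 ζ.2⟩ : K))
        F.attach
      refine this.trans (Finset.prod_congr rfl fun ζ _ => ?_)
      rw [map_sub, map_ofNat]
      rfl
    refine hzc.trans ?_
    rw [← e2]
    rfl
  have h5 : (5 : ℝ) ^ F.card ≤ ‖σ (∏ ζ ∈ F.attach, (6 - (⟨ζ.1, hFK ζ.1 ζ.2⟩ : K)))‖ := by
    rw [map_prod, norm_prod, ← Finset.card_attach, ← Finset.prod_const]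
    apply Finset.prod_le_prod
    · intro _ _; norm_num
    · rintro ⟨ζ, hζ⟩ -
      have hσζ : ‖σ (⟨ζ, hFK ζ hζ⟩ : K)‖ = 1 := by
        obtain ⟨k, hk⟩ := hFA ζ hζ
        have hzk : (⟨ζ, hFK ζ hζ⟩ : K) ^ (2 ^ k) = 1 := by
          apply Subtype.ext
          push_cast
          exact hk
        refine Complex.norm_eq_one_of_pow_eq_one (n := 2 ^ k) ?_ (by positivity)
        rw [← map_pow, hzk, map_one]
      rw [map_sub, map_ofNat]
      have h3 : ‖(6 : ℂ)‖ - ‖σ (⟨ζ, hFK ζ hζ⟩ : K)‖ ≤ ‖6 - σ (⟨ζ, hFK ζ hζ⟩ : K)‖ :=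
        norm_sub_norm_le _ _
      rw [hσζ] at h3
      have h4 : ‖(6 : ℂ)‖ = 6 := by simp
      rw [h4] at h3
      linarith
  calc (5 : ℝ) ^ F.card ≤ ‖σ (∏ ζ ∈ F.attach, (6 - (⟨ζ.1, hFK ζ.1 ζ.2⟩ : K)))‖ := h5
    _ ≤ ‖σ (∏ ζ ∈ F.attach, (6 - (⟨ζ.1, hFK ζ.1 ζ.2⟩ : K)))‖ * ‖σ c'‖ :=
      le_mul_of_one_le_right (norm_nonneg _) hσ
    _ = ‖σ z'‖ := by rw [← norm_mul, ← map_mul, ← hprod]
    _ ≤ M := hroot

theorem Sz_finite {D : ℕ} (hD : D = 1 ∨ D = 3) {z : ℂ} (hz : z ∈ RR D) (hz0 : z ≠ 0) :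
    (Sz D z).Finite := by
  have hD0 : D ≠ 0 := by rcases hD with rfl | rfl <;> norm_num
  obtain ⟨k, hk⟩ := hz.2
  have hDR : ((D : ℂ) ^ k) ∈ RR D := pow_mem (natCast_mem (RR D) D) k
  obtain ⟨M, hM⟩ := cod3_bound hD (mul_mem hDR hz)
    (mul_ne_zero (pow_ne_zero k (Nat.cast_ne_zero.2 hD0)) hz0) hk
  by_contra hinf
  obtain ⟨n, hn⟩ := pow_unbounded_of_one_lt M (by norm_num : (1 : ℝ) < 5)
  obtain ⟨F, hFS, hFn⟩ := Set.Infinite.exists_subset_card_eq hinf n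
  have := hM F (fun ζ hζ => by
    obtain ⟨hA, c, hc, hzc⟩ := hFS hζ
    refine ⟨hA, (D : ℂ) ^ k * c, mul_mem hDR hc, ?_⟩
    rw [hzc]
    ring)
  rw [hFn] at this
  exact absurd this (not_le.2 hn)

end Pool.Agent.Lib.MP_fdb342_lc
end

section

/-!
# Coding finite sets of triples
-/

namespace Pool.Agent.Lib.MP_fdb342_lc

namespace Cod4

theorem inA_int {w : ℂ} (h : InA w) : IsIntegral ℤ w := by
  obtain ⟨k, hk⟩ := h
  refine ⟨Polynomial.X ^ (2 ^ k) - 1, Polynomial.monic_X_pow_sub_C 1 (by positivity), ?_⟩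
  simp [hk]

theorem inA_ne_zero {w : ℂ} (h : InA w) : w ≠ 0 := by
  rintro rfl
  obtain ⟨k, hk⟩ := h
  rw [zero_pow (by positivity)] at hk
  exact zero_ne_one hk

theorem norm_of_pow {w : ℂ} {k : ℕ} (hk : w ^ (2 ^ k) = 1) : ‖w‖ = 1 := by
  have h1 : ‖w‖ ^ (2 ^ k) = 1 := by rw [← norm_pow, hk, norm_one]
  exact (pow_eq_one_iff_of_nonneg (norm_nonneg _) (by positivity)).mp h1

/-- a finite set of integral numbers lies in a number field -/
theorem exists_numberField (S : Set ℂ) (hS : S.Finite) (h : ∀ x ∈ S, IsIntegral ℤ x) :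
    ∃ K : IntermediateField ℚ ℂ, NumberField K ∧ S ⊆ K := by
  have := hS.to_subtype
  have h1 : FiniteDimensional ℚ (IntermediateField.adjoin ℚ S) :=
    IntermediateField.finiteDimensional_adjoin (fun x hx => (h x hx).tower_top)
  exact ⟨IntermediateField.adjoin ℚ S, ⟨⟩, IntermediateField.subset_adjoin ℚ S⟩

theorem norm_sigma {K : IntermediateField ℚ ℂ} (σ : K →+* ℂ) {z : ℂ} (hz : InA z) (hK : z ∈ K) :
    ‖σ ⟨z, hK⟩‖ = 1 := by
  obtain ⟨k, hk⟩ := hz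
  apply norm_of_pow (k := k)
  rw [← map_pow]
  have : (⟨z, hK⟩ : K) ^ (2 ^ k) = 1 := by
    apply Subtype.ext
    simpa using hk
  rw [this, map_one]

/-- the linear form -/
noncomputable def lin (p : ℂ × ℂ × ℂ) : ℂ := p.1 + 3 * p.2.1 + 9 * p.2.2

def IA (p : ℂ × ℂ × ℂ) : Prop := InA p.1 ∧ InA p.2.1 ∧ InA p.2.2

def comps (p : ℂ × ℂ × ℂ) : Set ℂ := {p.1, p.2.1, p.2.2}

theorem comps_finite (p : ℂ × ℂ × ℂ) : (comps p).Finite := by
  unfold comps
  exact Set.toFinite _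

theorem comps_int {p : ℂ × ℂ × ℂ} (h : IA p) : ∀ x ∈ comps p, IsIntegral ℤ x := by
  intro x hx
  rcases hx with rfl | rfl | rfl
  · exact inA_int h.1
  · exact inA_int h.2.1
  · exact inA_int h.2.2

theorem lin_mem {K : IntermediateField ℚ ℂ} {p : ℂ × ℂ × ℂ} (h : comps p ⊆ K) : lin p ∈ K := by
  have h1 : p.1 ∈ K := h (by simp [comps])
  have h2 : p.2.1 ∈ K := h (by simp [comps])
  have h3 : p.2.2 ∈ K := h (by simp [comps])
  have h4 : (3 : ℂ) ∈ K := by simpa using natCast_mem K 3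
  have h5 : (9 : ℂ) ∈ K := by simpa using natCast_mem K 9
  exact add_mem (add_mem h1 (mul_mem h4 h2)) (mul_mem h5 h3)

theorem lin_int {p : ℂ × ℂ × ℂ} (h : IA p) : IsIntegral ℤ (lin p) := by
  have h4 : IsIntegral ℤ (3 : ℂ) := by
    have := isIntegral_algebraMap (R := ℤ) (A := ℂ) (x := (3 : ℤ)); simpa using this
  have h5 : IsIntegral ℤ (9 : ℂ) := by
    have := isIntegral_algebraMap (R := ℤ) (A := ℂ) (x := (9 : ℤ)); simpa using this
  exact ((inA_int h.1).add (h4.mul (inA_int h.2.1))).add (h5.mul (inA_int h.2.2))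

theorem lin_bound {K : IntermediateField ℚ ℂ} (σ : K →+* ℂ) {p : ℂ × ℂ × ℂ} (hp : IA p)
    (h : comps p ⊆ K) (hl : lin p ∈ K) : ‖σ ⟨lin p, hl⟩‖ ≤ 13 := by
  have h1 : p.1 ∈ K := h (by simp [comps])
  have h2 : p.2.1 ∈ K := h (by simp [comps])
  have h3 : p.2.2 ∈ K := h (by simp [comps])
  have e : (⟨lin p, hl⟩ : K) = ⟨p.1, h1⟩ + 3 * ⟨p.2.1, h2⟩ + 9 * ⟨p.2.2, h3⟩ := by
    apply Subtype.ext
    have e3 : ((3 : K) : ℂ) = 3 := map_ofNat (algebraMap K ℂ) 3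
    have e9 : ((9 : K) : ℂ) = 9 := map_ofNat (algebraMap K ℂ) 9
    change lin p = p.1 + ((3 : K) : ℂ) * p.2.1 + ((9 : K) : ℂ) * p.2.2
    rw [e3, e9, lin]
  rw [e, map_add, map_add, map_mul, map_mul, map_ofNat, map_ofNat]
  calc ‖σ ⟨p.1, h1⟩ + 3 * σ ⟨p.2.1, h2⟩ + 9 * σ ⟨p.2.2, h3⟩‖
      ≤ ‖σ ⟨p.1, h1⟩‖ + ‖3 * σ ⟨p.2.1, h2⟩‖ + ‖9 * σ ⟨p.2.2, h3⟩‖ := norm_add₃_le
    _ = 13 := by
        rw [norm_mul, norm_mul, norm_sigma σ hp.1, norm_sigma σ hp.2.1, norm_sigma σ hp.2.2]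
        norm_num

theorem sub_three {ζ ξ t : ℂ} (hζ : InA ζ) (hξ : InA ξ) (ht : IsIntegral ℤ t)
    (h : ζ - ξ = 3 * t) : ζ = ξ := by
  obtain ⟨K, hK, hS⟩ := exists_numberField {ζ, ξ} (Set.toFinite _) (by
    intro x hx
    rcases hx with rfl | rfl
    · exact inA_int hζ
    · exact inA_int hξ)
  have h1 : ζ ∈ K := hS (by simp)
  have h2 : ξ ∈ K := hS (by simp)
  have h3 : t ∈ K := by
    have e : t = (ζ - ξ) * (3 : ℂ)⁻¹ := by rw [h]; field_simp
    rw [e]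
    exact mul_mem (sub_mem h1 h2) (inv_mem (by simpa using natCast_mem K 3))
  by_contra hne
  have ht0 : (⟨t, h3⟩ : K) ≠ 0 := by
    intro h0
    have h4 : t = 0 := congrArg Subtype.val h0
    rw [h4, mul_zero] at h
    exact hne (sub_eq_zero.mp h)
  have hint : IsIntegral ℤ (⟨t, h3⟩ : K) := by
    have h5 : IsIntegral ℤ ((algebraMap K ℂ) ⟨t, h3⟩) := ht
    exact (isIntegral_algebraMap_iff (algebraMap K ℂ).injective).mp h5
  obtain ⟨σ, hσ⟩ := exists_conj_ge_one hint ht0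
  have e : (3 : ℂ) * σ ⟨t, h3⟩ = σ ⟨ζ, h1⟩ - σ ⟨ξ, h2⟩ := by
    rw [← map_sub, ← map_ofNat σ 3, ← map_mul]
    congr 1
    apply Subtype.ext
    have e3 : ((3 : K) : ℂ) = 3 := map_ofNat (algebraMap K ℂ) 3
    change ((3 : K) : ℂ) * t = ζ - ξ
    rw [e3, h]
  have h6 : ‖(3 : ℂ) * σ ⟨t, h3⟩‖ ≤ 2 := by
    rw [e]
    calc ‖σ ⟨ζ, h1⟩ - σ ⟨ξ, h2⟩‖ ≤ ‖σ ⟨ζ, h1⟩‖ + ‖σ ⟨ξ, h2⟩‖ := norm_sub_le _ _
      _ = 2 := by rw [norm_sigma σ hζ, norm_sigma σ hξ]; norm_num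
  rw [norm_mul] at h6
  norm_num at h6
  linarith

theorem lin_injective {p q : ℂ × ℂ × ℂ} (hp : IA p) (hq : IA q) (h : lin p = lin q) : p = q := by
  unfold lin at h
  have i3 : IsIntegral ℤ (3 : ℂ) := by
    have := isIntegral_algebraMap (R := ℤ) (A := ℂ) (x := (3 : ℤ)); simpa using this
  have h1 : p.1 = q.1 := by
    apply sub_three hp.1 hq.1 (t := (q.2.1 - p.2.1) + 3 * (q.2.2 - p.2.2))
    · exact ((inA_int hq.2.1).sub (inA_int hp.2.1)).add
        (i3.mul ((inA_int hq.2.2).sub (inA_int hp.2.2)))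
    · linear_combination h
  have h2 : p.2.1 = q.2.1 := by
    apply sub_three hp.2.1 hq.2.1 (t := q.2.2 - p.2.2)
    · exact (inA_int hq.2.2).sub (inA_int hp.2.2)
    · rw [h1] at h
      linear_combination h / 3
  have h3 : p.2.2 = q.2.2 := by
    rw [h1, h2] at h
    linear_combination h / 9
  exact Prod.ext h1 (Prod.ext h2 h3)

theorem lin_mem_RR {D : ℕ} {p : ℂ × ℂ × ℂ} (hp : IA p) : lin p ∈ RR D := by
  have h3 : (3 : ℂ) ∈ RR D := by simpa using natCast_mem (RR D) 3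
  have h9 : (9 : ℂ) ∈ RR D := by simpa using natCast_mem (RR D) 9
  exact add_mem (add_mem (inA_mem_RR hp.1) (mul_mem h3 (inA_mem_RR hp.2.1)))
    (mul_mem h9 (inA_mem_RR hp.2.2))

/-- the product of `y - c p` is `∏ (c q - c p)` modulo `y - c q`, the quotient being integral and
in `RR D` -/
theorem prod_congr_mod {D : ℕ} {y : ℂ} (hy : IsIntegral ℤ y) (hyR : y ∈ RR D) {q : ℂ × ℂ × ℂ}
    (hq : IA q) (F : Finset (ℂ × ℂ × ℂ)) (hF : ∀ p ∈ F, IA p) :
    ∃ s ∈ RR D, ∏ p ∈ F, (y - lin p) - ∏ p ∈ F, (lin q - lin p) = (y - lin q) * s := by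
  classical
  have _ := hy
  induction F using Finset.induction_on with
  | empty => exact ⟨0, zero_mem _, by simp⟩
  | insert a F ha ih =>
    obtain ⟨s, hs, e⟩ := ih (fun p hp => hF p (Finset.mem_insert_of_mem hp))
    have hla : lin a ∈ RR D := lin_mem_RR (hF a (Finset.mem_insert_self _ _))
    have hlq : lin q ∈ RR D := lin_mem_RR hq
    have hprod : ∏ p ∈ F, (y - lin p) ∈ RR D := by
      apply _root_.prod_mem
      intro p hp
      exact sub_mem hyR (lin_mem_RR (hF p (Finset.mem_insert_of_mem hp)))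
    refine ⟨∏ p ∈ F, (y - lin p) + (lin q - lin a) * s,
      add_mem hprod (mul_mem (sub_mem hlq hla) hs), ?_⟩
    rw [Finset.prod_insert ha, Finset.prod_insert ha]
    linear_combination (lin q - lin a) * e

theorem main {D : ℕ} (hD : D = 1 ∨ D = 3) (F : Finset (ℂ × ℂ × ℂ)) (hF : ∀ p ∈ F, IA p) :
    ∃ y ∈ RR D, ∃ w ∈ RR D, ∀ q : ℂ × ℂ × ℂ, IA q → (DvdR D (y - lin q) w ↔ q ∈ F) := by
  classical
  set N : ℕ := 26 ^ F.card + 14 with hN
  set y : ℂ := ((3 * N : ℕ) : ℂ) with hy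
  have hyR : y ∈ RR D := natCast_mem (RR D) _
  have hyI : IsIntegral ℤ y := by
    have := isIntegral_algebraMap (R := ℤ) (A := ℂ) (x := ((3 * N : ℕ) : ℤ))
    rw [hy]
    simpa using this
  have hfac : ∀ p ∈ F, y - lin p ∈ RR D := fun p hp => sub_mem hyR (lin_mem_RR (hF p hp))
  refine ⟨y, hyR, ∏ p ∈ F, (y - lin p), _root_.prod_mem hfac, ?_⟩
  intro q hq
  constructor
  swap
  · intro hqF
    refine ⟨∏ p ∈ F.erase q, (y - lin p), _root_.prod_mem (fun p hp =>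
      hfac p (Finset.mem_of_mem_erase hp)), ?_⟩
    rw [Finset.mul_prod_erase F (fun p => y - lin p) hqF]
  · rintro ⟨t, ht, htw⟩
    by_contra hqF
    obtain ⟨s, hs, hse⟩ := prod_congr_mod hyI hyR hq F hF
    have hΔ : ∏ p ∈ F, (lin q - lin p) = (y - lin q) * (t - s) := by
      linear_combination htw - hse
    have hΔ0 : ∏ p ∈ F, (lin q - lin p) ≠ 0 := by
      rw [Finset.prod_ne_zero_iff]
      intro p hp h0
      have h1 := lin_injective hq (hF p hp) (sub_eq_zero.mp h0)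
      exact hqF (h1 ▸ hp)
    have hΔI : IsIntegral ℤ (∏ p ∈ F, (lin q - lin p)) :=
      IsIntegral.prod _ (fun p hp => (lin_int hq).sub (lin_int (hF p hp)))
    have hyq : IsIntegral ℤ (y - lin q) := hyI.sub (lin_int hq)
    have hq0 : q.1 ≠ 0 := inA_ne_zero hq.1
    have hqinv : InA q.1⁻¹ := by
      obtain ⟨k, hk⟩ := hq.1
      exact ⟨k, by rw [inv_pow, hk, inv_one]⟩
    have hd : IsIntegral ℤ (t - s) := by
      rcases hD with rfl | rfl
      · exact isIntegral_of_coprime (D := 1) (x := 0) (y := 1) hyq hΔI isIntegral_zero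
          isIntegral_one (by simp) (sub_mem ht hs) hΔ
      · have iN : IsIntegral ℤ (N : ℂ) := by
          have := isIntegral_algebraMap (R := ℤ) (A := ℂ) (x := ((N : ℕ) : ℤ))
          simpa using this
        have i3 : IsIntegral ℤ (3 : ℂ) := by
          have := isIntegral_algebraMap (R := ℤ) (A := ℂ) (x := (3 : ℤ)); simpa using this
        refine isIntegral_of_coprime (D := 3) (x := -q.1⁻¹)
          (y := q.1⁻¹ * (N - q.2.1 - 3 * q.2.2)) hyq hΔI (inA_int hqinv).neg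
          ((inA_int hqinv).mul ((iN.sub (inA_int hq.2.1)).sub (i3.mul (inA_int hq.2.2)))) ?_
          (sub_mem ht hs) hΔ
        rw [hy, lin]
        push_cast
        field_simp
        ring
    -- the number field
    have hSfin : (comps q ∪ ⋃ p ∈ F, comps p).Finite :=
      (comps_finite q).union (Set.Finite.biUnion F.finite_toSet (fun p _ => comps_finite p))
    obtain ⟨K, hK, hS⟩ := exists_numberField _ hSfin (by
      intro x hx
      rcases hx with hx | hx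
      · exact comps_int hq x hx
      · simp only [Set.mem_iUnion] at hx
        obtain ⟨p, hp, hx⟩ := hx
        exact comps_int (hF p hp) x hx)
    have hcq : comps q ⊆ K := fun x hx => hS (Or.inl hx)
    have hcp : ∀ p ∈ F, comps p ⊆ K := fun p hp x hx => hS (Or.inr (by
      simp only [Set.mem_iUnion]
      exact ⟨p, hp, hx⟩))
    have hlq : lin q ∈ K := lin_mem hcq
    have hlp : ∀ p ∈ F, lin p ∈ K := fun p hp => lin_mem (hcp p hp)
    let cK : ℂ × ℂ × ℂ → K := fun p => if h : lin p ∈ K then ⟨lin p, h⟩ else 0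
    have hcK : ∀ p (h : lin p ∈ K), cK p = ⟨lin p, h⟩ := fun p h => dif_pos h
    have hyK : y ∈ K := natCast_mem K _
    have hyq0 : y - lin q ≠ 0 := by
      intro h0
      rw [h0, zero_mul] at hΔ
      exact hΔ0 hΔ
    have hd0 : t - s ≠ 0 := by
      intro h0
      rw [h0, mul_zero] at hΔ
      exact hΔ0 hΔ
    have hΔK : ∏ p ∈ F, (lin q - lin p) ∈ K :=
      _root_.prod_mem (fun p hp => sub_mem hlq (hlp p hp))
    have hdK : t - s ∈ K := by
      have e : t - s = (∏ p ∈ F, (lin q - lin p)) * (y - lin q)⁻¹ := by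
        rw [hΔ]
        field_simp
      rw [e]
      exact mul_mem hΔK (inv_mem (sub_mem hyK hlq))
    have hint : IsIntegral ℤ (⟨t - s, hdK⟩ : K) := by
      have h5 : IsIntegral ℤ ((algebraMap K ℂ) ⟨t - s, hdK⟩) := hd
      exact (isIntegral_algebraMap_iff (algebraMap K ℂ).injective).mp h5
    have hne : (⟨t - s, hdK⟩ : K) ≠ 0 := fun h0 => hd0 (congrArg Subtype.val h0)
    obtain ⟨σ, hσ⟩ := exists_conj_ge_one hint hne
    have hΔ' : ∏ p ∈ F, (cK q - cK p) = (((3 * N : ℕ) : K) - cK q) * ⟨t - s, hdK⟩ := by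
      apply Subtype.ext
      have e1 : ((∏ p ∈ F, (cK q - cK p) : K) : ℂ) = ∏ p ∈ F, (lin q - lin p) := by
        refine (map_prod (algebraMap K ℂ) _ _).trans ?_
        apply Finset.prod_congr rfl
        intro p hp
        rw [hcK q hlq, hcK p (hlp p hp)]
        rfl
      have e2 : (((((3 * N : ℕ) : K) - cK q) * ⟨t - s, hdK⟩ : K) : ℂ) = (y - lin q) * (t - s) := by
        rw [hcK q hlq, hy]
        push_cast
        rfl
      rw [e1, e2, hΔ]
    have hσΔ := congrArg σ hΔ'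
    rw [map_prod, map_mul, map_sub, map_natCast] at hσΔ
    have hbq : ‖σ (cK q)‖ ≤ 13 := by rw [hcK q hlq]; exact lin_bound σ hq hcq hlq
    have hbp : ∀ p ∈ F, ‖σ (cK p)‖ ≤ 13 := fun p hp => by
      rw [hcK p (hlp p hp)]; exact lin_bound σ (hF p hp) (hcp p hp) (hlp p hp)
    have hub : ‖∏ p ∈ F, σ (cK q - cK p)‖ ≤ 26 ^ F.card := by
      rw [norm_prod]
      calc ∏ p ∈ F, ‖σ (cK q - cK p)‖ ≤ ∏ _p ∈ F, (26 : ℝ) := by
            apply Finset.prod_le_prod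
            · intro p _; exact norm_nonneg _
            · intro p hp
              rw [map_sub]
              calc ‖σ (cK q) - σ (cK p)‖ ≤ ‖σ (cK q)‖ + ‖σ (cK p)‖ := norm_sub_le _ _
                _ ≤ 13 + 13 := add_le_add hbq (hbp p hp)
                _ = 26 := by norm_num
        _ = 26 ^ F.card := by rw [Finset.prod_const]
    have hlb : (26 : ℝ) ^ F.card + 1 ≤ ‖(((3 * N : ℕ) : ℂ) - σ (cK q)) * σ ⟨t - s, hdK⟩‖ := by
      rw [norm_mul]
      have h1 : (26 : ℝ) ^ F.card + 1 ≤ ‖((3 * N : ℕ) : ℂ) - σ (cK q)‖ := by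
        have h2 : ‖((3 * N : ℕ) : ℂ)‖ - ‖σ (cK q)‖ ≤ ‖((3 * N : ℕ) : ℂ) - σ (cK q)‖ :=
          norm_sub_norm_le _ _
        have h3 : ‖((3 * N : ℕ) : ℂ)‖ = 3 * (26 ^ F.card + 14) := by
          rw [Complex.norm_natCast, hN]
          push_cast
          ring
        have h4 : (0 : ℝ) ≤ 26 ^ F.card := by positivity
        rw [h3] at h2
        linarith
      have h5 : (0 : ℝ) ≤ 26 ^ F.card := by positivity
      calc (26 : ℝ) ^ F.card + 1 = (26 ^ F.card + 1) * 1 := by ring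
        _ ≤ ‖((3 * N : ℕ) : ℂ) - σ (cK q)‖ * ‖σ ⟨t - s, hdK⟩‖ :=
            mul_le_mul h1 hσ zero_le_one (norm_nonneg _)
    rw [hσΔ] at hub
    linarith

end Cod4

open Cod4 in
/-- every finite set of triples has a code -/
theorem exists_code3 {D : ℕ} (hD : D = 1 ∨ D = 3) (F : Finset (ℂ × ℂ × ℂ)) :
    ∃ y ∈ RR D, ∃ w ∈ RR D, ∀ ζ ξ θ, InA ζ → InA ξ → InA θ →
      (Mem3 D y w ζ ξ θ ↔ (ζ, ξ, θ) ∈ F) := by
  classical
  obtain ⟨y, hy, w, hw, h⟩ := main hD (F.filter IA) (fun p hp => (Finset.mem_filter.mp hp).2)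
  refine ⟨y, hy, w, hw, ?_⟩
  intro ζ ξ θ h1 h2 h3
  have hq : IA (ζ, ξ, θ) := ⟨h1, h2, h3⟩
  have h4 := h (ζ, ξ, θ) hq
  rw [Finset.mem_filter] at h4
  have e : y - ζ - 3 * ξ - 9 * θ = y - lin (ζ, ξ, θ) := by
    unfold lin
    ring
  constructor
  · rintro ⟨_, _, _, h5⟩
    rw [e] at h5
    exact (h4.mp h5).1
  · intro h5
    refine ⟨h1, h2, h3, ?_⟩
    rw [e]
    exact h4.mpr ⟨h5, hq⟩

end Pool.Agent.Lib.MP_fdb342_lc
end
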