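import Pool.Agent.Lib.MP_fdb342_lc.Mg.G002
import Pool.Agent.Lib.MP_fdb342_lc.Mg.G001
import Pool.Agent.Lib.MP_fdb342_lc.Mg.G008

section

/-!
# A cubic extension defined by a polynomial with a pole
-/

open IsDedekindDomain NumberField

namespace Pool.Agent.Lib.MP_fdb342_lc

variable {K : Type} [Field K] [NumberField K] {E : Type} [Field E] [NumberField E] [Algebra K E]

open Polynomial in
private theorem F2c_coef (hd : Module.finrank K E = 3) {z : E}
    (hz : ∀ Q : Pl E, Q.valuation E z ≤ 1) (hzK : ∀ y : K, algebraMap K E y ≠ z) (a b c : K)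
    (h : z ^ 3 + algebraMap K E a * z ^ 2 + algebraMap K E b * z + algebraMap K E c = 0)
    (v : Pl K) : v.valuation K a ≤ 1 ∧ v.valuation K b ≤ 1 := by
  have hfd : FiniteDimensional K E := Module.finite_of_finrank_pos (by omega)
  have hint : IsIntegral K z := Algebra.IsIntegral.isIntegral z
  have hdeg : (minpoly K z).natDegree = 3 := by
    have h1 : (minpoly K z).natDegree ∣ 3 := hd ▸ minpoly.degree_dvd hint
    rcases (Nat.dvd_prime Nat.prime_three).1 h1 with h2 | h2
    · rw [minpoly.natDegree_eq_one_iff] at h2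
      obtain ⟨y, hy⟩ := h2
      exact absurd hy (hzK y)
    · exact h2
  set g : K[X] := X ^ 3 + C a * X ^ 2 + C b * X + C c with hg
  have hgm : g.Monic := by
    rw [hg]; monicity!
  have hgd : g.natDegree = 3 := by
    rw [hg]; compute_degree!
  have hg0 : aeval z g = 0 := by
    rw [hg]
    simp only [map_add, map_mul, map_pow, aeval_X, aeval_C]
    exact h
  have hmin : g = minpoly K z := by
    refine minpoly.unique K z hgm hg0 fun q hq hq0 => ?_
    have h1 := minpoly.min K z hq hq0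
    refine le_trans (le_of_eq ?_) h1
    rw [degree_eq_natDegree hgm.ne_zero, degree_eq_natDegree (minpoly.ne_zero hint), hgd, hdeg]
  have hzO := HeightOneSpectrum.mem_integers_of_valuation_le_one E z hz
  obtain ⟨z', hz'⟩ := hzO
  have hz'int : IsIntegral (𝓞 K) z' := Algebra.IsIntegral.isIntegral z'
  have hz'' := minpoly.isIntegrallyClosed_eq_field_fractions K E hz'int
  rw [hz', ← hmin] at hz''
  have hc : ∀ i, v.valuation K (g.coeff i) ≤ 1 := by
    intro i
    rw [hz'', coeff_map]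
    exact v.valuation_le_one _
  constructor
  · have := hc 2
    rw [hg] at this
    simpa [coeff_X, coeff_C] using this
  · have := hc 1
    rw [hg] at this
    simpa [coeff_X, coeff_C] using this

private theorem F2c_exists_s (v : Pl K) (y : E)
    (hy : ∀ Q : Pl E, bel K Q = v → Q.valuation E y ≤ 1) :
    ∃ s : K, v.valuation K s = 1 ∧ ∀ Q : Pl E, Q.valuation E (algebraMap K E s * y) ≤ 1 := by
  classical
  rcases eq_or_ne y 0 with rfl | hy0
  · exact ⟨1, by simp, by simp⟩
  have hfin : {Q : Pl E | ¬ Q.valuation E y ≤ 1}.Finite := by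
    refine (finite_ordv_ne (Units.mk0 y hy0)).subset ?_
    intro Q hQ h0
    apply hQ
    rw [Units.val_mk0, ← val_eq_one_iff Q hy0] at h0
    exact h0.le
  -- for one place
  have hone : ∀ Q : Pl E, ∃ s : 𝓞 K, ¬ Q.valuation E y ≤ 1 →
      v.valuation K (algebraMap (𝓞 K) K s) = 1 ∧
        Q.valuation E (algebraMap K E (algebraMap (𝓞 K) K s) * y) ≤ 1 := by
    intro Q
    by_cases hQ : Q.valuation E y ≤ 1
    · exact ⟨1, fun h => absurd hQ h⟩
    have hne : bel K Q ≠ v := fun h => hQ (hy Q h)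
    have hnle : ¬ (bel K Q).asIdeal ≤ v.asIdeal := by
      intro hle
      apply hne
      apply HeightOneSpectrum.ext
      exact (bel K Q).isMaximal.eq_of_le v.isPrime.ne_top hle
    obtain ⟨s, hs1, hs2⟩ := SetLike.not_le_iff_exists.1 hnle
    have hs0 : algebraMap (𝓞 K) K s ≠ 0 := by
      intro h
      rw [map_eq_zero_iff _ (FaithfulSMul.algebraMap_injective (𝓞 K) K)] at h
      rw [h] at hs2
      exact hs2 v.asIdeal.zero_mem
    have hvs : v.valuation K (algebraMap (𝓞 K) K s) = 1 := by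
      refine le_antisymm (v.valuation_le_one s) ?_
      rw [← not_lt, HeightOneSpectrum.valuation_lt_one_iff_mem]
      exact hs2
    have hEs0 : algebraMap K E (algebraMap (𝓞 K) K s) ≠ 0 := by
      rwa [Ne, map_eq_zero_iff _ (algebraMap K E).injective]
    have hQs : Q.valuation E (algebraMap K E (algebraMap (𝓞 K) K s)) < 1 := by
      obtain ⟨e, he, hv⟩ := val_bel (K := K) Q
      rw [hv]
      refine pow_lt_one₀ zero_le' ?_ he.ne'
      rw [HeightOneSpectrum.valuation_lt_one_iff_mem]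
      exact hs1
    have hord : 1 ≤ ordv Q (algebraMap K E (algebraMap (𝓞 K) K s)) := by
      rw [← map_one (Q.valuation E), val_lt_iff Q hEs0 one_ne_zero, ordv_one] at hQs
      omega
    refine ⟨s ^ (ordv Q y).natAbs, fun _ => ⟨?_, ?_⟩⟩
    · rw [map_pow, map_pow, hvs, one_pow]
    · rw [map_pow, map_pow, ← map_one (Q.valuation E),
        val_le_iff Q (mul_ne_zero (pow_ne_zero _ hEs0) hy0) one_ne_zero, ordv_one,
        ordv_mul Q (pow_ne_zero _ hEs0) hy0, ordv_pow]
      have h1 : ((ordv Q y).natAbs : ℤ) * 1 ≤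
          ((ordv Q y).natAbs : ℤ) * ordv Q (algebraMap K E (algebraMap (𝓞 K) K s)) :=
        mul_le_mul_of_nonneg_left hord (by positivity)
      omega
  choose s hs using hone
  refine ⟨algebraMap (𝓞 K) K (∏ Q ∈ hfin.toFinset, s Q), ?_, fun Q => ?_⟩
  · rw [map_prod, map_prod]
    refine Finset.prod_eq_one fun Q hQ => ?_
    rw [Set.Finite.mem_toFinset] at hQ
    exact (hs Q hQ).1
  · have hle : ∀ r : 𝓞 K, Q.valuation E (algebraMap K E (algebraMap (𝓞 K) K r)) ≤ 1 := by
      intro r
      have e : algebraMap K E (algebraMap (𝓞 K) K r) = algebraMap (𝓞 E) E (algebraMap (𝓞 K) (𝓞 E) r) := by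
        rw [← IsScalarTower.algebraMap_apply (𝓞 K) K E, ← IsScalarTower.algebraMap_apply (𝓞 K) (𝓞 E) E]
      rw [e]
      exact Q.valuation_le_one _
    by_cases hQ : Q.valuation E y ≤ 1
    · rw [map_mul]
      exact mul_le_one' (hle _) hQ
    · have hQT : Q ∈ hfin.toFinset := by rw [Set.Finite.mem_toFinset]; exact hQ
      have e : algebraMap K E (algebraMap (𝓞 K) K (∏ Q ∈ hfin.toFinset, s Q)) * y =
          algebraMap K E (algebraMap (𝓞 K) K (∏ Q ∈ hfin.toFinset.erase Q, s Q)) *
            (algebraMap K E (algebraMap (𝓞 K) K (s Q)) * y) := by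
        rw [← Finset.prod_erase_mul _ _ hQT, (algebraMap (𝓞 K) K).map_mul,
          (algebraMap K E).map_mul, mul_assoc]
      rw [e, map_mul]
      exact mul_le_one' (hle _) (hs Q hQ).2

private theorem F2c_odd (v : Pl K) (P : Pl E) (hP : bel K P = v)
    (he : Ideal.ramificationIdx' v.asIdeal P.asIdeal = 1)
    (hf : Ideal.inertiaDeg' v.asIdeal P.asIdeal = 1) : Odd3 K P := by
  subst hP
  have hL : P.asIdeal.LiesOver (bel K P).asIdeal := ⟨rfl⟩
  have hval : ∀ x : K, P.valuation E (algebraMap K E x) = (bel K P).valuation K x := by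
    intro x
    have := (HeightOneSpectrum.valuation_liesOver E (bel K P) P x).symm
    rw [this, he, pow_one]
  refine ⟨⟨1, by norm_num, fun x => by rw [hval, pow_one]⟩, ?_⟩
  -- lifting of residues
  have hres : ∀ b : 𝓞 E, ∃ a : 𝓞 K, algebraMap (𝓞 K) (𝓞 E) a - b ∈ P.asIdeal := by
    rw [Ideal.inertiaDeg'_algebraMap] at hf
    have := (bel K P).isMaximal
    let _ : Field (𝓞 K ⧸ (bel K P).asIdeal) := Ideal.Quotient.field _
    intro b
    have hnt : Nontrivial (𝓞 E ⧸ P.asIdeal) := Ideal.Quotient.nontrivial_iff.2 P.isPrime.ne_top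
    have h1 := (finrank_eq_one_iff_of_nonzero' (1 : 𝓞 E ⧸ P.asIdeal) one_ne_zero).1 hf
    obtain ⟨c, hc⟩ := h1 (Ideal.Quotient.mk _ b)
    obtain ⟨a, rfl⟩ := Ideal.Quotient.mk_surjective c
    refine ⟨a, ?_⟩
    rw [← Ideal.Quotient.mk_eq_mk_iff_sub_mem, ← hc, Algebra.smul_def, mul_one]
    rfl
  intro c hc hcL hup
  apply hcL
  obtain ⟨y, hy⟩ := hup
  have hPc : P.valuation E (algebraMap K E (c : K)) = 1 := by
    rw [hval, val_eq_one_iff _ c.ne_zero]; exact hc
  push_cast at hy
  have hupc : ((up E c : Eˣ) : E) = algebraMap K E (c : K) := rfl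
  rw [hupc] at hy
  have h1 : P.valuation E (algebraMap K E (c : K) * (y : E) ^ 3) = 1 := by
    have h2 := Valuation.map_one_add_of_lt (v := P.valuation E) hy
    rw [← h2]; congr 1; ring
  have hPy : P.valuation E (y : E) = 1 := by
    rw [map_mul, hPc, one_mul] at h1
    rw [val_eq_one_iff P (pow_ne_zero 3 y.ne_zero), ordv_pow] at h1
    rw [val_eq_one_iff P y.ne_zero]
    push_cast at h1
    omega
  obtain ⟨b, hb⟩ := HeightOneSpectrum.exists_valuation_sub_lt_of_integer P (x := (y : E)) hPy.le 1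
  rw [Units.val_one] at hb
  obtain ⟨a, ha⟩ := hres b
  have hab : P.valuation E (algebraMap K E (algebraMap (𝓞 K) K a) - y) < 1 := by
    have e : algebraMap K E (algebraMap (𝓞 K) K a) - y =
        algebraMap (𝓞 E) E (algebraMap (𝓞 K) (𝓞 E) a - b) + (algebraMap (𝓞 E) E b - y) := by
      rw [map_sub, ← IsScalarTower.algebraMap_apply (𝓞 K) K E,
        ← IsScalarTower.algebraMap_apply (𝓞 K) (𝓞 E) E]
      ring
    rw [e]
    refine Valuation.map_add_lt _ ?_ hb
    rw [HeightOneSpectrum.valuation_lt_one_iff_mem]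
    exact ha
  set α : E := algebraMap K E (algebraMap (𝓞 K) K a) with hα
  have hPα : P.valuation E α ≤ 1 := by
    have e : α = (α - y) + y := by ring
    rw [e]
    exact Valuation.map_add_le _ hab.le hPy.le
  have h3 : P.valuation E (algebraMap K E (c : K) * α ^ 3 - 1) < 1 := by
    have e : algebraMap K E (c : K) * α ^ 3 - 1 = (algebraMap K E (c : K) * (y : E) ^ 3 - 1) +
        (α - y) * (algebraMap K E (c : K) * (α ^ 2 + α * y + (y : E) ^ 2)) := by ring
    rw [e]
    refine Valuation.map_add_lt _ hy ?_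
    rw [map_mul]
    refine mul_lt_one_of_lt_of_le hab ?_
    rw [map_mul, hPc, one_mul]
    refine Valuation.map_add_le _ (Valuation.map_add_le _ ?_ ?_) ?_
    · rw [map_pow]; exact pow_le_one' hPα 2
    · rw [map_mul, hPy, mul_one]; exact hPα
    · rw [map_pow, hPy, one_pow]
  have h4 : (bel K P).valuation K ((c : K) * (algebraMap (𝓞 K) K a) ^ 3 - 1) < 1 := by
    rw [← hval, map_sub, map_mul, map_pow, map_one]
    exact h3
  have ha0 : algebraMap (𝓞 K) K a ≠ 0 := by
    intro h
    rw [h] at h4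
    simp at h4
  refine ⟨Units.mk0 _ ha0, ?_⟩
  push_cast
  rw [Units.val_mk0]
  exact h4

/-- if `x` is not integral at `P`, then `P` has at least two places above it in the cubic field
generated by a root of `X ^ 3 - x X ^ 2 + t X - 1`, hence one with `e = f = 1` -/
theorem exists_odd_place (hd : Module.finrank K E = 3) {x t : K} {θ : E}
    (hθ : θ ^ 3 = algebraMap K E x * θ ^ 2 - algebraMap K E t * θ + 1)
    (hθK : ∀ y : K, algebraMap K E y ≠ θ) (v : Pl K) (hx : 1 < v.valuation K x) :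
    ∃ P : Pl E, bel K P = v ∧ Odd3 K P := by
  classical
  obtain ⟨P₀, hP₀⟩ := exists_above (E := E) v
  by_cases huniq : ∀ P : Pl E, bel K P = v → P = P₀
  · exfalso
    have hθ0 : θ ≠ 0 := fun h => hθK 0 (by rw [map_zero, h])
    rcases le_or_gt (P₀.valuation E θ) 1 with h | h
    · obtain ⟨s, hs1, hs2⟩ := F2c_exists_s v θ (fun Q hQ => by rw [huniq Q hQ]; exact h)
      have hs0 : s ≠ 0 := by rintro rfl; simp at hs1
      have := (F2c_coef hd hs2 (fun y hy => hθK (s⁻¹ * y) (by
        rw [map_mul, map_inv₀, hy]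
        have : algebraMap K E s ≠ 0 := by rwa [Ne, map_eq_zero_iff _ (algebraMap K E).injective]
        field_simp)) (-(s * x)) (s ^ 2 * t) (-(s ^ 3)) (by
          simp only [map_neg, map_mul, map_pow]
          linear_combination (algebraMap K E s) ^ 3 * hθ) v).1
      rw [Valuation.map_neg, map_mul, hs1, one_mul] at this
      exact absurd this (not_le.2 hx)
    · have h' : P₀.valuation E θ⁻¹ ≤ 1 := by
        rw [map_inv₀]
        exact inv_le_one_of_one_le₀ h.le
      obtain ⟨s, hs1, hs2⟩ := F2c_exists_s v θ⁻¹ (fun Q hQ => by rw [huniq Q hQ]; exact h')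
      have hs0 : s ≠ 0 := by rintro rfl; simp at hs1
      have hs0' : algebraMap K E s ≠ 0 := by
        rwa [Ne, map_eq_zero_iff _ (algebraMap K E).injective]
      have := (F2c_coef hd hs2 (fun y hy => hθK (s * y⁻¹) (by
        rw [map_mul, map_inv₀, hy]
        field_simp)) (-(s * t)) (s ^ 2 * x) (-(s ^ 3)) (by
          simp only [map_neg, map_mul, map_pow]
          field_simp
          linear_combination (-(algebraMap K E s) ^ 3) * hθ) v).2
      rw [map_mul, map_pow, hs1, one_pow, one_mul] at this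
      exact absurd this (not_le.2 hx)
  · push Not at huniq
    obtain ⟨P₁, hP₁, hne⟩ := huniq
    have hmax := v.isMaximal
    have hsum : ∑ P ∈ IsDedekindDomain.primesOverFinset v.asIdeal (𝓞 E),
        Ideal.ramificationIdx' v.asIdeal P * Ideal.inertiaDeg' v.asIdeal P = 3 := by
      rw [Ideal.sum_ramification_inertia (𝓞 E) K E v.ne_bot, hd]
    have hmem : ∀ P : Pl E, bel K P = v →
        P.asIdeal ∈ IsDedekindDomain.primesOverFinset v.asIdeal (𝓞 E) := by
      intro P hP
      subst hP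
      exact (IsDedekindDomain.mem_primesOverFinset_iff (bel K P).ne_bot (𝓞 E)).2
        ⟨P.isPrime, ⟨rfl⟩⟩
    obtain ⟨I, hI, hI1⟩ : ∃ I ∈ IsDedekindDomain.primesOverFinset v.asIdeal (𝓞 E),
        Ideal.ramificationIdx' v.asIdeal I * Ideal.inertiaDeg' v.asIdeal I = 1 := by
      by_contra hcon
      push Not at hcon
      have h2 : ∀ I ∈ IsDedekindDomain.primesOverFinset v.asIdeal (𝓞 E),
          2 ≤ Ideal.ramificationIdx' v.asIdeal I * Ideal.inertiaDeg' v.asIdeal I := by
        intro I hI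
        have h3 := (IsDedekindDomain.mem_primesOverFinset_iff v.ne_bot (𝓞 E)).1 hI
        have : I.IsPrime := h3.1
        have : I.LiesOver v.asIdeal := h3.2
        have h4 : 1 ≤ Ideal.ramificationIdx' v.asIdeal I * Ideal.inertiaDeg' v.asIdeal I := by
          refine Right.one_le_mul ?_ ?_
          · exact Nat.pos_iff_ne_zero.mpr <|
              Ideal.IsDedekindDomain.ramificationIdx'_ne_zero_of_liesOver _ v.ne_bot
          · exact Nat.pos_iff_ne_zero.mpr <| Ideal.inertiaDeg'_ne_zero v.asIdeal I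
        have h5 := hcon I hI
        omega
      have h3 := Finset.card_nsmul_le_sum _ _ _ h2
      have h4 : 2 ≤ (IsDedekindDomain.primesOverFinset v.asIdeal (𝓞 E)).card := by
        have h5 : ({P₀.asIdeal, P₁.asIdeal} : Finset (Ideal (𝓞 E))) ⊆
            IsDedekindDomain.primesOverFinset v.asIdeal (𝓞 E) := by
          intro J hJ
          rw [Finset.mem_insert, Finset.mem_singleton] at hJ
          rcases hJ with rfl | rfl
          · exact hmem _ hP₀
          · exact hmem _ hP₁
        refine le_trans ?_ (Finset.card_le_card h5)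
        rw [Finset.card_pair]
        intro h
        exact hne (HeightOneSpectrum.ext h.symm)
      rw [hsum, smul_eq_mul] at h3
      omega
    have h3 := (IsDedekindDomain.mem_primesOverFinset_iff v.ne_bot (𝓞 E)).1 hI
    have hIp : I.IsPrime := h3.1
    have hIL : I.LiesOver v.asIdeal := h3.2
    have hIb : I ≠ ⊥ := Ideal.ne_bot_of_liesOver_of_ne_bot v.ne_bot I
    have hef1 : Ideal.ramificationIdx' v.asIdeal I = 1 := Nat.dvd_one.1 (Dvd.intro _ hI1)
    have hef2 : Ideal.inertiaDeg' v.asIdeal I = 1 := Nat.dvd_one.1 (Dvd.intro_left _ hI1)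
    refine ⟨⟨I, hIp, hIb⟩, ?_, ?_⟩
    · apply HeightOneSpectrum.ext
      exact hIL.over.symm
    · refine F2c_odd v ⟨I, hIp, hIb⟩ ?_ hef1 hef2
      apply HeightOneSpectrum.ext
      exact hIL.over.symm

end Pool.Agent.Lib.MP_fdb342_lc
end

section

/-!
# Cubic extensions
-/

open IsDedekindDomain NumberField Polynomial

namespace Pool.Agent.Lib.MP_fdb342_lc

theorem exists_cubic {K : Type} [Field K] [NumberField K] {x t : K}
    (h : ∀ y : K, y ^ 3 - x * y ^ 2 + t * y - 1 ≠ 0) :
    ∃ (E : Type) (_ : Field E) (_ : NumberField E) (_ : Algebra K E) (θ : E),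
      Module.finrank K E = 3 ∧ θ ^ 3 = algebraMap K E x * θ ^ 2 - algebraMap K E t * θ + 1 ∧
      ∀ y : K, algebraMap K E y ≠ θ := by
  set f : K[X] := X ^ 3 - C x * X ^ 2 + C t * X - 1 with hf
  have hdeg : f.natDegree = 3 := by
    rw [hf]; compute_degree!
  have hmon : f.Monic := by
    rw [hf]; monicity!
  have hirr : Irreducible f := by
    rw [Polynomial.irreducible_iff_roots_eq_zero_of_degree_le_three (by omega) (by omega)]
    rw [Multiset.eq_zero_iff_forall_notMem]
    intro y hy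
    have h1 := (Polynomial.mem_roots'.1 hy).2
    rw [IsRoot.def, hf] at h1
    apply h y
    simpa using h1
  have : Fact (Irreducible f) := ⟨hirr⟩
  let _ : Field (AdjoinRoot f) := AdjoinRoot.instField
  have hfr : Module.finrank K (AdjoinRoot f) = 3 := by
    rw [(AdjoinRoot.powerBasis hirr.ne_zero).finrank, AdjoinRoot.powerBasis_dim, hdeg]
  have hfd : FiniteDimensional K (AdjoinRoot f) := Module.finite_of_finrank_pos (by omega)
  have hcz : CharZero (AdjoinRoot f) := charZero_of_injective_algebraMap (algebraMap K _).injective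
  have hnf : NumberField (AdjoinRoot f) := by
    refine { to_charZero := hcz, to_finiteDimensional := ?_ }
    exact Module.Finite.trans K (AdjoinRoot f)
  have hroot : (AdjoinRoot.root f) ^ 3 = algebraMap K (AdjoinRoot f) x * (AdjoinRoot.root f) ^ 2 -
      algebraMap K (AdjoinRoot f) t * AdjoinRoot.root f + 1 := by
    have h1 := AdjoinRoot.eval₂_root f
    rw [hf] at h1
    simp only [eval₂_sub, eval₂_add, eval₂_mul, eval₂_pow, eval₂_X, eval₂_C, eval₂_one] at h1
    rw [AdjoinRoot.algebraMap_eq]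
    linear_combination h1
  refine ⟨AdjoinRoot f, inferInstance, hnf, inferInstance, AdjoinRoot.root f, hfr, hroot, ?_⟩
  intro y hy
  rw [← hy] at hroot
  apply h y
  apply (algebraMap K (AdjoinRoot f)).injective
  simp only [map_sub, map_add, map_mul, map_pow, map_one, map_zero]
  linear_combination hroot

end Pool.Agent.Lib.MP_fdb342_lc
end

section

/-!
# Values of the norm form have trivial tame symbols
-/

open IsDedekindDomain NumberField

namespace Pool.Agent.Lib.MP_fdb342_lc

variable {K : Type} [Field K] [NumberField K]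

private lemma HN4_lt_one_of_pow {v : Pl K} {a : K} (n : ℕ) (h : v.valuation K (a ^ n) < 1) :
    v.valuation K a < 1 := by
  by_contra hh
  push Not at hh
  rw [map_pow] at h
  exact absurd (one_le_pow₀ hh : 1 ≤ (v.valuation K a) ^ n) (not_le.2 h)

private lemma HN4_mul_lt {v : Pl K} {a b : K} (ha : v.valuation K a ≤ 1)
    (hb : v.valuation K b < 1) : v.valuation K (a * b) < 1 := by
  rw [map_mul]
  exact mul_lt_one_of_nonneg_of_lt_one_right ha zero_le hb

private lemma HN4_cube {v : Pl K} {d : Kˣ} {a b : K} (hb : v.valuation K b = 1)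
    (hd : v.valuation K (d : K) = 1) (h : v.valuation K (a ^ 3 - d * b ^ 3) < 1) :
    d ∈ LCv v := by
  have h1 : v.valuation K ((d : K) * b ^ 3) = 1 := by
    rw [map_mul, map_pow, hb, hd]; simp
  have h2 : v.valuation K (a ^ 3) = 1 := by
    have h3 := Valuation.map_add_eq_of_lt_right (v := v.valuation K)
      (x := a ^ 3 - d * b ^ 3) (y := (d : K) * b ^ 3) (by rw [h1]; exact h)
    rw [h1] at h3
    rw [← h3]; congr 1; ring
  have ha0 : a ≠ 0 := by
    rintro rfl
    simp at h2
  have hb0 : b ≠ 0 := by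
    rintro rfl
    simp at hb
  refine ⟨Units.mk0 (b / a) (div_ne_zero hb0 ha0), ?_⟩
  have e : ((d * (Units.mk0 (b / a) (div_ne_zero hb0 ha0)) ^ 3 : Kˣ) : K) - 1 =
      - (a ^ 3 - d * b ^ 3) / a ^ 3 := by
    push_cast
    simp only [Units.val_mk0]
    field_simp
    ring
  rw [e, map_div₀, h2, div_one, Valuation.map_neg]
  exact h

/-- the norm form is anisotropic modulo `v` if `d` is not a cube modulo `v` -/
private lemma HN4_unit {v : Pl K} {d : Kˣ} (hd : v.valuation K (d : K) = 1) (hdL : d ∉ LCv v)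
    {x y z : K} (hx : v.valuation K x ≤ 1) (hy : v.valuation K y ≤ 1) (hz : v.valuation K z ≤ 1)
    (h : v.valuation K x = 1 ∨ v.valuation K y = 1 ∨ v.valuation K z = 1) :
    v.valuation K (nf (d : K) x y z) = 1 := by
  have h3 : v.valuation K (3 : K) ≤ 1 := by
    have h : v.valuation K (algebraMap (𝓞 K) K 3) ≤ 1 :=
      HeightOneSpectrum.valuation_le_one (K := K) v (3 : 𝓞 K)
    have e : algebraMap (𝓞 K) K 3 = 3 := map_ofNat (algebraMap (𝓞 K) K) 3
    rw [e] at h
    exact h
  have hle : v.valuation K (nf (d : K) x y z) ≤ 1 := by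
    unfold nf
    refine Valuation.map_sub_le _ (Valuation.map_add_le _ (Valuation.map_add_le _ ?_ ?_) ?_) ?_
    · rw [map_pow]; exact pow_le_one₀ zero_le hx
    · rw [map_mul, map_pow, hd, one_mul]; exact pow_le_one₀ zero_le hy
    · rw [map_mul, map_pow, map_pow, hd, one_pow, one_mul]; exact pow_le_one₀ zero_le hz
    · rw [map_mul, map_mul, map_mul, map_mul, hd, mul_one]
      exact mul_le_one' (mul_le_one' (mul_le_one' h3 hx) hy) hz
  by_contra hne
  have hA : v.valuation K (nf (d : K) x y z) < 1 := lt_of_le_of_ne hle hne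
  set A := nf (d : K) x y z with hAdef
  have hAe : A = x ^ 3 + d * y ^ 3 + d ^ 2 * z ^ 3 - 3 * d * x * y * z := rfl
  have hdle : v.valuation K (d : K) ≤ 1 := hd.le
  set r := y ^ 2 - x * z with hr
  set q := d * z ^ 2 - x * y with hq
  set p := x ^ 2 - d * y * z with hp
  have hr1 : v.valuation K r ≤ 1 := by
    refine Valuation.map_sub_le _ ?_ ?_
    · rw [map_pow]; exact pow_le_one₀ zero_le hy
    · rw [map_mul]; exact mul_le_one' hx hz
  have hq1 : v.valuation K q ≤ 1 := by
    refine Valuation.map_sub_le _ ?_ ?_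
    · rw [map_mul, map_pow]; exact mul_le_one' hdle (pow_le_one₀ zero_le hz)
    · rw [map_mul]; exact mul_le_one' hx hy
  have hqr : v.valuation K (q ^ 3 - d * r ^ 3) < 1 := by
    have e : q ^ 3 - d * r ^ 3 = (q * z - r * y) * A := by
      rw [hAe, hq, hr]; ring
    rw [e]
    refine HN4_mul_lt ?_ hA
    refine Valuation.map_sub_le _ ?_ ?_
    · rw [map_mul]; exact mul_le_one' hq1 hz
    · rw [map_mul]; exact mul_le_one' hr1 hy
  have hrlt : v.valuation K r < 1 := by
    refine lt_of_le_of_ne hr1 fun hr2 => ?_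
    exact hdL (HN4_cube hr2 hd hqr)
  have hqlt : v.valuation K q < 1 := by
    refine HN4_lt_one_of_pow 3 ?_
    have e : q ^ 3 = (q ^ 3 - d * r ^ 3) + (d * r ^ 2) * r := by ring
    rw [e]
    refine Valuation.map_add_lt _ hqr (HN4_mul_lt ?_ hrlt)
    rw [map_mul, map_pow]
    exact mul_le_one' hdle (pow_le_one₀ zero_le hr1)
  have hplt : v.valuation K p < 1 := by
    refine HN4_lt_one_of_pow 2 ?_
    have e : p ^ 2 = (d * q) * r + x * A := by
      rw [hAe, hp, hq, hr]; ring
    rw [e]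
    refine Valuation.map_add_lt _ (HN4_mul_lt ?_ hrlt) (HN4_mul_lt hx hA)
    rw [map_mul]
    exact mul_le_one' hdle hq1
  have hzlt : v.valuation K z < 1 := by
    refine lt_of_le_of_ne hz fun hz2 => ?_
    refine hdL (HN4_cube (a := y) hz2 hd ?_)
    have e : y ^ 3 - d * z ^ 3 = y * r + (-z) * q := by rw [hr, hq]; ring
    rw [e]
    refine Valuation.map_add_lt _ (HN4_mul_lt hy hrlt) (HN4_mul_lt ?_ hqlt)
    rw [Valuation.map_neg]
    exact hz
  have hylt : v.valuation K y < 1 := by
    refine HN4_lt_one_of_pow 2 ?_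
    have e : y ^ 2 = r + x * z := by rw [hr]; ring
    rw [e]
    exact Valuation.map_add_lt _ hrlt (HN4_mul_lt hx hzlt)
  have hxlt : v.valuation K x < 1 := by
    refine HN4_lt_one_of_pow 2 ?_
    have e : x ^ 2 = p + (d * y) * z := by rw [hp]; ring
    rw [e]
    refine Valuation.map_add_lt _ hplt (HN4_mul_lt ?_ hzlt)
    rw [map_mul]
    exact mul_le_one' hdle hy
  rcases h with h | h | h
  · exact hxlt.ne h
  · exact hylt.ne h
  · exact hzlt.ne h

private lemma HN4_tame_self (v : Pl K) (d : Kˣ) : tame v d d = 1 := by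
  unfold tame
  rw [mul_inv_cancel]

private lemma HN4_tame_cube (v : Pl K) (t d : Kˣ) : tame v (t ^ 3) d ∈ LCv v :=
  tame_mem_of_left (cube_mem_LCv v t)

/-- `c` close to `d ^ i * t ^ 3` -/
private lemma HN4_near {v : Pl K} {c d T : Kˣ} (hT : tame v T d ∈ LCv v)
    (h : v.valuation K ((c : K) / (T : K) - 1) < 1) : tame v c d ∈ LCv v := by
  have h1 : c * T⁻¹ ∈ LCv v := by
    refine mem_LCv_of_near ?_
    push_cast
    rw [← div_eq_mul_inv]
    exact h
  have h2 := tame_mul_left v T (c * T⁻¹) d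
  rw [mul_comm, inv_mul_cancel_right] at h2
  rw [h2]
  exact mul_mem hT (tame_mem_of_left h1)

private lemma HN4_max {v : Pl K} {c T U W R : K} (h : c = T + U + W - R)
    (hU : v.valuation K U < v.valuation K T) (hW : v.valuation K W < v.valuation K T)
    (hR : v.valuation K R ^ 3 ≤ v.valuation K T * v.valuation K U * v.valuation K W) :
    v.valuation K (c / T - 1) < 1 := by
  have hT0 : T ≠ 0 := by
    rintro rfl
    simp at hU
  have hTpos : 0 < v.valuation K T := lt_of_le_of_lt zero_le hU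
  have hR' : v.valuation K R < v.valuation K T := by
    by_contra hh
    push Not at hh
    have h1 : v.valuation K T ^ 3 ≤ v.valuation K R ^ 3 := pow_le_pow_left₀ zero_le hh 3
    have h2 : v.valuation K T * v.valuation K U * v.valuation K W < v.valuation K T ^ 3 := by
      calc v.valuation K T * v.valuation K U * v.valuation K W
          ≤ v.valuation K T * v.valuation K U * v.valuation K T :=
            mul_le_mul_right hW.le _
        _ < v.valuation K T * v.valuation K T * v.valuation K T := by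
            refine mul_lt_mul_of_pos_right ?_ hTpos
            exact mul_lt_mul_of_pos_left hU hTpos
        _ = v.valuation K T ^ 3 := by rw [pow_succ, pow_two]
    exact absurd (h1.trans hR) (not_le.2 h2)
  have e : c / T - 1 = (U + W - R) / T := by
    rw [h]; field_simp; ring
  rw [e, map_div₀, div_lt_one₀ hTpos]
  exact lt_of_le_of_lt (Valuation.map_sub _ _ _) (max_lt (Valuation.map_add_lt _ hU hW) hR')

theorem nf_tame {v : Pl K} (hv : ¬ Above3 v) {c d : Kˣ} {x y z : K}
    (h : (c : K) = nf (d : K) x y z) : tame v c d ∈ LCv v := by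
  have h3 : v.valuation K (3 : K) ≤ 1 := by
    have h : v.valuation K (algebraMap (𝓞 K) K 3) ≤ 1 :=
      HeightOneSpectrum.valuation_le_one (K := K) v (3 : 𝓞 K)
    have e : algebraMap (𝓞 K) K 3 = 3 := map_ofNat (algebraMap (𝓞 K) K) 3
    rw [e] at h
    exact h
  have hd0 : (d : K) ≠ 0 := d.ne_zero
  by_cases hdL : d ∈ LCv v
  · exact tame_mem_of_right hdL
  by_cases h3d : (3 : ℤ) ∣ ordv v (d : K)
  · -- reduce to `ordv v d = 0`
    obtain ⟨n, hn⟩ := h3d
    obtain ⟨π, hπ⟩ := v.valuation_exists_uniformizer K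
    have hπ0 : π ≠ 0 := by
      rintro rfl
      rw [map_zero] at hπ
      exact WithZero.exp_ne_zero hπ.symm
    have hπ1 : ordv v π = 1 := by
      unfold ordv
      rw [hπ]; simp
    set t : Kˣ := (Units.mk0 π hπ0) ^ n with ht
    have ht1 : ordv v (t : K) = n := by
      rw [ht]
      push_cast
      rw [Units.val_mk0, ordv_zpow, hπ1, mul_one]
    set d' : Kˣ := d * (t ^ 3)⁻¹ with hd'
    have hdd : d = d' * t ^ 3 := by rw [hd']; simp
    have hd'0 : ordv v (d' : K) = 0 := by
      rw [hd']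
      push_cast
      rw [ordv_mul v hd0 (inv_ne_zero (pow_ne_zero _ t.ne_zero)), ordv_inv, ordv_pow, ht1, hn]
      push_cast
      ring
    have hd'v : v.valuation K (d' : K) = 1 := (val_eq_one_iff v d'.ne_zero).2 hd'0
    have hd'L : d' ∉ LCv v := by
      intro hh
      apply hdL
      rw [hdd]
      exact mul_mem hh (cube_mem_LCv v t)
    have h' : (c : K) = nf (d' : K) x (t * y) (t ^ 2 * z) := by
      rw [h, hdd]
      unfold nf
      push_cast
      ring
    -- `3 ∣ ordv v c`
    have key : ∀ {a b e : K} {s : K}, s ≠ 0 → v.valuation K a ≤ v.valuation K s →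
        v.valuation K b ≤ v.valuation K s → v.valuation K e ≤ v.valuation K s →
        (s = a ∨ s = b ∨ s = e) → (c : K) = nf (d' : K) a b e → (3 : ℤ) ∣ ordv v (c : K) := by
      intro a b e s hs ha hb he hor hc
      have hs1 : 0 < v.valuation K s := by
        rw [zero_lt_iff]
        exact val_ne_zero v hs
      have hu := HN4_unit hd'v hd'L (x := a / s) (y := b / s) (z := e / s)
        (by rw [map_div₀]; exact (div_le_one₀ hs1).2 ha)
        (by rw [map_div₀]; exact (div_le_one₀ hs1).2 hb)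
        (by rw [map_div₀]; exact (div_le_one₀ hs1).2 he)
        (by
          rcases hor with rfl | rfl | rfl
          · left; rw [div_self hs, map_one]
          · right; left; rw [div_self hs, map_one]
          · right; right; rw [div_self hs, map_one])
      have e1 : (c : K) = s ^ 3 * nf (d' : K) (a / s) (b / s) (e / s) := by
        rw [hc]
        unfold nf
        field_simp
      have hu0 : nf (d' : K) (a / s) (b / s) (e / s) ≠ 0 := by
        intro hh
        rw [hh] at hu
        simp at hu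
      rw [e1, ordv_mul v (pow_ne_zero _ hs) hu0, ordv_pow, (val_eq_one_iff v hu0).1 hu]
      exact ⟨ordv v s, by push_cast; ring⟩
    have hc3 : (3 : ℤ) ∣ ordv v (c : K) := by
      set a := x
      set b := (t : K) * y
      set e := (t : K) ^ 2 * z
      have hne : ¬ (a = 0 ∧ b = 0 ∧ e = 0) := by
        rintro ⟨h1, h2, h3⟩
        rw [h1, h2, h3] at h'
        apply c.ne_zero
        rw [h']
        unfold nf
        ring
      rcases le_total (v.valuation K a) (v.valuation K b) with h1 | h1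
      · rcases le_total (v.valuation K b) (v.valuation K e) with h2 | h2
        · refine key (s := e) ?_ (h1.trans h2) h2 le_rfl (Or.inr (Or.inr rfl)) h'
          rintro h0
          rw [h0, map_zero] at h2
          have hb : b = 0 := (Valuation.zero_iff _).1 (le_antisymm h2 zero_le)
          rw [hb, map_zero] at h1
          exact hne ⟨(Valuation.zero_iff _).1 (le_antisymm h1 zero_le), hb, h0⟩
        · refine key (s := b) ?_ h1 le_rfl h2 (Or.inr (Or.inl rfl)) h'
          rintro h0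
          rw [h0, map_zero] at h1 h2
          exact hne ⟨(Valuation.zero_iff _).1 (le_antisymm h1 zero_le), h0,
            (Valuation.zero_iff _).1 (le_antisymm h2 zero_le)⟩
      · rcases le_total (v.valuation K a) (v.valuation K e) with h2 | h2
        · refine key (s := e) ?_ h2 (h1.trans h2) le_rfl (Or.inr (Or.inr rfl)) h'
          rintro h0
          rw [h0, map_zero] at h2
          have ha : a = 0 := (Valuation.zero_iff _).1 (le_antisymm h2 zero_le)
          rw [ha, map_zero] at h1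
          exact hne ⟨ha, (Valuation.zero_iff _).1 (le_antisymm h1 zero_le), h0⟩
        · refine key (s := a) ?_ le_rfl h1 h2 (Or.inl rfl) h'
          rintro h0
          rw [h0, map_zero] at h1 h2
          exact hne ⟨h0, (Valuation.zero_iff _).1 (le_antisymm h1 zero_le),
            (Valuation.zero_iff _).1 (le_antisymm h2 zero_le)⟩
    rw [hdd, tame_mul_right]
    refine mul_mem ?_ (tame_mem_of_right (cube_mem_LCv v t))
    unfold tame
    rw [hd'0, zpow_zero, one_mul]
    exact inv_mem (zpow_mem_LCv v d' hc3)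
  · -- `3 ∤ ordv v d`
    have hT : ∀ (i : ℕ) (t : K) (ht : t ≠ 0), tame v (d ^ i * (Units.mk0 t ht) ^ 3) d ∈ LCv v := by
      intro i t ht
      rw [tame_mul_left]
      refine mul_mem ?_ (HN4_tame_cube v _ d)
      induction i with
      | zero => rw [pow_zero]; exact tame_mem_of_left (one_mem _)
      | succ i ih =>
        rw [pow_succ, tame_mul_left, HN4_tame_self, mul_one]
        exact ih
    have hRR : v.valuation K (3 * (d : K) * x * y * z) ^ 3 ≤
        v.valuation K (x ^ 3) * v.valuation K ((d : K) * y ^ 3) *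
          v.valuation K ((d : K) ^ 2 * z ^ 3) := by
      have e : v.valuation K (3 * (d : K) * x * y * z) ^ 3 = v.valuation K (3 : K) ^ 3 *
          (v.valuation K (x ^ 3) * v.valuation K ((d : K) * y ^ 3) *
          v.valuation K ((d : K) ^ 2 * z ^ 3)) := by
        rw [← map_pow, ← map_pow, ← map_mul, ← map_mul, ← map_mul]
        congr 1
        ring
      rw [e]
      exact mul_le_of_le_one_left' (pow_le_one₀ zero_le h3)
    -- distinct orders
    have hne : ∀ (i j : ℕ) (s t : K), s ≠ 0 → t ≠ 0 → ¬ (3 : ℤ) ∣ (i : ℤ) - j →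
        v.valuation K ((d : K) ^ i * s ^ 3) ≠ v.valuation K ((d : K) ^ j * t ^ 3) := by
      intro i j s t hs ht hij hh
      have h1 : (d : K) ^ i * s ^ 3 ≠ 0 := mul_ne_zero (pow_ne_zero _ hd0) (pow_ne_zero _ hs)
      have h2 : (d : K) ^ j * t ^ 3 ≠ 0 := mul_ne_zero (pow_ne_zero _ hd0) (pow_ne_zero _ ht)
      have h3 := (val_le_iff v h1 h2).1 hh.le
      have h4 := (val_le_iff v h2 h1).1 hh.ge
      rw [ordv_mul v (pow_ne_zero _ hd0) (pow_ne_zero _ ht),
        ordv_mul v (pow_ne_zero _ hd0) (pow_ne_zero _ hs), ordv_pow, ordv_pow, ordv_pow,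
        ordv_pow] at h3 h4
      push_cast at h3 h4
      have h5 : ((i : ℤ) - j) * ordv v (d : K) = 3 * (ordv v t - ordv v s) := by linarith
      have h6 : (3 : ℤ) ∣ ((i : ℤ) - j) * ordv v (d : K) := ⟨_, h5⟩
      rcases (Int.prime_three.dvd_mul).1 h6 with h7 | h7
      · exact hij h7
      · exact h3d h7
    have hlt : ∀ (i j : ℕ) (s t : K), t ≠ 0 → ¬ (3 : ℤ) ∣ (i : ℤ) - j →
        v.valuation K ((d : K) ^ i * s ^ 3) ≤ v.valuation K ((d : K) ^ j * t ^ 3) →
        v.valuation K ((d : K) ^ i * s ^ 3) < v.valuation K ((d : K) ^ j * t ^ 3) := by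
      intro i j s t ht hij hle
      by_cases hs : s = 0
      · rw [hs]
        simp only [ne_eq, OfNat.ofNat_ne_zero, not_false_eq_true, zero_pow, mul_zero, map_zero]
        rw [zero_lt_iff]
        exact val_ne_zero v (mul_ne_zero (pow_ne_zero _ hd0) (pow_ne_zero _ ht))
      · exact lt_of_le_of_ne hle (hne i j s t hs ht hij)
    have e0 : x ^ 3 = (d : K) ^ 0 * x ^ 3 := by ring
    have e1 : (d : K) * y ^ 3 = (d : K) ^ 1 * y ^ 3 := by ring
    rw [e0, e1] at hRR
    have hc : (c : K) = (d : K) ^ 0 * x ^ 3 + (d : K) ^ 1 * y ^ 3 + (d : K) ^ 2 * z ^ 3 -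
        3 * (d : K) * x * y * z := by
      rw [h]; unfold nf; ring
    have hfin : ∀ (i : ℕ) (t : K) (ht : t ≠ 0),
        v.valuation K ((c : K) / ((d : K) ^ i * t ^ 3) - 1) < 1 → tame v c d ∈ LCv v := by
      intro i t ht hh
      refine HN4_near (hT i t ht) ?_
      push_cast
      rw [Units.val_mk0]
      exact hh
    have hne0 : ∀ (i : ℕ) (s : K), (d : K) ^ i * s ^ 3 = 0 → s = 0 := by
      intro i s hh
      rcases mul_eq_zero.1 hh with h1 | h1
      · exact absurd h1 (pow_ne_zero _ hd0)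
      · exact pow_eq_zero_iff (by norm_num) |>.1 h1
    have hcne : ¬ (x = 0 ∧ y = 0 ∧ z = 0) := by
      rintro ⟨rfl, rfl, rfl⟩
      apply c.ne_zero
      rw [hc]
      ring
    rcases le_total (v.valuation K ((d : K) ^ 0 * x ^ 3)) (v.valuation K ((d : K) ^ 1 * y ^ 3))
      with h1 | h1
    · rcases le_total (v.valuation K ((d : K) ^ 1 * y ^ 3)) (v.valuation K ((d : K) ^ 2 * z ^ 3))
        with h2 | h2
      · have hz : z ≠ 0 := by
          rintro rfl
          simp only [ne_eq, OfNat.ofNat_ne_zero, not_false_eq_true, zero_pow, mul_zero,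
            map_zero] at h2
          have hy := hne0 1 y ((Valuation.zero_iff _).1 (le_antisymm h2 zero_le))
          rw [hy] at h1
          simp only [ne_eq, OfNat.ofNat_ne_zero, not_false_eq_true, zero_pow, mul_zero,
            map_zero] at h1
          have hx := hne0 0 x ((Valuation.zero_iff _).1 (le_antisymm h1 zero_le))
          exact hcne ⟨hx, hy, rfl⟩
        refine hfin 2 z hz (HN4_max (U := (d : K) ^ 0 * x ^ 3) (W := (d : K) ^ 1 * y ^ 3)
          (R := 3 * (d : K) * x * y * z) (by rw [hc]; ring)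
          (hlt 0 2 x z hz (by norm_num) (h1.trans h2)) (hlt 1 2 y z hz (by norm_num) h2) ?_)
        refine hRR.trans (le_of_eq ?_)
        ac_rfl
      · have hy : y ≠ 0 := by
          rintro rfl
          simp only [ne_eq, OfNat.ofNat_ne_zero, not_false_eq_true, zero_pow, mul_zero,
            map_zero] at h1 h2
          exact hcne ⟨hne0 0 x ((Valuation.zero_iff _).1 (le_antisymm h1 zero_le)), rfl,
            hne0 2 z ((Valuation.zero_iff _).1 (le_antisymm h2 zero_le))⟩
        refine hfin 1 y hy (HN4_max (U := (d : K) ^ 0 * x ^ 3) (W := (d : K) ^ 2 * z ^ 3)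
          (R := 3 * (d : K) * x * y * z) (by rw [hc]; ring)
          (hlt 0 1 x y hy (by norm_num) h1) (hlt 2 1 z y hy (by norm_num) h2) ?_)
        refine hRR.trans (le_of_eq ?_)
        ac_rfl
    · rcases le_total (v.valuation K ((d : K) ^ 0 * x ^ 3)) (v.valuation K ((d : K) ^ 2 * z ^ 3))
        with h2 | h2
      · have hz : z ≠ 0 := by
          rintro rfl
          simp only [ne_eq, OfNat.ofNat_ne_zero, not_false_eq_true, zero_pow, mul_zero,
            map_zero] at h2
          have hx := hne0 0 x ((Valuation.zero_iff _).1 (le_antisymm h2 zero_le))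
          rw [hx] at h1
          simp only [ne_eq, OfNat.ofNat_ne_zero, not_false_eq_true, zero_pow, mul_zero,
            map_zero] at h1
          have hy := hne0 1 y ((Valuation.zero_iff _).1 (le_antisymm h1 zero_le))
          exact hcne ⟨hx, hy, rfl⟩
        refine hfin 2 z hz (HN4_max (U := (d : K) ^ 0 * x ^ 3) (W := (d : K) ^ 1 * y ^ 3)
          (R := 3 * (d : K) * x * y * z) (by rw [hc]; ring)
          (hlt 0 2 x z hz (by norm_num) h2) (hlt 1 2 y z hz (by norm_num) (h1.trans h2)) ?_)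
        refine hRR.trans (le_of_eq ?_)
        ac_rfl
      · have hx : x ≠ 0 := by
          rintro rfl
          simp only [ne_eq, OfNat.ofNat_ne_zero, not_false_eq_true, zero_pow, mul_zero,
            map_zero] at h1 h2
          exact hcne ⟨rfl, hne0 1 y ((Valuation.zero_iff _).1 (le_antisymm h1 zero_le)),
            hne0 2 z ((Valuation.zero_iff _).1 (le_antisymm h2 zero_le))⟩
        refine hfin 0 x hx (HN4_max (U := (d : K) ^ 1 * y ^ 3) (W := (d : K) ^ 2 * z ^ 3)
          (R := 3 * (d : K) * x * y * z) (by rw [hc])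
          (hlt 1 0 y x hx (by norm_num) h1) (hlt 2 0 z x hx (by norm_num) h2) ?_)
        exact hRR

end Pool.Agent.Lib.MP_fdb342_lc
end

section

/-!
# A pole prevents the symbol from becoming trivial
-/

open IsDedekindDomain NumberField

namespace Pool.Agent.Lib.MP_fdb342_lc

variable {K : Type} [Field K] [NumberField K]

/-- if `a` is a unit nonresidue and `3 ∤ ord b` then the symbol is nontrivial -/
private theorem f3c_tame {v : Pl K} {a b : Kˣ}
    (ha : ordv v (a : K) = 0) (ha' : a ∉ LCv v) (hb : ¬ (3 : ℤ) ∣ ordv v (b : K)) :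
    tame v b a ∉ LCv v := by
  unfold tame
  rw [ha, zpow_zero, one_mul]
  intro h
  have h1 : a ^ (ordv v (b : K)) ∈ LCv v := by
    have := inv_mem h
    rwa [inv_inv] at this
  -- `gcd (ord b) 3 = 1`
  apply ha'
  have h3 : a ^ (3 : ℤ) ∈ LCv v := by
    have := cube_mem_LCv v a
    exact_mod_cast this
  have hmod : (ordv v (b : K)) % 3 = 1 ∨ (ordv v (b : K)) % 3 = 2 := by omega
  have key : ∀ m : ℤ, a ^ (3 * m) ∈ LCv v := fun m => by
    rw [zpow_mul]
    exact zpow_mem h3 m
  set n := ordv v (b : K) with hn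
  rcases hmod with h4 | h4
  · have e : a = a ^ n * a ^ (3 * (-(n / 3))) := by
      rw [← zpow_add]
      have : n + 3 * (-(n / 3)) = 1 := by omega
      rw [this, zpow_one]
    rw [e]
    exact mul_mem h1 (key _)
  · have e : a = (a ^ n)⁻¹ * a ^ (3 * (n / 3 + 1)) := by
      rw [← zpow_neg, ← zpow_add]
      have : -n + 3 * (n / 3 + 1) = 1 := by omega
      rw [this, zpow_one]
    rw [e]
    exact mul_mem (inv_mem h1) (key _)

theorem nfA_ne {v : Pl K} (hv : ¬ Above3 v) {x : K} (hx : 1 < v.valuation K x) {a b : Kˣ}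
    (ha : ordv v (a : K) = 0) (ha' : a ∉ LCv v) (hb : ¬ (3 : ℤ) ∣ ordv v (b : K)) (t : K)
    (u₀ u₁ u₂ : K × K × K) : nfA x t (a : K) u₀ u₁ u₂ ≠ ((b : K), 0, 0) := by
  intro h
  by_cases hroot : ∃ θ : K, θ ^ 3 - x * θ ^ 2 + t * θ - 1 = 0
  · obtain ⟨θ, hθ⟩ := hroot
    have hθ' : θ ^ 3 = x * θ ^ 2 - t * θ + 1 := by linear_combination hθ
    have h1 := ev_nfA hθ' (a : K) u₀ u₁ u₂
    rw [h] at h1
    have h2 : ev θ ((b : K), (0 : K), (0 : K)) = (b : K) := by simp [ev]
    rw [h2] at h1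
    exact f3c_tame ha ha' hb (nf_tame hv h1)
  · push Not at hroot
    obtain ⟨E, _, _, _, θ, hd, hθ, hθK⟩ := exists_cubic hroot
    obtain ⟨P, hP, hodd⟩ := exists_odd_place hd hθ hθK v hx
    subst hP
    have ht := hodd.tame ha ha' hb
    have hmap : nfA (algebraMap K E x) (algebraMap K E t) (algebraMap K E (a : K))
        (algebraMap K E u₀.1, algebraMap K E u₀.2.1, algebraMap K E u₀.2.2)
        (algebraMap K E u₁.1, algebraMap K E u₁.2.1, algebraMap K E u₁.2.2)
        (algebraMap K E u₂.1, algebraMap K E u₂.2.1, algebraMap K E u₂.2.2) =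
        (algebraMap K E (nfA x t (a : K) u₀ u₁ u₂).1, algebraMap K E (nfA x t (a : K) u₀ u₁ u₂).2.1,
          algebraMap K E (nfA x t (a : K) u₀ u₁ u₂).2.2) := by
      simp only [nfA, mulA, smA, addA, map_add, map_sub, map_mul, map_pow, map_one, map_neg,
        map_ofNat]
    have h1 := ev_nfA hθ (algebraMap K E (a : K))
        (algebraMap K E u₀.1, algebraMap K E u₀.2.1, algebraMap K E u₀.2.2)
        (algebraMap K E u₁.1, algebraMap K E u₁.2.1, algebraMap K E u₁.2.2)
        (algebraMap K E u₂.1, algebraMap K E u₂.2.1, algebraMap K E u₂.2.2)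
    rw [hmap, h] at h1
    have h2 : ev θ (algebraMap K E (b : K), algebraMap K E (0 : K), algebraMap K E (0 : K)) =
        algebraMap K E (b : K) := by simp [ev]
    simp only at h1
    rw [h2] at h1
    have hP3 : ¬ Above3 P := by
      intro h3
      obtain ⟨e, he, hval⟩ := val_bel (K := K) P
      apply hv
      unfold Above3 at h3 ⊢
      have e3 : (3 : E) = algebraMap K E 3 := by rw [map_ofNat]
      rw [e3, hval] at h3
      by_contra hcon
      rw [not_lt] at hcon
      exact absurd h3 (not_lt.2 (one_le_pow_of_one_le' hcon e))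
    have h4 : ((up E b : Eˣ) : E) = nf ((up E a : Eˣ) : E) _ _ _ := h1
    exact ht.2.2.2 (nf_tame hP3 h4)

end Pool.Agent.Lib.MP_fdb342_lc
end

section

/-!
# The order of `3` in a Galois extension of `2`-power degree
-/

open IsDedekindDomain NumberField

namespace Pool.Agent.Lib.MP_fdb342_lc

private theorem F2a_aux1 {K : IntermediateField ℚ ℂ} [NumberField K] [IsGalois ℚ K]
    (P : Ideal (𝓞 K)) [P.IsPrime] (h3 : (3 : 𝓞 K) ∈ P) :
    P.ramificationIdx ℤ ∣ Module.finrank ℚ K ∧
      P.ramificationIdx ℤ = multiplicity P (Ideal.span {(3 : 𝓞 K)}) := by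
  have hp : Prime (3 : ℤ) := Int.prime_three
  have hspan : (Ideal.span {(3 : ℤ)}).IsPrime := by
    rw [Ideal.span_singleton_prime (by norm_num)]; exact hp
  have hlo : P.LiesOver (Ideal.span {(3 : ℤ)}) := by
    rw [Ideal.liesOver_span_iff Ideal.IsPrime.ne_top' hp]
    simpa using h3
  have hmain := Ideal.ncard_primesOver_mul_ramificationIdxIn_mul_inertiaDegIn
    (Ideal.span {(3 : ℤ)}) (𝓞 K) Gal(K/ℚ)
  rw [Ideal.ramificationIdxIn_eq_ramificationIdx _ P Gal(K/ℚ),
    IsGaloisGroup.card_eq_finrank Gal(K/ℚ) ℚ K] at hmain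
  refine ⟨?_, ?_⟩
  · rw [← hmain]
    exact Dvd.dvd.mul_left (Dvd.intro _ rfl) _
  have hmap : Ideal.map (algebraMap ℤ (𝓞 K)) (Ideal.span {(3 : ℤ)}) =
      Ideal.span {(3 : 𝓞 K)} := by
    rw [Ideal.map_span, Set.image_singleton]; simp
  rw [Ideal.IsDedekindDomain.ramificationIdx_eq_multiplicity (Ideal.span {(3 : ℤ)}), hmap]
  rw [hmap]; simp

theorem not_dvd_ord_three {K : IntermediateField ℚ ℂ} [NumberField K] (hK : Good K) (v : Pl K)
    (hv : Above3 v) : ¬ (3 : ℤ) ∣ ordv v (3 : K) := by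
  obtain ⟨hgal, n, hn⟩ := hK
  have h3c : algebraMap (𝓞 K) K (3 : 𝓞 K) = (3 : K) := map_ofNat _ 3
  have h3 : (3 : 𝓞 K) ∈ v.asIdeal := by
    unfold Above3 at hv
    rw [← h3c, HeightOneSpectrum.valuation_of_algebraMap,
      HeightOneSpectrum.intValuation_lt_one_iff_mem] at hv
    exact hv
  have h30 : (3 : 𝓞 K) ≠ 0 := by norm_num
  obtain ⟨h1, h2⟩ := F2a_aux1 v.asIdeal h3
  have hord : ordv v (3 : K) = (v.asIdeal.ramificationIdx ℤ : ℤ) := by
    unfold ordv
    rw [← h3c, HeightOneSpectrum.valuation_of_algebraMap,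
      HeightOneSpectrum.intValuation_eq_exp_neg_multiplicity v h30, WithZero.log_exp, h2]
    simp
  rw [hord, hn] at *
  intro h
  have h' : 3 ∣ v.asIdeal.ramificationIdx ℤ := by exact_mod_cast h
  have h4 : 3 ∣ 2 ^ n := h'.trans h1
  have h5 := Nat.prime_three.dvd_of_dvd_pow h4
  omega

private theorem F2a_unit {K : Type} [Field K] [NumberField K] (v : Pl K) (hv : Above3 v) (a : ℕ)
    (ha : a % 3 = 1) : v.valuation K (a : K) = 1 := by
  obtain ⟨b, hb⟩ : ∃ b : ℕ, a = 1 + 3 * b := ⟨a / 3, by omega⟩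
  have hb1 : v.valuation K (b : K) ≤ 1 := by
    have := HeightOneSpectrum.valuation_le_one (K := K) v (b : 𝓞 K)
    simpa using this
  have h3 : v.valuation K (3 * b : K) < 1 := by
    rw [map_mul]
    exact mul_lt_one_of_lt_of_le hv hb1
  rw [hb]
  push_cast
  exact Valuation.map_one_add_of_lt (v := v.valuation K) h3

private theorem F2a_ord_ne {K : IntermediateField ℚ ℂ} [NumberField K] (hK : Good K) (v : Pl K)
    (hv : Above3 v) (β : K) : v.valuation K (3 * β ^ 3) ≠ 1 := by
  by_cases hβ : β = 0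
  · simp [hβ]
  have h3 : (3 : K) ≠ 0 := by norm_num
  intro h
  rw [val_eq_one_iff v (mul_ne_zero h3 (pow_ne_zero _ hβ)), ordv_mul v h3 (pow_ne_zero _ hβ),
    ordv_pow] at h
  exact not_dvd_ord_three hK v hv ⟨- ordv v β, by push_cast at h; linarith⟩

private theorem F2a_exists_above {K : Type} [Field K] [NumberField K] : ∃ v : Pl K, Above3 v := by
  have h3 : ¬ IsUnit (3 : 𝓞 K) := by
    intro h
    have h' : IsUnit ((algebraMap ℤ (𝓞 K)) 3) := by simpa using h
    have h2 : IsUnit (3 : ℤ) := by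
      exact (isUnit_map_iff (algebraMap ℤ (𝓞 K)) 3).1 h'
    rw [Int.isUnit_iff] at h2
    omega
  have h30 : (3 : 𝓞 K) ≠ 0 := by norm_num
  have hne : Ideal.span {(3 : 𝓞 K)} ≠ ⊤ := by
    rwa [Ne, Ideal.span_singleton_eq_top]
  obtain ⟨M, hM, hle⟩ := Ideal.exists_le_maximal _ hne
  have hmem : (3 : 𝓞 K) ∈ M := hle (Ideal.mem_span_singleton_self _)
  refine ⟨⟨M, hM.isPrime, ?_⟩, ?_⟩
  · rintro rfl
    exact h30 (Ideal.mem_bot.1 hmem)
  · unfold Above3
    have h3c : algebraMap (𝓞 K) K (3 : 𝓞 K) = (3 : K) := map_ofNat _ 3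
    rw [← h3c, HeightOneSpectrum.valuation_of_algebraMap,
      HeightOneSpectrum.intValuation_lt_one_iff_mem]
    exact hmem

private theorem F2a_ne {K : IntermediateField ℚ ℂ} [NumberField K] (hK : Good K) (β : K) (a : ℕ)
    (ha : a % 3 = 1) : (a : K) + 3 * β ^ 3 ≠ 0 := by
  obtain ⟨v, hv⟩ := F2a_exists_above (K := K)
  intro h
  have h1 : 3 * β ^ 3 = - (a : K) := by linear_combination h
  apply F2a_ord_ne hK v hv β
  rw [h1, Valuation.map_neg]
  exact F2a_unit v hv a ha

theorem cube_ne {β : ℂ} (hβ : β ∈ Omega) : 1 + 3 * β ^ 3 ≠ 0 ∧ 10 + 3 * β ^ 3 ≠ 0 ∧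
    19 + 3 * β ^ 3 ≠ 0 := by
  obtain ⟨K, hK, hm⟩ := IsConstructible.exists_good hβ
  have := hK.finiteDimensional
  have : NumberField K := { to_charZero := inferInstance, to_finiteDimensional := inferInstance }
  have key : ∀ a : ℕ, a % 3 = 1 → (a : ℂ) + 3 * β ^ 3 ≠ 0 := by
    intro a ha h
    apply F2a_ne hK ⟨β, hm⟩ a ha
    apply Subtype.ext
    push_cast
    exact h
  refine ⟨?_, ?_, ?_⟩
  · simpa using key 1 (by norm_num)
  · simpa using key 10 (by norm_num)
  · simpa using key 19 (by norm_num)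

theorem one_le_val {K : IntermediateField ℚ ℂ} [NumberField K] (hK : Good K) (v : Pl K)
    (hv : Above3 v) (β : K) : 1 ≤ v.valuation K (1 + 3 * β ^ 3) := by
  rcases lt_or_gt_of_ne (F2a_ord_ne hK v hv β) with h | h
  · rw [Valuation.map_one_add_of_lt (v := v.valuation K) h]
  · have h1 : v.valuation K 1 < v.valuation K (3 * β ^ 3) := by rw [map_one]; exact h
    rw [add_comm, Valuation.map_add_eq_of_lt_left (v := v.valuation K) h1]
    exact h.le

end Pool.Agent.Lib.MP_fdb342_lc
end

section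

/-!
# Equality of cardinalities of coded sets
-/

namespace Pool.Agent.Lib.MP_fdb342_lc

private lemma Comb1_inA_one : InA 1 := ⟨0, by simp⟩

theorem eqC_iff {D : ℕ} (hD : D = 1 ∨ D = 3) {z z' : ℂ} (hz : z ∈ RR D) (hz0 : z ≠ 0)
    (hz' : z' ∈ RR D) (hz0' : z' ≠ 0) : EqC D z z' ↔ nn D z = nn D z' := by
  classical
  have hfin := Sz_finite hD hz hz0
  have hfin' := Sz_finite hD hz' hz0'
  have hRR : ∀ {a ζ : ℂ}, Mem1 D a ζ → ζ ∈ RR D := fun h => inA_mem_RR h.1
  constructor
  · rintro ⟨y, -, w, -, h1, h2, h3, h4⟩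
    choose! f hf1 hf2 hf3 using h1
    refine Set.ncard_congr (fun ζ _ => f ζ) ?_ ?_ ?_
    · intro ζ hζ
      exact hf2 ζ (hRR hζ) hζ
    · intro ζ ζ' hζ hζ' he
      refine h4 ζ (hRR hζ) ζ' (hRR hζ') (f ζ) (hf1 ζ (hRR hζ) hζ) hζ hζ' (hf2 ζ (hRR hζ) hζ)
        (hf3 ζ (hRR hζ) hζ) ?_
      have he' : f ζ = f ζ' := he
      rw [he']
      exact hf3 ζ' (hRR hζ') hζ'
    · intro ξ hξ
      obtain ⟨ζ, hζR, hζ, hm⟩ := h2 ξ (hRR hξ) hξ
      refine ⟨ζ, hζ, ?_⟩
      exact h3 ζ hζR (f ζ) (hf1 ζ hζR hζ) ξ (hRR hξ) hζ (hf2 ζ hζR hζ) hξ (hf3 ζ hζR hζ) hm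
  · intro h
    obtain ⟨e⟩ : Nonempty (Sz D z ≃ Sz D z') := by
      have := hfin.to_subtype
      have := hfin'.to_subtype
      exact Finite.card_eq.1 h
    have := hfin.fintype
    let F : Finset (ℂ × ℂ × ℂ) :=
      Finset.univ.image fun ζ : Sz D z => ((ζ : ℂ), ((e ζ : Sz D z') : ℂ), (1 : ℂ))
    obtain ⟨y, hy, w, hw, hc⟩ := exists_code3 hD F
    have hmem : ∀ {ζ ξ : ℂ}, Mem1 D z ζ → Mem1 D z' ξ →
        (Mem3 D y w ζ ξ 1 ↔ ∃ h : ζ ∈ Sz D z, ((e ⟨ζ, h⟩ : Sz D z') : ℂ) = ξ) := by
      intro ζ ξ h1 h2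
      rw [hc ζ ξ 1 h1.1 h2.1 Comb1_inA_one]
      simp only [F, Finset.mem_image, Finset.mem_univ, true_and, Prod.mk.injEq, and_true]
      constructor
      · rintro ⟨⟨a, ha⟩, rfl, rfl⟩
        exact ⟨ha, rfl⟩
      · rintro ⟨h, rfl⟩
        exact ⟨⟨ζ, h⟩, rfl, rfl⟩
    refine ⟨y, hy, w, hw, ?_, ?_, ?_, ?_⟩
    · intro ζ _ hζ
      have hm : Mem1 D z' ((e ⟨ζ, hζ⟩ : Sz D z') : ℂ) := (e ⟨ζ, hζ⟩).2
      exact ⟨_, hRR hm, hm, (hmem hζ hm).2 ⟨hζ, rfl⟩⟩
    · intro ξ _ hξ
      have hm : Mem1 D z ((e.symm ⟨ξ, hξ⟩ : Sz D z) : ℂ) := (e.symm ⟨ξ, hξ⟩).2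
      refine ⟨_, hRR hm, hm, (hmem hm hξ).2 ⟨hm, ?_⟩⟩
      have h0 : e (e.symm ⟨ξ, hξ⟩) = ⟨ξ, hξ⟩ := e.apply_symm_apply _
      exact congrArg Subtype.val h0
    · intro ζ _ ξ _ ξ' _ h1 h2 h2' h3 h3'
      obtain ⟨a, ha⟩ := (hmem h1 h2).1 h3
      obtain ⟨b, hb⟩ := (hmem h1 h2').1 h3'
      rw [← ha, ← hb]
    · intro ζ _ ζ' _ ξ _ h1 h1' h2 h3 h3'
      obtain ⟨a, ha⟩ := (hmem h1 h2).1 h3
      obtain ⟨b, hb⟩ := (hmem h1' h2).1 h3'
      have := e.injective (Subtype.ext (ha.trans hb.symm))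
      exact congrArg Subtype.val this

end Pool.Agent.Lib.MP_fdb342_lc
end

section

/-!
# Addition of cardinalities of coded sets
-/

namespace Pool.Agent.Lib.MP_fdb342_lc

theorem addC_iff {D : ℕ} (hD : D = 1 ∨ D = 3) {z₁ z₂ z₃ : ℂ} (h₁ : z₁ ∈ RR D) (h₁0 : z₁ ≠ 0)
    (h₂ : z₂ ∈ RR D) (h₂0 : z₂ ≠ 0) (h₃ : z₃ ∈ RR D) (h₃0 : z₃ ≠ 0) :
    AddC D z₁ z₂ z₃ ↔ nn D z₁ + nn D z₂ = nn D z₃ := by
  classical
  constructor
  · rintro ⟨a, ha, b, hb, ha0, hb0, hea, heb, h⟩
    rw [eqC_iff hD ha ha0 h₁ h₁0] at hea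
    rw [eqC_iff hD hb hb0 h₂ h₂0] at heb
    rw [← hea, ← heb]
    have hu : Sz D z₃ = Sz D a ∪ Sz D b := by
      ext ζ
      constructor
      · intro hζ
        exact ((h ζ (inA_mem_RR hζ.1)).1).1 hζ
      · rintro (hζ | hζ)
        · exact ((h ζ (inA_mem_RR hζ.1)).1).2 (Or.inl hζ)
        · exact ((h ζ (inA_mem_RR hζ.1)).1).2 (Or.inr hζ)
    have hd : Disjoint (Sz D a) (Sz D b) := by
      rw [Set.disjoint_left]
      intro ζ h1 h2
      exact (h ζ (inA_mem_RR h1.1)).2 ⟨h1, h2⟩
    unfold nn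
    rw [hu, Set.ncard_union_eq hd (Sz_finite hD ha ha0) (Sz_finite hD hb hb0)]
  · intro h
    have hfin := Sz_finite hD h₃ h₃0
    set S : Finset ℂ := hfin.toFinset with hS
    have hcard : S.card = nn D z₃ := by
      unfold nn
      rw [hS, Set.ncard_eq_toFinset_card _ hfin]
    obtain ⟨T, hT, hTc⟩ := Finset.exists_subset_card_eq (s := S) (n := nn D z₁) (by omega)
    have hmem : ∀ ζ, ζ ∈ S ↔ Mem1 D z₃ ζ := fun ζ => by
      rw [hS, Set.Finite.mem_toFinset]
      rfl
    have hA : ∀ ζ ∈ S, InA ζ := fun ζ hζ => ((hmem ζ).1 hζ).1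
    have hTA : ∀ ζ ∈ T, InA ζ := fun ζ hζ => hA ζ (hT hζ)
    have hUA : ∀ ζ ∈ S \ T, InA ζ := fun ζ hζ => hA ζ (Finset.sdiff_subset hζ)
    have hSa := Sz_prod hD T hTA
    have hSb := Sz_prod hD (S \ T) hUA
    have ha := prod_mem (D := D) T hTA
    have hb := prod_mem (D := D) (S \ T) hUA
    refine ⟨_, ha.1, _, hb.1, ha.2, hb.2, ?_, ?_, ?_⟩
    · rw [eqC_iff hD ha.1 ha.2 h₁ h₁0]
      unfold nn at *
      rw [hSa, Set.ncard_coe_finset]
      exact hTc
    · rw [eqC_iff hD hb.1 hb.2 h₂ h₂0]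
      have hc : (S \ T).card = nn D z₂ := by
        rw [Finset.card_sdiff_of_subset hT]
        omega
      unfold nn at *
      rw [hSb, Set.ncard_coe_finset]
      exact hc
    · intro ζ _
      have e1 : Mem1 D (∏ ζ ∈ T, (6 - ζ)) ζ ↔ ζ ∈ T := by
        change ζ ∈ Sz D _ ↔ _
        rw [hSa]
        exact Finset.mem_coe
      have e2 : Mem1 D (∏ ζ ∈ S \ T, (6 - ζ)) ζ ↔ ζ ∈ S \ T := by
        change ζ ∈ Sz D _ ↔ _
        rw [hSb]
        exact Finset.mem_coe
      rw [e1, e2, ← hmem ζ, Finset.mem_sdiff]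
      refine ⟨⟨fun hζ => ?_, ?_⟩, fun hζ => hζ.2.2 hζ.1⟩
      · by_cases ht : ζ ∈ T
        · exact Or.inl ht
        · exact Or.inr ⟨hζ, ht⟩
      · rintro (hζ | hζ)
        · exact hT hζ
        · exact hζ.1

end Pool.Agent.Lib.MP_fdb342_lc
end
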