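import Mathlib
import Pool.Agent.Lib.MP_fdb342_lc.Mg.G001

section

/-!
# Kummer extensions of number fields of prime degree
-/

open IsDedekindDomain NumberField

namespace Pool.Agent.Lib.MP_fdb342_lc

open Polynomial in
theorem exists_kummer {F : Type} [Field F] [NumberField F] {l : ℕ} (hl : l.Prime) {ζ : F}
    (hζ : IsPrimitiveRoot ζ l) {x : F} (hxl : ¬ ∃ y : F, y ^ l = x) :
    ∃ (L : Type) (_ : Field L) (_ : NumberField L) (_ : Algebra F L) (α : L)
      (σ : L ≃ₐ[F] L), IsGalois F L ∧ Module.finrank F L = l ∧ α ^ l = algebraMap F L x ∧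
      σ α = algebraMap F L ζ * α ∧ (∀ τ : L ≃ₐ[F] L, ∃ i : ℕ, τ = σ ^ i) ∧
      IntermediateField.adjoin F {α} = ⊤ := by
  have H : Irreducible (X ^ l - C x) :=
    X_pow_sub_C_irreducible_of_prime hl fun y hy => hxl ⟨y, hy⟩
  have hne : (primitiveRoots l F).Nonempty := ⟨ζ, (mem_primitiveRoots hl.pos).2 hζ⟩
  haveI : NeZero l := ⟨hl.ne_zero⟩
  let L := (X ^ l - C x : F[X]).SplittingField
  haveI : CharZero L := charZero_of_injective_algebraMap (algebraMap F L).injective
  haveI : FiniteDimensional F L :=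
    Polynomial.IsSplittingField.finiteDimensional L (X ^ l - C x : F[X])
  haveI : IsScalarTower ℚ F L := IsScalarTower.of_algebraMap_eq fun q => by
    rw [eq_ratCast, eq_ratCast, map_ratCast]
  haveI : FiniteDimensional ℚ L := FiniteDimensional.trans ℚ F L
  haveI : NumberField L := { to_charZero := inferInstance, to_finiteDimensional := inferInstance }
  let α : L := rootOfSplitsXPowSubC hl.pos x L
  have hα : α ^ l = algebraMap F L x := rootOfSplitsXPowSubC_pow x L
  let E := autEquivZmod H L hζ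
  refine ⟨L, inferInstance, inferInstance, inferInstance, α,
    E.symm (Multiplicative.ofAdd ((1 : ℕ) : ZMod l)),
    isGalois_of_isSplittingField_X_pow_sub_C hne H L,
    finrank_of_isSplittingField_X_pow_sub_C hne H L, hα, ?_, ?_,
    IntermediateField.adjoin_root_eq_top_of_isSplittingField hne H hα⟩
  · rw [autEquivZmod_symm_apply_natCast H L hα hζ 1, pow_one, Algebra.smul_def]
  · intro τ
    refine ⟨(Multiplicative.toAdd (E τ)).val, ?_⟩
    rw [← map_pow, MulEquiv.eq_symm_apply, ← ofAdd_nsmul]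
    apply Multiplicative.toAdd.injective
    rw [toAdd_ofAdd, Nat.cast_one, nsmul_eq_mul, mul_one, ZMod.natCast_zmod_val]

end Pool.Agent.Lib.MP_fdb342_lc
end

section

/-!
# Norms from cubic Kummer extensions and the norm form
-/

open IsDedekindDomain NumberField

namespace Pool.Agent.Lib.MP_fdb342_lc

variable {K : Type} [Field K] [NumberField K] {E : Type} [Field E] [NumberField E] [Algebra K E]

private lemma hn13a_alpha_ne {ζ : K} {d : Kˣ} {α : E} {σ : E ≃ₐ[K] E} (hk : Kum K ζ d E α σ) :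
    α ≠ 0 := by
  rintro rfl
  have h := hk.pow
  rw [zero_pow (by norm_num)] at h
  exact d.ne_zero ((algebraMap K E).injective (by rw [← h, map_zero]))

private lemma hn13a_zeta {ζ : K} (h : IsPrimitiveRoot ζ 3) : ζ ^ 2 + ζ + 1 = 0 := by
  have h1 : ζ ≠ 1 := h.ne_one (by norm_num)
  have h2 : (ζ - 1) * (ζ ^ 2 + ζ + 1) = 0 := by
    have h3 := h.pow_eq_one
    linear_combination h3
  exact (mul_eq_zero.1 h2).resolve_left (sub_ne_zero.2 h1)

private lemma hn13a_pow {ζ : K} {d : Kˣ} {α : E} {σ : E ≃ₐ[K] E} (hk : Kum K ζ d E α σ) (i : ℕ) :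
    (σ ^ i) α = algebraMap K E ζ ^ i * α := by
  induction i with
  | zero => simp
  | succ i ih =>
    rw [pow_succ', AlgEquiv.mul_apply, ih, map_mul, map_pow, AlgEquiv.commutes, hk.act]
    ring

private lemma hn13a_ne {ζ : K} {d : Kˣ} {α : E} {σ : E ≃ₐ[K] E} (hk : Kum K ζ d E α σ) {i j : ℕ}
    (hi : i < 3) (hj : j < 3) (hij : i ≠ j) : σ ^ i ≠ σ ^ j := by
  intro h
  apply hij
  have h1 := congrArg (fun τ : E ≃ₐ[K] E => τ α) h
  simp only [hn13a_pow hk] at h1
  have h2 := mul_right_cancel₀ (hn13a_alpha_ne hk) h1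
  rw [← map_pow, ← map_pow] at h2
  exact hk.prim.pow_inj hi hj ((algebraMap K E).injective h2)

private lemma hn13a_prod {ζ : K} {d : Kˣ} {α : E} {σ : E ≃ₐ[K] E} (hk : Kum K ζ d E α σ) (e : E) :
    algebraMap K E (Algebra.norm K e) = e * σ e * σ (σ e) := by
  classical
  have := hk.gal
  rw [Algebra.norm_eq_prod_automorphisms K e]
  have hcard : Fintype.card (E ≃ₐ[K] E) = 3 := by
    rw [← Nat.card_eq_fintype_card, IsGalois.card_aut_eq_finrank, hk.deg]
  have h01 : (1 : E ≃ₐ[K] E) ≠ σ := by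
    have := hn13a_ne hk (i := 0) (j := 1) (by norm_num) (by norm_num) (by norm_num)
    simpa using this
  have h02 : (1 : E ≃ₐ[K] E) ≠ σ ^ 2 := by
    have := hn13a_ne hk (i := 0) (j := 2) (by norm_num) (by norm_num) (by norm_num)
    simpa using this
  have h12 : σ ≠ σ ^ 2 := by
    have := hn13a_ne hk (i := 1) (j := 2) (by norm_num) (by norm_num) (by norm_num)
    simpa using this
  have huniv : (Finset.univ : Finset (E ≃ₐ[K] E)) = {1, σ, σ ^ 2} := by
    symm
    apply Finset.eq_univ_of_card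
    rw [hcard, Finset.card_insert_of_notMem, Finset.card_insert_of_notMem,
      Finset.card_singleton]
    · simpa using h12
    · simp only [Finset.mem_insert, Finset.mem_singleton, not_or]
      exact ⟨h01, h02⟩
  rw [huniv, Finset.prod_insert, Finset.prod_insert, Finset.prod_singleton]
  · rw [AlgEquiv.one_apply, pow_two, AlgEquiv.mul_apply]
    ring
  · simpa using h12
  · simp only [Finset.mem_insert, Finset.mem_singleton, not_or]
    exact ⟨h01, h02⟩

private lemma hn13a_fix {ζ : K} {d : Kˣ} {α : E} {σ : E ≃ₐ[K] E} (hk : Kum K ζ d E α σ) {u : E}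
    (hu : σ u = u) : ∃ w : K, algebraMap K E w = u := by
  have := hk.gal
  refine (IsGalois.mem_range_algebraMap_iff_fixed (F := K) u).2 fun τ => ?_
  obtain ⟨i, rfl⟩ := hk.gen τ
  induction i with
  | zero => simp
  | succ i ih => rw [pow_succ, AlgEquiv.mul_apply, hu, ih]

private lemma hn13a_cube {ζ : K} {d : Kˣ} {α : E} {σ : E ≃ₐ[K] E} (hk : Kum K ζ d E α σ) (e : E) :
    σ (σ (σ e)) = e := by
  have := hk.gal
  have h1 : σ ^ 3 = 1 := by
    have h2 : Nat.card (E ≃ₐ[K] E) = 3 := by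
      rw [IsGalois.card_aut_eq_finrank, hk.deg]
    rw [← h2]
    exact pow_card_eq_one'
  have h3 : (σ ^ 3) e = e := by rw [h1]; rfl
  exact h3

private lemma hn13a_decomp {ζ : K} {d : Kˣ} {α : E} {σ : E ≃ₐ[K] E} (hk : Kum K ζ d E α σ)
    (e : E) : ∃ x y z : K, e = algebraMap K E x + algebraMap K E y * α +
      algebraMap K E z * α ^ 2 := by
  have hα := hn13a_alpha_ne hk
  set Z : E := algebraMap K E ζ with hZ
  have hZ1 : Z ^ 2 + Z + 1 = 0 := by
    have := congrArg (algebraMap K E) (hn13a_zeta hk.prim)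
    simpa using this
  have hZ3 : Z ^ 3 = 1 := by
    rw [hZ, ← map_pow, hk.prim.pow_eq_one, map_one]
  have hZ0 : Z ≠ 0 := by
    intro h
    rw [h] at hZ3
    norm_num at hZ3
  have hσZ : σ Z = Z := σ.commutes ζ
  have h3 := hn13a_cube hk e
  obtain ⟨x, hx⟩ := hn13a_fix hk (u := (e + σ e + σ (σ e)) / 3) (by
    rw [map_div₀, map_add, map_add, h3, map_ofNat]
    ring)
  obtain ⟨y, hy⟩ := hn13a_fix hk (u := (e + Z ^ 2 * σ e + Z * σ (σ e)) / 3 / α) (by
    rw [map_div₀, map_div₀, map_add, map_add, map_mul, map_mul, map_pow, h3, map_ofNat, hσZ, hk.act,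
      ← hZ]
    field_simp
    linear_combination (-σ e) * hZ3)
  obtain ⟨z, hz⟩ := hn13a_fix hk (u := (e + Z * σ e + Z ^ 2 * σ (σ e)) / 3 / α ^ 2) (by
    rw [map_div₀, map_div₀, map_add, map_add, map_mul, map_mul, map_pow, map_pow, h3, map_ofNat,
      hσZ, hk.act, ← hZ]
    field_simp
    linear_combination (-σ e - Z * σ (σ e)) * hZ3)
  refine ⟨x, y, z, ?_⟩
  rw [hx, hy, hz]
  field_simp
  linear_combination (-σ e - σ (σ e)) * hZ1

theorem norm_eq_nf {ζ : K} {d : Kˣ} {α : E} {σ : E ≃ₐ[K] E} (hk : Kum K ζ d E α σ) (e : E) :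
    ∃ x y z : K, Algebra.norm K e = nf (d : K) x y z := by
  obtain ⟨x, y, z, he⟩ := hn13a_decomp hk e
  refine ⟨x, y, z, (algebraMap K E).injective ?_⟩
  have hZ1 : (algebraMap K E ζ) ^ 2 + algebraMap K E ζ + 1 = 0 := by
    have := congrArg (algebraMap K E) (hn13a_zeta hk.prim)
    simpa using this
  rw [hn13a_prod hk e]
  have h1 : σ e = algebraMap K E x + algebraMap K E y * (algebraMap K E ζ * α) +
      algebraMap K E z * (algebraMap K E ζ * α) ^ 2 := by
    rw [he]
    simp only [map_add, map_mul, map_pow, AlgEquiv.commutes, hk.act]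
  have h2 : σ (σ e) = algebraMap K E x +
      algebraMap K E y * (algebraMap K E ζ * (algebraMap K E ζ * α)) +
      algebraMap K E z * (algebraMap K E ζ * (algebraMap K E ζ * α)) ^ 2 := by
    rw [h1]
    simp only [map_add, map_mul, map_pow, AlgEquiv.commutes, hk.act]
  rw [h2, h1]
  conv_lhs => rw [he]
  unfold nf
  simp only [map_add, map_sub, map_mul, map_pow, map_ofNat]
  rw [← hk.pow]
  generalize algebraMap K E ζ = Z at *
  generalize algebraMap K E x = X
  generalize algebraMap K E y = Y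
  generalize algebraMap K E z = W
  linear_combination ((Z - 1) * (Y * α) ^ 3 + (Z ^ 3 + 1) * (Z - 1) * (W * α ^ 2) ^ 3 +
    X ^ 2 * (Y * α) + (Z ^ 2 - Z + 1) * X ^ 2 * (W * α ^ 2) + Z * X * (Y * α) ^ 2 +
    Z ^ 2 * (Z ^ 2 - Z + 1) * X * (W * α ^ 2) ^ 2 + Z ^ 3 * (Y * α) ^ 2 * (W * α ^ 2) +
    Z ^ 4 * (Y * α) * (W * α ^ 2) ^ 2 +
    (Z ^ 3 + Z ^ 2 - 2 * Z + 3) * X * (Y * α) * (W * α ^ 2)) * hZ1

/-- the norm form of a cube is universal -/
theorem nf_cube {ζ : K} (hζ : IsPrimitiveRoot ζ 3) (δ : Kˣ) (c : K) :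
    ∃ x y z : K, c = nf ((δ : K) ^ 3) x y z := by
  refine ⟨(c + 2) / 3, (c - 1) / (3 * δ), (c - 1) / (3 * δ ^ 2), ?_⟩
  have hδ : (δ : K) ≠ 0 := δ.ne_zero
  unfold nf
  field_simp
  ring

/-- Kummer theory: an element which becomes a cube in `E` is `d ^ i` times a cube -/
theorem cube_in_kummer {ζ : K} {d : Kˣ} {α : E} {σ : E ≃ₐ[K] E} (hk : Kum K ζ d E α σ) {x : Kˣ}
    {y : E} (h : y ^ 3 = algebraMap K E (x : K)) : ∃ i : ℕ, x * d ^ i ∈ Cubes K := by
  have := hk.gal
  have hy : y ≠ 0 := by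
    rintro rfl
    rw [zero_pow (by norm_num)] at h
    exact x.ne_zero ((algebraMap K E).injective (by rw [← h, map_zero]))
  have hζE : IsPrimitiveRoot (algebraMap K E ζ) 3 := hk.prim.map_of_injective
    (algebraMap K E).injective
  have h1 : (σ y / y) ^ 3 = 1 := by
    rw [div_pow, ← map_pow, h, AlgEquiv.commutes, ← h, div_self (pow_ne_zero 3 hy)]
  obtain ⟨j, _, hj⟩ := hζE.eq_pow_of_pow_eq_one h1
  have hσy : σ y = algebraMap K E ζ ^ j * y := by
    rw [hj, div_mul_cancel₀ _ hy]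
  have hfix : σ (y * α ^ (2 * j)) = y * α ^ (2 * j) := by
    rw [map_mul, map_pow, hk.act, hσy, mul_pow]
    have h3 : algebraMap K E ζ ^ j * algebraMap K E ζ ^ (2 * j) = 1 := by
      rw [← pow_add, show j + 2 * j = 3 * j by ring, pow_mul, hζE.pow_eq_one, one_pow]
    calc algebraMap K E ζ ^ j * y * (algebraMap K E ζ ^ (2 * j) * α ^ (2 * j))
        = (algebraMap K E ζ ^ j * algebraMap K E ζ ^ (2 * j)) * (y * α ^ (2 * j)) := by ring
      _ = _ := by rw [h3, one_mul]
  have hall : ∀ τ : E ≃ₐ[K] E, τ (y * α ^ (2 * j)) = y * α ^ (2 * j) := by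
    intro τ
    obtain ⟨i, rfl⟩ := hk.gen τ
    induction i with
    | zero => simp
    | succ i ih => rw [pow_succ, AlgEquiv.mul_apply, hfix, ih]
  obtain ⟨w, hw⟩ := (IsGalois.mem_range_algebraMap_iff_fixed (F := K) (y * α ^ (2 * j))).2 hall
  have hw0 : w ≠ 0 := by
    rintro rfl
    rw [map_zero] at hw
    exact mul_ne_zero hy (pow_ne_zero _ (hn13a_alpha_ne hk)) hw.symm
  refine ⟨2 * j, Units.mk0 w hw0, ?_⟩
  apply Units.ext
  apply (algebraMap K E).injective
  show algebraMap K E (((Units.mk0 w hw0) ^ 3 : Kˣ) : K) = _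
  rw [Units.val_pow_eq_pow_val, Units.val_mk0, Units.val_mul, Units.val_pow_eq_pow_val,
    map_pow, hw, map_mul, map_pow, ← h, ← hk.pow]
  ring

end Pool.Agent.Lib.MP_fdb342_lc
end

section

/-!
# Independent subgroups of index three
-/

namespace Pool.Agent.Lib.MP_fdb342_lc

theorem relIndex_iInf {G : Type*} [CommGroup G] {ι : Type*} (V : Finset ι) (H : ι → Subgroup G)
    (h3 : ∀ i ∈ V, (H i).index = 3) (U : Subgroup G)
    (hU : ∀ i ∈ V, ∃ c ∈ U, c ∉ H i ∧ ∀ j ∈ V, j ≠ i → c ∈ H j) :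
    (⨅ i ∈ V, H i).relIndex U = 3 ^ V.card := by
  classical
  induction V using Finset.induction_on with
  | empty => simp
  | insert a s ha ih =>
    have ih' := ih (fun i hi => h3 i (Finset.mem_insert_of_mem hi)) (fun i hi => by
      obtain ⟨c, hcU, hc1, hc2⟩ := hU i (Finset.mem_insert_of_mem hi)
      exact ⟨c, hcU, hc1, fun j hj hji => hc2 j (Finset.mem_insert_of_mem hj) hji⟩)
    rw [Finset.iInf_insert, ← Subgroup.relIndex_inf_mul_relIndex, ih',
      Finset.card_insert_of_notMem ha, pow_succ, mul_comm]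
    congr 1
    have hdvd : (H a).relIndex ((⨅ i ∈ s, H i) ⊓ U) ∣ 3 := by
      rw [← h3 a (Finset.mem_insert_self a s)]
      exact Subgroup.relIndex_dvd_index_of_normal _ _
    rcases (Nat.dvd_prime Nat.prime_three).mp hdvd with h | h
    · exfalso
      obtain ⟨c, hcU, hc1, hc2⟩ := hU a (Finset.mem_insert_self a s)
      rw [Subgroup.relIndex_eq_one] at h
      refine hc1 (h ?_)
      refine Subgroup.mem_inf.mpr ⟨?_, hcU⟩
      simp only [Subgroup.mem_iInf]
      intro j hj
      exact hc2 j (Finset.mem_insert_of_mem hj) (fun hja => ha (hja ▸ hj))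
    · exact h

end Pool.Agent.Lib.MP_fdb342_lc
end

section

/-!
# Trivializing the class group
-/

open IsDedekindDomain NumberField

namespace Pool.Agent.Lib.MP_fdb342_lc

variable {K : Type} [Field K] [NumberField K]


theorem hn6_dvd_finite (I : Ideal (𝓞 K)) (hI : I ≠ ⊥) : {v : Pl K | v.asIdeal ∣ I}.Finite :=
  Ideal.finite_factors hI

theorem hn6_ordv_zero (v : Pl K) (r : 𝓞 K) (hr : r ≠ 0) (h : ¬ v.asIdeal ∣ Ideal.span {r}) :
    ordv v (algebraMap (𝓞 K) K r) = 0 := by
  have hr' : algebraMap (𝓞 K) K r ≠ 0 := by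
    simpa using hr
  rw [← val_eq_one_iff v hr', HeightOneSpectrum.valuation_of_algebraMap]
  rcases (v.intValuation_le_one r).lt_or_eq with h1 | h1
  · exact absurd ((v.intValuation_lt_one_iff_dvd r).1 h1) h
  · exact h1

theorem hn6_ordv_one (v : Pl K) (r : 𝓞 K) (hr : r ≠ 0) (h : v.asIdeal ∣ Ideal.span {r})
    (h2 : ¬ v.asIdeal ^ 2 ∣ Ideal.span {r}) :
    ordv v (algebraMap (𝓞 K) K r) = 1 := by
  have hr' : algebraMap (𝓞 K) K r ≠ 0 := by
    simpa using hr
  have e := val_eq_exp v hr'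
  rw [HeightOneSpectrum.valuation_of_algebraMap] at e
  have h1 := (v.intValuation_le_pow_iff_dvd r 1).2 (by simpa using h)
  have h3 : ¬ v.intValuation r ≤ _ := fun hh => h2 ((v.intValuation_le_pow_iff_dvd r 2).1 hh)
  rw [e, WithZero.exp_le_exp] at h1 h3
  push_cast at h1 h3
  omega

theorem exists_clTriv (S₀ : Finset (Pl K)) : ∃ S : Finset (Pl K), S₀ ⊆ S ∧ ClTriv S := by
  classical
  have hsurj : ∀ c : ClassGroup (𝓞 K), ∃ I : nonZeroDivisors (Ideal (𝓞 K)),
      ClassGroup.mk0 I = c := ClassGroup.mk0_surjective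
  choose I hI using hsurj
  have hI0 : ∀ c, (I c : Ideal (𝓞 K)) ≠ ⊥ := fun c => nonZeroDivisors.coe_ne_zero (I c)
  have : Fintype (ClassGroup (𝓞 K)) := inferInstance
  refine ⟨S₀ ∪ Finset.univ.biUnion fun c => (hn6_dvd_finite (I c : Ideal (𝓞 K)) (hI0 c)).toFinset,
    Finset.subset_union_left, ?_⟩
  intro v hv
  have hv0 : v.asIdeal ≠ ⊥ := v.ne_bot
  set J : nonZeroDivisors (Ideal (𝓞 K)) := ⟨v.asIdeal, mem_nonZeroDivisors_of_ne_zero hv0⟩ with hJ
  set c := (ClassGroup.mk0 J)⁻¹ with hc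
  have h1 : ClassGroup.mk0 (J * I c) = 1 := by
    rw [map_mul, hI, hc, mul_inv_cancel]
  rw [ClassGroup.mk0_eq_one_iff] at h1
  obtain ⟨r, hr⟩ := h1.principal
  have hr2 : v.asIdeal * (I c : Ideal (𝓞 K)) = Ideal.span {r} := hr
  have hr0 : r ≠ 0 := by
    rintro rfl
    rw [Ideal.span_singleton_eq_bot.2 rfl] at hr2
    rcases Ideal.mul_eq_bot.1 hr2 with h | h
    · exact hv0 h
    · exact hI0 c h
  have hmem : ∀ w : Pl K, w ∉ S₀ ∪ Finset.univ.biUnion (fun c =>
      (hn6_dvd_finite (I c : Ideal (𝓞 K)) (hI0 c)).toFinset) →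
      ¬ w.asIdeal ∣ (I c : Ideal (𝓞 K)) := by
    intro w hw hd
    apply hw
    rw [Finset.mem_union, Finset.mem_biUnion]
    exact Or.inr ⟨c, Finset.mem_univ _, by simpa using hd⟩
  have hr' : algebraMap (𝓞 K) K r ≠ 0 := by simpa using hr0
  refine ⟨Units.mk0 (algebraMap (𝓞 K) K r) hr', ?_, ?_⟩
  · apply hn6_ordv_one v r hr0
    · rw [← hr2]; exact dvd_mul_right _ _
    · rw [← hr2, pow_two]
      intro h
      exact hmem v hv ((mul_dvd_mul_iff_left hv0).1 h)
  · intro w hw hwv
    apply hn6_ordv_zero w r hr0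
    rw [← hr2]
    intro h
    rcases w.prime.dvd_or_dvd h with h | h
    · apply hwv
      have := (Ideal.dvd_iff_le.1 h)
      have hmax := v.isMaximal
      ext1
      exact (hmax.eq_of_le w.isPrime.ne_top this).symm
    · exact hmem w hw h

theorem ClTriv.mono {S T : Finset (Pl K)} (h : ClTriv S) (hST : S ⊆ T) : ClTriv T := by
  intro v hv
  obtain ⟨x, hx, hx2⟩ := h v fun hh => hv (hST hh)
  exact ⟨x, hx, fun w hw hwv => hx2 w (fun hh => hw (hST hh)) hwv⟩

end Pool.Agent.Lib.MP_fdb342_lc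
end

section

/-!
# The number of cube roots of unity modulo 9
-/

open IsDedekindDomain NumberField

namespace Pool.Agent.Lib.MP_fdb342_lc

variable {K : Type} [Field K] [NumberField K]

private theorem HN5a_step (v : Pl K) {a p q r l : K} (hl : l ≠ 0)
    (hpq : v.valuation K (p - q) = v.valuation K l) (hpr : v.valuation K (p - r) = v.valuation K l)
    (h : v.valuation K ((a - p) * (a - q) * (a - r)) ≤ v.valuation K l ^ 4)
    (hp : v.valuation K (a - p) < v.valuation K l) :
    v.valuation K (a - p) ≤ v.valuation K l ^ 2 := by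
  have hl0 := val_ne_zero v hl
  have hq : v.valuation K (a - q) = v.valuation K l := by
    have h1 := Valuation.map_add_eq_of_lt_right (v.valuation K) (x := a - p) (y := p - q)
      (by rw [hpq]; exact hp)
    rw [sub_add_sub_cancel, hpq] at h1
    exact h1
  have hr : v.valuation K (a - r) = v.valuation K l := by
    have h1 := Valuation.map_add_eq_of_lt_right (v.valuation K) (x := a - p) (y := p - r)
      (by rw [hpr]; exact hp)
    rw [sub_add_sub_cancel, hpr] at h1
    exact h1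
  rw [map_mul, map_mul, hq, hr] at h
  have h2 : v.valuation K (a - p) * v.valuation K l ^ 2 ≤
      v.valuation K l ^ 2 * v.valuation K l ^ 2 := by
    calc v.valuation K (a - p) * v.valuation K l ^ 2
        = v.valuation K (a - p) * v.valuation K l * v.valuation K l := by rw [pow_two, mul_assoc]
      _ ≤ v.valuation K l ^ 4 := h
      _ = v.valuation K l ^ 2 * v.valuation K l ^ 2 := by rw [← pow_add]
  exact le_of_mul_le_mul_right h2 (zero_lt_iff.2 (pow_ne_zero 2 hl0))

private theorem HN5a_local {ζ : K} (hζ : IsPrimitiveRoot ζ 3) (v : Pl K) (hv : Above3 v) {a : K}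
    (ha : v.valuation K (a ^ 3 - 1) ≤ v.valuation K (9 : K)) :
    ∃ i : Fin 3, v.valuation K (a - ζ ^ (i : ℕ)) ≤ v.valuation K (3 : K) := by
  have hζ3 : ζ ^ 3 = 1 := hζ.pow_eq_one
  have hsum : 1 + ζ + ζ ^ 2 = 0 := by
    have := hζ.geom_sum_eq_zero (by norm_num)
    rw [Finset.sum_range_succ, Finset.sum_range_succ, Finset.sum_range_succ,
      Finset.sum_range_zero] at this
    simpa using this
  have hζv : v.valuation K ζ = 1 := by
    have h2 := congrArg (v.valuation K) hζ3
    rw [map_pow, map_one] at h2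
    exact (pow_eq_one_iff.1 h2).resolve_right (by norm_num)
  obtain ⟨l, hl⟩ : ∃ l : K, l = ζ - 1 := ⟨_, rfl⟩
  have hl0 : l ≠ 0 := by
    rw [hl, sub_ne_zero]
    exact hζ.ne_one (by norm_num)
  have hl2 : v.valuation K l ^ 2 = v.valuation K (3 : K) := by
    have e : l ^ 2 = - (3 * ζ) := by rw [hl]; linear_combination hsum
    rw [← map_pow, e, Valuation.map_neg, map_mul, hζv, mul_one]
  have hl4 : v.valuation K l ^ 4 = v.valuation K (9 : K) := by
    have e : (9 : K) = 3 * 3 := by norm_num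
    rw [e, map_mul, ← hl2, ← pow_add]
  have hl1 : v.valuation K l < 1 := by
    by_contra hcon
    have h1 := one_le_pow₀ (n := 2) (not_lt.1 hcon)
    rw [hl2] at h1
    exact absurd hv (not_lt.2 h1)
  have h10 : v.valuation K (1 - ζ) = v.valuation K l := by
    rw [hl, Valuation.map_sub_swap]
  have h12 : v.valuation K (1 - ζ ^ 2) = v.valuation K l := by
    have e : 1 - ζ ^ 2 = ζ ^ 2 * l := by rw [hl]; linear_combination (-1 : K) * hζ3 + 0 * hsum
    rw [e, map_mul, map_pow, hζv, one_pow, one_mul]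
  have h21 : v.valuation K (ζ - ζ ^ 2) = v.valuation K l := by
    have e : ζ - ζ ^ 2 = - (ζ * l) := by rw [hl]; ring
    rw [e, Valuation.map_neg, map_mul, hζv, one_mul]
  have hprod : v.valuation K ((a - 1) * (a - ζ) * (a - ζ ^ 2)) ≤ v.valuation K l ^ 4 := by
    have e : (a - 1) * (a - ζ) * (a - ζ ^ 2) = a ^ 3 - 1 := by
      linear_combination (-(a ^ 2) + a * ζ) * hsum - hζ3
    rw [e, hl4]
    exact ha
  by_cases c0 : v.valuation K (a - 1) < v.valuation K l
  · refine ⟨0, ?_⟩
    rw [← hl2]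
    have := HN5a_step v hl0 h10 h12 hprod c0
    simpa using this
  by_cases c1 : v.valuation K (a - ζ) < v.valuation K l
  · refine ⟨1, ?_⟩
    rw [← hl2]
    have h1 : v.valuation K (ζ - 1) = v.valuation K l := by rw [hl]
    have hprod' : v.valuation K ((a - ζ) * (a - 1) * (a - ζ ^ 2)) ≤ v.valuation K l ^ 4 := by
      have e : (a - ζ) * (a - 1) * (a - ζ ^ 2) = (a - 1) * (a - ζ) * (a - ζ ^ 2) := by ring
      rw [e]; exact hprod
    have := HN5a_step v hl0 h1 h21 hprod' c1
    simpa using this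
  by_cases c2 : v.valuation K (a - ζ ^ 2) < v.valuation K l
  · refine ⟨2, ?_⟩
    rw [← hl2]
    have hprod' : v.valuation K ((a - ζ ^ 2) * (a - 1) * (a - ζ)) ≤ v.valuation K l ^ 4 := by
      have e : (a - ζ ^ 2) * (a - 1) * (a - ζ) = (a - 1) * (a - ζ) * (a - ζ ^ 2) := by ring
      rw [e]; exact hprod
    have := HN5a_step v hl0 (by rw [Valuation.map_sub_swap]; exact h12)
      (by rw [Valuation.map_sub_swap]; exact h21) hprod' c2
    simpa using this
  exfalso
  rw [not_lt] at c0 c1 c2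
  have h1 : v.valuation K l ^ 3 ≤ v.valuation K ((a - 1) * (a - ζ) * (a - ζ ^ 2)) := by
    rw [map_mul, map_mul, pow_succ, pow_two]
    exact mul_le_mul' (mul_le_mul' c0 c1) c2
  have h2 := h1.trans hprod
  have hl3 : (0 : WithZero (Multiplicative ℤ)) < v.valuation K l ^ 3 :=
    zero_lt_iff.2 (pow_ne_zero 3 (val_ne_zero v hl0))
  have h3 : 1 * v.valuation K l ^ 3 ≤ v.valuation K l * v.valuation K l ^ 3 := by
    rw [one_mul, ← pow_succ']
    exact h2
  exact absurd hl1 (not_lt.2 (le_of_mul_le_mul_right h3 hl3))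

private theorem HN5a_dvd {G : Finset (Pl K)} (hG : ∀ v, v ∈ G ↔ Above3 v) {a : 𝓞 K}
    (h : ∀ v ∈ G, v.valuation K (algebraMap (𝓞 K) K a) ≤ v.valuation K (3 : K)) :
    (3 : 𝓞 K) ∣ a := by
  have h1 : ∀ v : Pl K, v.valuation K (algebraMap (𝓞 K) K a / 3) ≤ 1 := by
    intro v
    have h30 : v.valuation K (3 : K) ≠ 0 := val_ne_zero v (by norm_num)
    rw [map_div₀]
    refine (div_le_one₀ (zero_lt_iff.2 h30)).2 ?_
    by_cases hv : Above3 v
    · exact h v ((hG v).2 hv)
    · have h2 : v.valuation K (algebraMap (𝓞 K) K a) ≤ 1 := v.valuation_le_one a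
      exact h2.trans (not_lt.1 hv)
  obtain ⟨b, hb⟩ := HeightOneSpectrum.mem_integers_of_valuation_le_one (R := 𝓞 K) K _ h1
  refine ⟨b, ?_⟩
  apply FaithfulSMul.algebraMap_injective (𝓞 K) K
  rw [map_mul, hb, map_ofNat (algebraMap (𝓞 K) K) 3]
  field_simp

private theorem HN5a_card3 : Nat.card (𝓞 K ⧸ Ideal.span {(3 : 𝓞 K)}) =
    3 ^ Module.finrank ℚ K := by
  have h1 : Ideal.absNorm (Ideal.span {(3 : 𝓞 K)}) = 3 ^ Module.finrank ℚ K := by
    rw [Ideal.absNorm_span_singleton]
    have h2 : Algebra.norm ℤ (algebraMap ℤ (𝓞 K) 3) = 3 ^ Module.finrank ℤ (𝓞 K) :=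
      Algebra.norm_algebraMap 3
    rw [map_ofNat (algebraMap ℤ (𝓞 K)) 3] at h2
    rw [h2, RingOfIntegers.rank, Int.natAbs_pow]
    rfl
  rw [← h1]
  rfl

theorem card_cube_roots {ζ : K} (hζ : IsPrimitiveRoot ζ 3) (G : Finset (Pl K))
    (hG : ∀ v, v ∈ G ↔ Above3 v) :
    Nat.card {x : 𝓞 K ⧸ Ideal.span {(9 : 𝓞 K)} // x ^ 3 = 1} ≤
      3 ^ (G.card + Module.finrank ℚ K) := by
  classical
  have hlift : ∀ x : {x : 𝓞 K ⧸ Ideal.span {(9 : 𝓞 K)} // x ^ 3 = 1}, ∃ a : 𝓞 K,
      Ideal.Quotient.mk (Ideal.span {(9 : 𝓞 K)}) a = x.1 := fun x =>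
    Ideal.Quotient.mk_surjective x.1
  choose a ha using hlift
  have hi : ∀ (x : {x : 𝓞 K ⧸ Ideal.span {(9 : 𝓞 K)} // x ^ 3 = 1}) (v : G), ∃ i : Fin 3,
      v.1.valuation K (algebraMap (𝓞 K) K (a x) - ζ ^ (i : ℕ)) ≤ v.1.valuation K (3 : K) := by
    intro x v
    refine HN5a_local hζ v.1 ((hG _).1 v.2) ?_
    have h1 : (a x) ^ 3 - 1 ∈ Ideal.span {(9 : 𝓞 K)} := by
      rw [← Ideal.Quotient.eq, map_pow, ha, x.2, map_one]
    obtain ⟨b, hb⟩ := Ideal.mem_span_singleton.1 h1
    have h2 : algebraMap (𝓞 K) K (a x) ^ 3 - 1 = 9 * algebraMap (𝓞 K) K b := by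
      have h3 := congrArg (algebraMap (𝓞 K) K) hb
      rw [map_sub, map_pow, map_one, map_mul, map_ofNat (algebraMap (𝓞 K) K) 9] at h3
      exact h3
    rw [h2, map_mul]
    exact mul_le_of_le_one_right' (v.1.valuation_le_one b)
  choose i hi using hi
  -- two elements with the same indices are congruent mod 3
  have hcong : ∀ x y : {x : 𝓞 K ⧸ Ideal.span {(9 : 𝓞 K)} // x ^ 3 = 1}, i x = i y →
      (3 : 𝓞 K) ∣ a x - a y := by
    intro x y hxy
    refine HN5a_dvd hG ?_
    intro v hv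
    have h1 := hi x ⟨v, hv⟩
    have h2 := hi y ⟨v, hv⟩
    rw [← hxy] at h2
    have e : algebraMap (𝓞 K) K (a x - a y) =
        (algebraMap (𝓞 K) K (a x) - ζ ^ (i x ⟨v, hv⟩ : ℕ)) -
        (algebraMap (𝓞 K) K (a y) - ζ ^ (i x ⟨v, hv⟩ : ℕ)) := by
      rw [map_sub]; ring
    rw [e]
    exact (Valuation.map_sub _ _ _).trans (max_le h1 h2)
  -- base points
  have hbase : ∀ j : G → Fin 3, ∃ a0 : 𝓞 K,
      ∀ x : {x : 𝓞 K ⧸ Ideal.span {(9 : 𝓞 K)} // x ^ 3 = 1}, i x = j →
        ∃ b : 𝓞 K, a x - a0 = 3 * b := by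
    intro j
    by_cases h : ∃ y, i y = j
    · obtain ⟨y, hy⟩ := h
      exact ⟨a y, fun x hx => hcong x y (hx.trans hy.symm)⟩
    · exact ⟨0, fun x hx => absurd ⟨x, hx⟩ h⟩
  choose a0 ha0 using hbase
  have hb : ∀ x : {x : 𝓞 K ⧸ Ideal.span {(9 : 𝓞 K)} // x ^ 3 = 1}, ∃ b : 𝓞 K,
      a x - a0 (i x) = 3 * b := fun x => ha0 (i x) x rfl
  choose b hb using hb
  let F : {x : 𝓞 K ⧸ Ideal.span {(9 : 𝓞 K)} // x ^ 3 = 1} →
      (G → Fin 3) × (𝓞 K ⧸ Ideal.span {(3 : 𝓞 K)}) :=
    fun x => (i x, Ideal.Quotient.mk _ (b x))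
  have hF : Function.Injective F := by
    intro x y hxy
    have h1 : i x = i y := congrArg Prod.fst hxy
    have h2 : Ideal.Quotient.mk (Ideal.span {(3 : 𝓞 K)}) (b x) =
        Ideal.Quotient.mk _ (b y) := congrArg Prod.snd hxy
    rw [Ideal.Quotient.eq, Ideal.mem_span_singleton] at h2
    obtain ⟨c, hc⟩ := h2
    have h3 : a x - a y = 9 * c := by
      have h4 := hb x
      have h5 := hb y
      rw [← h1] at h5
      linear_combination h4 - h5 + 3 * hc
    apply Subtype.ext
    rw [← ha x, ← ha y, Ideal.Quotient.eq, Ideal.mem_span_singleton]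
    exact ⟨c, h3⟩
  have h30 : Ideal.span {(3 : 𝓞 K)} ≠ ⊥ := by
    rw [Ne, Ideal.span_singleton_eq_bot]
    norm_num
  have hfin : Finite (𝓞 K ⧸ Ideal.span {(3 : 𝓞 K)}) :=
    Ideal.finiteQuotientOfFreeOfNeBot _ h30
  refine (Nat.card_le_card_of_injective F hF).trans ?_
  rw [Nat.card_prod, HN5a_card3, pow_add, Nat.card_fun]
  simp

end Pool.Agent.Lib.MP_fdb342_lc
end

section

/-!
# The index of `L3`
-/

open IsDedekindDomain NumberField

namespace Pool.Agent.Lib.MP_fdb342_lc

variable {K : Type} [Field K] [NumberField K]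

/-- the order as a homomorphism -/
private noncomputable def HN5b_ordH (v : Pl K) : Kˣ →* Multiplicative ℤ where
  toFun x := Multiplicative.ofAdd (ordv v (x : K))
  map_one' := by
    rw [Units.val_one, ordv_one]; rfl
  map_mul' x y := by
    rw [Units.val_mul, ordv_mul v x.ne_zero y.ne_zero]; rfl

/-- the elements of order zero at the places in `G` -/
private def HN5b_J (G : Finset (Pl K)) : Subgroup Kˣ where
  carrier := {x | ∀ v ∈ G, ordv v (x : K) = 0}
  mul_mem' := by
    intro a b ha hb v hv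
    rw [Units.val_mul, ordv_mul v a.ne_zero b.ne_zero, ha v hv, hb v hv, add_zero]
  one_mem' := by
    intro v _
    rw [Units.val_one, ordv_one]
  inv_mem' := by
    intro a ha v hv
    rw [Units.val_inv_eq_inv_val, ordv_inv, ha v hv, neg_zero]

private lemma HN5b_ordv_of_near {v : Pl K} {x y : Kˣ}
    (h : v.valuation K ((x : K) / (y : K) - 1) < 1) : ordv v (x : K) = ordv v (y : K) := by
  have h1 : v.valuation K ((x : K) / (y : K)) = 1 := by
    have := Valuation.map_one_add_of_lt (v := v.valuation K) h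
    rw [← this]; congr 1; ring
  have h2 : ordv v ((x : K) / (y : K)) = 0 :=
    (val_eq_one_iff v (div_ne_zero x.ne_zero y.ne_zero)).1 h1
  rw [div_eq_mul_inv, ordv_mul v x.ne_zero (inv_ne_zero y.ne_zero), ordv_inv] at h2
  omega

private lemma HN5b_exists_unif (v : Pl K) : ∃ π : Kˣ, ordv v (π : K) = 1 := by
  obtain ⟨π, hπ⟩ := v.valuation_exists_uniformizer K
  have hπ0 : π ≠ 0 := by
    rintro rfl
    rw [map_zero] at hπ
    exact absurd hπ (WithZero.coe_ne_zero).symm
  refine ⟨Units.mk0 π hπ0, ?_⟩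
  rw [Units.val_mk0]
  unfold ordv
  rw [hπ]
  simp

open Classical in
private lemma HN5b_exists_unifs (G : Finset (Pl K)) : ∃ π : Pl K → Kˣ, ∀ v ∈ G, ∀ w ∈ G,
    ordv w (π v : K) = if v = w then 1 else 0 := by
  have h : ∀ v : Pl K, ∃ p : Kˣ, ∀ w ∈ G, ordv w (p : K) = if v = w then 1 else 0 := by
    intro v
    obtain ⟨ϖ, hϖ⟩ := HN5b_exists_unif v
    obtain ⟨x, hx⟩ := weak_approx G (fun w => if v = w then ϖ else 1)
    refine ⟨x, fun w hw => ?_⟩
    rw [HN5b_ordv_of_near (hx w hw)]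
    split_ifs with hvw
    · subst hvw; exact hϖ
    · rw [Units.val_one, ordv_one]
  choose π hπ using h
  exact ⟨π, fun v _ w hw => hπ v w hw⟩

private lemma HN5b_exists_repr {G : Finset (Pl K)} (hG : ∀ v, v ∈ G ↔ Above3 v) {x : K}
    (hx : ∀ v ∈ G, v.valuation K x ≤ 1) :
    ∃ a b : 𝓞 K, b - 1 ∈ Ideal.span {(9 : 𝓞 K)} ∧
      x * algebraMap (𝓞 K) K b = algebraMap (𝓞 K) K a := by
  let D : Ideal (𝓞 K) :=
    { carrier := {b | ∃ a : 𝓞 K, x * algebraMap (𝓞 K) K b = algebraMap (𝓞 K) K a}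
      add_mem' := by
        rintro b b' ⟨a, ha⟩ ⟨a', ha'⟩
        exact ⟨a + a', by rw [map_add, map_add, mul_add, ha, ha']⟩
      zero_mem' := ⟨0, by simp⟩
      smul_mem' := by
        rintro c b ⟨a, ha⟩
        refine ⟨c * a, ?_⟩
        rw [smul_eq_mul, map_mul, map_mul, ← ha]
        ring }
  have htop : D ⊔ Ideal.span {(9 : 𝓞 K)} = ⊤ := by
    by_contra hne
    obtain ⟨P, hP, hle⟩ := Ideal.exists_le_maximal _ hne
    have h9 : (9 : 𝓞 K) ∈ P :=
      hle (Ideal.mem_sup_right (Ideal.subset_span (Set.mem_singleton _)))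
    have h3 : (3 : 𝓞 K) ∈ P := by
      have h33 : (3 : 𝓞 K) * 3 ∈ P := by
        have : (3 : 𝓞 K) * 3 = 9 := by norm_num
        rw [this]; exact h9
      rcases hP.isPrime.mem_or_mem h33 with h | h <;> exact h
    have hPne : P ≠ ⊥ := by
      rintro rfl
      rw [Ideal.mem_bot] at h3
      exact (OfNat.ofNat_ne_zero 3 : (3 : 𝓞 K) ≠ 0) h3
    let v : Pl K := ⟨P, hP.isPrime, hPne⟩
    have hv : Above3 v := by
      have := (v.valuation_lt_one_iff_mem (K := K) (3 : 𝓞 K)).2 h3
      have e : algebraMap (𝓞 K) K 3 = 3 := map_ofNat _ 3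
      unfold Above3
      rw [← e]
      exact this
    obtain ⟨n, ⟨d, hd⟩, hnd⟩ :=
      HeightOneSpectrum.exists_primeCompl_mul_eq_of_integer v x (hx v ((hG v).2 hv))
    have hdD : d ∈ D := ⟨n, hnd⟩
    exact hd (hle (Ideal.mem_sup_left hdD))
  have h1 : (1 : 𝓞 K) ∈ D ⊔ Ideal.span {(9 : 𝓞 K)} := by rw [htop]; trivial
  obtain ⟨b, ⟨a, ha⟩, c, hc, hbc⟩ := Submodule.mem_sup.1 h1
  refine ⟨a, b, ?_, ha⟩
  have : b - 1 = - c := by rw [← hbc]; ring
  rw [this]
  exact neg_mem hc

private lemma HN5b_repr_unique {x : K} {a b a' b' : 𝓞 K}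
    (hb : b - 1 ∈ Ideal.span {(9 : 𝓞 K)}) (hb' : b' - 1 ∈ Ideal.span {(9 : 𝓞 K)})
    (h : x * algebraMap (𝓞 K) K b = algebraMap (𝓞 K) K a)
    (h' : x * algebraMap (𝓞 K) K b' = algebraMap (𝓞 K) K a') :
    Ideal.Quotient.mk (Ideal.span {(9 : 𝓞 K)}) a = Ideal.Quotient.mk (Ideal.span {(9 : 𝓞 K)}) a' := by
  have e : a * b' = a' * b := by
    apply FaithfulSMul.algebraMap_injective (𝓞 K) K
    rw [map_mul, map_mul, ← h, ← h']
    ring
  have e1 : Ideal.Quotient.mk (Ideal.span {(9 : 𝓞 K)}) b = 1 := by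
    rw [← map_one (Ideal.Quotient.mk (Ideal.span {(9 : 𝓞 K)}))]
    exact Ideal.Quotient.eq.2 hb
  have e2 : Ideal.Quotient.mk (Ideal.span {(9 : 𝓞 K)}) b' = 1 := by
    rw [← map_one (Ideal.Quotient.mk (Ideal.span {(9 : 𝓞 K)}))]
    exact Ideal.Quotient.eq.2 hb'
  have := congrArg (Ideal.Quotient.mk (Ideal.span {(9 : 𝓞 K)})) e
  rwa [map_mul, map_mul, e1, e2, mul_one, mul_one] at this

private lemma HN5b_repr_J {G : Finset (Pl K)} (hG : ∀ v, v ∈ G ↔ Above3 v) (x : HN5b_J G) :
    ∃ a b : 𝓞 K, b - 1 ∈ Ideal.span {(9 : 𝓞 K)} ∧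
      ((x : Kˣ) : K) * algebraMap (𝓞 K) K b = algebraMap (𝓞 K) K a :=
  HN5b_exists_repr hG fun v hv => ((val_eq_one_iff v (x : Kˣ).ne_zero).2 (x.2 v hv)).le

private lemma HN5b_hom {G : Finset (Pl K)} (hG : ∀ v, v ∈ G ↔ Above3 v) :
    ∃ f : HN5b_J G →* (𝓞 K ⧸ Ideal.span {(9 : 𝓞 K)}), ∀ (x : HN5b_J G) (a b : 𝓞 K),
      b - 1 ∈ Ideal.span {(9 : 𝓞 K)} →
      ((x : Kˣ) : K) * algebraMap (𝓞 K) K b = algebraMap (𝓞 K) K a →
      f x = Ideal.Quotient.mk (Ideal.span {(9 : 𝓞 K)}) a := by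
  choose A B hB hAB using HN5b_repr_J hG
  refine ⟨{ toFun := fun x => Ideal.Quotient.mk (Ideal.span {(9 : 𝓞 K)}) (A x)
            map_one' := ?_
            map_mul' := ?_ }, ?_⟩
  · rw [← map_one (Ideal.Quotient.mk (Ideal.span {(9 : 𝓞 K)}))]
    refine HN5b_repr_unique (x := 1) (hB 1) (b' := 1) (by simp) ?_ (by simp)
    exact hAB 1
  · intro x y
    rw [← map_mul (Ideal.Quotient.mk (Ideal.span {(9 : 𝓞 K)}))]
    refine HN5b_repr_unique (x := (((x * y : HN5b_J G) : Kˣ) : K)) (hB (x * y))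
      (b' := B x * B y) ?_ (hAB (x * y)) ?_
    · have : B x * B y - 1 = (B x - 1) * B y + (B y - 1) := by ring
      rw [this]
      exact add_mem (Ideal.mul_mem_right _ _ (hB x)) (hB y)
    · have e : (((x * y : HN5b_J G) : Kˣ) : K) = ((x : Kˣ) : K) * ((y : Kˣ) : K) := rfl
      rw [map_mul, map_mul, ← hAB x, ← hAB y, e]
      ring
  · intro x a b hb hab
    exact HN5b_repr_unique (hB x) hb (hAB x) hab

private lemma HN5b_val_of_mem {v : Pl K} {c : 𝓞 K} (hc : c ∈ Ideal.span {(9 : 𝓞 K)}) :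
    v.valuation K (algebraMap (𝓞 K) K c) ≤ v.valuation K (9 : K) := by
  obtain ⟨e, rfl⟩ := Ideal.mem_span_singleton'.1 hc
  rw [map_mul, map_mul]
  have h1 : v.valuation K (algebraMap (𝓞 K) K e) ≤ 1 := v.valuation_le_one e
  have h2 : algebraMap (𝓞 K) K 9 = 9 := map_ofNat _ 9
  rw [h2]
  exact mul_le_of_le_one_left' h1

private lemma HN5b_ker {G : Finset (Pl K)} (hG : ∀ v, v ∈ G ↔ Above3 v) (x : HN5b_J G)
    {a b y : 𝓞 K} (hb : b - 1 ∈ Ideal.span {(9 : 𝓞 K)})
    (hab : ((x : Kˣ) : K) * algebraMap (𝓞 K) K b = algebraMap (𝓞 K) K a)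
    (hy : a * y ^ 3 - 1 ∈ Ideal.span {(9 : 𝓞 K)}) : (x : Kˣ) ∈ L3 K := by
  by_cases hy0 : y = 0
  · subst hy0
    refine ⟨1, fun v hv => ?_⟩
    exfalso
    have h1 := HN5b_val_of_mem (v := v) hy
    have e : a * (0 : 𝓞 K) ^ 3 - 1 = -1 := by ring
    rw [e, map_neg, map_one, Valuation.map_neg, map_one] at h1
    have h9 : v.valuation K (9 : K) < 1 := by
      have : (9 : K) = 3 * 3 := by norm_num
      rw [this, map_mul]
      exact mul_lt_one_of_lt_of_le hv hv.le
    exact absurd h1 (not_le.2 h9)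
  · have hy0' : algebraMap (𝓞 K) K y ≠ 0 := by
      intro h
      exact hy0 (FaithfulSMul.algebraMap_injective (𝓞 K) K (by rw [h, map_zero]))
    refine ⟨Units.mk0 _ hy0', fun v hv => ?_⟩
    have h9 : v.valuation K (9 : K) < 1 := by
      have : (9 : K) = 3 * 3 := by norm_num
      rw [this, map_mul]
      exact mul_lt_one_of_lt_of_le hv hv.le
    have hvb : v.valuation K (algebraMap (𝓞 K) K b) = 1 := by
      have h1 := (HN5b_val_of_mem (v := v) hb).trans_lt h9
      rw [map_sub, map_one] at h1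
      have := Valuation.map_one_add_of_lt (v := v.valuation K) h1
      rw [← this]; congr 1; ring
    have hc : a * y ^ 3 - b ∈ Ideal.span {(9 : 𝓞 K)} := by
      have : a * y ^ 3 - b = (a * y ^ 3 - 1) - (b - 1) := by ring
      rw [this]
      exact sub_mem hy hb
    have h2 := HN5b_val_of_mem (v := v) hc
    have e : algebraMap (𝓞 K) K (a * y ^ 3 - b) =
        (((x * Units.mk0 _ hy0' ^ 3 : Kˣ) : K) - 1) * algebraMap (𝓞 K) K b := by
      rw [map_sub, map_mul, ← hab, map_pow, Units.val_mul, Units.val_pow_eq_pow_val,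
        Units.val_mk0]
      ring
    rw [e, map_mul, hvb, mul_one] at h2
    exact h2

/-- index of the cubes in a finite abelian group -/
private lemma HN5b_index_cubes (A : Type*) [CommGroup A] [Finite A] :
    (powMonoidHom 3 : A →* A).range.index = Nat.card (powMonoidHom 3 : A →* A).ker := by
  have h1 := (powMonoidHom 3 : A →* A).range.index_mul_card
  have h2 := (powMonoidHom 3 : A →* A).ker.index_mul_card
  rw [Subgroup.index_ker, mul_comm] at h2
  have h3 : 0 < Nat.card (powMonoidHom 3 : A →* A).range := Nat.card_pos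
  exact Nat.eq_of_mul_eq_mul_right h3 (h1.trans h2.symm)

theorem L3_index {ζ : K} (hζ : IsPrimitiveRoot ζ 3) (G : Finset (Pl K))
    (hG : ∀ v, v ∈ G ↔ Above3 v) :
    (L3 K).index ≠ 0 ∧ (L3 K).index ≤ 3 ^ (2 * G.card + Module.finrank ℚ K) := by
  classical
  have h9ne : Ideal.span {(9 : 𝓞 K)} ≠ ⊥ := by
    rw [Ne, Ideal.span_singleton_eq_bot]
    exact OfNat.ofNat_ne_zero 9
  have hfin : Finite (𝓞 K ⧸ Ideal.span {(9 : 𝓞 K)}) :=
    Ideal.finiteQuotientOfFreeOfNeBot _ h9ne
  obtain ⟨f, hf⟩ := HN5b_hom hG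
  obtain ⟨π, hπ⟩ := HN5b_exists_unifs G
  set A := (𝓞 K ⧸ Ideal.span {(9 : 𝓞 K)})ˣ with hA
  set C : Subgroup A := (powMonoidHom 3 : A →* A).range with hC
  -- the retraction
  let r0 : Kˣ →* Kˣ :=
    { toFun := fun x => x * ∏ v ∈ G, π v ^ (- ordv v (x : K))
      map_one' := by
        simp
      map_mul' := by
        intro x y
        have e : ∀ v ∈ G, π v ^ (- ordv v ((x * y : Kˣ) : K)) =
            π v ^ (- ordv v (x : K)) * π v ^ (- ordv v (y : K)) := by
          intro v _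
          rw [← zpow_add, Units.val_mul, ordv_mul v x.ne_zero y.ne_zero]
          congr 1
          ring
        rw [Finset.prod_congr rfl e, Finset.prod_mul_distrib, mul_mul_mul_comm] }
  have hr0 : ∀ x : Kˣ, r0 x = x * ∏ v ∈ G, π v ^ (- ordv v (x : K)) := fun _ => rfl
  have hr0J : ∀ x : Kˣ, r0 x ∈ HN5b_J G := by
    intro x w hw
    have h1 : HN5b_ordH w (r0 x) = Multiplicative.ofAdd (ordv w (x : K)) *
        ∏ v ∈ G, HN5b_ordH w (π v) ^ (- ordv v (x : K)) := by
      rw [hr0, map_mul, map_prod]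
      congr 1
      exact Finset.prod_congr rfl fun v _ => map_zpow _ _ _
    have h2 : ∏ v ∈ G, HN5b_ordH w (π v) ^ (- ordv v (x : K)) =
        Multiplicative.ofAdd (- ordv w (x : K)) := by
      rw [Finset.prod_eq_single_of_mem w hw]
      · have : HN5b_ordH w (π w) = Multiplicative.ofAdd 1 := by
          show Multiplicative.ofAdd (ordv w (π w : K)) = _
          rw [hπ w hw w hw, if_pos rfl]
        rw [this, ← ofAdd_zsmul]
        simp
      · intro v hv hvw
        have : HN5b_ordH w (π v) = 1 := by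
          show Multiplicative.ofAdd (ordv w (π v : K)) = _
          rw [hπ v hv w hw, if_neg hvw]; rfl
        rw [this, one_zpow]
    rw [h2, ← ofAdd_add, add_neg_cancel] at h1
    exact Multiplicative.ofAdd.injective h1
  let r : Kˣ →* HN5b_J G := r0.codRestrict (HN5b_J G) hr0J
  let f' : HN5b_J G →* A := f.toHomUnits
  let Ψ1 : Kˣ →* (G → Multiplicative (ZMod 3)) := MonoidHom.pi fun v : G =>
      (AddMonoidHom.toMultiplicative (Int.castAddHom (ZMod 3))).comp (HN5b_ordH (v : Pl K))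
  let Ψ2 : Kˣ →* A ⧸ C := (QuotientGroup.mk' C).comp (f'.comp r)
  have hcube : ∀ y : Kˣ, y ^ 3 ∈ L3 K := by
    intro y
    refine ⟨y⁻¹, fun v _ => ?_⟩
    have : y ^ 3 * y⁻¹ ^ 3 = 1 := by rw [← mul_pow, mul_inv_cancel, one_pow]
    rw [this, Units.val_one, sub_self, map_zero]
    exact zero_le
  have hker : Ψ1.ker ⊓ Ψ2.ker ≤ L3 K := by
    rintro x ⟨hx0, hx1⟩
    have hx2 : ∀ v : G, ((ordv (v : Pl K) (x : K) : ℤ) : ZMod 3) = 0 := by
      intro v
      have hx0' : Ψ1 x = 1 := hx0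
      exact congrFun hx0' v
    have hx3 : f' (r x) ∈ C := by
      have hx1' : Ψ2 x = 1 := hx1
      exact (QuotientGroup.eq_one_iff _).1 hx1'
    -- `x` is `r x` times a cube
    have hdiv : ∀ v ∈ G, ∃ k : ℤ, - ordv v (x : K) = k * 3 := by
      intro v hv
      have h1 := (ZMod.intCast_zmod_eq_zero_iff_dvd _ 3).1 (hx2 ⟨v, hv⟩)
      obtain ⟨k, hk⟩ := h1
      exact ⟨-k, by rw [hk]; push_cast; ring⟩
    have hprod : ∃ y : Kˣ, ∏ v ∈ G, π v ^ (- ordv v (x : K)) = y ^ 3 := by
      choose! k hk using hdiv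
      refine ⟨∏ v ∈ G, π v ^ (k v), ?_⟩
      rw [← Finset.prod_pow]
      refine Finset.prod_congr rfl fun v hv => ?_
      rw [hk v hv, zpow_mul]
      norm_cast
    obtain ⟨y, hy⟩ := hprod
    have hrx : r0 x ∈ L3 K := by
      obtain ⟨u, hu⟩ := hx3
      obtain ⟨a, b, hb, hab⟩ := HN5b_repr_J hG (r x)
      obtain ⟨z, hz⟩ := Ideal.Quotient.mk_surjective ((u⁻¹ : A) : 𝓞 K ⧸ Ideal.span {(9 : 𝓞 K)})
      have hfa := hf (r x) a b hb hab
      refine HN5b_ker hG (r x) hb hab (y := z) ?_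
      rw [← Ideal.Quotient.eq_zero_iff_mem, map_sub, map_mul, map_pow, map_one, ← hfa, hz]
      have h1 : f (r x) = ((u ^ 3 : A) : 𝓞 K ⧸ Ideal.span {(9 : 𝓞 K)}) := by
        have h2 : u ^ 3 = f' (r x) := hu
        rw [h2]; rfl
      rw [h1, ← Units.val_pow_eq_pow_val, ← Units.val_mul, ← mul_pow, mul_inv_cancel, one_pow,
        Units.val_one, sub_self]
    have hxe : x = r0 x * (y ^ 3)⁻¹ := by
      rw [hr0, hy, mul_inv_cancel_right]
    rw [hxe]
    exact mul_mem hrx (inv_mem (hcube y))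
  have : Finite A := inferInstance
  have : Finite (A ⧸ C) := inferInstance
  have hcardC : Nat.card (A ⧸ C) ≤ 3 ^ (G.card + Module.finrank ℚ K) := by
    have h1 : Nat.card (A ⧸ C) = Nat.card (powMonoidHom 3 : A →* A).ker :=
      HN5b_index_cubes A
    rw [h1]
    refine le_trans ?_ (card_cube_roots hζ G hG)
    refine Nat.card_le_card_of_injective
      (fun u => (⟨((u : A) : 𝓞 K ⧸ Ideal.span {(9 : 𝓞 K)}), ?_⟩ :
        {x : 𝓞 K ⧸ Ideal.span {(9 : 𝓞 K)} // x ^ 3 = 1})) ?_
    · have h2 : (u : A) ^ 3 = 1 := u.2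
      rw [← Units.val_pow_eq_pow_val, h2, Units.val_one]
    · intro u u' huu
      have := congrArg Subtype.val huu
      exact Subtype.ext (Units.ext this)
  have hr1 : Ψ1.ker.index ≤ 3 ^ G.card ∧ Ψ1.ker.index ≠ 0 := by
    rw [Subgroup.index_ker]
    refine ⟨?_, Nat.card_pos.ne'⟩
    have h1 : Nat.card Ψ1.range ≤ Nat.card (G → Multiplicative (ZMod 3)) :=
      Nat.card_le_card_of_injective _ Subtype.val_injective
    refine h1.trans (le_of_eq ?_)
    rw [Nat.card_fun, Nat.card_eq_fintype_card (α := Multiplicative (ZMod 3)),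
      Fintype.card_multiplicative, ZMod.card, Nat.card_eq_fintype_card, Fintype.card_coe]
  have hr2 : Ψ2.ker.index ≤ 3 ^ (G.card + Module.finrank ℚ K) ∧ Ψ2.ker.index ≠ 0 := by
    rw [Subgroup.index_ker]
    refine ⟨?_, Nat.card_pos.ne'⟩
    exact (Nat.card_le_card_of_injective _ Subtype.val_injective).trans hcardC
  have hpos : (Ψ1.ker ⊓ Ψ2.ker).index ≠ 0 := Subgroup.index_inf_ne_zero hr1.2 hr2.2
  have hle : (Ψ1.ker ⊓ Ψ2.ker).index ≤ 3 ^ (2 * G.card + Module.finrank ℚ K) := by
    refine Subgroup.index_inf_le.trans ?_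
    calc Ψ1.ker.index * Ψ2.ker.index ≤ 3 ^ G.card * 3 ^ (G.card + Module.finrank ℚ K) :=
          Nat.mul_le_mul hr1.1 hr2.1
      _ = 3 ^ (2 * G.card + Module.finrank ℚ K) := by
          rw [← pow_add]; congr 1; ring
  have hdvd := Subgroup.index_dvd_of_le hker
  refine ⟨fun h0 => ?_, ?_⟩
  · rw [h0, zero_dvd_iff] at hdvd
    exact hpos hdvd
  · exact (Nat.le_of_dvd (Nat.pos_of_ne_zero hpos) hdvd).trans hle

end Pool.Agent.Lib.MP_fdb342_lc
end

section

/-!
# Classes of arithmetical predicates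
-/

namespace Pool.Agent.Lib.MP_fdb342_lc

/-- A class `C` of predicates on tuples of natural numbers which contains the graphs of addition
and multiplication and is closed under the first-order operations. -/
structure ArithClass (C : ∀ n : ℕ, ((Fin n → ℕ) → Prop) → Prop) : Prop where
  and : ∀ {n : ℕ} {P Q : (Fin n → ℕ) → Prop}, C n P → C n Q → C n fun v => P v ∧ Q v
  not : ∀ {n : ℕ} {P : (Fin n → ℕ) → Prop}, C n P → C n fun v => ¬ P v
  ex : ∀ {n : ℕ} {P : (Fin n → ℕ) → ℕ → Prop},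
    C (n + 1) (fun v => P (fun i => v i.castSucc) (v (Fin.last n))) → C n fun v => ∃ x, P v x
  reindex : ∀ {n m : ℕ} {P : (Fin n → ℕ) → Prop}, C n P → ∀ s : Fin n → Fin m,
    C m fun v => P fun i => v (s i)
  add : C 3 fun v => v 0 + v 1 = v 2
  mul : C 3 fun v => v 0 * v 1 = v 2

end Pool.Agent.Lib.MP_fdb342_lc
end

section

/-!
# Classes of arithmetical predicates: basic functions
-/

namespace Pool.Agent.Lib.MP_fdb342_lc

variable {C : ∀ n : ℕ, ((Fin n → ℕ) → Prop) → Prop}

/-- The function `f` is representable: substitution of `f` preserves the class `C`. -/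
def RepF (C : ∀ n : ℕ, ((Fin n → ℕ) → Prop) → Prop) {n : ℕ} (f : (Fin n → ℕ) → ℕ) : Prop :=
  C (n + 1) fun v => v (Fin.last n) = f fun i => v i.castSucc

theorem ArithClass.eq (hC : ArithClass C) {n : ℕ} {f g : (Fin n → ℕ) → ℕ} (hf : RepF C f)
    (hg : RepF C g) : C n fun v => f v = g v := by
  have h := hC.ex (P := fun v x => x = f v ∧ x = g v) (hC.and hf hg)
  have e : (fun v : Fin n → ℕ => ∃ x, x = f v ∧ x = g v) = fun v => f v = g v := by
    funext v
    apply propext
    constructor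
    · rintro ⟨x, hx, hy⟩
      exact hx.symm.trans hy
    · intro hv
      exact ⟨f v, rfl, hv⟩
  rw [e] at h
  exact h

theorem ArithClass.subst (hC : ArithClass C) {n : ℕ} {P : (Fin n → ℕ) → ℕ → Prop}
    (hP : C (n + 1) fun v => P (fun i => v i.castSucc) (v (Fin.last n)))
    {f : (Fin n → ℕ) → ℕ} (hf : RepF C f) : C n fun v => P v (f v) := by
  have h := hC.ex (P := fun v x => x = f v ∧ P v x) (hC.and hf hP)
  have e : (fun v : Fin n → ℕ => ∃ x, x = f v ∧ P v x) = fun v => P v (f v) := by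
    funext v
    apply propext
    constructor
    · rintro ⟨x, rfl, hy⟩
      exact hy
    · intro hv
      exact ⟨f v, rfl, hv⟩
  rw [e] at h
  exact h

private theorem arith1a_lift (hC : ArithClass C) {n : ℕ} {f : (Fin n → ℕ) → ℕ} (hf : RepF C f) :
    RepF C fun v : Fin (n + 1) → ℕ => f fun i => v i.castSucc := by
  have h := hC.reindex hf (Fin.lastCases (motive := fun _ => Fin (n + 2)) (Fin.last (n + 1))
    (fun i => i.castSucc.castSucc))
  simp only [Fin.lastCases_last, Fin.lastCases_castSucc] at h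
  exact h

private theorem arith1a_eq2 (hC : ArithClass C) : C 2 fun v => v 0 = v 1 := by
  have h1 := hC.reindex hC.add (![2, 2, 2] : Fin 3 → Fin 3)
  have h2 := hC.reindex hC.add (![0, 2, 1] : Fin 3 → Fin 3)
  have h := hC.ex (n := 2) (P := fun v x => x + x = x ∧ v 0 + x = v 1) (hC.and h1 h2)
  have e : (fun v : Fin 2 → ℕ => ∃ x, x + x = x ∧ v 0 + x = v 1) = fun v => v 0 = v 1 := by
    funext v
    apply propext
    constructor
    · rintro ⟨x, hx, hy⟩
      omega
    · intro hv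
      exact ⟨0, rfl, hv⟩
  rw [e] at h
  exact h

theorem ArithClass.repF_var (hC : ArithClass C) {n : ℕ} (i : Fin n) : RepF C fun v => v i := by
  exact hC.reindex (arith1a_eq2 hC) (![Fin.last n, i.castSucc] : Fin 2 → Fin (n + 1))

theorem ArithClass.repF_add (hC : ArithClass C) {n : ℕ} {f g : (Fin n → ℕ) → ℕ} (hf : RepF C f)
    (hg : RepF C g) : RepF C fun v => f v + g v := by
  have h0 := hC.reindex hC.add
    (![(Fin.last (n + 1)).castSucc, Fin.last (n + 2), (Fin.last n).castSucc.castSucc] :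
      Fin 3 → Fin (n + 3))
  have h1 := hC.subst (n := n + 2)
    (P := fun w y => w (Fin.last (n + 1)) + y = w (Fin.last n).castSucc) h0
    (arith1a_lift hC (arith1a_lift hC hg))
  have h2 := hC.subst (n := n + 1)
    (P := fun v x => x + g (fun i => v i.castSucc) = v (Fin.last n)) h1 (arith1a_lift hC hf)
  have e : (fun v : Fin (n + 1) → ℕ => f (fun i => v i.castSucc) + g (fun i => v i.castSucc) =
      v (Fin.last n)) = fun v => v (Fin.last n) =
        f (fun i => v i.castSucc) + g (fun i => v i.castSucc) := by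
    funext v
    exact propext eq_comm
  unfold RepF
  rw [← e]
  exact h2

theorem ArithClass.repF_mul (hC : ArithClass C) {n : ℕ} {f g : (Fin n → ℕ) → ℕ} (hf : RepF C f)
    (hg : RepF C g) : RepF C fun v => f v * g v := by
  have h0 := hC.reindex hC.mul
    (![(Fin.last (n + 1)).castSucc, Fin.last (n + 2), (Fin.last n).castSucc.castSucc] :
      Fin 3 → Fin (n + 3))
  have h1 := hC.subst (n := n + 2)
    (P := fun w y => w (Fin.last (n + 1)) * y = w (Fin.last n).castSucc) h0
    (arith1a_lift hC (arith1a_lift hC hg))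
  have h2 := hC.subst (n := n + 1)
    (P := fun v x => x * g (fun i => v i.castSucc) = v (Fin.last n)) h1 (arith1a_lift hC hf)
  have e : (fun v : Fin (n + 1) → ℕ => f (fun i => v i.castSucc) * g (fun i => v i.castSucc) =
      v (Fin.last n)) = fun v => v (Fin.last n) =
        f (fun i => v i.castSucc) * g (fun i => v i.castSucc) := by
    funext v
    exact propext eq_comm
  unfold RepF
  rw [← e]
  exact h2

private theorem arith1a_zero (hC : ArithClass C) {n : ℕ} (i : Fin n) : C n fun v => v i = 0 := by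
  have h := hC.reindex hC.add (![i, i, i] : Fin 3 → Fin n)
  have e : (fun v : Fin n → ℕ => v i + v i = v i) = fun v => v i = 0 := by
    funext v
    apply propext
    omega
  rw [← e]
  exact h

private theorem arith1a_one (hC : ArithClass C) {n : ℕ} (i : Fin n) : C n fun v => v i = 1 := by
  have h := hC.and (hC.reindex hC.mul (![i, i, i] : Fin 3 → Fin n)) (hC.not (arith1a_zero hC i))
  have e : (fun v : Fin n → ℕ => v i * v i = v i ∧ ¬ v i = 0) = fun v => v i = 1 := by
    funext v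
    apply propext
    constructor
    · rintro ⟨h1, h2⟩
      exact mul_left_cancel₀ h2 (by rw [h1, mul_one])
    · intro hv
      rw [hv]
      exact ⟨rfl, one_ne_zero⟩
  rw [← e]
  exact h

theorem ArithClass.repF_const (hC : ArithClass C) {n : ℕ} (k : ℕ) :
    RepF C fun _ : Fin n → ℕ => k := by
  induction k with
  | zero => exact arith1a_zero hC (Fin.last n)
  | succ k ih => exact hC.repF_add ih (arith1a_one hC (Fin.last n))

theorem ArithClass.lt (hC : ArithClass C) {n : ℕ} {f g : (Fin n → ℕ) → ℕ} (hf : RepF C f)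
    (hg : RepF C g) : C n fun v => f v < g v := by
  have h1 := hC.eq (hC.repF_add (arith1a_lift hC hf)
    (hC.repF_add (hC.repF_var (Fin.last n)) (hC.repF_const 1))) (arith1a_lift hC hg)
  have h := hC.ex (n := n) (P := fun v x => f v + (x + 1) = g v) h1
  have e : (fun v : Fin n → ℕ => ∃ x, f v + (x + 1) = g v) = fun v => f v < g v := by
    funext v
    apply propext
    constructor
    · rintro ⟨x, hx⟩
      omega
    · intro hv
      exact ⟨g v - f v - 1, by omega⟩
  rw [e] at h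
  exact h

end Pool.Agent.Lib.MP_fdb342_lc
end

section

/-!
# Classes of arithmetical predicates: pairing and the beta function
-/

namespace Pool.Agent.Lib.MP_fdb342_lc

variable {C : ∀ n : ℕ, ((Fin n → ℕ) → Prop) → Prop}

private theorem arith1b_or (hC : ArithClass C) {n : ℕ} {P Q : (Fin n → ℕ) → Prop}
    (hP : C n P) (hQ : C n Q) : C n fun v => P v ∨ Q v := by
  have h := hC.not (hC.and (hC.not hP) (hC.not hQ))
  have e : (fun v => P v ∨ Q v) = fun v => ¬ (¬ P v ∧ ¬ Q v) := by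
    funext v
    apply propext
    tauto
  rw [e]
  exact h

private theorem arith1b_congr {n : ℕ} {P Q : (Fin n → ℕ) → Prop} (hP : C n P)
    (h : ∀ v, Q v ↔ P v) : C n Q := by
  have e : Q = P := funext fun v => propext (h v)
  rw [e]
  exact hP

/-- Adding a dummy variable at the end. -/
private theorem arith1b_lift (hC : ArithClass C) {n : ℕ} {f : (Fin n → ℕ) → ℕ} (hf : RepF C f) :
    RepF C fun v : Fin (n + 1) → ℕ => f fun i => v i.castSucc := by
  have h := hC.reindex (m := n + 2) hf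
    (Fin.snoc (fun i : Fin n => i.castSucc.castSucc) (Fin.last (n + 1)))
  refine arith1b_congr h fun v => ?_
  simp only [Fin.snoc_last, Fin.snoc_castSucc]

private theorem arith1b_last (hC : ArithClass C) {n : ℕ} :
    RepF C fun v : Fin (n + 1) → ℕ => v (Fin.last n) := hC.repF_var (Fin.last n)

theorem ArithClass.repF_pair (hC : ArithClass C) {n : ℕ} {f g : (Fin n → ℕ) → ℕ}
    (hf : RepF C f) (hg : RepF C g) : RepF C fun v => Nat.pair (f v) (g v) := by
  have hf' := arith1b_lift hC hf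
  have hg' := arith1b_lift hC hg
  have hl := arith1b_last hC (n := n)
  have h := arith1b_or hC
    (hC.and (hC.lt hf' hg') (hC.eq hl (hC.repF_add (hC.repF_mul hg' hg') hf')))
    (hC.and (hC.not (hC.lt hf' hg'))
      (hC.eq hl (hC.repF_add (hC.repF_add (hC.repF_mul hf' hf') hf') hg')))
  refine arith1b_congr h fun v => ?_
  beta_reduce
  unfold Nat.pair
  split_ifs with hlt
  · simp [hlt]
  · simp [hlt]

theorem ArithClass.repF_unpair_fst (hC : ArithClass C) {n : ℕ} {f : (Fin n → ℕ) → ℕ}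
    (hf : RepF C f) : RepF C fun v => (Nat.unpair (f v)).1 := by
  have hf' := arith1b_lift hC (arith1b_lift hC hf)
  have hl := arith1b_last hC (n := n + 1)
  have hl' := arith1b_lift hC (arith1b_last hC (n := n))
  have h := hC.ex (n := n + 1)
    (P := fun v y => Nat.pair (v (Fin.last n)) y = f fun i => v i.castSucc)
    (hC.eq (hC.repF_pair hl' hl) hf')
  refine arith1b_congr h fun v => ?_
  beta_reduce
  constructor
  · intro h1
    exact ⟨(Nat.unpair (f fun i => v i.castSucc)).2, by rw [h1, Nat.pair_unpair]⟩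
  · rintro ⟨y, hy⟩
    rw [← hy, Nat.unpair_pair]

theorem ArithClass.repF_unpair_snd (hC : ArithClass C) {n : ℕ} {f : (Fin n → ℕ) → ℕ}
    (hf : RepF C f) : RepF C fun v => (Nat.unpair (f v)).2 := by
  have hf' := arith1b_lift hC (arith1b_lift hC hf)
  have hl := arith1b_last hC (n := n + 1)
  have hl' := arith1b_lift hC (arith1b_last hC (n := n))
  have h := hC.ex (n := n + 1)
    (P := fun v y => Nat.pair y (v (Fin.last n)) = f fun i => v i.castSucc)
    (hC.eq (hC.repF_pair hl hl') hf')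
  refine arith1b_congr h fun v => ?_
  beta_reduce
  constructor
  · intro h1
    exact ⟨(Nat.unpair (f fun i => v i.castSucc)).1, by rw [h1, Nat.pair_unpair]⟩
  · rintro ⟨y, hy⟩
    rw [← hy, Nat.unpair_pair]

theorem ArithClass.repF_mod (hC : ArithClass C) {n : ℕ} {f g : (Fin n → ℕ) → ℕ}
    (hf : RepF C f) (hg : RepF C g) : RepF C fun v => f v % g v := by
  have hf1 := arith1b_lift hC hf
  have hg1 := arith1b_lift hC hg
  have hf2 := arith1b_lift hC hf1
  have hg2 := arith1b_lift hC hg1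
  have hl1 := arith1b_last hC (n := n)
  have hl2 := arith1b_last hC (n := n + 1)
  have hl1' := arith1b_lift hC hl1
  have hex := hC.ex (n := n + 1)
    (P := fun v q => (g fun i => v i.castSucc) * q + v (Fin.last n) = f fun i => v i.castSucc)
    (hC.eq (hC.repF_add (hC.repF_mul hg2 hl2) hl1') hf2)
  have h := arith1b_or hC
    (hC.and (hC.eq hg1 (hC.repF_const 0)) (hC.eq hl1 hf1))
    (hC.and (hC.lt hl1 hg1) hex)
  refine arith1b_congr h fun v => ?_
  beta_reduce
  constructor
  · intro h1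
    rcases Nat.eq_zero_or_pos (g fun i => v i.castSucc) with h0 | h0
    · left
      refine ⟨h0, ?_⟩
      rw [h1, h0, Nat.mod_zero]
    · right
      refine ⟨?_, (f fun i => v i.castSucc) / (g fun i => v i.castSucc), ?_⟩
      · rw [h1]
        exact Nat.mod_lt _ h0
      · rw [h1]
        exact Nat.div_add_mod _ _
  · rintro (⟨h0, h1⟩ | ⟨h0, q, hq⟩)
    · rw [h1, h0, Nat.mod_zero]
    · rw [← hq, Nat.mul_add_mod, Nat.mod_eq_of_lt h0]

theorem ArithClass.repF_beta (hC : ArithClass C) {n : ℕ} {f g : (Fin n → ℕ) → ℕ}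
    (hf : RepF C f) (hg : RepF C g) : RepF C fun v => Nat.beta (f v) (g v) :=
  hC.repF_mod (hC.repF_unpair_fst hf) (hC.repF_add (hC.repF_mul
    (hC.repF_add hg (hC.repF_const 1)) (hC.repF_unpair_snd hf)) (hC.repF_const 1))

end Pool.Agent.Lib.MP_fdb342_lc
end

section

/-!
# Classes of arithmetical predicates contain the graphs of all partial recursive functions
-/

namespace Pool.Agent.Lib.MP_fdb342_lc

variable {C : ∀ n : ℕ, ((Fin n → ℕ) → Prop) → Prop}

namespace Arith2

theorem ofIff {n : ℕ} {P Q : (Fin n → ℕ) → Prop} (h : C n P) (e : ∀ v, P v ↔ Q v) : C n Q := by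
  have : P = Q := funext fun v => propext (e v)
  exact this ▸ h

theorem all (hC : ArithClass C) {n : ℕ} {P : (Fin n → ℕ) → ℕ → Prop}
    (h : C (n + 1) (fun v => P (fun i => v i.castSucc) (v (Fin.last n)))) :
    C n fun v => ∀ x, P v x :=
  ofIff (hC.not (hC.ex (P := fun v x => ¬ P v x) (hC.not h))) fun v => by simp

theorem imp (hC : ArithClass C) {n : ℕ} {P Q : (Fin n → ℕ) → Prop} (hP : C n P) (hQ : C n Q) :
    C n fun v => P v → Q v :=
  ofIff (hC.not (hC.and hP (hC.not hQ))) fun v => by simp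

theorem lift (hC : ArithClass C) {n m : ℕ} {t : (Fin n → ℕ) → ℕ} (h : RepF C t)
    (s : Fin n → Fin m) : RepF C fun v : Fin m → ℕ => t fun i => v (s i) := by
  have h2 := hC.reindex h (m := m + 1)
    (Fin.lastCases (motive := fun _ => Fin (m + 1)) (Fin.last m) (fun i => (s i).castSucc))
  refine ofIff h2 fun v => ?_
  simp

theorem graphAt (hC : ArithClass C) {f : ℕ →. ℕ} (hf : C 2 fun v => v 1 ∈ f (v 0)) {n : ℕ}
    {s t : (Fin n → ℕ) → ℕ} (hs : RepF C s) (ht : RepF C t) : C n fun v => t v ∈ f (s v) := by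
  have h1 : C (n + 1 + 1) fun v => v (Fin.last (n + 1)) ∈ f (v (Fin.last n).castSucc) := by
    refine ofIff (hC.reindex hf ![(Fin.last n).castSucc, Fin.last (n + 1)]) fun v => ?_
    simp
  have h2 : C (n + 1) fun w => t (fun i => w i.castSucc) ∈ f (w (Fin.last n)) :=
    hC.subst (P := fun (w : Fin (n + 1) → ℕ) y => y ∈ f (w (Fin.last n))) h1
      (lift hC ht Fin.castSucc)
  exact hC.subst (P := fun v x => t v ∈ f x) h2 hs

theorem mem_prec_iff {f g : ℕ →. ℕ} (a n y : ℕ) :
    (y ∈ (Nat.rec (f a) (fun y IH => do let i ← IH; g (Nat.pair a (Nat.pair y i))) n : Part ℕ)) ↔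
      ∃ s, Nat.beta s 0 ∈ f a ∧
        (∀ i, i < n → Nat.beta s (i + 1) ∈ g (Nat.pair a (Nat.pair i (Nat.beta s i)))) ∧
        Nat.beta s n = y := by
  have key : ∀ n y, (y ∈ (Nat.rec (f a)
      (fun y IH => do let i ← IH; g (Nat.pair a (Nat.pair y i))) n : Part ℕ)) ↔
      ∃ u : ℕ → ℕ, u 0 ∈ f a ∧ (∀ i, i < n → u (i + 1) ∈ g (Nat.pair a (Nat.pair i (u i)))) ∧
        u n = y := by
    intro n
    induction n with
    | zero =>
      intro y
      constructor
      · intro h
        exact ⟨fun _ => y, h, fun i hi => absurd hi (Nat.not_lt_zero i), rfl⟩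
      · rintro ⟨u, h0, -, rfl⟩
        exact h0
    | succ n ih =>
      intro y
      constructor
      · intro h
        have h' : ∃ i, i ∈ (Nat.rec (f a)
            (fun y IH => do let i ← IH; g (Nat.pair a (Nat.pair y i))) n : Part ℕ) ∧
            y ∈ g (Nat.pair a (Nat.pair n i)) := by
          simpa using h
        obtain ⟨i, hi, hy⟩ := h'
        obtain ⟨u, h0, hs, hn⟩ := (ih i).1 hi
        refine ⟨fun j => if j ≤ n then u j else y, by simpa using h0, ?_, by simp⟩
        intro j hj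
        rcases Nat.lt_succ_iff_lt_or_eq.1 hj with hj | rfl
        · have h1 : j ≤ n := hj.le
          have h2 : j + 1 ≤ n := hj
          simp only [h1, h2, if_true]
          exact hs j hj
        · simp only [le_refl, if_true]
          rw [if_neg (by omega), hn]
          exact hy
      · rintro ⟨u, h0, hs, rfl⟩
        have h1 := (ih (u n)).2 ⟨u, h0, fun i hi => hs i (by omega), rfl⟩
        have h2 := hs n (by omega)
        have h' : ∃ i, i ∈ (Nat.rec (f a)
            (fun y IH => do let i ← IH; g (Nat.pair a (Nat.pair y i))) n : Part ℕ) ∧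
            u (n + 1) ∈ g (Nat.pair a (Nat.pair n i)) := ⟨u n, h1, h2⟩
        simpa using h'
  rw [key]
  constructor
  · rintro ⟨u, h0, hs, hn⟩
    have hb : ∀ i, i ≤ n → Nat.beta (Nat.unbeta (List.ofFn fun i : Fin (n + 1) => u i)) i = u i := by
      intro i hi
      have h := Nat.beta_unbeta_coe (List.ofFn fun i : Fin (n + 1) => u i)
        ⟨i, by simpa using Nat.lt_succ_iff.2 hi⟩
      have h2 : (List.ofFn fun i : Fin (n + 1) => u i)[(⟨i, by simpa using Nat.lt_succ_iff.2 hi⟩ :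
          Fin (List.ofFn fun i : Fin (n + 1) => u i).length)] = u i := by
        simp only [Fin.getElem_fin, List.getElem_ofFn]
      exact h.trans h2
    refine ⟨Nat.unbeta (List.ofFn fun i : Fin (n + 1) => u i), ?_, ?_, ?_⟩
    · rw [hb 0 (Nat.zero_le n)]
      exact h0
    · intro i hi
      rw [hb (i + 1) hi, hb i hi.le]
      exact hs i hi
    · rw [hb n le_rfl, hn]
  · rintro ⟨s, h0, hs, hn⟩
    exact ⟨fun i => Nat.beta s i, h0, hs, hn⟩

end Arith2

open Arith2 in
theorem ArithClass.partrec (hC : ArithClass C) {f : ℕ →. ℕ} (hf : Nat.Partrec f) :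
    C 2 fun v => v 1 ∈ f (v 0) := by
  induction hf with
  | zero =>
    refine ofIff (hC.eq (hC.repF_var (1 : Fin 2)) (hC.repF_const 0)) fun v => ?_
    simp [pure, PFun.pure]
  | succ =>
    refine ofIff (hC.eq (hC.repF_var (1 : Fin 2))
      (hC.repF_add (hC.repF_var (0 : Fin 2)) (hC.repF_const 1))) fun v => ?_
    simp
  | left =>
    refine ofIff (hC.eq (hC.repF_var (1 : Fin 2))
      (hC.repF_unpair_fst (hC.repF_var (0 : Fin 2)))) fun v => ?_
    simp
  | right =>
    refine ofIff (hC.eq (hC.repF_var (1 : Fin 2))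
      (hC.repF_unpair_snd (hC.repF_var (0 : Fin 2)))) fun v => ?_
    simp
  | @pair f g _ _ hf hg =>
    refine ofIff (hC.and
      (graphAt hC hf (hC.repF_var (0 : Fin 2)) (hC.repF_unpair_fst (hC.repF_var (1 : Fin 2))))
      (graphAt hC hg (hC.repF_var (0 : Fin 2)) (hC.repF_unpair_snd (hC.repF_var (1 : Fin 2)))))
      fun v => ?_
    simp only [Seq.seq, Part.map_eq_map, Part.mem_bind_iff, Part.mem_map_iff]
    constructor
    · rintro ⟨h1, h2⟩
      exact ⟨_, ⟨_, h1, rfl⟩, _, h2, by simp⟩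
    · rintro ⟨_, ⟨a, h1, rfl⟩, b, h2, h3⟩
      rw [← h3]
      simpa using ⟨h1, h2⟩
  | @comp f g _ _ hf hg =>
    refine ofIff (hC.ex (n := 2) (P := fun v x => x ∈ g (v 0) ∧ v 1 ∈ f x) (hC.and
      (graphAt hC hg (hC.repF_var (0 : Fin 3)) (hC.repF_var (2 : Fin 3)))
      (graphAt hC hf (hC.repF_var (2 : Fin 3)) (hC.repF_var (1 : Fin 3))))) fun v => ?_
    exact (Part.mem_bind_iff (f := g (v 0)) (g := f)).symm
  | @prec f g _ _ hf hg =>
    have h1 : C 3 fun v => Nat.beta (v 2) 0 ∈ f (Nat.unpair (v 0)).1 :=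
      graphAt hC hf (hC.repF_unpair_fst (hC.repF_var (0 : Fin 3)))
        (hC.repF_beta (hC.repF_var (2 : Fin 3)) (hC.repF_const 0))
    have h2 : C 3 fun v => ∀ i, i < (Nat.unpair (v 0)).2 → Nat.beta (v 2) (i + 1) ∈
        g (Nat.pair (Nat.unpair (v 0)).1 (Nat.pair i (Nat.beta (v 2) i))) := by
      refine all hC (P := fun (v : Fin 3 → ℕ) i => i < (Nat.unpair (v 0)).2 →
        Nat.beta (v 2) (i + 1) ∈
          g (Nat.pair (Nat.unpair (v 0)).1 (Nat.pair i (Nat.beta (v 2) i)))) ?_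
      refine imp hC (P := fun v : Fin 4 → ℕ => v 3 < (Nat.unpair (v 0)).2)
        (Q := fun v : Fin 4 → ℕ => Nat.beta (v 2) (v 3 + 1) ∈
          g (Nat.pair (Nat.unpair (v 0)).1 (Nat.pair (v 3) (Nat.beta (v 2) (v 3))))) ?_ ?_
      · exact hC.lt (hC.repF_var 3) (hC.repF_unpair_snd (hC.repF_var 0))
      · exact graphAt hC hg (hC.repF_pair (hC.repF_unpair_fst (hC.repF_var 0))
          (hC.repF_pair (hC.repF_var 3) (hC.repF_beta (hC.repF_var 2) (hC.repF_var 3))))
          (hC.repF_beta (hC.repF_var 2) (hC.repF_add (hC.repF_var 3) (hC.repF_const 1)))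
    have h3 : C 3 fun v => Nat.beta (v 2) (Nat.unpair (v 0)).2 = v 1 :=
      hC.eq (hC.repF_beta (hC.repF_var 2) (hC.repF_unpair_snd (hC.repF_var 0))) (hC.repF_var 1)
    refine ofIff (hC.ex (n := 2) (P := fun v x => Nat.beta x 0 ∈ f (Nat.unpair (v 0)).1 ∧
      (∀ i, i < (Nat.unpair (v 0)).2 → Nat.beta x (i + 1) ∈
        g (Nat.pair (Nat.unpair (v 0)).1 (Nat.pair i (Nat.beta x i)))) ∧
      Nat.beta x (Nat.unpair (v 0)).2 = v 1) (hC.and h1 (hC.and h2 h3))) fun v => ?_
    exact (mem_prec_iff _ _ _).symm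
  | @rfind f _ hf =>
    have h1 : C 2 fun v => 0 ∈ f (Nat.pair (v 0) (v 1)) :=
      graphAt hC hf (hC.repF_pair (hC.repF_var 0) (hC.repF_var 1)) (hC.repF_const 0)
    have h2 : C 2 fun v => ∀ m, m < v 1 → ∃ z, ¬ z = 0 ∧ z ∈ f (Nat.pair (v 0) m) := by
      refine all hC (P := fun (v : Fin 2 → ℕ) m => m < v 1 → ∃ z, ¬ z = 0 ∧
        z ∈ f (Nat.pair (v 0) m)) ?_
      refine imp hC (P := fun v : Fin 3 → ℕ => v 2 < v 1)
        (Q := fun v : Fin 3 → ℕ => ∃ z, ¬ z = 0 ∧ z ∈ f (Nat.pair (v 0) (v 2))) ?_ ?_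
      · exact hC.lt (hC.repF_var 2) (hC.repF_var 1)
      · refine hC.ex (n := 3) (P := fun v z => ¬ z = 0 ∧ z ∈ f (Nat.pair (v 0) (v 2))) ?_
        exact hC.and (hC.not (hC.eq (hC.repF_var (3 : Fin 4)) (hC.repF_const 0)))
          (graphAt hC hf (hC.repF_pair (hC.repF_var (0 : Fin 4)) (hC.repF_var 2)) (hC.repF_var 3))
    refine ofIff (hC.and h1 h2) fun v => ?_
    refine Iff.trans ?_ (Nat.mem_rfind (p := fun n => (fun m => decide (m = 0)) <$>
      f (Nat.pair (v 0) n)) (n := v 1)).symm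
    simp only [Part.map_eq_map, Part.mem_map_iff]
    constructor
    · rintro ⟨h1, h2⟩
      refine ⟨⟨0, h1, by simp⟩, fun {m} hm => ?_⟩
      obtain ⟨z, hz, hz'⟩ := h2 m hm
      exact ⟨z, hz', by simpa using hz⟩
    · rintro ⟨⟨z, h1, hz⟩, h2⟩
      have hz0 : z = 0 := by simpa using hz
      subst hz0
      refine ⟨h1, fun m hm => ?_⟩
      obtain ⟨z, hz', hz⟩ := h2 hm
      exact ⟨z, by simpa using hz, hz'⟩

end Pool.Agent.Lib.MP_fdb342_lc
end

section

/-!
# Classes of arithmetical predicates contain a non-computable set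
-/

namespace Pool.Agent.Lib.MP_fdb342_lc

variable {C : ∀ n : ℕ, ((Fin n → ℕ) → Prop) → Prop}

/-- there is a non-computable set of natural numbers in `C` -/
theorem ArithClass.exists_noncomputable (hC : ArithClass C) :
    ∃ H : ℕ → Prop, ¬ ComputablePred H ∧ C 1 fun v => H (v 0) := by
  let f : ℕ →. ℕ := fun e => ((Nat.Partrec.Code.ofNatCode e).eval 0)
  have hf : Nat.Partrec f := by
    have h1 : Partrec fun e : ℕ => ((Denumerable.ofNat Nat.Partrec.Code e).eval 0) :=
      Nat.Partrec.Code.eval_part.comp (Computable.ofNat Nat.Partrec.Code) (Computable.const 0)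
    exact Partrec.nat_iff.1 h1
  refine ⟨fun e => (f e).Dom, ?_, ?_⟩
  · intro h
    apply ComputablePred.halting_problem 0
    have h2 : ComputablePred fun c : Nat.Partrec.Code => (f (Encodable.encode c)).Dom := by
      obtain ⟨g, hg, hgf⟩ := ComputablePred.computable_iff.1 h
      exact ComputablePred.computable_iff.2 ⟨fun c => g (Encodable.encode c),
        hg.comp Computable.encode, by
          funext c
          exact congrFun hgf (Encodable.encode c)⟩
    have e : (fun c : Nat.Partrec.Code => (f (Encodable.encode c)).Dom) =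
        fun c => (c.eval 0).Dom := by
      funext c
      have : (Nat.Partrec.Code.ofNatCode (Encodable.encode c)) = c :=
        Denumerable.ofNat_encode (α := Nat.Partrec.Code) c
      show (Nat.Partrec.Code.eval (Nat.Partrec.Code.ofNatCode (Encodable.encode c)) 0).Dom = _
      rw [this]
    rw [e] at h2
    exact h2
  · have h := hC.partrec hf
    have h3 : C 1 fun v => ∃ x, x ∈ f (v 0) := by
      refine hC.ex (P := fun v x => x ∈ f (v 0)) ?_
      exact h
    have e : (fun v : Fin 1 → ℕ => (f (v 0)).Dom) = fun v => ∃ x, x ∈ f (v 0) := by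
      funext v
      exact propext Part.dom_iff_mem
    rw [e]
    exact h3

end Pool.Agent.Lib.MP_fdb342_lc
end

section

/-!
# The terms `tt e g` and `dd e g`
-/

open FirstOrder FirstOrder.Language FirstOrder.Ring

namespace Pool.Agent.Lib.MP_fdb342_lc

/-- the variable `x₀` -/
def gT : Language.ring.Term (Empty ⊕ Fin 2) := Term.var (Sum.inr 0)

/-- a term for `g ^ j` -/
def pT : ℕ → Language.ring.Term (Empty ⊕ Fin 2)
  | 0 => 1
  | j + 1 => pT j * gT

/-- a term for `6` -/
def sixT : Language.ring.Term (Empty ⊕ Fin 2) := 1 + 1 + 1 + 1 + 1 + 1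

/-- a term for `tt e g` -/
def ttT : ℕ → Language.ring.Term (Empty ⊕ Fin 2)
  | 0 => 1
  | e + 1 => ttT e * (sixT + -(pT (e + 1)))

/-- a term for `dd e g` -/
def ddT : ℕ → Language.ring.Term (Empty ⊕ Fin 2)
  | 0 => 1
  | e + 1 => ddT e * (1 + -(pT (e + 1)))

private theorem code2a_realize_pT {M : Type} [CommRing M] [CompatibleRing M] (j : ℕ)
    (v : Empty ⊕ Fin 2 → M) : (pT j).realize v = (v (Sum.inr 0)) ^ j := by
  induction j with
  | zero => simp [pT]
  | succ j ih => simp [pT, gT, ih, pow_succ]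

private theorem code2a_realize_sixT {M : Type} [CommRing M] [CompatibleRing M]
    (v : Empty ⊕ Fin 2 → M) : sixT.realize v = 6 := by
  simp only [sixT, realize_add, realize_one]
  norm_num

theorem realize_ttT {M : Type} [CommRing M] [CompatibleRing M] (e : ℕ) (v : Empty ⊕ Fin 2 → M) :
    (ttT e).realize v = tt e (v (Sum.inr 0)) := by
  induction e with
  | zero => simp [ttT, tt]
  | succ e ih =>
    simp only [ttT, realize_mul, realize_add, realize_neg, code2a_realize_pT,
      code2a_realize_sixT, ih, tt, Finset.prod_range_succ, sub_eq_add_neg]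

theorem realize_ddT {M : Type} [CommRing M] [CompatibleRing M] (e : ℕ) (v : Empty ⊕ Fin 2 → M) :
    (ddT e).realize v = dd e (v (Sum.inr 0)) := by
  induction e with
  | zero => simp [ddT, dd]
  | succ e ih =>
    simp only [ddT, realize_mul, realize_add, realize_neg, code2a_realize_pT,
      realize_one, ih, dd, Finset.prod_range_succ, sub_eq_add_neg]

private theorem code2a_mul (a b : Language.ring.Term (Empty ⊕ Fin 2)) :
    termCode (a * b) = 6 * Nat.pair (termCode a) (termCode b) + 5 := by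
  show termCode (Term.func (mulFunc) ![a, b]) = _
  rfl

private theorem code2a_add (a b : Language.ring.Term (Empty ⊕ Fin 2)) :
    termCode (a + b) = 6 * Nat.pair (termCode a) (termCode b) + 4 := by
  show termCode (Term.func (addFunc) ![a, b]) = _
  rfl

private theorem code2a_neg (a : Language.ring.Term (Empty ⊕ Fin 2)) :
    termCode (-a) = 6 * termCode a + 3 := by
  show termCode (Term.func (negFunc) ![a]) = _
  rfl

private theorem code2a_pT : Primrec fun e => termCode (pT e) := by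
  have h : (fun e => termCode (pT e)) = fun e : ℕ => (Nat.rec (termCode (pT 0))
      (fun _ ih => 6 * Nat.pair ih (termCode gT) + 5) e : ℕ) := by
    funext e
    induction e with
    | zero => rfl
    | succ e ih =>
      show termCode (pT e * gT) = _
      rw [code2a_mul, ih]
  rw [h]
  refine Primrec.nat_rec₁ (termCode (pT 0)) ?_
  refine Primrec.nat_add.comp (Primrec.nat_mul.comp (Primrec.const 6) ?_) (Primrec.const 5)
  exact Primrec₂.natPair.comp Primrec.snd (Primrec.const _)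

private theorem code2a_gen (T : ℕ → Language.ring.Term (Empty ⊕ Fin 2))
    (c : Language.ring.Term (Empty ⊕ Fin 2))
    (hT : ∀ e, T (e + 1) = T e * (c + -(pT (e + 1)))) : Primrec fun e => termCode (T e) := by
  have h : (fun e => termCode (T e)) = fun e : ℕ => (Nat.rec (termCode (T 0))
      (fun e ih => 6 * Nat.pair ih
        (6 * Nat.pair (termCode c) (6 * termCode (pT (e + 1)) + 3) + 4) + 5) e : ℕ) := by
    funext e
    induction e with
    | zero => rfl
    | succ e ih =>
      rw [hT, code2a_mul, code2a_add, code2a_neg, ih]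
  rw [h]
  refine Primrec.nat_rec₁ (termCode (T 0)) ?_
  have h1 : Primrec fun p : ℕ × ℕ => termCode (pT (p.1 + 1)) :=
    code2a_pT.comp (Primrec.succ.comp Primrec.fst)
  have h2 : Primrec fun p : ℕ × ℕ => 6 * termCode (pT (p.1 + 1)) + 3 :=
    Primrec.nat_add.comp (Primrec.nat_mul.comp (Primrec.const 6) h1) (Primrec.const 3)
  have h3 : Primrec fun p : ℕ × ℕ =>
      6 * Nat.pair (termCode c) (6 * termCode (pT (p.1 + 1)) + 3) + 4 :=
    Primrec.nat_add.comp (Primrec.nat_mul.comp (Primrec.const 6)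
      (Primrec₂.natPair.comp (Primrec.const _) h2)) (Primrec.const 4)
  exact Primrec.nat_add.comp (Primrec.nat_mul.comp (Primrec.const 6)
      (Primrec₂.natPair.comp Primrec.snd h3)) (Primrec.const 5)

theorem primrec_ttT : Primrec fun e => termCode (ttT e) :=
  code2a_gen ttT sixT fun _ => rfl

theorem primrec_ddT : Primrec fun e => termCode (ddT e) :=
  code2a_gen ddT 1 fun _ => rfl

end Pool.Agent.Lib.MP_fdb342_lc
end

section

/-!
# The reduction
-/

open FirstOrder FirstOrder.Language FirstOrder.Ring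

namespace Pool.Agent.Lib.MP_fdb342_lc

namespace Code2b

/-- formula with one free variable, as a formula in `x₀, x₁` -/
def up (φ : Language.ring.Formula (Fin 1)) (i : Fin 2) : Language.ring.BoundedFormula Empty 2 :=
  BoundedFormula.relabel (Sum.inr : Fin 2 → Empty ⊕ Fin 2) (φ.relabel fun _ : Fin 1 => i)

theorem realize_up {M : Type} [CommRing M] [CompatibleRing M]
    (φ : Language.ring.Formula (Fin 1)) (i : Fin 2) (v : Empty → M) (x : Fin 2 → M) :
    (up φ i).Realize v x ↔ φ.Realize fun _ => x i := by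
  unfold up
  rw [Formula.realize_relabel_sumInr, Formula.realize_relabel]
  rfl

/-- the matrix of the sentence -/
def body (φA φP : Language.ring.Formula (Fin 1)) (e : ℕ) : Language.ring.BoundedFormula Empty 2 :=
  (up φA 0).imp ((BoundedFormula.imp (BoundedFormula.equal (ddT e) 0) BoundedFormula.falsum).imp
    ((BoundedFormula.equal (Term.var (Sum.inr 1)) (ttT e)).imp
      ((up φP 1).imp BoundedFormula.falsum)))

/-- the sentence -/
def sent (φA φP : Language.ring.Formula (Fin 1)) (e : ℕ) : Language.ring.Sentence :=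
  BoundedFormula.imp (BoundedFormula.all (BoundedFormula.all (body φA φP e)))
    BoundedFormula.falsum

theorem realize_sent {M : Type} [CommRing M] [CompatibleRing M]
    (φA φP : Language.ring.Formula (Fin 1)) (e : ℕ) :
    M ⊨ sent φA φP e ↔ ∃ g : M, φA.Realize (fun _ => g) ∧ dd e g ≠ 0 ∧
      φP.Realize (fun _ => tt e g) := by
  have h : (M ⊨ sent φA φP e) ↔ ¬ ∀ g x : M, φA.Realize (fun _ => g) → ¬ dd e g = 0 →
      x = tt e g → ¬ φP.Realize (fun _ => x) := by
    have h0 : (M ⊨ sent φA φP e) ↔ ¬ ∀ g x : M,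
        (body φA φP e).Realize (default : Empty → M)
          (Fin.snoc (Fin.snoc (default : Fin 0 → M) g) x) := Iff.rfl
    rw [h0]
    refine not_congr (forall_congr' fun g => forall_congr' fun x => ?_)
    have h1 : (body φA φP e).Realize (default : Empty → M)
          (Fin.snoc (Fin.snoc (default : Fin 0 → M) g) x) ↔
        ((up φA 0).Realize (default : Empty → M)
          (Fin.snoc (Fin.snoc (default : Fin 0 → M) g) x) →
        ¬ ((ddT e).realize (Sum.elim (default : Empty → M)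
            (Fin.snoc (Fin.snoc (default : Fin 0 → M) g) x)) =
          (0 : Language.ring.Term (Empty ⊕ Fin 2)).realize (Sum.elim (default : Empty → M)
            (Fin.snoc (Fin.snoc (default : Fin 0 → M) g) x))) →
        ((Term.var (Sum.inr 1) : Language.ring.Term (Empty ⊕ Fin 2)).realize
            (Sum.elim (default : Empty → M) (Fin.snoc (Fin.snoc (default : Fin 0 → M) g) x)) =
          (ttT e).realize (Sum.elim (default : Empty → M)
            (Fin.snoc (Fin.snoc (default : Fin 0 → M) g) x))) →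
        ¬ (up φP 1).Realize (default : Empty → M)
          (Fin.snoc (Fin.snoc (default : Fin 0 → M) g) x)) := Iff.rfl
    have e0 : (Fin.snoc (Fin.snoc (default : Fin 0 → M) g) x : Fin 2 → M) 0 = g := rfl
    have e1 : (Fin.snoc (Fin.snoc (default : Fin 0 → M) g) x : Fin 2 → M) 1 = x := rfl
    rw [h1, realize_up, realize_up, realize_ddT, realize_ttT, realize_zero, Term.realize_var]
    simp only [Sum.elim_inr]
    rw [e0, e1]
  rw [h]
  push Not
  constructor
  · rintro ⟨g, x, h1, h2, rfl, h3⟩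
    exact ⟨g, h1, h2, h3⟩
  · rintro ⟨g, h1, h2, h3⟩
    exact ⟨g, _, h1, h2, rfl, h3⟩

theorem primrec_sent (φA φP : Language.ring.Formula (Fin 1)) :
    Primrec fun e => formulaCode (sent φA φP e) := by
  have himp : ∀ {a b : ℕ → ℕ}, Primrec a → Primrec b →
      Primrec fun e => 3 * Nat.pair (a e) (b e) + 2 := by
    intro a b ha hb
    exact Primrec.nat_add.comp (Primrec.nat_mul.comp (Primrec.const 3)
      (Primrec₂.natPair.comp ha hb)) (Primrec.const 2)
  have heq : ∀ {a b : ℕ → ℕ}, Primrec a → Primrec b →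
      Primrec fun e => 3 * Nat.pair (a e) (b e) + 1 := by
    intro a b ha hb
    exact Primrec.nat_add.comp (Primrec.nat_mul.comp (Primrec.const 3)
      (Primrec₂.natPair.comp ha hb)) (Primrec.const 1)
  have hall : ∀ {a : ℕ → ℕ}, Primrec a → Primrec fun e => 3 * a e + 3 := by
    intro a ha
    exact Primrec.nat_add.comp (Primrec.nat_mul.comp (Primrec.const 3) ha) (Primrec.const 3)
  have h := himp (hall (hall (himp (Primrec.const (formulaCode (up φA 0)))
    (himp (himp (heq primrec_ddT (Primrec.const (termCode (0 : Language.ring.Term (Empty ⊕ Fin 2)))))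
      (Primrec.const 0))
      (himp (heq (Primrec.const (termCode (Term.var (Sum.inr 1) :
        Language.ring.Term (Empty ⊕ Fin 2)))) primrec_ttT)
        (himp (Primrec.const (formulaCode (up φP 1))) (Primrec.const 0))))))) (Primrec.const 0)
  refine h.of_eq fun e => ?_
  simp only [sent, body, formulaCode]

end Code2b

open Code2b in
/-- The reduction. -/
theorem not_decidableTheory_of {M : Type} [CommRing M] [CompatibleRing M] (A P : M → Prop)
    (hA : Dfn fun v : Fin 1 → M => A (v 0)) (hP : Dfn fun v : Fin 1 → M => P (v 0))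
    (H : ℕ → Prop) (hH : ¬ ComputablePred H)
    (hex : ∀ e, ∃ g, A g ∧ dd e g ≠ 0)
    (key : ∀ e g, A g → dd e g ≠ 0 → (P (tt e g) ↔ H e)) : ¬ DecidableTheory M := by
  rintro ⟨f, hf, hfs⟩
  obtain ⟨φA, hφA⟩ := hA
  obtain ⟨φP, hφP⟩ := hP
  refine hH (ComputablePred.computable_iff.2
    ⟨fun e => f (formulaCode (sent φA φP e)), hf.comp (primrec_sent φA φP).to_comp, ?_⟩)
  funext e
  refine propext ?_
  rw [hfs, realize_sent]
  constructor
  · intro he
    obtain ⟨g, h1, h2⟩ := hex e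
    exact ⟨g, (hφA _).2 h1, h2, (hφP _).2 ((key e g h1 h2).2 he)⟩
  · rintro ⟨g, h1, h2, h3⟩
    exact (key e g ((hφA _).1 h1) h2).1 ((hφP _).1 h3)

end Pool.Agent.Lib.MP_fdb342_lc
end

section

/-!
# A lemma on finitely generated abelian groups
-/

namespace Pool.Agent.Lib.MP_fdb342_lc

theorem grp_card_ker {G : Type*} [CommGroup G] [Finite G] (l : ℕ) :
    Nat.card (powMonoidHom l : G →* G).ker = Nat.card (G ⧸ (powMonoidHom l : G →* G).range) := by
  have h1 : Nat.card G = Nat.card (G ⧸ (powMonoidHom l : G →* G).ker) *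
      Nat.card (powMonoidHom l : G →* G).ker := Subgroup.card_eq_card_quotient_mul_card_subgroup _
  have h2 : Nat.card G = Nat.card (G ⧸ (powMonoidHom l : G →* G).range) *
      Nat.card (powMonoidHom l : G →* G).range := Subgroup.card_eq_card_quotient_mul_card_subgroup _
  have h3 : Nat.card (G ⧸ (powMonoidHom l : G →* G).ker) =
      Nat.card (powMonoidHom l : G →* G).range :=
    Nat.card_congr (QuotientGroup.quotientKerEquivRange (powMonoidHom l : G →* G)).toEquiv
  rw [h3] at h1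
  have h4 : 0 < Nat.card (powMonoidHom l : G →* G).range := Nat.card_pos
  have h5 := h1.symm.trans h2
  rw [mul_comm] at h5
  exact Nat.eq_of_mul_eq_mul_right h4 h5

theorem rank_bound {U : Type*} [CommGroup U] (l : ℕ) (hl : l.Prime)
    (hfin : Finite (U ⧸ (powMonoidHom l : U →* U).range)) {ι : Type} [Fintype ι]
    (V : ι → Subgroup U) (hV : ∀ i, (V i).FiniteIndex) (e : ι → U)
    (h1 : ∀ i k, k ≠ i → e i ∈ V k) (h2 : ∀ i (n : ℕ), e i ^ n ∈ V i → l ∣ n) :
    l ^ Fintype.card ι ≤ Nat.card (U ⧸ (powMonoidHom l : U →* U).range) := by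
  classical
  let W : Subgroup U := ⨅ i, V i
  haveI hW : W.FiniteIndex := Subgroup.finiteIndex_iInf hV
  haveI : Finite (U ⧸ W) := Subgroup.finite_quotient_of_finiteIndex
  -- orders
  have hord : ∀ i, ∃ d : ℕ, 0 < d ∧ ∀ n : ℕ, e i ^ n ∈ V i ↔ d ∣ n := by
    intro i
    haveI := hV i
    haveI : Finite (U ⧸ V i) := Subgroup.finite_quotient_of_finiteIndex
    refine ⟨orderOf (QuotientGroup.mk (e i) : U ⧸ V i), orderOf_pos _, fun n => ?_⟩
    rw [orderOf_dvd_iff_pow_eq_one, ← QuotientGroup.mk_pow, QuotientGroup.eq_one_iff]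
  choose d hd0 hd using hord
  have hld : ∀ i, l ∣ d i := fun i => h2 i (d i) ((hd i _).2 dvd_rfl)
  choose c hc using hld
  have hc0 : ∀ i, 0 < c i := fun i => by
    have := hd0 i
    rw [hc i] at this
    exact Nat.pos_of_mul_pos_left this
  let g : ι → U := fun i => e i ^ c i
  have hgk : ∀ i k, k ≠ i → g i ∈ V k := fun i k hk => (V k).pow_mem (h1 i k hk) _
  have hgl : ∀ i, g i ^ l ∈ W := by
    intro i
    rw [Subgroup.mem_iInf]
    intro k
    by_cases hk : k = i
    · subst hk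
      change (e k ^ c k) ^ l ∈ V k
      rw [← pow_mul, hd k, hc k, mul_comm]
    · exact (V k).pow_mem (hgk i k hk) _
  have hgi : ∀ i (a b : ℕ), a < l → b < l → (g i ^ a)⁻¹ * g i ^ b ∈ V i → a = b := by
    have key : ∀ i (a b : ℕ), a ≤ b → b < l → (g i ^ a)⁻¹ * g i ^ b ∈ V i → a = b := by
      intro i a b hab hb h
      have e1 : (g i ^ a)⁻¹ * g i ^ b = e i ^ (c i * (b - a)) := by
        have : g i ^ b = g i ^ a * g i ^ (b - a) := by
          rw [← pow_add, Nat.add_sub_cancel' hab]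
        rw [this, inv_mul_cancel_left]
        change (e i ^ c i) ^ (b - a) = _
        rw [← pow_mul]
      rw [e1, hd i, hc i, mul_comm l] at h
      have h3 : l ∣ b - a := Nat.dvd_of_mul_dvd_mul_left (hc0 i) h
      rcases Nat.eq_zero_or_pos (b - a) with h0 | h0
      · omega
      · have := Nat.le_of_dvd h0 h3
        omega
    intro i a b ha hb h
    rcases le_total a b with hab | hab
    · exact key i a b hab hb h
    · refine (key i b a hab ha ?_).symm
      have := (V i).inv_mem h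
      rwa [mul_inv_rev, inv_inv] at this
  -- the injection
  let f : (ι → Fin l) → (powMonoidHom l : (U ⧸ W) →* (U ⧸ W)).ker := fun a =>
    ⟨QuotientGroup.mk (∏ i, g i ^ (a i : ℕ)), by
      rw [MonoidHom.mem_ker, powMonoidHom_apply, ← QuotientGroup.mk_pow, QuotientGroup.eq_one_iff,
        ← Finset.prod_pow]
      refine Subgroup.prod_mem _ fun i _ => ?_
      rw [← pow_mul, mul_comm, pow_mul]
      exact W.pow_mem (hgl i) _⟩
  have hf : Function.Injective f := by
    intro a b hab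
    have h3 : (QuotientGroup.mk (∏ i, g i ^ (a i : ℕ)) : U ⧸ W) =
        QuotientGroup.mk (∏ i, g i ^ (b i : ℕ)) := congrArg Subtype.val hab
    rw [QuotientGroup.eq] at h3
    funext i
    have h4 : (∏ j, g j ^ (a j : ℕ))⁻¹ * ∏ j, g j ^ (b j : ℕ) ∈ V i :=
      (Subgroup.mem_iInf.1 h3) i
    rw [← Finset.prod_inv_distrib, ← Finset.prod_mul_distrib,
      ← Finset.mul_prod_erase _ _ (Finset.mem_univ i)] at h4
    have h5 : ∏ j ∈ Finset.univ.erase i, ((g j ^ (a j : ℕ))⁻¹ * g j ^ (b j : ℕ)) ∈ V i :=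
      Subgroup.prod_mem _ fun j hj => by
        have hji : i ≠ j := fun h => Finset.ne_of_mem_erase hj h.symm
        exact (V i).mul_mem ((V i).inv_mem ((V i).pow_mem (hgk j i hji) _))
          ((V i).pow_mem (hgk j i hji) _)
    have h6 := (Subgroup.mul_mem_cancel_right (V i) h5).1 h4
    exact Fin.ext (hgi i _ _ (a i).2 (b i).2 h6)
  have h7 : l ^ Fintype.card ι ≤ Nat.card (powMonoidHom l : (U ⧸ W) →* (U ⧸ W)).ker := by
    have := Nat.card_le_card_of_injective f hf
    rwa [Nat.card_eq_fintype_card, Fintype.card_fun, Fintype.card_fin] at this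
  rw [grp_card_ker] at h7
  refine h7.trans ?_
  have hle : (powMonoidHom l : U →* U).range ≤
      ((powMonoidHom l : (U ⧸ W) →* (U ⧸ W)).range).comap (QuotientGroup.mk' W) := by
    rintro _ ⟨x, rfl⟩
    exact ⟨QuotientGroup.mk x, rfl⟩
  refine Nat.card_le_card_of_surjective (QuotientGroup.map _ _ (QuotientGroup.mk' W) hle) ?_
  intro y
  obtain ⟨y, rfl⟩ := QuotientGroup.mk_surjective y
  obtain ⟨y, rfl⟩ := QuotientGroup.mk_surjective y
  exact ⟨QuotientGroup.mk y, rfl⟩

end Pool.Agent.Lib.MP_fdb342_lc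
end

section

/-!
# Powers in extensions of small degree
-/

open IsDedekindDomain NumberField

namespace Pool.Agent.Lib.MP_fdb342_lc

/-- an element which becomes an `l`-th power in an extension of degree less than `l` is an
`l`-th power -/
theorem pow_of_lt {F L : Type} [Field F] [Field L] [Algebra F L] [FiniteDimensional F L] {l : ℕ}
    (hl : l.Prime) (hd : Module.finrank F L < l) {x : F} (h : ∃ y : L, y ^ l = algebraMap F L x) :
    ∃ y : F, y ^ l = x := by
  by_contra hcon
  push Not at hcon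
  obtain ⟨y, hy⟩ := h
  have hirr : Irreducible (Polynomial.X ^ l - Polynomial.C x) :=
    X_pow_sub_C_irreducible_of_prime hl hcon
  have hmonic : (Polynomial.X ^ l - Polynomial.C x).Monic :=
    Polynomial.monic_X_pow_sub_C x hl.ne_zero
  have hroot : Polynomial.aeval y (Polynomial.X ^ l - Polynomial.C x) = 0 := by
    simp [hy]
  have hmin : Polynomial.X ^ l - Polynomial.C x = minpoly F y :=
    minpoly.eq_of_irreducible_of_monic hirr hroot hmonic
  have hdeg : (minpoly F y).natDegree = l := by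
    rw [← hmin, Polynomial.natDegree_X_pow_sub_C]
  have hle : (minpoly F y).natDegree ≤ Module.finrank F L := minpoly.natDegree_le y
  omega

end Pool.Agent.Lib.MP_fdb342_lc
end

section

/-!
# Elements of infinite order are not infinitely divisible
-/

open IsDedekindDomain NumberField

namespace Pool.Agent.Lib.MP_fdb342_lc

/-- an element of infinite order is not an `l`-th power for some odd prime `l` -/
theorem exists_not_pow {K : Type} [Field K] [NumberField K] {w : K} (hw0 : w ≠ 0)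
    (hw : ∀ n : ℕ, 0 < n → w ^ n ≠ 1) : ∃ l : ℕ, l.Prime ∧ l ≠ 2 ∧ ¬ ∃ y : K, y ^ l = w := by
  classical
  by_contra hcon
  have hex : ∀ l : ℕ, l.Prime ∧ l ≠ 2 → ∃ y : K, y ^ l = w := by
    intro l hl
    by_contra h
    exact hcon ⟨l, hl.1, hl.2, h⟩
  -- the infinite set of odd primes
  set P : Set ℕ := {l | l.Prime ∧ l ≠ 2} with hP
  have hPinf : P.Infinite := by
    have h1 : P = {l | l.Prime} \ {2} := by
      ext l; simp [hP]
    rw [h1]
    exact Nat.infinite_setOfPred_prime.sdiff (Set.finite_singleton 2)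
  -- a common denominator
  have halg : IsAlgebraic ℤ w :=
    (IsFractionRing.isAlgebraic_iff ℤ ℚ K).mpr (Algebra.IsAlgebraic.isAlgebraic (R := ℚ) w)
  obtain ⟨d, hd0, hd⟩ := halg.exists_integral_multiple
  choose! y hy using hex
  obtain ⟨C, hC⟩ : ∃ C : ℝ, ∀ φ : K →+* ℂ, ‖φ w‖ ≤ C := by
    obtain ⟨C, hC⟩ := (Set.finite_range fun φ : K →+* ℂ => ‖φ w‖).bddAbove
    exact ⟨C, fun φ => hC ⟨φ, rfl⟩⟩
  have hfin := NumberField.Embeddings.finite_of_norm_le K ℂ (‖(d : ℂ)‖ * max 1 C)
  have hmaps : Set.MapsTo (fun l => (d : K) * y l) P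
      {x : K | IsIntegral ℤ x ∧ ∀ φ : K →+* ℂ, ‖φ x‖ ≤ ‖(d : ℂ)‖ * max 1 C} := by
    intro l hl
    have hl0 : 0 < l := hl.1.pos
    have hyl := hy l hl
    refine ⟨?_, ?_⟩
    · refine IsIntegral.of_pow hl0 ?_
      obtain ⟨m, rfl⟩ : ∃ m, l = m + 1 := ⟨l - 1, by omega⟩
      have h1 : ((d : K) * y (m + 1)) ^ (m + 1) = (d : K) ^ m * (d • w) := by
        rw [mul_pow, hyl, zsmul_eq_mul]
        ring
      change IsIntegral ℤ (((d : K) * y (m + 1)) ^ (m + 1))
      rw [h1]
      refine IsIntegral.mul (IsIntegral.pow ?_ m) hd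
      simpa using (isIntegral_algebraMap (R := ℤ) (A := K) (x := d))
    · intro φ
      rw [map_mul, norm_mul, map_intCast]
      refine mul_le_mul_of_nonneg_left ?_ (norm_nonneg _)
      by_contra h
      push Not at h
      have h1 : (1 : ℝ) < ‖φ (y l)‖ := lt_of_le_of_lt (le_max_left _ _) h
      have h2 : ‖φ (y l)‖ ≤ ‖φ (y l)‖ ^ l := le_self_pow₀ h1.le hl0.ne'
      have h3 : ‖φ (y l)‖ ^ l = ‖φ w‖ := by
        rw [← norm_pow, ← map_pow, hyl]
      have h4 : C < ‖φ (y l)‖ := lt_of_le_of_lt (le_max_right _ _) h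
      have := hC φ
      linarith
  obtain ⟨l, hl, l', hl', hne, heq⟩ := hPinf.exists_ne_map_eq_of_mapsTo hmaps hfin
  have hdK : (d : K) ≠ 0 := by exact_mod_cast hd0
  have hyy : y l = y l' := mul_left_cancel₀ hdK heq
  -- conclusion
  have key : ∀ a b : ℕ, a ∈ P → a < b → y a ^ b = w → y a ≠ 0 → False := by
    intro a b ha hab hb hya
    have h1 : y a ^ (b - a) = 1 := by
      have h2 : y a ^ a * y a ^ (b - a) = y a ^ a * 1 := by
        rw [← pow_add, Nat.add_sub_cancel' hab.le, hb, mul_one, hy a ha]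
      exact mul_left_cancel₀ (pow_ne_zero _ hya) h2
    apply hw (b - a) (by omega)
    rw [← hy a ha, ← pow_mul, mul_comm, pow_mul, h1, one_pow]
  have hne0 : ∀ a ∈ P, y a ≠ 0 := by
    intro a ha h0
    apply hw0
    rw [← hy a ha, h0, zero_pow ha.1.ne_zero]
  rcases lt_or_gt_of_ne hne with h | h
  · exact key l l' hl h (by rw [hyy]; exact hy l' hl') (hne0 l hl)
  · exact key l' l hl' h (by rw [← hyy]; exact hy l hl) (hne0 l' hl')

end Pool.Agent.Lib.MP_fdb342_lc
end
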