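import Pool.Agent.Lib.MP_fdb342_lc.Mg.G004
import Pool.Agent.Lib.MP_fdb342_lc.Mg.G006
import Pool.Agent.Lib.MP_fdb342_lc.Mg.G001
import Pool.Agent.Lib.MP_fdb342_lc.Mg.G003
import Pool.Agent.Lib.MP_fdb342_lc.Mg.G002

section

/-!
# Auxiliary places and symbols
-/

open IsDedekindDomain NumberField

namespace Pool.Agent.Lib.MP_fdb342_lc

variable {K : Type} [Field K] [NumberField K]


/-- `W` is a set of auxiliary places for `S` -/
def Aux (S W : Finset (Pl K)) : Prop :=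
  Disjoint W S ∧ ∀ w ∈ W, ∃ x ∈ SU S, x ∉ LCv w ∧ ∀ w' ∈ W, w' ≠ w → x ∈ LCv w'

private lemma HN14a_j {ζ : K} (hζ : IsPrimitiveRoot ζ 3) {v : Pl K} (hv : ¬ Above3 v) {y p : Kˣ}
    (hy0 : ordv v (y : K) = 0) (hy : y ∉ LCv v) (hp0 : ordv v (p : K) = 0) :
    ∃ j : ℕ, p * y ^ j ∈ LCv v := by
  obtain ⟨g, hg0, hg, hgu⟩ := exists_nonresidue_unit hζ v hv
  let q : Kˣ →* Kˣ ⧸ LCv v := QuotientGroup.mk' (LCv v)
  have hq : ∀ z : Kˣ, z ∈ LCv v ↔ q z = 1 := fun z => (QuotientGroup.eq_one_iff z).symm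
  have hg3 : q g ^ 3 = 1 := by
    rw [← map_pow, ← hq]
    exact cube_mem_LCv v g
  have hcl : ∀ u : Kˣ, ordv v (u : K) = 0 → q u = 1 ∨ q u = q g ∨ q u = q g ^ 2 := by
    intro u hu
    rcases hgu u hu with h | h | h
    · left; exact (hq u).1 h
    · right; left
      have h1 := (hq _).1 h
      rw [map_mul, map_inv, inv_mul_eq_one] at h1
      exact h1.symm
    · right; right
      have h1 := (hq _).1 h
      rw [map_mul, map_inv, map_pow, inv_mul_eq_one] at h1
      exact h1.symm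
  have hy1 : q y ≠ 1 := fun h => hy ((hq y).2 h)
  rcases hcl y hy0 with h | h | h
  · exact absurd h hy1
  · rcases hcl p hp0 with h' | h' | h'
    · exact ⟨0, by rw [hq, map_mul, map_pow, h', h]; simp⟩
    · exact ⟨2, by rw [hq, map_mul, map_pow, h', h, ← pow_succ', hg3]⟩
    · exact ⟨1, by rw [hq, map_mul, map_pow, h', h, pow_one, ← pow_succ, hg3]⟩
  · rcases hcl p hp0 with h' | h' | h'
    · exact ⟨0, by rw [hq, map_mul, map_pow, h', h]; simp⟩
    · exact ⟨1, by rw [hq, map_mul, map_pow, h', h, pow_one, ← pow_succ', hg3]⟩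
    · exact ⟨2, by rw [hq, map_mul, map_pow, h', h, ← pow_mul, ← pow_add]
                   show q g ^ (3 * 2) = 1
                   rw [pow_mul, hg3, one_pow]⟩

open Classical in
theorem exists_symbol {ζ : K} (hζ : IsPrimitiveRoot ζ 3) {S W : Finset (Pl K)}
    (h3 : ∀ v, Above3 v → v ∈ S) (hcl : ClTriv S) (hW : Aux S W) {w : Pl K} (hw : w ∈ W)
    {x : Kˣ} (hx : x ∉ LCv w) :
    ∃ c ∈ SU (S ∪ W), c ∉ TK w x ∧ ∀ w' ∈ W, w' ≠ w → c ∈ LCv w' := by
  obtain ⟨hdis, hWx⟩ := hW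
  have hWS : ∀ w' ∈ W, w' ∉ S := fun w' hw' hS => Finset.disjoint_left.1 hdis hw' hS
  have hSU : ∀ c ∈ SU S, c ∈ SU (S ∪ W) := by
    intro c hc v hv
    exact hc v fun h => hv (Finset.mem_union_left _ h)
  have hord : ∀ c ∈ SU S, ∀ w' ∈ W, ordv w' (c : K) = 0 := by
    intro c hc w' hw'
    exact (val_eq_one_iff w' c.ne_zero).1 (hc w' (hWS w' hw'))
  by_cases h3x : (3 : ℤ) ∣ ordv w (x : K)
  · -- second case
    obtain ⟨π, hπ1, hπ0⟩ := hcl w (hWS w hw)
    have hex : ∀ w' : Pl K, ∃ y : Kˣ, w' ∈ W.erase w → (y ∈ SU S ∧ y ∉ LCv w' ∧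
        (∀ w'' ∈ W, w'' ≠ w' → y ∈ LCv w'') ∧ ∃ j : ℕ, π * y ^ j ∈ LCv w') := by
      intro w'
      by_cases hw' : w' ∈ W.erase w
      · obtain ⟨hne, hw'W⟩ := Finset.mem_erase.1 hw'
        obtain ⟨y, hy1, hy2, hy3⟩ := hWx w' hw'W
        refine ⟨y, fun _ => ⟨hy1, hy2, hy3, ?_⟩⟩
        exact HN14a_j hζ (fun h => hWS w' hw'W (h3 w' h)) (hord y hy1 w' hw'W) hy2
          (hπ0 w' (hWS w' hw'W) hne)
      · exact ⟨1, fun h => absurd h hw'⟩
    choose y hy using hex
    have hexj : ∀ w' : Pl K, ∃ j : ℕ, w' ∈ W.erase w → π * y w' ^ j ∈ LCv w' := by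
      intro w'
      by_cases hw' : w' ∈ W.erase w
      · obtain ⟨j, hj⟩ := (hy w' hw').2.2.2
        exact ⟨j, fun _ => hj⟩
      · exact ⟨0, fun h => absurd h hw'⟩
    choose j hj using hexj
    set P : Kˣ := ∏ w' ∈ W.erase w, y w' ^ j w' with hP
    have hPS : P ∈ SU S := Subgroup.prod_mem _ fun w' hw' => pow_mem (hy w' hw').1 _
    refine ⟨π * P, ?_, ?_, ?_⟩
    · refine mul_mem ?_ (hSU P hPS)
      intro v hv
      rw [Finset.mem_union, not_or] at hv
      exact (val_eq_one_iff v π.ne_zero).2 (hπ0 v hv.1 fun h => hv.2 (h ▸ hw))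
    · rw [mem_TK]
      have hoc : ordv w ((π * P : Kˣ) : K) = 1 := by
        push_cast
        rw [ordv_mul w π.ne_zero P.ne_zero, hπ1, hord P hPS w hw, add_zero]
      unfold tame
      rw [hoc, zpow_one]
      intro hmem
      have h1 := zpow_mem_LCv w (π * P) h3x
      have h2 := mul_mem (inv_mem h1) hmem
      rw [inv_mul_cancel_left] at h2
      exact hx (inv_mem_iff.1 h2)
    · intro w' hw' hne
      have hmem : w' ∈ W.erase w := Finset.mem_erase.2 ⟨hne, hw'⟩
      have e : π * P = (π * y w' ^ j w') * ∏ w'' ∈ (W.erase w).erase w', y w'' ^ j w'' := by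
        rw [hP, ← Finset.mul_prod_erase _ _ hmem, mul_assoc]
      rw [e]
      refine mul_mem (hj w' hmem) (Subgroup.prod_mem _ fun w'' hw'' => pow_mem ?_ _)
      obtain ⟨hne', hw''2⟩ := Finset.mem_erase.1 hw''
      exact (hy w'' hw''2).2.2.1 w' hw' (Ne.symm hne')
  · -- first case
    obtain ⟨c, hc, hcw, hc'⟩ := hWx w hw
    refine ⟨c, hSU c hc, ?_, hc'⟩
    rw [mem_TK]
    unfold tame
    rw [hord c hc w hw, zpow_zero, inv_one, mul_one]
    intro hmem
    apply hcw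
    obtain ⟨a, b, hab⟩ : IsCoprime (ordv w (x : K)) 3 :=
      ((Int.prime_three.coprime_iff_not_dvd).2 h3x).symm
    have e : c = (c ^ ordv w (x : K)) ^ a * (c ^ b) ^ 3 := by
      rw [← zpow_natCast (c ^ b) 3, ← zpow_mul, ← zpow_mul, ← zpow_add]
      have h1 : ordv w (x : K) * a + b * ((3 : ℕ) : ℤ) = 1 := by
        push_cast; linarith
      rw [h1, zpow_one]
    rw [e]
    exact mul_mem (zpow_mem hmem a) (cube_mem_LCv w _)

end Pool.Agent.Lib.MP_fdb342_lc
end

section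

/-!
# S-units which are local cubes are cubes
-/

open IsDedekindDomain NumberField

namespace Pool.Agent.Lib.MP_fdb342_lc

variable {K : Type} [Field K] [NumberField K]


open Classical in
theorem cubes_of_local {ζ : K} (hζ : IsPrimitiveRoot ζ 3) {S W : Finset (Pl K)}
    (h3 : ∀ v, Above3 v → v ∈ S) (hcl : ClTriv S) (hW : Aux S W) {x : Kˣ}
    (hx : x ∈ SU (S ∪ W)) (hx3 : x ∈ L3 K) (hxS : ∀ v ∈ S, ¬ Above3 v → x ∈ LCv v) :
    x ∈ Cubes K := by
  by_contra hxc
  have hnc : ¬ ∃ y : K, y ^ 3 = (x : K) := by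
    rintro ⟨y, hy⟩
    have hy0 : y ≠ 0 := by
      rintro rfl
      apply x.ne_zero
      rw [← hy]
      exact zero_pow three_ne_zero
    exact hxc ⟨Units.mk0 y hy0, Units.ext (by
      rw [powMonoidHom_apply, Units.val_pow_eq_pow_val, Units.val_mk0, hy])⟩
  obtain ⟨E, hE1, hE2, hE3, α, σ, hgal, hdeg, hpow, hact, hgen, -⟩ :=
    exists_kummer Nat.prime_three hζ hnc
  have hk : Kum K ζ x E α σ := ⟨hζ, hgal, hdeg, hpow, hact, hgen⟩
  obtain ⟨hne, hle⟩ := norm_index hk hx3 (S ∪ W)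
    (fun v hv => Finset.mem_union_left _ (h3 v hv)) hx (hcl.mono Finset.subset_union_left)
  have hbad : ∀ w ∈ bad x (S ∪ W), w ∈ W ∧ ¬ Above3 w ∧ x ∉ LCv w := by
    intro w hw
    rw [bad, Finset.mem_filter, Finset.mem_union] at hw
    obtain ⟨h1 | h1, h2, h3⟩ := hw
    · exact absurd (hxS w h1 h2) h3
    · exact ⟨h1, h2, h3⟩
  have hrel := relIndex_iInf (bad x (S ∪ W)) (fun w => TK w x)
    (fun w hw => TK_index hζ (hbad w hw).2.1 (hbad w hw).2.2) (SU (S ∪ W)) (by
      intro w hw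
      obtain ⟨c, hc1, hc2, hc3⟩ := exists_symbol hζ h3 hcl hW (hbad w hw).1 (hbad w hw).2.2
      exact ⟨c, hc1, hc2, fun w' hw' hne' => mem_TK.2
        (tame_mem_of_left (hc3 w' (hbad w' hw').1 hne'))⟩)
  have hNle : NSU E (S ∪ W) ≤ ⨅ w ∈ bad x (S ∪ W), TK w x := by
    rintro _ ⟨e, -, rfl⟩
    rw [Subgroup.mem_iInf]
    intro w
    rw [Subgroup.mem_iInf]
    intro hw
    obtain ⟨a, b, c, habc⟩ := norm_eq_nf hk (e : E)
    exact mem_TK.2 (nf_tame (hbad w hw).2.1 (x := a) (y := b) (z := c) habc)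
  have hdvd := Subgroup.relIndex_dvd_of_le_left (SU (S ∪ W)) hNle
  rw [hrel] at hdvd
  have h1 := Nat.le_of_dvd (Nat.pos_of_ne_zero hne) hdvd
  have h2 : 0 < 3 ^ (bad x (S ∪ W)).card := by positivity
  omega

end Pool.Agent.Lib.MP_fdb342_lc
end

section

/-!
# The Hasse norm theorem for cubic Kummer extensions
-/

open IsDedekindDomain NumberField

namespace Pool.Agent.Lib.MP_fdb342_lc

variable {K : Type} [Field K] [NumberField K]

private lemma HN15_iInf_index {G : Type*} [Group G] {ι : Type*} (F : Finset ι)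
    (H : ι → Subgroup G) {m : ℕ} (hm : m ≠ 0) (h : ∀ i ∈ F, (H i).index = m) :
    (⨅ i ∈ F, H i).index ≠ 0 ∧ (⨅ i ∈ F, H i).index ≤ m ^ F.card := by
  classical
  induction F using Finset.induction_on with
  | empty => simp
  | insert a F ha ih =>
    obtain ⟨ih1, ih2⟩ := ih fun i hi => h i (Finset.mem_insert_of_mem hi)
    have hma := h a (Finset.mem_insert_self a F)
    rw [Finset.iInf_insert, Finset.card_insert_of_notMem ha]
    refine ⟨Subgroup.index_inf_ne_zero (by rw [hma]; exact hm) ih1, ?_⟩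
    refine Subgroup.index_inf_le.trans ?_
    rw [hma, pow_succ, mul_comm]
    exact Nat.mul_le_mul_right m ih2

/-- independence of the tame symbols at finitely many places -/
private lemma HN15_T_index {ζ : K} (hζ : IsPrimitiveRoot ζ 3) {d : Kˣ} (V : Finset (Pl K))
    (h3 : ∀ v ∈ V, ¬ Above3 v) (hd : ∀ v ∈ V, d ∉ LCv v) :
    (⨅ v ∈ V, TK v d).index = 3 ^ V.card := by
  classical
  have key := relIndex_iInf V (fun v => TK v d) (fun v hv => TK_index hζ (h3 v hv) (hd v hv)) ⊤ ?_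
  · rwa [Subgroup.relIndex_top_right] at key
  · intro v hv
    have hne : TK v d ≠ ⊤ := by
      intro htop
      have := TK_index hζ (h3 v hv) (hd v hv)
      rw [htop, Subgroup.index_top] at this
      omega
    obtain ⟨c0, hc0⟩ : ∃ c0 : Kˣ, c0 ∉ TK v d := by
      by_contra hcon
      push Not at hcon
      exact hne ((Subgroup.eq_top_iff' _).2 hcon)
    obtain ⟨x, hx⟩ := weak_approx V (fun w => if w = v then c0 else 1)
    refine ⟨x, Subgroup.mem_top _, ?_, ?_⟩
    · intro hxT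
      have h1 := hx v hv
      simp only [if_true] at h1
      have h2 : x * c0⁻¹ ∈ LCv v := by
        apply mem_LCv_of_near
        rw [Units.val_mul, Units.val_inv_eq_inv_val, ← div_eq_mul_inv]
        exact h1
      have h3' : x * c0⁻¹ ∈ TK v d := mem_TK.2 (tame_mem_of_left h2)
      apply hc0
      have h4 := mul_mem (inv_mem h3') hxT
      have h5 : (x * c0⁻¹)⁻¹ * x = c0 := by group
      rwa [h5] at h4
    · intro w hw hwv
      have h1 := hx w hw
      simp only [if_neg hwv, Units.val_one, div_one] at h1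
      exact mem_TK.2 (tame_mem_of_left (mem_LCv_of_near h1))

theorem hasse_norm_aux {ζ : K} (hζ : IsPrimitiveRoot ζ 3) {c d : Kˣ} (hdc : d ∉ Cubes K)
    (hd : d ∈ L3 K) (h : ∀ v : Pl K, ¬ Above3 v → tame v c d ∈ LCv v) :
    ∃ x y z : K, (c : K) = nf (d : K) x y z := by
  classical
  -- the sets of places
  let G : Finset (Pl K) := (finite_above3 (K := K)).toFinset
  have hG : ∀ v : Pl K, v ∈ G ↔ Above3 v := fun v => by simp [G]
  obtain ⟨S, hS1, hcl⟩ := exists_clTriv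
    (G ∪ ((finite_ordv_ne c).toFinset ∪ (finite_ordv_ne d).toFinset))
  have hGS : G ⊆ S := Finset.Subset.trans Finset.subset_union_left hS1
  have h3 : ∀ v, Above3 v → v ∈ S := fun v hv => hGS ((hG v).2 hv)
  have hcS : c ∈ SU S := by
    intro v hv
    rw [val_eq_one_iff v c.ne_zero]
    by_contra hne
    refine hv (hS1 ?_)
    simp [hne]
  have hdS : d ∈ SU S := by
    intro v hv
    rw [val_eq_one_iff v d.ne_zero]
    by_contra hne
    refine hv (hS1 ?_)
    simp [hne]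
  obtain ⟨W, hWS, hWc, hWd, hWx⟩ := exists_aux hζ hdc S h3 hdS
  have hW : Aux S W := ⟨hWS, hWx⟩
  have hSS' : S ⊆ S ∪ W := Finset.subset_union_left
  have hmono : SU S ≤ SU (S ∪ W) := fun x hx v hv => hx v fun hvS => hv (hSS' hvS)
  have h3' : ∀ v, Above3 v → v ∈ S ∪ W := fun v hv => hSS' (h3 v hv)
  have hcl' : ClTriv (S ∪ W) := hcl.mono hSS'
  have hcard : (S ∪ W).card = S.card + (Units.rank K + S.card) := by
    rw [Finset.card_union_of_disjoint hWS.symm, hWc]
  have hrank := two_rank hζ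
  -- the extension
  have hdl : ¬ ∃ y : K, y ^ 3 = (d : K) := by
    rintro ⟨y, hy⟩
    have hy0 : y ≠ 0 := by
      rintro rfl
      apply d.ne_zero
      rw [← hy]; norm_num
    exact hdc ⟨Units.mk0 y hy0, Units.ext (by simpa using hy)⟩
  obtain ⟨E, _, _, _, α, σ, hgal, hdeg, hpow, hact, hgen, -⟩ :=
    exists_kummer Nat.prime_three hζ hdl
  have hk : Kum K ζ d E α σ := ⟨hζ, hgal, hdeg, hpow, hact, hgen⟩
  obtain ⟨hN0, hN⟩ := norm_index hk hd (S ∪ W) h3' (hmono hdS) hcl'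
  set U : Subgroup Kˣ := SU (S ∪ W) with hU
  set V : Finset (Pl K) := bad d (S ∪ W) with hV
  have hVmem : ∀ v ∈ V, v ∈ S ∧ ¬ Above3 v ∧ d ∉ LCv v := by
    intro v hv
    rw [hV, bad, Finset.mem_filter, Finset.mem_union] at hv
    obtain ⟨hv1, hv2, hv3⟩ := hv
    refine ⟨?_, hv2, hv3⟩
    rcases hv1 with hv1 | hv1
    · exact hv1
    · exact absurd (hWd v hv1) hv3
  -- the group `I`
  let F : Finset (Pl K) := S.filter fun v => ¬ Above3 v
  have hFcard : G.card + F.card = S.card := by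
    have h1 : G = S.filter fun v => Above3 v := by
      ext v
      rw [Finset.mem_filter, hG]
      exact ⟨fun hv => ⟨h3 v hv, hv⟩, fun hv => hv.2⟩
    rw [h1]
    exact Finset.card_filter_add_card_filter_not _
  let I : Subgroup Kˣ := L3 K ⊓ ⨅ v ∈ F, LCv v
  obtain ⟨hL0, hL⟩ := L3_index hζ G hG
  obtain ⟨hF0, hF⟩ := HN15_iInf_index F (fun v => LCv v) (m := 9) (by norm_num)
    (fun v hv => LCv_index hζ v (Finset.mem_filter.1 hv).2)
  have hI0 : I.index ≠ 0 := Subgroup.index_inf_ne_zero hL0 hF0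
  have hI : I.index ≤ 3 ^ (Module.finrank ℚ K + 2 * S.card) := by
    refine Subgroup.index_inf_le.trans ((Nat.mul_le_mul hL hF).trans ?_)
    have h9 : (9 : ℕ) ^ F.card = 3 ^ (2 * F.card) := by
      rw [pow_mul]; norm_num
    rw [h9, ← pow_add]
    apply Nat.pow_le_pow_right (by norm_num)
    omega
  have hIU : I ⊓ U ≤ Cubes K := by
    rintro x ⟨⟨hx1, hx2⟩, hx3⟩
    refine cubes_of_local hζ h3 hcl hW hx3 hx1 ?_
    intro v hv hv3
    have := (Subgroup.mem_iInf.1 (Subgroup.mem_iInf.1 hx2 v)) (Finset.mem_filter.2 ⟨hv, hv3⟩)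
    exact this
  have hcub := cubes_relIndex hζ (S ∪ W)
  have hIrel : 3 ^ (Units.rank K + (S ∪ W).card + 1) ∣ I.relIndex U := by
    rw [← hcub, ← Subgroup.inf_relIndex_right I U]
    exact Subgroup.relIndex_dvd_of_le_left _ hIU
  have hIsup : (I ⊔ U).index * I.relIndex U = I.index := by
    have h1 := Subgroup.relIndex_mul_index (H := I) (K := I ⊔ U) le_sup_left
    rw [Subgroup.relIndex_sup_left] at h1
    rw [mul_comm]
    exact h1
  have hIrel0 : I.relIndex U ≠ 0 := fun h0 => hI0 (by rw [← hIsup, h0, mul_zero])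
  have hIU0 : (I ⊔ U).index ≠ 0 := fun h0 => hI0 (by rw [← hIsup, h0, zero_mul])
  have hIU3 : (I ⊔ U).index ≤ 3 := by
    have h1 := Nat.le_of_dvd (Nat.pos_of_ne_zero hIrel0) hIrel
    have h2 : Units.rank K + (S ∪ W).card + 1 + 1 = Module.finrank ℚ K + 2 * S.card := by
      omega
    have h4 : (I ⊔ U).index * 3 ^ (Units.rank K + (S ∪ W).card + 1) ≤
        3 * 3 ^ (Units.rank K + (S ∪ W).card + 1) := by
      calc (I ⊔ U).index * 3 ^ (Units.rank K + (S ∪ W).card + 1)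
          ≤ (I ⊔ U).index * I.relIndex U := Nat.mul_le_mul_left _ h1
        _ = I.index := hIsup
        _ ≤ 3 ^ (Module.finrank ℚ K + 2 * S.card) := hI
        _ = 3 * 3 ^ (Units.rank K + (S ∪ W).card + 1) := by rw [← h2, pow_succ, mul_comm]
    exact Nat.le_of_mul_le_mul_right h4 (by positivity)
  -- the group `T`
  let T : Subgroup Kˣ := ⨅ v ∈ V, TK v d
  have hTindex : T.index = 3 ^ V.card :=
    HN15_T_index hζ V (fun v hv => (hVmem v hv).2.1) (fun v hv => (hVmem v hv).2.2)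
  have hIT : I ≤ T := by
    rintro x ⟨-, hx2⟩
    refine Subgroup.mem_iInf.2 fun v => Subgroup.mem_iInf.2 fun hv => ?_
    obtain ⟨hv1, hv2, hv3⟩ := hVmem v hv
    have := (Subgroup.mem_iInf.1 (Subgroup.mem_iInf.1 hx2 v)) (Finset.mem_filter.2 ⟨hv1, hv2⟩)
    exact tame_mem_of_left this
  have hTU3 : (T ⊔ U).index ≤ 3 := by
    have h1 : I ⊔ U ≤ T ⊔ U := sup_le_sup_right hIT U
    exact (Nat.le_of_dvd (Nat.pos_of_ne_zero hIU0) (Subgroup.index_dvd_of_le h1)).trans hIU3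
  have hTsup : (T ⊔ U).index * T.relIndex U = T.index := by
    have h1 := Subgroup.relIndex_mul_index (H := T) (K := T ⊔ U) le_sup_left
    rw [Subgroup.relIndex_sup_left] at h1
    rw [mul_comm]
    exact h1
  have hT3 : 3 ^ V.card ≤ 3 * T.relIndex U := by
    rw [← hTindex, ← hTsup]
    exact Nat.mul_le_mul_right _ hTU3
  have hNT : NSU E (S ∪ W) ≤ T := by
    rintro x ⟨e, -, rfl⟩
    refine Subgroup.mem_iInf.2 fun v => Subgroup.mem_iInf.2 fun hv => ?_
    obtain ⟨x, y, z, hxyz⟩ := norm_eq_nf hk (e : E)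
    exact nf_tame (hVmem v hv).2.1 (by rw [← hxyz]; rfl)
  have hdvd : T.relIndex U ∣ (NSU E (S ∪ W)).relIndex U :=
    Subgroup.relIndex_dvd_of_le_left _ hNT
  have hle : (NSU E (S ∪ W)).relIndex U ≤ T.relIndex U := by
    have := hN.trans hT3
    omega
  have heq : (NSU E (S ∪ W)).relIndex U = T.relIndex U :=
    le_antisymm hle (Nat.le_of_dvd (Nat.pos_of_ne_zero hN0) hdvd)
  have hTN : T ⊓ U ≤ NSU E (S ∪ W) ⊓ U := by
    have h1 := Subgroup.relIndex_mul_relIndex (NSU E (S ∪ W) ⊓ U) (T ⊓ U) U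
      (inf_le_inf_right U hNT) inf_le_right
    rw [Subgroup.inf_relIndex_right, Subgroup.inf_relIndex_right, heq] at h1
    have h2 : T.relIndex U ≠ 0 := by rw [← heq]; exact hN0
    have h4 : (NSU E (S ∪ W) ⊓ U).relIndex (T ⊓ U) = 1 := by
      have h5 : (NSU E (S ∪ W) ⊓ U).relIndex (T ⊓ U) * T.relIndex U = 1 * T.relIndex U := by
        rw [h1, one_mul]
      exact Nat.eq_of_mul_eq_mul_right (Nat.pos_of_ne_zero h2) h5
    exact Subgroup.relIndex_eq_one.1 h4
  -- conclusion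
  have hcT : c ∈ T := by
    refine Subgroup.mem_iInf.2 fun v => Subgroup.mem_iInf.2 fun hv => ?_
    exact h v (hVmem v hv).2.1
  obtain ⟨⟨e, -, he⟩, -⟩ := hTN ⟨hcT, hmono hcS⟩
  obtain ⟨x, y, z, hxyz⟩ := norm_eq_nf hk (e : E)
  refine ⟨x, y, z, ?_⟩
  rw [← hxyz, ← he]
  rfl

/-- **Hasse norm theorem** (a special case) -/
theorem hasse_norm {ζ : K} (hζ : IsPrimitiveRoot ζ 3) {c d : Kˣ}
    (hd : d ∈ L3 K) (h : ∀ v : Pl K, ¬ Above3 v → tame v c d ∈ LCv v) :
    ∃ x y z : K, (c : K) = nf (d : K) x y z := by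
  by_cases hdc : d ∈ Cubes K
  · obtain ⟨δ, hδ⟩ := hdc
    obtain ⟨x, y, z, h⟩ := nf_cube hζ δ (c : K)
    refine ⟨x, y, z, ?_⟩
    rw [h, ← hδ]
    simp
  · exact hasse_norm_aux hζ hdc hd h

end Pool.Agent.Lib.MP_fdb342_lc
end

section

/-!
# Making a symbol trivial by a cubic extension
-/

open IsDedekindDomain NumberField

namespace Pool.Agent.Lib.MP_fdb342_lc

variable {K : Type} [Field K] [NumberField K]

private lemma F4e_integral (v : Pl K) {x t y : K} (hx : v.valuation K x ≤ 1)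
    (ht : v.valuation K t ≤ 1) (h : y ^ 3 - x * y ^ 2 + t * y - 1 = 0) :
    v.valuation K y ≤ 1 := by
  by_contra hcon
  rw [not_le] at hcon
  have h1 : v.valuation K (x * y ^ 2 - t * y + 1) ≤ v.valuation K y ^ 2 := by
    refine Valuation.map_add_le _ (Valuation.map_sub_le _ ?_ ?_) ?_
    · rw [map_mul, map_pow]
      exact mul_le_of_le_one_left' hx
    · rw [map_mul]
      calc v.valuation K t * v.valuation K y ≤ 1 * v.valuation K y :=
            mul_le_mul_left ht _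
        _ = v.valuation K y := one_mul _
        _ ≤ v.valuation K y ^ 2 := le_self_pow hcon.le two_ne_zero
    · rw [map_one]
      exact one_le_pow₀ hcon.le
  have h2 : x * y ^ 2 - t * y + 1 = y ^ 3 := by linear_combination -h
  rw [h2, map_pow] at h1
  exact absurd h1 (not_le.2 (pow_lt_pow_right₀ hcon (by norm_num)))

private lemma F4e_finite (a b : Kˣ) : {v : Pl K | tame v b a ∉ LCv v}.Finite := by
  refine ((finite_ordv_ne a).union (finite_ordv_ne b)).subset ?_
  intro v hv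
  by_contra hcon
  rw [Set.mem_union, not_or] at hcon
  obtain ⟨h1, h2⟩ := hcon
  have h1' : ordv v (a : K) = 0 := by
    by_contra h; exact h1 h
  have h2' : ordv v (b : K) = 0 := by
    by_contra h; exact h2 h
  apply hv
  unfold tame
  rw [h1', h2', zpow_zero, zpow_zero, inv_one, mul_one]
  exact one_mem _

theorem exists_spl {ζ : K} (hζ : IsPrimitiveRoot ζ 3) {x : K}
    (hx : ∀ v : Pl K, ¬ Above3 v → v.valuation K x ≤ 1) {a b : Kˣ} (ha : a ∈ L3 K) :
    ∃ (t : K) (u v w : K × K × K), nfA x t (a : K) u v w = ((b : K), 0, 0) := by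
  classical
  by_cases hΔ : ∀ v : Pl K, ¬ Above3 v → tame v b a ∈ LCv v
  · obtain ⟨u, v, w, h⟩ := hasse_norm hζ ha hΔ
    refine ⟨0, (u, 0, 0), (v, 0, 0), (w, 0, 0), ?_⟩
    rw [h]
    unfold nf nfA addA smA mulA
    refine Prod.ext ?_ (Prod.ext ?_ ?_)
    · show _ = _
      simp only []
      ring
    · show _ = _
      simp only []
      ring
    · show _ = _
      simp only []
      ring
  · push Not at hΔ
    obtain ⟨v₀, hv₀, hv₀'⟩ := hΔ
    have h0 : ∀ v : Pl K, ∃ t₀ : K, ¬ Above3 v → v.valuation K t₀ ≤ 1 ∧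
        ∀ t : K, v.valuation K (t - t₀) < 1 → ∀ y : K, v.valuation K y ≤ 1 →
          v.valuation K (y ^ 3 - x * y ^ 2 + t * y - 1) = 1 := by
      intro v
      by_cases hv : Above3 v
      · exact ⟨0, fun h => absurd hv h⟩
      · obtain ⟨t₀, h1, h2⟩ := exists_t v (hx v hv)
        exact ⟨t₀, fun _ => ⟨h1, h2⟩⟩
    choose t₀ ht₀ using h0
    obtain ⟨t, ht⟩ := approx_add (F4e_finite a b).toFinset t₀ 0
    have ht' : ∀ v : Pl K, tame v b a ∉ LCv v → v.valuation K (t - t₀ v) < 1 := by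
      intro v hv
      have := ht v ((F4e_finite a b).mem_toFinset.2 hv)
      simpa using this
    have hti : ∀ v : Pl K, ¬ Above3 v → tame v b a ∉ LCv v → v.valuation K t ≤ 1 := by
      intro v hv hv'
      have e : t = (t - t₀ v) + t₀ v := by ring
      rw [e]
      exact Valuation.map_add_le _ (ht' v hv').le (ht₀ v hv).1
    have hroot : ∀ v : Pl K, ¬ Above3 v → tame v b a ∉ LCv v → ∀ y : K,
        v.valuation K y ≤ 1 → v.valuation K (y ^ 3 - x * y ^ 2 + t * y - 1) = 1 :=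
      fun v hv hv' => (ht₀ v hv).2 t (ht' v hv')
    have hno : ∀ y : K, y ^ 3 - x * y ^ 2 + t * y - 1 ≠ 0 := by
      intro y hy
      have h1 := hroot v₀ hv₀ hv₀' y
        (F4e_integral v₀ (hx v₀ hv₀) (hti v₀ hv₀ hv₀') hy)
      rw [hy, map_zero] at h1
      exact zero_ne_one h1
    obtain ⟨E, hE1, hE2, hE3, θ, hd, hθ, hθK⟩ := exists_cubic hno
    have hζE : IsPrimitiveRoot (algebraMap K E ζ) 3 :=
      hζ.map_of_injective (algebraMap K E).injective
    have haE : up E a ∈ L3 E := L3_up ha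
    have hloc : ∀ P : Pl E, ¬ Above3 P → tame P (up E b) (up E a) ∈ LCv P := by
      intro P hP
      have hP' : ¬ Above3 (bel K P) := by
        intro h
        apply hP
        obtain ⟨e, he, hval⟩ := val_bel (K := K) P
        unfold Above3 at h ⊢
        have e3 : (3 : E) = algebraMap K E 3 := (map_ofNat _ 3).symm
        rw [e3, hval]
        exact pow_lt_one₀ zero_le h he.ne'
      obtain ⟨e, he⟩ := tame_up (K := K) P
      rw [he]
      refine Subgroup.pow_mem _ ?_ e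
      by_cases hm : tame (bel K P) b a ∈ LCv (bel K P)
      · exact LCv_up P hm
      · exact cube_above hζ P hP' (hx _ hP') (hti _ hP' hm) (hroot _ hP' hm) hθ
          (ordv_tame (bel K P) b a)
    obtain ⟨w₀, w₁, w₂, hw⟩ := hasse_norm hζE haE hloc
    obtain ⟨u, v, w, h⟩ := spl_of_nf (x := x) (t := t) (a := (a : K)) (b := (b : K)) hd hθ hθK
      (w₀ := w₀) (w₁ := w₁) (w₂ := w₂) hw
    exact ⟨t, u, v, w, h⟩

end Pool.Agent.Lib.MP_fdb342_lc
end

section

/-!
# The definition of `RR 3`: elements integral outside of `3` satisfy the definition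
-/

open IsDedekindDomain NumberField

namespace Pool.Agent.Lib.MP_fdb342_lc

private lemma F4_map_nfA {R S : Type} [CommRing R] [CommRing S] (f : R →+* S) (x t a : R)
    (u v w : R × R × R) :
    nfA (f x) (f t) (f a) (f u.1, f u.2.1, f u.2.2) (f v.1, f v.2.1, f v.2.2)
      (f w.1, f w.2.1, f w.2.2) =
      (f (nfA x t a u v w).1, f (nfA x t a u v w).2.1, f (nfA x t a u v w).2.2) := by
  simp only [nfA, mulA, addA, smA, map_add, map_mul, map_sub, map_neg, map_pow, map_one,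
    map_ofNat]

private lemma F4_mem_L3 {K : IntermediateField ℚ ℂ} [NumberField K] (hK : Good K) (β : K)
    (a : Kˣ) (n : ℕ)
    (h : ((a : K) - 1) * (1 + 3 * β ^ 3) = 9 * (n : K)) : a ∈ L3 K := by
  refine ⟨1, fun v hv => ?_⟩
  have h1 := one_le_val hK v hv β
  have e : ((a * 1 ^ 3 : Kˣ) : K) - 1 = (a : K) - 1 := by simp
  rw [e]
  have h2 : v.valuation K ((a : K) - 1) * v.valuation K (1 + 3 * β ^ 3) =
      v.valuation K (9 : K) * v.valuation K (n : K) := by
    rw [← map_mul, ← map_mul, h]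
  have hn : v.valuation K (n : K) ≤ 1 := by
    have := v.valuation_le_one (K := K) (n : 𝓞 K)
    simpa using this
  calc v.valuation K ((a : K) - 1) = v.valuation K ((a : K) - 1) * 1 := (mul_one _).symm
    _ ≤ v.valuation K ((a : K) - 1) * v.valuation K (1 + 3 * β ^ 3) := mul_le_mul_right h1 _
    _ = v.valuation K (9 : K) * v.valuation K (n : K) := h2
    _ ≤ v.valuation K (9 : K) * 1 := mul_le_mul_right hn _
    _ = v.valuation K (9 : K) := mul_one _

theorem QQ_of_mem_RR {x : ℂ} (h : x ∈ RR 3) : QQ x := by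
  refine ⟨h.1, ?_⟩
  intro β hβ a ha b hb hb0 hab
  obtain ⟨c1, c2, c3⟩ := cube_ne hβ
  -- a primitive third root of unity
  have hζ : IsPrimitiveRoot (Complex.exp (2 * Real.pi * Complex.I / 3)) 3 := by
    have := Complex.isPrimitiveRoot_exp 3 (by norm_num)
    simpa using this
  set ζ : ℂ := Complex.exp (2 * Real.pi * Complex.I / 3) with hζd
  have hζΩ : ζ ∈ Omega := by
    refine omega_quad (one_mem _) (one_mem _) ?_
    have h3 : ζ ^ 3 = 1 := hζ.pow_eq_one
    have h1 : ζ - 1 ≠ 0 := sub_ne_zero.2 (hζ.ne_one (by norm_num))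
    have : (ζ - 1) * (ζ ^ 2 + 1 * ζ + 1) = 0 := by linear_combination h3
    exact (mul_eq_zero.1 this).resolve_left h1
  obtain ⟨K₁, hK₁, h₁⟩ := IsConstructible.exists_good (mem_Omega.1 h.1)
  obtain ⟨K₂, hK₂, h₂⟩ := IsConstructible.exists_good (mem_Omega.1 hβ)
  obtain ⟨K₃, hK₃, h₃⟩ := IsConstructible.exists_good (mem_Omega.1 ha)
  obtain ⟨K₄, hK₄, h₄⟩ := IsConstructible.exists_good (mem_Omega.1 hb)
  obtain ⟨K₅, hK₅, h₅⟩ := IsConstructible.exists_good (mem_Omega.1 hζΩ)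
  obtain ⟨K, hK, hxK, hβK, haK, hbK, hζK⟩ : ∃ K : IntermediateField ℚ ℂ, Good K ∧ x ∈ K ∧ β ∈ K ∧
      a ∈ K ∧ b ∈ K ∧ ζ ∈ K := by
    refine ⟨K₁ ⊔ (K₂ ⊔ (K₃ ⊔ (K₄ ⊔ K₅))),
      good_sup hK₁ (good_sup hK₂ (good_sup hK₃ (good_sup hK₄ hK₅))), ?_, ?_, ?_, ?_, ?_⟩
    · exact (le_sup_left : K₁ ≤ _) h₁
    · exact ((le_sup_left : K₂ ≤ _).trans le_sup_right) h₂
    · exact (((le_sup_left : K₃ ≤ _).trans le_sup_right).trans le_sup_right) h₃
    · exact ((((le_sup_left : K₄ ≤ _).trans le_sup_right).trans le_sup_right).trans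
        le_sup_right) h₄
    · exact ((((le_sup_right : K₅ ≤ _).trans le_sup_right).trans le_sup_right).trans
        le_sup_right) h₅
  have : FiniteDimensional ℚ K := hK.finiteDimensional
  have : NumberField K := ⟨⟩
  have ha0 : a ≠ 0 := by
    rintro rfl
    rcases hab with hab | hab
    · exact c2 (by rw [← hab]; ring)
    · exact c3 (by rw [← hab]; ring)
  let xK : K := ⟨x, hxK⟩
  let βK : K := ⟨β, hβK⟩
  let aK : K := ⟨a, haK⟩
  let bK : K := ⟨b, hbK⟩
  let ζK : K := ⟨ζ, hζK⟩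
  have haK0 : aK ≠ 0 := fun h0 => ha0 (congrArg Subtype.val h0)
  have hbK0 : bK ≠ 0 := fun h0 => hb0 (congrArg Subtype.val h0)
  let aU : Kˣ := Units.mk0 aK haK0
  let bU : Kˣ := Units.mk0 bK hbK0
  have haL : aU ∈ L3 K := by
    rcases hab with hab | hab
    · refine F4_mem_L3 hK βK aU 1 ?_
      apply Subtype.ext
      show (a - 1) * (1 + 3 * β ^ 3) = 9 * ((1 : ℕ) : ℂ)
      push_cast
      linear_combination hab
    · refine F4_mem_L3 hK βK aU 2 ?_
      apply Subtype.ext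
      show (a - 1) * (1 + 3 * β ^ 3) = 9 * ((2 : ℕ) : ℂ)
      push_cast
      linear_combination hab
  have hζK' : IsPrimitiveRoot ζK 3 :=
    IsPrimitiveRoot.of_map_of_injective (f := algebraMap K ℂ) hζ (algebraMap K ℂ).injective
  obtain ⟨t, u, v, w, huvw⟩ := exists_spl (K := K) hζK' (x := xK)
    (fun v hv => val_of_mem_RR xK h v hv) (a := aU) (b := bU) haL
  have hΩ : ∀ z : K, (z : ℂ) ∈ Omega := fun z => hK.le_Omega z.2
  refine ⟨(t : ℂ), hΩ t, u.1, hΩ _, u.2.1, hΩ _, u.2.2, hΩ _, v.1, hΩ _, v.2.1, hΩ _, v.2.2, hΩ _,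
    w.1, hΩ _, w.2.1, hΩ _, w.2.2, hΩ _, ?_⟩
  have e := F4_map_nfA (algebraMap K ℂ) xK t aK u v w
  have e1 : nfA xK t aK u v w = (bK, 0, 0) := huvw
  rw [e1] at e
  simpa using e

end Pool.Agent.Lib.MP_fdb342_lc
end
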