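import Pool.Agent.Lib.MP_fdb342_lc.Mg.G008
import Pool.Agent.Lib.MP_fdb342_lc.Mg.G001

section

/-!
# Multiplication of cardinalities of coded sets
-/

namespace Pool.Agent.Lib.MP_fdb342_lc

theorem mulC_iff {D : ℕ} (hD : D = 1 ∨ D = 3) {z₁ z₂ z₃ : ℂ} (h₁ : z₁ ∈ RR D) (h₁0 : z₁ ≠ 0)
    (h₂ : z₂ ∈ RR D) (h₂0 : z₂ ≠ 0) (h₃ : z₃ ∈ RR D) (h₃0 : z₃ ≠ 0) :
    MulC D z₁ z₂ z₃ ↔ nn D z₁ * nn D z₂ = nn D z₃ := by
  classical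
  have hf1 := Sz_finite hD h₁ h₁0
  have hf2 := Sz_finite hD h₂ h₂0
  have hf3 := Sz_finite hD h₃ h₃0
  have hRR : ∀ {a ζ : ℂ}, Mem1 D a ζ → ζ ∈ RR D := fun h => inA_mem_RR h.1
  have hprod : nn D z₁ * nn D z₂ = (Sz D z₁ ×ˢ Sz D z₂).ncard := Set.ncard_prod.symm
  rw [hprod]
  constructor
  · rintro ⟨y, -, w, -, h1, h2, h3, h4⟩
    choose! f hf1 hf2 hf3 using h1
    refine Set.ncard_congr (fun p _ => f p.1 p.2) ?_ ?_ ?_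
    · rintro ⟨ζ, ξ⟩ ⟨hζ, hξ⟩
      exact hf2 ζ (hRR hζ) ξ (hRR hξ) hζ hξ
    · rintro ⟨ζ, ξ⟩ ⟨ζ', ξ'⟩ ⟨hζ, hξ⟩ ⟨hζ', hξ'⟩ he
      have he' : f ζ ξ = f ζ' ξ' := he
      obtain ⟨ha, hb⟩ := h4 ζ (hRR hζ) ξ (hRR hξ) ζ' (hRR hζ') ξ' (hRR hξ') (f ζ ξ)
        (hf1 ζ (hRR hζ) ξ (hRR hξ) hζ hξ) hζ hξ hζ' hξ' (hf2 ζ (hRR hζ) ξ (hRR hξ) hζ hξ)
        (hf3 ζ (hRR hζ) ξ (hRR hξ) hζ hξ)
        (by rw [he']; exact hf3 ζ' (hRR hζ') ξ' (hRR hξ') hζ' hξ')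
      rw [ha, hb]
    · intro θ hθ
      obtain ⟨ζ, hζR, ξ, hξR, hζ, hξ, hm⟩ := h2 θ (hRR hθ) hθ
      refine ⟨(ζ, ξ), ⟨hζ, hξ⟩, ?_⟩
      exact h3 ζ hζR ξ hξR (f ζ ξ) (hf1 ζ hζR ξ hξR hζ hξ) θ (hRR hθ) hζ hξ
        (hf2 ζ hζR ξ hξR hζ hξ) hθ (hf3 ζ hζR ξ hξR hζ hξ) hm
  · intro h
    have hf12 : (Sz D z₁ ×ˢ Sz D z₂).Finite := hf1.prod hf2
    obtain ⟨e⟩ : Nonempty ((Sz D z₁ ×ˢ Sz D z₂ : Set (ℂ × ℂ)) ≃ Sz D z₃) := by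
      have := hf12.to_subtype
      have := hf3.to_subtype
      exact Finite.card_eq.1 h
    have := hf12.fintype
    let F : Finset (ℂ × ℂ × ℂ) :=
      Finset.univ.image fun p : (Sz D z₁ ×ˢ Sz D z₂ : Set (ℂ × ℂ)) =>
        ((p : ℂ × ℂ).1, (p : ℂ × ℂ).2, ((e p : Sz D z₃) : ℂ))
    obtain ⟨y, hy, w, hw, hc⟩ := exists_code3 hD F
    have hmem : ∀ {ζ ξ θ : ℂ}, Mem1 D z₁ ζ → Mem1 D z₂ ξ → Mem1 D z₃ θ →
        (Mem3 D y w ζ ξ θ ↔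
          ∃ h : (ζ, ξ) ∈ (Sz D z₁ ×ˢ Sz D z₂), ((e ⟨(ζ, ξ), h⟩ : Sz D z₃) : ℂ) = θ) := by
      intro ζ ξ θ h1 h2 h3
      rw [hc ζ ξ θ h1.1 h2.1 h3.1]
      simp only [F, Finset.mem_image, Finset.mem_univ, true_and, Prod.mk.injEq]
      constructor
      · rintro ⟨⟨⟨a, b⟩, ha⟩, rfl, rfl, rfl⟩
        exact ⟨ha, rfl⟩
      · rintro ⟨h, rfl⟩
        exact ⟨⟨(ζ, ξ), h⟩, rfl, rfl, rfl⟩
    refine ⟨y, hy, w, hw, ?_, ?_, ?_, ?_⟩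
    · intro ζ _ ξ _ hζ hξ
      have hp : (ζ, ξ) ∈ (Sz D z₁ ×ˢ Sz D z₂) := ⟨hζ, hξ⟩
      have hm : Mem1 D z₃ ((e ⟨(ζ, ξ), hp⟩ : Sz D z₃) : ℂ) := (e ⟨(ζ, ξ), hp⟩).2
      exact ⟨_, hRR hm, hm, (hmem hζ hξ hm).2 ⟨hp, rfl⟩⟩
    · intro θ _ hθ
      obtain ⟨⟨⟨ζ, ξ⟩, hp⟩, he⟩ := e.surjective ⟨θ, hθ⟩
      have h1 : Mem1 D z₁ ζ := hp.1
      have h2 : Mem1 D z₂ ξ := hp.2
      exact ⟨ζ, hRR h1, ξ, hRR h2, h1, h2, (hmem h1 h2 hθ).2 ⟨hp, congrArg Subtype.val he⟩⟩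
    · intro ζ _ ξ _ θ _ θ' _ h1 h2 h3 h3' h4 h4'
      obtain ⟨a, ha⟩ := (hmem h1 h2 h3).1 h4
      obtain ⟨b, hb⟩ := (hmem h1 h2 h3').1 h4'
      rw [← ha, ← hb]
    · intro ζ _ ξ _ ζ' _ ξ' _ θ _ h1 h2 h1' h2' h3 h4 h4'
      obtain ⟨a, ha⟩ := (hmem h1 h2 h3).1 h4
      obtain ⟨b, hb⟩ := (hmem h1' h2' h3).1 h4'
      have := e.injective (Subtype.ext (ha.trans hb.symm))
      exact Prod.mk.inj (congrArg Subtype.val this)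

theorem nn_surj {D : ℕ} (hD : D = 1 ∨ D = 3) (n : ℕ) : ∃ z ∈ RR D, z ≠ 0 ∧ nn D z = n := by
  classical
  obtain ⟨ζ, hζ⟩ : ∃ ζ : ℂ, IsPrimitiveRoot ζ (2 ^ n) :=
    ⟨_, Complex.isPrimitiveRoot_exp (2 ^ n) (by positivity)⟩
  let F : Finset ℂ := (Finset.range n).image fun j => ζ ^ j
  have hF : ∀ ξ ∈ F, InA ξ := by
    intro ξ hξ
    simp only [F, Finset.mem_image, Finset.mem_range] at hξ
    obtain ⟨j, -, rfl⟩ := hξ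
    refine ⟨n, ?_⟩
    rw [← pow_mul, mul_comm, pow_mul, hζ.pow_eq_one, one_pow]
  have hcard : F.card = n := by
    rw [Finset.card_image_of_injOn, Finset.card_range]
    intro i hi j hj hij
    have hi' : i < 2 ^ n := (Finset.mem_range.1 hi).trans Nat.lt_two_pow_self
    have hj' : j < 2 ^ n := (Finset.mem_range.1 hj).trans Nat.lt_two_pow_self
    exact hζ.pow_inj hi' hj' hij
  obtain ⟨hm, h0⟩ := prod_mem (D := D) F hF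
  refine ⟨_, hm, h0, ?_⟩
  rw [nn, Sz_prod hD F hF, Set.ncard_coe_finset, hcard]

end Pool.Agent.Lib.MP_fdb342_lc
end

section

/-!
# Numerals
-/

namespace Pool.Agent.Lib.MP_fdb342_lc

/-- the number `e` is coded by `tt e g` if the order of the root of unity `g` is larger than `e` -/
theorem nn_tt {D : ℕ} (hD : D = 1 ∨ D = 3) (e : ℕ) {g : ℂ} (hg : InA g) (h : dd e g ≠ 0) :
    nn D (tt e g) = e ∧ tt e g ∈ RR D ∧ tt e g ≠ 0 := by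
  classical
  have hg0 : g ≠ 0 := by
    rintro rfl
    obtain ⟨k, hk⟩ := hg
    rw [zero_pow (by positivity)] at hk
    exact zero_ne_one hk
  have h1 : ∀ j < e, g ^ (j + 1) ≠ 1 := by
    intro j hj h2
    apply h
    unfold dd
    refine Finset.prod_eq_zero (Finset.mem_range.2 hj) ?_
    rw [h2, sub_self]
  have hlt : ∀ i j : ℕ, i < j → j < e → g ^ (i + 1) ≠ g ^ (j + 1) := by
    intro i j hij hj heq
    apply h1 (j - i - 1) (by omega)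
    have h2 : g ^ (i + 1) * g ^ (j - i - 1 + 1) = g ^ (i + 1) * 1 := by
      rw [← pow_add, mul_one, heq]
      congr 1
      omega
    exact mul_left_cancel₀ (pow_ne_zero _ hg0) h2
  have hinj : Set.InjOn (fun j => g ^ (j + 1)) (Finset.range e : Set ℕ) := by
    intro i hi j hj hij
    rw [Finset.coe_range, Set.mem_Iio] at hi hj
    rcases lt_trichotomy i j with h2 | h2 | h2
    · exact absurd hij (hlt i j h2 hj)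
    · exact h2
    · exact absurd hij.symm (hlt j i h2 hi)
  set F : Finset ℂ := (Finset.range e).image fun j => g ^ (j + 1) with hF
  have hFA : ∀ ζ ∈ F, InA ζ := by
    intro ζ hζ
    obtain ⟨j, -, rfl⟩ := Finset.mem_image.1 hζ
    exact inA_pow hg _
  have htt : tt e g = ∏ ζ ∈ F, (6 - ζ) := by
    rw [hF, Finset.prod_image hinj]
    rfl
  have hcard : F.card = e := by
    rw [hF, Finset.card_image_of_injOn hinj, Finset.card_range]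
  refine ⟨?_, ?_, ?_⟩
  · rw [nn, htt, Sz_prod hD F hFA, Set.ncard_coe_finset, hcard]
  · rw [htt]; exact (prod_mem F hFA).1
  · rw [htt]; exact (prod_mem (D := D) F hFA).2

theorem exists_g (e : ℕ) : ∃ g : ℂ, InA g ∧ dd e g ≠ 0 := by
  have hp := Complex.isPrimitiveRoot_exp (2 ^ e) (by positivity)
  refine ⟨_, ⟨e, hp.pow_eq_one⟩, ?_⟩
  unfold dd
  rw [Finset.prod_ne_zero_iff]
  intro j hj
  rw [Finset.mem_range] at hj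
  rw [sub_ne_zero]
  exact (hp.pow_ne_one_of_pos_of_lt (by omega) (lt_of_le_of_lt hj Nat.lt_two_pow_self)).symm

end Pool.Agent.Lib.MP_fdb342_lc
end
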