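import Pool.Agent.Lib.MP_fdb342_lc.Mg.G004
import Pool.Agent.Lib.MP_fdb342_lc.Mg.G006
import Pool.Agent.Lib.MP_fdb342_lc.Mg.G008
import Pool.Agent.Lib.MP_fdb342_lc.Mg.G003
import Pool.Agent.Lib.MP_fdb342_lc.Mg.G010

section

/-!
# Elements whose order modulo many primes is divisible by an odd prime
-/

open IsDedekindDomain NumberField

namespace Pool.Agent.Lib.MP_fdb342_lc

section Ord

open Pool.Agent.ST

variable {K : Type} [Field K] [NumberField K]

/-- a rational prime in a given prime -/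
private lemma ord_prime (v : HeightOneSpectrum (𝓞 K)) :
    ∃ p : ℕ, p.Prime ∧ (p : 𝓞 K) ∈ v.asIdeal := by
  have key : ∀ N : ℕ, N ≠ 0 → (N : 𝓞 K) ∈ v.asIdeal →
      ∃ p : ℕ, p.Prime ∧ (p : 𝓞 K) ∈ v.asIdeal := by
    intro N
    induction N using induction_on_primes with
    | zero => intro h; exact absurd rfl h
    | one =>
      intro _ h
      exact absurd ((Ideal.eq_top_iff_one _).2 (by simpa using h)) v.isPrime.ne_top
    | prime_mul p n hp ih =>
      intro h0 h
      rw [Nat.cast_mul] at h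
      rcases v.isPrime.mem_or_mem h with h | h
      · exact ⟨p, hp, h⟩
      · exact ih (right_ne_zero_of_mul h0) h
  refine key (Ideal.absNorm v.asIdeal) ?_ (Ideal.absNorm_mem _)
  rw [Ne, Ideal.absNorm_eq_zero_iff]
  exact v.ne_bot

omit [NumberField K] in
private lemma ord_unique (v : HeightOneSpectrum (𝓞 K)) {p q : ℕ} (hp : p.Prime) (hq : q.Prime)
    (h1 : (p : 𝓞 K) ∈ v.asIdeal) (h2 : (q : 𝓞 K) ∈ v.asIdeal) : p = q := by
  by_contra hpq
  obtain ⟨a, b, hab⟩ := Nat.isCoprime_iff_coprime.2 ((Nat.coprime_primes hp hq).2 hpq)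
  apply v.isPrime.ne_top
  rw [Ideal.eq_top_iff_one]
  have h3 : (1 : 𝓞 K) = (a : 𝓞 K) * (p : 𝓞 K) + (b : 𝓞 K) * (q : 𝓞 K) := by
    have := congrArg (Int.cast : ℤ → 𝓞 K) hab
    push_cast at this
    exact this.symm
  rw [h3]
  exact add_mem (v.asIdeal.mul_mem_left _ h1) (v.asIdeal.mul_mem_left _ h2)

private lemma ord_above {p : ℕ} (hp : p.Prime) :
    ∃ v : HeightOneSpectrum (𝓞 K), (p : 𝓞 K) ∈ v.asIdeal := by
  have hpz : Prime (p : ℤ) := Nat.prime_iff_prime_int.1 hp
  have hmax : (Ideal.span {(p : ℤ)}).IsMaximal :=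
    PrincipalIdealRing.isMaximal_of_irreducible hpz.irreducible
  obtain ⟨Q, hQ, hQp⟩ := Ideal.exists_ideal_over_maximal_of_isIntegral (S := 𝓞 K)
    (Ideal.span {(p : ℤ)}) (by
      rw [(RingHom.injective_iff_ker_eq_bot _).1 (FaithfulSMul.algebraMap_injective ℤ (𝓞 K))]
      exact bot_le)
  have hpQ : (p : 𝓞 K) ∈ Q := by
    have h1 : (p : ℤ) ∈ Q.comap (algebraMap ℤ (𝓞 K)) := by
      rw [hQp]; exact Ideal.mem_span_singleton_self _
    simpa using h1
  refine ⟨⟨Q, hQ.isPrime, ?_⟩, hpQ⟩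
  rintro rfl
  rw [Ideal.mem_bot] at hpQ
  exact hp.ne_zero (by exact_mod_cast hpQ)

private lemma ord_infinite (B : Set (HeightOneSpectrum (𝓞 K))) (hB : B.Finite) (T : Finset ℕ) :
    ∃ p : ℕ, p.Prime ∧ p ∉ T ∧ ∃ v : HeightOneSpectrum (𝓞 K), v ∉ B ∧ (p : 𝓞 K) ∈ v.asIdeal := by
  choose f hf1 hf2 using (ord_prime : ∀ v : HeightOneSpectrum (𝓞 K), _)
  have hfin : ((T : Set ℕ) ∪ f '' B).Finite := (Finset.finite_toSet T).union (hB.image f)
  obtain ⟨p, hp, hpT⟩ : ∃ p : ℕ, p.Prime ∧ p ∉ ((T : Set ℕ) ∪ f '' B) := by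
    by_contra hcon
    push Not at hcon
    exact Nat.infinite_setOfPred_prime (hfin.subset hcon)
  obtain ⟨v, hv⟩ := ord_above (K := K) hp
  refine ⟨p, hp, fun h => hpT (Or.inl h), v, fun hvB => hpT (Or.inr ⟨v, hvB, ?_⟩), hv⟩
  exact ord_unique v (hf1 v) hp (hf2 v) hv

private lemma ord_finite {x : K} (hx : x ≠ 0) :
    {v : HeightOneSpectrum (𝓞 K) | v.valuation K x < 1}.Finite := by
  obtain ⟨a, b, hb, hab⟩ := IsFractionRing.div_surjective (A := 𝓞 K) x
  have hb0 : algebraMap (𝓞 K) K b ≠ 0 := by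
    intro h
    apply hx
    rw [← hab, h, div_zero]
  have ha0 : a ≠ 0 := by
    rintro rfl
    apply hx
    rw [← hab, map_zero, zero_div]
  refine (E_finite_mem ha0).subset ?_
  intro v hv
  change v.valuation K x < 1 at hv
  change a ∈ v.asIdeal
  rw [← v.valuation_lt_one_iff_mem (K := K)]
  have h1 : algebraMap (𝓞 K) K a = x * algebraMap (𝓞 K) K b := by
    rw [← hab]; field_simp
  change v.valuation K (algebraMap (𝓞 K) K a) < 1
  rw [h1, map_mul]
  exact (mul_le_of_le_one_right' (v.valuation_le_one b)).trans_lt hv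

end Ord

open Pool.Agent.ST in
theorem exists_odd_order {K : Type} [Field K] [NumberField K] {w : K} (hw0 : w ≠ 0)
    (hw : ¬ ∃ k : ℕ, w ^ (2 ^ k) = 1) :
    ∃ l : ℕ, l.Prime ∧ l ≠ 2 ∧ ∀ T : Finset ℕ, ∃ p : ℕ, p.Prime ∧ p ∉ T ∧
      ∃ v : HeightOneSpectrum (𝓞 K), v.valuation K (p : K) < 1 ∧
        ∀ n : ℕ, v.valuation K (w ^ n - 1) < 1 → l ∣ n := by
  classical
  by_cases hfin : ∃ n : ℕ, 0 < n ∧ w ^ n = 1
  · -- torsion
    have hn0 : 0 < orderOf w := by
      obtain ⟨n, hn, h⟩ := hfin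
      exact orderOf_pos_iff.2 (isOfFinOrder_iff_pow_eq_one.2 ⟨n, hn, h⟩)
    have hodd : ∃ l : ℕ, l.Prime ∧ l ∣ orderOf w ∧ Odd l := by
      rcases Nat.eq_two_pow_or_exists_odd_prime_and_dvd (orderOf w) with ⟨k, hk⟩ | h
      · exact absurd ⟨k, by rw [← hk]; exact pow_orderOf_eq_one w⟩ hw
      · exact h
    obtain ⟨l, hl, hld, hlo⟩ := hodd
    refine ⟨l, hl, by rintro rfl; exact absurd hlo (by decide), fun T => ?_⟩
    set B : Set (HeightOneSpectrum (𝓞 K)) :=
      ⋃ i ∈ Finset.Ioo 0 (orderOf w), {v | v.valuation K (w ^ i - 1) < 1} with hBdef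
    have hB : B.Finite := by
      apply Set.Finite.biUnion (Finset.finite_toSet _)
      intro i hi
      apply ord_finite
      have hi' := Finset.mem_Ioo.1 (Finset.mem_coe.1 hi)
      exact sub_ne_zero.2 (pow_ne_one_of_lt_orderOf hi'.1.ne' hi'.2)
    obtain ⟨p, hp, hpT, v, hvB, hpv⟩ := ord_infinite B hB T
    refine ⟨p, hp, hpT, v, ?_, fun n hn => ?_⟩
    · have := (v.valuation_lt_one_iff_mem (K := K) (r := (p : 𝓞 K))).2 hpv
      simpa using this
    · by_contra hln
      apply hvB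
      have hr : n % orderOf w ≠ 0 := fun h => hln (hld.trans (Nat.dvd_of_mod_eq_zero h))
      simp only [hBdef, Set.mem_iUnion]
      refine ⟨n % orderOf w, Finset.mem_Ioo.2 ⟨Nat.pos_of_ne_zero hr, Nat.mod_lt _ hn0⟩, ?_⟩
      change v.valuation K (w ^ (n % orderOf w) - 1) < 1
      rw [pow_mod_orderOf]
      exact hn
  · push Not at hfin
    obtain ⟨l, hl, hl2, hlw⟩ := exists_not_pow hw0 hfin
    refine ⟨l, hl, hl2, fun T => ?_⟩
    have : NeZero l := ⟨hl.ne_zero⟩
    have : NumberField (CyclotomicField l K) := IsCyclotomicExtension.numberField {l} K _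
    set L := CyclotomicField l K with hL
    have hζ : IsPrimitiveRoot (IsCyclotomicExtension.zeta l K L) l :=
      IsCyclotomicExtension.zeta_spec l K L
    have hdeg : Module.finrank K L < l := by
      rw [(hζ.powerBasis K).finrank, IsPrimitiveRoot.powerBasis_dim]
      have h1 : minpoly K (IsCyclotomicExtension.zeta l K L) ∣ Polynomial.cyclotomic l K := by
        apply minpoly.dvd
        rw [Polynomial.aeval_def, Polynomial.eval₂_eq_eval_map, Polynomial.map_cyclotomic]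
        exact (Polynomial.isRoot_cyclotomic_iff.2 hζ)
      have h2 := Polynomial.natDegree_le_of_dvd h1 (Polynomial.cyclotomic_ne_zero l K)
      rw [Polynomial.natDegree_cyclotomic, Nat.totient_prime hl] at h2
      have := hl.one_lt
      omega
    have hxl : ¬ ∃ y : L, y ^ l = algebraMap K L w := fun h => hlw (pow_of_lt hl hdeg h)
    have hx0 : algebraMap K L w ≠ 0 := by
      rw [Ne, map_eq_zero]
      exact hw0
    set B : Set (HeightOneSpectrum (𝓞 L)) :=
      ⋃ t ∈ T.erase 0, {v | (t : 𝓞 L) ∈ v.asIdeal} with hBdef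
    have hB : B.Finite := by
      apply Set.Finite.biUnion (Finset.finite_toSet _)
      intro i hi
      apply E_finite_mem
      have hi' := Finset.mem_erase.1 (Finset.mem_coe.1 hi)
      exact_mod_cast hi'.1
    obtain ⟨q, hqB, hqx, hqn⟩ := exists_nonresidue hl hζ hx0 hxl B hB
    obtain ⟨p, hp, hpq⟩ := ord_prime q
    have hval : (und K q).valuation K (p : K) < 1 := by
      have h1 : (p : 𝓞 K) ∈ (und K q).asIdeal := by
        rw [← E_mem_und]
        simpa using hpq
      have := ((und K q).valuation_lt_one_iff_mem (K := K) (r := (p : 𝓞 K))).2 h1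
      simpa using this
    refine ⟨p, hp, ?_, und K q, hval, fun n hn => ?_⟩
    · intro hpT
      apply hqB
      simp only [hBdef, Set.mem_iUnion]
      exact ⟨p, Finset.mem_erase.2 ⟨hp.ne_zero, hpT⟩, hpq⟩
    · by_contra hln
      have hcop : Nat.Coprime n l := ((Nat.Prime.coprime_iff_not_dvd hl).2 hln).symm
      obtain ⟨m, -, hm⟩ := Nat.exists_mul_mod_eq_one_of_coprime hcop hl.one_lt
      have hnm : n * m = 1 + l * (n * m / l) := by
        have := Nat.mod_add_div (n * m) l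
        rw [hm] at this
        exact this.symm
      set a := n * m / l with ha
      set x := algebraMap K L w with hx
      apply hqn
      refine ⟨(x⁻¹) ^ a, ?_⟩
      have h1 : q.valuation L (x ^ n - 1) < 1 := by
        have := (E_up q (w ^ n - 1) hn.le).2 hn
        rwa [map_sub, map_pow, map_one] at this
      have h2 : q.valuation L ((x ^ n) ^ m - 1 ^ m) < 1 := by
        apply E_pow _ _ _ h1
        · rw [map_pow, hqx, one_pow]
        · rw [map_one]
      rw [one_pow, ← pow_mul, hnm] at h2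
      have h3 : x - (x⁻¹ ^ a) ^ l = (x⁻¹ ^ a) ^ l * (x ^ (1 + l * a) - 1) := by
        have hxx : (x⁻¹ ^ a) ^ l * x ^ (l * a) = 1 := by
          rw [← pow_mul, mul_comm a l, inv_pow, inv_mul_cancel₀ (pow_ne_zero _ hx0)]
        calc x - (x⁻¹ ^ a) ^ l = x * ((x⁻¹ ^ a) ^ l * x ^ (l * a)) - (x⁻¹ ^ a) ^ l := by
              rw [hxx, mul_one]
          _ = _ := by rw [pow_add, pow_one]; ring
      rw [h3, map_mul, map_pow, map_pow, map_inv₀, hqx, inv_one, one_pow, one_pow, one_mul]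
      exact h2

end Pool.Agent.Lib.MP_fdb342_lc
end

section

/-!
# The set of roots of unity of `2`-power order is first-order definable in `RR D`
-/

open IsDedekindDomain NumberField

namespace Pool.Agent.Lib.MP_fdb342_lc

private lemma C2_nat_mem {D : ℕ} (n : ℕ) : (n : ℂ) ∈ RR D := natCast_mem _ n

private lemma C2_int_mem {D : ℕ} (n : ℤ) : (n : ℂ) ∈ RR D := intCast_mem _ n

/-- coprime natural numbers are comaximal -/
private lemma C2_comax {D : ℕ} {a b : ℕ} (h : Nat.Coprime a b) : Comax D a b := by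
  obtain ⟨x, y, hxy⟩ := (Nat.isCoprime_iff_coprime.2 h)
  refine ⟨x, C2_int_mem x, y, C2_int_mem y, ?_⟩
  exact_mod_cast hxy

section val

variable {K : Type*} [Field K] [NumberField K] (v : HeightOneSpectrum (𝓞 K))

private lemma C2_val_int (n : ℤ) : v.valuation K (n : K) ≤ 1 := by
  have h := HeightOneSpectrum.valuation_le_one (K := K) v (n : 𝓞 K)
  simpa using h

private lemma C2_val_nat (n : ℕ) : v.valuation K (n : K) ≤ 1 := by
  have h := C2_val_int v (n : ℤ)
  simpa using h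

private lemma C2_val_coprime {a b : ℕ} (h : Nat.Coprime a b) (ha : v.valuation K (a : K) < 1) :
    v.valuation K (b : K) = 1 := by
  refine le_antisymm (C2_val_nat v b) ?_
  by_contra hb
  push Not at hb
  obtain ⟨x, y, hxy⟩ := (Nat.isCoprime_iff_coprime.2 h)
  have h1 : (x : K) * (a : K) + (y : K) * (b : K) = 1 := by exact_mod_cast congrArg (Int.cast : ℤ → K) hxy
  have h2 : v.valuation K ((x : K) * (a : K)) < 1 := by
    rw [map_mul]
    exact mul_lt_one_of_nonneg_of_lt_one_right (C2_val_int v x) zero_le ha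
  have h3 : v.valuation K ((y : K) * (b : K)) < 1 := by
    rw [map_mul]
    exact mul_lt_one_of_nonneg_of_lt_one_right (C2_val_int v y) zero_le hb
  have h4 := Valuation.map_add_lt _ h2 h3
  rw [h1, map_one] at h4
  exact lt_irrefl _ h4

private lemma C2_val_pow {x y : K} (hx : v.valuation K x ≤ 1) (hy : v.valuation K y ≤ 1)
    (h : v.valuation K (x - y) < 1) (n : ℕ) : v.valuation K (x ^ n - y ^ n) < 1 := by
  induction n with
  | zero => simp
  | succ n ih =>
    have e : x ^ (n + 1) - y ^ (n + 1) = x ^ n * (x - y) + y * (x ^ n - y ^ n) := by ring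
    rw [e]
    refine Valuation.map_add_lt _ ?_ ?_
    · rw [map_mul, map_pow]
      exact mul_lt_one_of_nonneg_of_lt_one_right (pow_le_one₀ zero_le hx) zero_le h
    · rw [map_mul]
      exact mul_lt_one_of_nonneg_of_lt_one_right hy zero_le ih

end val

theorem inA_of_inM {D : ℕ} (hD : D = 1 ∨ D = 3) {w : ℂ} (hw : InM D w) : InA w := by
  classical
  by_contra hnA
  obtain ⟨hwR, hM⟩ := hw
  -- `w ≠ 0`
  have hw0 : w ≠ 0 := by
    rintro rfl
    obtain ⟨u, hu, huU, h2, -⟩ := hM 2 (by exact_mod_cast C2_nat_mem (D := D) 2) 1 (one_mem _)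
      two_ne_zero one_ne_zero ⟨0, zero_mem _, 1, one_mem _, by ring⟩
    rw [sub_zero] at h2
    exact not_dvd_one_two hD huU h2
  -- `w` is a unit
  have hwU : IsU D w := by
    obtain ⟨u, hu, ⟨-, v, hv, huv⟩, ⟨c, hc, hcw⟩, -⟩ := hM w hwR 1 (one_mem _)
      hw0 one_ne_zero ⟨0, zero_mem _, 1, one_mem _, by ring⟩
    refine ⟨hwR, (1 + c) * v, mul_mem (add_mem (one_mem _) hc) hv, ?_⟩
    have h1 : u = w * (1 + c) := by linear_combination hcw
    rw [← mul_assoc, ← h1, huv]
  obtain ⟨K, hK, hwK⟩ := IsConstructible.exists_good (mem_Omega.1 hwR.1)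
  have hfd := hK.finiteDimensional
  have hNF : NumberField K := ⟨⟩
  set wK : K := ⟨w, hwK⟩ with hwK_def
  have hwK0 : wK ≠ 0 := fun h => hw0 (congrArg Subtype.val h)
  have hnot : ¬ ∃ k : ℕ, wK ^ (2 ^ k) = 1 := by
    rintro ⟨k, hk⟩
    apply hnA
    refine ⟨k, ?_⟩
    have := congrArg (Subtype.val : K → ℂ) hk
    simpa [wK] using this
  obtain ⟨l, hl, hl2, H⟩ := exists_odd_order hwK0 hnot
  have hfin := UK_fin hD hK l hl.ne_zero
  set N := Nat.card (UK D K ⧸ (powMonoidHom l : UK D K →* UK D K).range) with hN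
  -- the primes
  obtain ⟨p, hp, hpne⟩ := exists_seq_of_forall_finset_exists (α := ℕ)
    (fun p => p.Prime ∧ p ≠ 3 ∧ ∃ v : HeightOneSpectrum (𝓞 K), v.valuation K (p : K) < 1 ∧
        ∀ n : ℕ, v.valuation K (wK ^ n - 1) < 1 → l ∣ n) (fun x y => x ≠ y) (by
      intro s _
      obtain ⟨p, hp, hps, v, hv1, hv2⟩ := H (insert 3 s)
      rw [Finset.mem_insert, not_or] at hps
      exact ⟨p, ⟨hp, hps.1, v, hv1, hv2⟩, fun x hx h => hps.2 (h ▸ hx)⟩)
  have hinj : Function.Injective p := by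
    intro a b hab
    rcases lt_trichotomy a b with h | h | h
    · exact absurd hab (hpne a b h)
    · exact h
    · exact absurd hab.symm (hpne b a h)
  choose hpp hp3 v hv1 hv2 using hp
  have hvD : ∀ i, (v i).valuation K (D : K) = 1 := by
    intro i
    rcases hD with rfl | rfl
    · simp
    · exact C2_val_coprime (v i) ((Nat.coprime_primes (hpp i) Nat.prime_three).2 (hp3 i)) (hv1 i)
  choose V hVf hV using fun i : Fin N => UK_cong (D := D) (K := K) (v i) (hvD i)
  -- the units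
  have key : ∀ i : Fin N, ∃ e : UK D K, (∀ k : Fin N, k ≠ i → e ∈ V k) ∧
      ∀ n : ℕ, e ^ n ∈ V i → l ∣ n := by
    intro i
    set m' : ℕ := ∏ k ∈ (Finset.univ.erase i : Finset (Fin N)), p k with hm'
    have hcop : Nat.Coprime (p i) m' := by
      refine Nat.Coprime.prod_right fun k hk => ?_
      refine (Nat.coprime_primes (hpp _) (hpp _)).2 fun h => ?_
      exact (Finset.ne_of_mem_erase hk) (Fin.ext (hinj h)).symm
    have hp0 : ((p i : ℕ) : ℂ) ≠ 0 := Nat.cast_ne_zero.2 (hpp i).ne_zero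
    have hm0 : (m' : ℂ) ≠ 0 :=
      Nat.cast_ne_zero.2 (Finset.prod_ne_zero_iff.2 fun k _ => (hpp k).ne_zero)
    obtain ⟨u, -, huU, hu1, hu2⟩ := hM (p i) (C2_nat_mem _) m' (C2_nat_mem _) hp0 hm0
      (C2_comax hcop)
    obtain ⟨j, e, heK, heU, he1, he2⟩ := norm_down hK hwK hwR (natCast_mem K (p i))
      (C2_nat_mem _) (natCast_mem K m') (C2_nat_mem _) huU hu1 hu2
    have he0 : (⟨e, heK⟩ : K) ≠ 0 := by
      intro h
      obtain ⟨-, c, -, hc⟩ := heU
      have h' : e = 0 := congrArg Subtype.val h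
      rw [h', zero_mul] at hc
      exact zero_ne_one hc
    refine ⟨⟨Units.mk0 ⟨e, heK⟩ he0, heU⟩, ?_, ?_⟩
    · intro k hk
      rw [hV]
      obtain ⟨c, hc, hcc⟩ := he2
      have hcK : c ∈ K := by
        have : c = (e - 1) / (m' : ℂ) := by
          rw [hcc]; field_simp
        rw [this]
        exact div_mem (sub_mem heK (one_mem _)) (natCast_mem K m')
      have e1 : ((Units.mk0 (⟨e, heK⟩ : K) he0 : Kˣ) : K) - 1 = (m' : K) * ⟨c, hcK⟩ := by
        apply Subtype.ext
        simpa using hcc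
      have hm'lt : (v k).valuation K (m' : K) < 1 := by
        have hdvd : p k ∣ m' := Finset.dvd_prod_of_mem _ (Finset.mem_erase.2 ⟨hk, Finset.mem_univ _⟩)
        obtain ⟨t, ht⟩ := hdvd
        rw [ht, Nat.cast_mul, map_mul, mul_comm]
        exact mul_lt_one_of_nonneg_of_lt_one_right (C2_val_nat _ _) zero_le (hv1 k)
      show (v k).valuation K (((Units.mk0 (⟨e, heK⟩ : K) he0 : Kˣ) : K) - 1) < 1
      rw [e1, map_mul, mul_comm]
      exact mul_lt_one_of_nonneg_of_lt_one_right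
        (valuation_le_one (D := D) (x := ⟨c, hcK⟩) hc (v k) (hvD k)) zero_le hm'lt
    · intro n hn
      rw [hV] at hn
      have hn' : (v i).valuation K ((⟨e, heK⟩ : K) ^ n - 1) < 1 := by
        have e2 : (((⟨Units.mk0 ⟨e, heK⟩ he0, heU⟩ : UK D K) ^ n : UK D K) : Kˣ) =
          (Units.mk0 (⟨e, heK⟩ : K) he0) ^ n := rfl
        rw [e2] at hn
        simpa using hn
      obtain ⟨c, hc, hcc⟩ := he1
      have hcK : c ∈ K := by
        have : c = (e - w ^ (2 ^ j)) / (p i : ℂ) := by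
          rw [hcc]; field_simp
        rw [this]
        exact div_mem (sub_mem heK (pow_mem hwK _)) (natCast_mem K (p i))
      have h1 : (v i).valuation K ((⟨e, heK⟩ : K) - wK ^ (2 ^ j)) < 1 := by
        have e1 : (⟨e, heK⟩ : K) - wK ^ (2 ^ j) = (p i : K) * ⟨c, hcK⟩ := by
          apply Subtype.ext
          simpa [wK] using hcc
        rw [e1, map_mul, mul_comm]
        exact mul_lt_one_of_nonneg_of_lt_one_right
          (valuation_le_one (D := D) (x := ⟨c, hcK⟩) hc (v i) (hvD i)) zero_le (hv1 i)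
      have hve : (v i).valuation K (⟨e, heK⟩ : K) ≤ 1 :=
        valuation_le_one (D := D) (x := ⟨e, heK⟩) heU.1 (v i) (hvD i)
      have hvw : (v i).valuation K wK ≤ 1 :=
        valuation_le_one (D := D) (x := wK) hwR (v i) (hvD i)
      have hvw' : (v i).valuation K (wK ^ (2 ^ j)) ≤ 1 := by
        rw [map_pow]
        exact pow_le_one₀ zero_le hvw
      have h2 := C2_val_pow (v i) hve hvw' h1 n
      have h3 : (v i).valuation K (wK ^ (2 ^ j * n) - 1) < 1 := by
        have e3 : wK ^ (2 ^ j * n) - 1 = -((⟨e, heK⟩ : K) ^ n - (wK ^ (2 ^ j)) ^ n) +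
            ((⟨e, heK⟩ : K) ^ n - 1) := by
          rw [pow_mul]; ring
        rw [e3]
        refine Valuation.map_add_lt _ ?_ hn'
        rw [Valuation.map_neg]
        exact h2
      have h4 := hv2 i _ h3
      rcases (hl.dvd_mul).1 h4 with h5 | h5
      · exact absurd ((Nat.prime_dvd_prime_iff_eq hl Nat.prime_two).1 (hl.dvd_of_dvd_pow h5)) hl2
      · exact h5
  choose e he1 he2 using key
  have hb := rank_bound l hl hfin V hVf e (fun i k hk => he1 i k hk) he2
  rw [Fintype.card_fin, ← hN] at hb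
  exact absurd (Nat.lt_pow_self hl.one_lt (n := N)) (not_lt.2 hb)

theorem inM_iff_inA {D : ℕ} (hD : D = 1 ∨ D = 3) (w : ℂ) : InM D w ↔ InA w :=
  ⟨inA_of_inM hD, inM_of_inA (by rcases hD with rfl | rfl <;> norm_num)⟩

end Pool.Agent.Lib.MP_fdb342_lc
end

section

/-!
# The class of arithmetical predicates represented in `RR D`
-/

open FirstOrder FirstOrder.Language FirstOrder.Ring

namespace Pool.Agent.Lib.MP_fdb342_lc

variable {M : Type} [CommRing M] [CompatibleRing M]

/-- The predicate `X` on natural numbers is represented by a definable predicate on codes. -/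
def RepC (ι : M →+* ℂ) (D : ℕ) (n : ℕ) (X : (Fin n → ℕ) → Prop) : Prop :=
  Dfn fun v : Fin n → M => (∀ i, ι (v i) ∈ RR D ∧ ι (v i) ≠ 0) ∧ X fun i => nn D (ι (v i))

private lemma Rep1_true {n : ℕ} : Dfn fun _ : Fin n → M => True :=
  ⟨⊤, fun v => by simp [Formula.Realize]⟩

private lemma Rep1_forall {n : ℕ} : ∀ (m : ℕ) (P : Fin m → (Fin n → M) → Prop),
    (∀ i, Dfn (P i)) → Dfn fun v : Fin n → M => ∀ i, P i v := by
  intro m
  induction m with
  | zero =>
    intro P _
    exact Rep1_true.congr fun v => by simp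
  | succ m ih =>
    intro P hP
    refine ((hP 0).and (ih (fun i => P i.succ) fun i => hP i.succ)).congr fun v => ?_
    exact Fin.forall_fin_succ

private lemma Rep1_valid {ι : M →+* ℂ} {D : ℕ} (c : Ctx ι D) (n : ℕ) :
    Dfn fun v : Fin n → M => ∀ i, ι (v i) ∈ RR D ∧ ι (v i) ≠ 0 :=
  Rep1_forall n (fun i v => ι (v i) ∈ RR D ∧ ι (v i) ≠ 0) fun i =>
    (c.defR _ _ (Tm.var i)).and (Dfn.ne c.inj (Tm.var i) Tm.zero)

theorem repC_arith {ι : M →+* ℂ} {D : ℕ} (hD : D = 1 ∨ D = 3) (c : Ctx ι D) :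
    ArithClass (RepC ι D) where
  and := by
    intro n P Q hP hQ
    exact (Dfn.and hP hQ).congr fun v => by tauto
  not := by
    intro n P hP
    exact (Dfn.and (Rep1_valid c n) (Dfn.not hP)).congr fun v => by tauto
  ex := by
    intro n P hP
    have h1 : Dfn fun v : Fin (n + 1) → M =>
        (fun (u : Fin n → M) (x : M) => (∀ i, ι (u i) ∈ RR D ∧ ι (u i) ≠ 0) ∧
          (ι x ∈ RR D ∧ ι x ≠ 0) ∧ P (fun i => nn D (ι (u i))) (nn D (ι x)))
          (fun i => v i.castSucc) (v (Fin.last n)) := by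
      refine Dfn.congr hP fun v => ?_
      rw [Fin.forall_fin_succ']
      tauto
    refine (Dfn.ex (Q := fun (u : Fin n → M) (x : M) => (∀ i, ι (u i) ∈ RR D ∧ ι (u i) ≠ 0) ∧
          (ι x ∈ RR D ∧ ι x ≠ 0) ∧ P (fun i => nn D (ι (u i))) (nn D (ι x))) h1).congr fun v => ?_
    constructor
    · rintro ⟨hv, x, hx⟩
      obtain ⟨z, hz, hz0, hzn⟩ := nn_surj hD x
      obtain ⟨y, rfl⟩ := c.range z hz
      exact ⟨y, hv, ⟨hz, hz0⟩, by rw [hzn]; exact hx⟩
    · rintro ⟨y, hv, -, hy⟩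
      exact ⟨hv, _, hy⟩
  reindex := by
    intro n m P hP s
    refine (Dfn.and (Rep1_valid c m) (Dfn.reindex hP s)).congr fun v => ?_
    constructor
    · rintro ⟨h1, h2⟩
      exact ⟨h1, fun i => h1 (s i), h2⟩
    · rintro ⟨h1, -, h2⟩
      exact ⟨h1, h2⟩
  add := by
    have h := c.addC (inM_iff_inA hD) 3 (fun v => ι (v 0)) (fun v => ι (v 1)) (fun v => ι (v 2))
      (Tm.var _) (Tm.var _) (Tm.var _)
    refine (Dfn.and (Rep1_valid c 3) h).congr fun v => ?_
    refine and_congr_right fun hv => ?_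
    exact (addC_iff hD (hv 0).1 (hv 0).2 (hv 1).1 (hv 1).2 (hv 2).1 (hv 2).2).symm
  mul := by
    have h := c.mulC (inM_iff_inA hD) 3 (fun v => ι (v 0)) (fun v => ι (v 1)) (fun v => ι (v 2))
      (Tm.var _) (Tm.var _) (Tm.var _)
    refine (Dfn.and (Rep1_valid c 3) h).congr fun v => ?_
    refine and_congr_right fun hv => ?_
    exact (mulC_iff hD (hv 0).1 (hv 0).2 (hv 1).1 (hv 1).2 (hv 2).1 (hv 2).2).symm

end Pool.Agent.Lib.MP_fdb342_lc
end

section

/-!
# Undecidability of rings in which `RR D` is definable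
-/

open FirstOrder FirstOrder.Language FirstOrder.Ring

namespace Pool.Agent.Lib.MP_fdb342_lc

variable {M : Type} [CommRing M] [CompatibleRing M]

/-- **Undecidability** of every ring in which `RR D` is definable. -/
theorem not_decidable {ι : M →+* ℂ} {D : ℕ} (hD : D = 1 ∨ D = 3) (c : Ctx ι D) :
    ¬ DecidableTheory M := by
  obtain ⟨H, hH, hCH⟩ := (repC_arith hD c).exists_noncomputable
  have htt : ∀ (e : ℕ) (g : M), ι (tt e g) = tt e (ι g) := by
    intro e g
    have h6 : ι 6 = 6 := map_ofNat ι 6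
    simp [tt, map_prod, h6]
  have hdd : ∀ (e : ℕ) (g : M), ι (dd e g) = dd e (ι g) := by
    intro e g
    simp [dd, map_prod]
  refine not_decidableTheory_of (fun x => InA (ι x))
    (fun x => ι x ∈ RR D ∧ ι x ≠ 0 ∧ H (nn D (ι x))) ?_ ?_ H hH ?_ ?_
  · exact c.inA (inM_iff_inA hD) _ _ (Tm.var 0)
  · refine Dfn.congr hCH fun v => ?_
    constructor
    · rintro ⟨h1, h2, h3⟩
      refine ⟨fun i => ?_, h3⟩
      rw [Subsingleton.elim i 0]
      exact ⟨h1, h2⟩
    · rintro ⟨h1, h2⟩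
      exact ⟨(h1 0).1, (h1 0).2, h2⟩
  · intro e
    obtain ⟨g, hg, hd⟩ := exists_g e
    obtain ⟨y, rfl⟩ := c.range g (inA_mem_RR hg)
    refine ⟨y, hg, fun h => hd ?_⟩
    rw [← hdd, h, map_zero]
  · intro e g hg hd
    have hd' : dd e (ι g) ≠ 0 := by
      rw [← hdd]
      exact fun h => hd (c.inj (by rw [h, map_zero]))
    obtain ⟨h1, h2, h3⟩ := nn_tt hD e hg hd'
    show (ι (tt e g) ∈ RR D ∧ ι (tt e g) ≠ 0 ∧ H (nn D (ι (tt e g)))) ↔ H e
    rw [htt, h1]
    exact ⟨fun h => h.2.2, fun h => ⟨h2, h3, h⟩⟩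

end Pool.Agent.Lib.MP_fdb342_lc
end
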