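import Pool.Agent.Lib.MP_fdb342_lc.Mg.G002
import Pool.Agent.Lib.MP_fdb342_lc.Mg.G001

section

/-!
# The decomposition group at places where `d` is a local cube
-/

open IsDedekindDomain NumberField

namespace Pool.Agent.Lib.MP_fdb342_lc

variable {K : Type} [Field K] [NumberField K] {E : Type} [Field E] [NumberField E] [Algebra K E]

theorem hn11a_act {ζ : K} {d : Kˣ} {α : E} {σ : E ≃ₐ[K] E} (hk : Kum K ζ d E α σ) (i : ℕ) :
    (σ ^ i) α = algebraMap K E ζ ^ i * α := by
  induction i with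
  | zero => simp
  | succ i ih =>
    rw [pow_succ', AlgEquiv.mul_apply, ih, map_mul, map_pow, AlgEquiv.commutes, hk.act, pow_succ]
    ring

theorem hn11a_cube {ζ : K} {d : Kˣ} {α : E} {σ : E ≃ₐ[K] E} (hk : Kum K ζ d E α σ) :
    σ ^ 3 = 1 := by
  have := hk.gal
  have h1 : Nat.card (E ≃ₐ[K] E) = 3 := by
    rw [IsGalois.card_aut_eq_finrank, hk.deg]
  rw [← h1]
  exact pow_card_eq_one'

theorem hn11a_ne {ζ : K} {d : Kˣ} {α : E} {σ : E ≃ₐ[K] E} (hk : Kum K ζ d E α σ) : α ≠ 0 := by
  intro h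
  have h1 := hk.pow
  rw [h, zero_pow (by norm_num)] at h1
  exact d.ne_zero ((map_eq_zero (algebraMap K E)).mp h1.symm)

theorem hn11a_prim {ζ : K} {d : Kˣ} {α : E} {σ : E ≃ₐ[K] E} (hk : Kum K ζ d E α σ) :
    IsPrimitiveRoot (algebraMap K E ζ) 3 :=
  hk.prim.map_of_injective (algebraMap K E).injective

/-- If `d y ^ 3` is very close to `1` at `v`, then the Galois group acts freely on the places
above `v`. -/
theorem spl {ζ : K} {d : Kˣ} {α : E} {σ : E ≃ₐ[K] E} (hk : Kum K ζ d E α σ) (P : Pl E) {y : Kˣ}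
    (hy : (bel K P).valuation K (((d * y ^ 3 : Kˣ) : K) - 1) <
      (bel K P).valuation K (ζ - 1) ^ 3) (τ : E ≃ₐ[K] E)
    (hτ : ∀ x : E, P.valuation E (τ x) = P.valuation E x) : τ = 1 := by
  have hz := hn11a_prim hk
  set z : E := algebraMap K E ζ with hzdef
  have hz3 : z ^ 3 = 1 := hz.pow_eq_one
  have hz1 : z ≠ 1 := hz.ne_one (by norm_num)
  have hzq : z ^ 2 + z + 1 = 0 := by
    have h1 : (z - 1) * (z ^ 2 + z + 1) = 0 := by linear_combination hz3
    exact (mul_eq_zero.mp h1).resolve_left (sub_ne_zero.mpr hz1)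
  obtain ⟨e, he, hval⟩ := val_bel (K := K) P
  set c : E := α * algebraMap K E (y : K) with hc
  have hc3 : c ^ 3 = algebraMap K E ((d * y ^ 3 : Kˣ) : K) := by
    rw [hc, mul_pow, hk.pow]
    push_cast
    simp
  have hclose : P.valuation E (c ^ 3 - 1) < P.valuation E (z - 1) ^ 3 := by
    have h1 : c ^ 3 - 1 = algebraMap K E (((d * y ^ 3 : Kˣ) : K) - 1) := by
      rw [map_sub, map_one, hc3]
    have h2 : z - 1 = algebraMap K E (ζ - 1) := by rw [map_sub, map_one]
    rw [h1, h2, hval, hval, ← pow_mul, mul_comm e 3, pow_mul]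
    exact pow_lt_pow_left₀ hy zero_le he.ne'
  have hfac : c ^ 3 - 1 = (c - z ^ 0) * (c - z ^ 1) * (c - z ^ 2) := by
    linear_combination (c ^ 2 - c * z) * hzq + hz3
  have hzv : P.valuation E z = 1 := by
    have h1 : P.valuation E z ^ 3 = 1 := by rw [← map_pow, hz3, map_one]
    exact (pow_eq_one_iff_of_nonneg zero_le (by norm_num)).mp h1
  -- a cube root of unity close to `c`
  obtain ⟨j, hj⟩ : ∃ j : ℕ, P.valuation E (c - z ^ j) < P.valuation E (z - 1) := by
    by_contra hcon
    push Not at hcon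
    have h1 : P.valuation E (z - 1) ^ 3 ≤ P.valuation E (c ^ 3 - 1) := by
      rw [hfac, map_mul, map_mul, pow_succ, pow_two]
      exact mul_le_mul' (mul_le_mul' (hcon 0) (hcon 1)) (hcon 2)
    exact absurd hclose (not_lt.mpr h1)
  obtain ⟨i, rfl⟩ := hk.gen τ
  have hτc : (σ ^ i) c = z ^ i * c := by
    rw [hc, map_mul, hn11a_act hk i, AlgEquiv.commutes]
    ring
  have h1 : P.valuation E (z ^ i * c - z ^ j) < P.valuation E (z - 1) := by
    have h2 : z ^ i * c - z ^ j = (σ ^ i) (c - z ^ j) := by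
      rw [map_sub, hτc, map_pow, AlgEquiv.commutes]
    rw [h2, hτ]
    exact hj
  have h3 : P.valuation E (z ^ i * c - z ^ (i + j)) < P.valuation E (z - 1) := by
    have h2 : z ^ i * c - z ^ (i + j) = z ^ i * (c - z ^ j) := by ring
    rw [h2, map_mul, map_pow, hzv, one_pow, one_mul]
    exact hj
  have h4 : P.valuation E (z ^ i - 1) < P.valuation E (z - 1) := by
    have h5 : z ^ j * (z ^ i - 1) = (z ^ i * c - z ^ j) - (z ^ i * c - z ^ (i + j)) := by ring
    have h6 : P.valuation E (z ^ j * (z ^ i - 1)) < P.valuation E (z - 1) := by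
      rw [h5]
      exact lt_of_le_of_lt (Valuation.map_sub _ _ _) (max_lt h1 h3)
    rw [map_mul, map_pow, hzv, one_pow, one_mul] at h6
    exact h6
  have hi : i % 3 = 0 := by
    have h7 : z ^ i = z ^ (i % 3) := by
      conv_lhs => rw [← Nat.div_add_mod i 3, pow_add, pow_mul, hz3, one_pow, one_mul]
    rw [h7] at h4
    have h8 : i % 3 < 3 := Nat.mod_lt _ (by norm_num)
    interval_cases h9 : i % 3
    · rfl
    · rw [pow_one] at h4
      exact absurd h4 (lt_irrefl _)
    · exfalso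
      have h10 : z ^ 2 - 1 = -(z ^ 2) * (z - 1) := by linear_combination hzq * (z - 1) - hz3 + hz3
      rw [h10, map_mul, Valuation.map_neg, map_pow, hzv, one_pow, one_mul] at h4
      exact absurd h4 (lt_irrefl _)
  obtain ⟨k, hk'⟩ := Nat.dvd_of_mod_eq_zero hi
  rw [hk', pow_mul, hn11a_cube hk, one_pow]

theorem three_le_above {ζ : K} {d : Kˣ} {α : E} {σ : E ≃ₐ[K] E} (hk : Kum K ζ d E α σ)
    (v : Pl K) {y : Kˣ}
    (hy : v.valuation K (((d * y ^ 3 : Kˣ) : K) - 1) < v.valuation K (ζ - 1) ^ 3) :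
    3 ≤ {P : Pl E | bel K P = v}.ncard := by
  classical
  obtain ⟨P, rfl⟩ := exists_above (E := E) v
  choose Q hQ1 hQ2 using fun i : Fin 3 => exists_sm (K := K) (σ ^ (i : ℕ)) P
  have key : ∀ i j : Fin 3, i < j → Q i ≠ Q j := by
    intro i j hij h
    have hij' : (i : ℕ) < j := hij
    have h1 : σ ^ ((j : ℕ) - i) = 1 := by
      refine spl hk P hy _ fun x => ?_
      rw [← hQ2 i ((σ ^ ((j : ℕ) - i)) x), ← AlgEquiv.mul_apply, ← pow_add,
        Nat.add_sub_cancel' hij'.le, h, hQ2 j x]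
    have h2 := hn11a_act hk ((j : ℕ) - i)
    rw [h1, AlgEquiv.one_apply] at h2
    have h3 : algebraMap K E ζ ^ ((j : ℕ) - i) = 1 :=
      mul_right_cancel₀ (hn11a_ne hk) (by rw [one_mul]; exact h2.symm)
    have h4 := (hn11a_prim hk).pow_eq_one_iff_dvd _ |>.mp h3
    have h5 := Nat.le_of_dvd (by omega) h4
    have h6 := j.isLt
    omega
  have hinj : Function.Injective Q := by
    intro i j h
    rcases lt_trichotomy i j with h1 | h1 | h1
    · exact absurd h (key i j h1)
    · exact h1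
    · exact absurd h.symm (key j i h1)
  have h1 : ((Finset.univ.image Q : Finset (Pl E)) : Set (Pl E)) ⊆
      {P' : Pl E | bel K P' = bel K P} := by
    intro R hR
    obtain ⟨i, -, rfl⟩ := Finset.mem_image.mp (Finset.mem_coe.mp hR)
    exact hQ1 i
  have h2 := Set.ncard_le_ncard h1 (finite_above _)
  rw [Set.ncard_coe_finset, Finset.card_image_of_injective _ hinj, Finset.card_univ,
    Fintype.card_fin] at h2
  exact h2

end Pool.Agent.Lib.MP_fdb342_lc
end

section

/-!
# Counting places of a cubic Kummer extension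
-/

open IsDedekindDomain NumberField

namespace Pool.Agent.Lib.MP_fdb342_lc

variable {K : Type} [Field K] [NumberField K] {E : Type} [Field E] [NumberField E] [Algebra K E]


open Classical in
/-- the places above the places in `S` -/
noncomputable def SE (E : Type) [Field E] [NumberField E] [Algebra K E] (S : Finset (Pl K)) :
    Finset (Pl E) := S.biUnion fun v => (finite_above (E := E) v).toFinset

theorem mem_SE {S : Finset (Pl K)} {P : Pl E} : P ∈ SE E S ↔ bel K P ∈ S := by
  unfold SE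
  simp only [Finset.mem_biUnion, Set.Finite.mem_toFinset, Set.mem_ofPred_eq]
  constructor
  · rintro ⟨v, hv, rfl⟩
    exact hv
  · intro h
    exact ⟨_, h, rfl⟩

open Classical in
/-- the places in `S` not above `3` at which `d` is not a cube -/
noncomputable def bad (d : Kˣ) (S : Finset (Pl K)) : Finset (Pl K) :=
  S.filter fun v => ¬ Above3 v ∧ d ∉ LCv v

private lemma hn11b_sq (v : Pl K) {ζ : K} (hζ : IsPrimitiveRoot ζ 3) :
    v.valuation K (ζ - 1) ^ 2 = v.valuation K (3 : K) := by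
  have h1 : v.valuation K ζ = 1 := by
    have h := hζ.pow_eq_one
    have h2 : v.valuation K ζ ^ 3 = 1 := by rw [← map_pow, h, map_one]
    rcases lt_trichotomy (v.valuation K ζ) 1 with h3 | h3 | h3
    · exact absurd h2 (pow_lt_one₀ zero_le h3 (by norm_num)).ne
    · exact h3
    · exact absurd h2 (one_lt_pow₀ h3 (by norm_num)).ne'
  have h3 : ζ ^ 2 + ζ + 1 = 0 := by
    have h := hζ.pow_eq_one
    have hne : ζ - 1 ≠ 0 := sub_ne_zero.2 (hζ.ne_one (by norm_num))
    have h4 : (ζ - 1) * (ζ ^ 2 + ζ + 1) = 0 := by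
      have : (ζ - 1) * (ζ ^ 2 + ζ + 1) = ζ ^ 3 - 1 := by ring
      rw [this, h, sub_self]
    exact (mul_eq_zero.1 h4).resolve_left hne
  have h5 : (ζ - 1) ^ 2 = - (3 * ζ) := by linear_combination h3
  rw [← map_pow, h5, Valuation.map_neg, map_mul, h1, mul_one]

theorem card_SE {ζ : K} {d : Kˣ} {α : E} {σ : E ≃ₐ[K] E} (hk : Kum K ζ d E α σ) (hd : d ∈ L3 K)
    (S : Finset (Pl K)) : 3 * S.card ≤ (SE E S).card + 2 * (bad d S).card := by
  classical
  have hdisj : (S : Set (Pl K)).PairwiseDisjoint fun v => (finite_above (E := E) v).toFinset := by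
    intro v _ w _ hvw
    rw [Function.onFun, Finset.disjoint_left]
    intro P hP hP'
    rw [Set.Finite.mem_toFinset, Set.mem_ofPred_eq] at hP hP'
    exact hvw (hP.symm.trans hP')
  have h1 : (SE E S).card = ∑ v ∈ S, ((finite_above (E := E) v).toFinset).card :=
    Finset.card_biUnion hdisj
  have h2 : (bad d S).card = ∑ v ∈ S, if (¬ Above3 v ∧ d ∉ LCv v) then 1 else 0 := by
    unfold bad
    rw [Finset.card_filter]
  rw [h1, h2, Finset.mul_sum, ← Finset.sum_add_distrib, mul_comm, ← smul_eq_mul,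
    ← Finset.sum_const]
  refine Finset.sum_le_sum fun v _ => ?_
  have hcard : ((finite_above (E := E) v).toFinset).card = {P : Pl E | bel K P = v}.ncard :=
    (Set.ncard_eq_toFinset_card _ _).symm
  rw [hcard]
  by_cases hb : ¬ Above3 v ∧ d ∉ LCv v
  · rw [if_pos hb]
    obtain ⟨P, hP⟩ := exists_above (E := E) v
    have : 0 < {P : Pl E | bel K P = v}.ncard :=
      (Set.ncard_pos (finite_above (E := E) v)).2 ⟨P, hP⟩
    omega
  · rw [if_neg hb]
    have key : ∃ y : Kˣ, v.valuation K (((d * y ^ 3 : Kˣ) : K) - 1) <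
        v.valuation K (ζ - 1) ^ 3 := by
      have hsq := hn11b_sq v hk.prim
      have hne : ζ - 1 ≠ 0 := sub_ne_zero.2 (hk.prim.ne_one (by norm_num))
      by_cases h3 : Above3 v
      · obtain ⟨y, hy⟩ := hd
        refine ⟨y, (hy v h3).trans_lt ?_⟩
        have h9 : v.valuation K (9 : K) = v.valuation K (ζ - 1) ^ 4 := by
          have : (9 : K) = 3 * 3 := by norm_num
          rw [this, map_mul, ← hsq, ← pow_add]
        rw [h9]
        have hlt : v.valuation K (ζ - 1) < 1 := by
          by_contra hge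
          push Not at hge
          have : 1 ≤ v.valuation K (ζ - 1) ^ 2 := one_le_pow₀ hge
          rw [hsq] at this
          exact absurd h3 (not_lt.2 this)
        rw [pow_succ]
        have hpos : 0 < v.valuation K (ζ - 1) ^ 3 :=
          zero_lt_iff.2 (pow_ne_zero _ (val_ne_zero v hne))
        calc v.valuation K (ζ - 1) ^ 3 * v.valuation K (ζ - 1)
            < v.valuation K (ζ - 1) ^ 3 * 1 := mul_lt_mul_of_pos_left hlt hpos
          _ = v.valuation K (ζ - 1) ^ 3 := mul_one _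
      · have hL : d ∈ LCv v := by
          by_contra hL
          exact hb ⟨h3, hL⟩
        obtain ⟨y, hy⟩ := hL
        refine ⟨y, hy.trans_le ?_⟩
        have h31 : (1 : WithZero (Multiplicative ℤ)) ≤ v.valuation K (3 : K) := not_lt.1 h3
        rw [← hsq] at h31
        have hge : 1 ≤ v.valuation K (ζ - 1) := by
          by_contra hlt
          push Not at hlt
          exact absurd h31 (not_le.2 (pow_lt_one₀ zero_le hlt (by norm_num)))
        exact one_le_pow₀ hge
    obtain ⟨y, hy⟩ := key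
    have := three_le_above hk v hy
    omega

end Pool.Agent.Lib.MP_fdb342_lc
end

section

/-!
# Hilbert 90 for S-units
-/

open IsDedekindDomain NumberField

namespace Pool.Agent.Lib.MP_fdb342_lc

variable {K : Type} [Field K] [NumberField K] {E : Type} [Field E] [NumberField E] [Algebra K E]

private lemma hn12a_cube {ζ : K} {d : Kˣ} {α : E} {σ : E ≃ₐ[K] E} (hk : Kum K ζ d E α σ) (x : E) :
    σ (σ (σ x)) = x := by
  have := hk.gal
  have hc : Nat.card (E ≃ₐ[K] E) = 3 := by
    rw [IsGalois.card_aut_eq_finrank, hk.deg]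
  have h : σ ^ (Nat.card (E ≃ₐ[K] E)) = 1 := pow_card_eq_one'
  rw [hc] at h
  have h2 := DFunLike.congr_fun h x
  simpa [pow_succ] using h2

/-- Hilbert 90 without the condition on places. -/
private lemma hn12a_hilbert {ζ : K} {d : Kˣ} {α : E} {σ : E ≃ₐ[K] E} (hk : Kum K ζ d E α σ)
    {u : Eˣ} (hN : (u : E) * σ u * σ (σ u) = 1) : ∃ y : Eˣ, (u : E) * y = σ y := by
  have hα : α ≠ 0 := by
    intro h0
    have h := hk.pow
    rw [h0, zero_pow (by norm_num)] at h
    exact d.ne_zero ((map_eq_zero (algebraMap K E)).mp h.symm)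
  have hu : (u : E) ≠ 0 := u.ne_zero
  have hσu : σ (u : E) ≠ 0 := (map_ne_zero σ).mpr hu
  have hσσu : σ (σ (u : E)) ≠ 0 := (map_ne_zero σ).mpr hσu
  -- the general formula
  have key : ∀ t : E, (u : E) * (t + (u : E)⁻¹ * σ t + (u : E)⁻¹ * (σ u)⁻¹ * σ (σ t)) =
      σ (t + (u : E)⁻¹ * σ t + (u : E)⁻¹ * (σ u)⁻¹ * σ (σ t)) := by
    intro t
    simp only [map_add, map_mul, map_inv₀, hn12a_cube hk]
    have h1 : (σ (u : E))⁻¹ * (σ (σ (u : E)))⁻¹ = u := by
      rw [← mul_inv, inv_eq_iff_eq_inv]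
      exact eq_inv_of_mul_eq_one_left (by rw [← hN]; ring)
    rw [h1]
    field_simp
    ring
  by_contra hcon
  have hz : ∀ t : E, t + (u : E)⁻¹ * σ t + (u : E)⁻¹ * (σ u)⁻¹ * σ (σ t) = 0 := by
    intro t
    by_contra ht
    exact hcon ⟨Units.mk0 _ ht, key t⟩
  have h1 := hz 1
  have h2 := hz α
  have h3 := hz (α ^ 2)
  simp only [map_one, map_pow, map_mul, hk.act, AlgEquiv.commutes] at h1 h2 h3
  set z : E := algebraMap K E ζ with hzdef
  set a : E := (u : E)⁻¹ with ha
  set b : E := (σ (u : E))⁻¹ with hb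
  have hz3 : z ^ 3 = 1 := by
    rw [hzdef, ← map_pow, hk.prim.pow_eq_one, map_one]
  have hz1 : z ≠ 1 := by
    intro h
    have h5 : ζ = 1 := by
      apply (algebraMap K E).injective
      rw [map_one]; exact h
    exact hk.prim.ne_one (by norm_num) h5
  have hzz : 1 + z + z ^ 2 = 0 := by
    have h6 : (z - 1) * (1 + z + z ^ 2) = 0 := by
      have : (z - 1) * (1 + z + z ^ 2) = z ^ 3 - 1 := by ring
      rw [this, hz3, sub_self]
    rcases mul_eq_zero.mp h6 with h7 | h7
    · exact absurd (sub_eq_zero.mp h7) hz1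
    · exact h7
  have h2' : 1 + a * z + a * b * z ^ 2 = 0 := by
    have : α * (1 + a * z + a * b * z ^ 2) = 0 := by
      rw [← h2]; ring
    exact (mul_eq_zero.mp this).resolve_left hα
  have h3' : 1 + a * z ^ 2 + a * b * z ^ 4 = 0 := by
    have : α ^ 2 * (1 + a * z ^ 2 + a * b * z ^ 4) = 0 := by
      rw [← h3]; ring
    exact (mul_eq_zero.mp this).resolve_left (pow_ne_zero 2 hα)
  have h4 : z ^ 4 = z := by
    calc z ^ 4 = z ^ 3 * z := by ring
      _ = z := by rw [hz3, one_mul]
  rw [h4] at h3'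
  have h5 : (3 : E) = 0 := by
    linear_combination h1 + h2' + h3' - (a + a * b) * hzz
  exact three_ne_zero h5

private lemma hn12a_sigma_unit (S : Finset (Pl K)) {u : Eˣ} (hu : u ∈ SU (SE E S))
    (τ : E ≃ₐ[K] E) (P : Pl E) (hP : bel K P ∉ S) : P.valuation E (τ (u : E)) = 1 := by
  obtain ⟨Q, hQ, hval⟩ := exists_sm τ⁻¹ P
  have h := hval (τ u)
  rw [AlgEquiv.aut_inv, AlgEquiv.symm_apply_apply] at h
  rw [← h]
  refine hu Q ?_
  rw [mem_SE, hQ]
  exact hP

private lemma hn12a_const {ζ : K} {d : Kˣ} {α : E} {σ : E ≃ₐ[K] E} (hk : Kum K ζ d E α σ)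
    (S : Finset (Pl K)) {u y : Eˣ} (hu : u ∈ SU (SE E S)) (hy : (u : E) * y = σ y)
    {P Q : Pl E} (hPQ : bel K P = bel K Q) (hP : bel K P ∉ S) :
    P.valuation E (y : E) = Q.valuation E (y : E) := by
  have hpow : ∀ i : ℕ, Q.valuation E ((σ ^ i) (y : E)) = Q.valuation E (y : E) := by
    intro i
    induction i with
    | zero => simp
    | succ i ih =>
      rw [pow_succ, AlgEquiv.mul_apply, ← hy, map_mul, map_mul,
        hn12a_sigma_unit S hu (σ ^ i) Q (hPQ ▸ hP), one_mul, ih]
  have := hk.gal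
  obtain ⟨τ, hτ⟩ := exists_trans hPQ
  obtain ⟨i, rfl⟩ := hk.gen τ
  rw [← hτ, hpow]

open Classical in
/-- an element with prescribed orders outside of `S` -/
private lemma hn12a_orders (S T : Finset (Pl K)) (hcl : ClTriv S) (n : Pl K → ℤ) :
    ∃ a : Kˣ, ∀ w : Pl K, w ∉ S → ordv w (a : K) = if w ∈ T then n w else 0 := by
  classical
  induction T using Finset.induction_on with
  | empty => exact ⟨1, fun w _ => by simp⟩
  | insert v T hv ih =>
    obtain ⟨a, ha⟩ := ih
    by_cases hvS : v ∈ S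
    · refine ⟨a, fun w hw => ?_⟩
      rw [ha w hw]
      have hne : w ≠ v := fun h => hw (h ▸ hvS)
      simp [hne]
    · obtain ⟨x, hx1, hx2⟩ := hcl v hvS
      refine ⟨a * x ^ (n v), fun w hw => ?_⟩
      rw [Units.val_mul, Units.val_zpow_eq_zpow_val, ordv_mul w a.ne_zero
        (zpow_ne_zero _ x.ne_zero), ordv_zpow, ha w hw]
      by_cases hwv : w = v
      · subst hwv
        simp [hv, hx1]
      · simp [hwv, hx2 w hw hwv]

theorem hilbert90_SU {ζ : K} {d : Kˣ} {α : E} {σ : E ≃ₐ[K] E} (hk : Kum K ζ d E α σ)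
    (S : Finset (Pl K)) (h3 : ∀ v, Above3 v → v ∈ S) (hdS : d ∈ SU S) (hcl : ClTriv S)
    {u : Eˣ} (hu : u ∈ SU (SE E S)) (hN : (u : E) * σ u * σ (σ u) = 1) :
    ∃ y : Eˣ, y ∈ SU (SE E S) ∧ (u : E) * y = σ y := by
  classical
  obtain ⟨y₀, hy₀⟩ := hn12a_hilbert hk hN
  have hfin := finite_ordv_ne (K := E) y₀
  let T : Finset (Pl K) := hfin.toFinset.image (fun P => bel K P)
  -- a place above every place
  choose A hA using fun v : Pl K => exists_above (E := E) v
  obtain ⟨a, ha⟩ := hn12a_orders S T hcl (fun v => ordv (A v) (y₀ : E))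
  have ha2 : ∀ P : Pl E, bel K P ∉ S → ordv (bel K P) (a : K) = ordv P (y₀ : E) := by
    intro P hP
    rw [ha _ hP]
    have hc : ordv (A (bel K P)) (y₀ : E) = ordv P (y₀ : E) := by
      unfold ordv
      rw [hn12a_const hk S hu hy₀ (hA (bel K P)) (by rw [hA]; exact hP)]
    split_ifs with hT
    · exact hc
    · by_contra hne
      apply hT
      rw [Finset.mem_image]
      exact ⟨P, by rw [Set.Finite.mem_toFinset]; exact fun h => hne h.symm, rfl⟩
  have haE : (algebraMap K E (a : K)) ≠ 0 := (map_ne_zero _).mpr a.ne_zero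
  let b : Eˣ := Units.mk0 _ haE
  refine ⟨y₀ * b⁻¹, ?_, ?_⟩
  · intro P hP
    rw [mem_SE] at hP
    rw [Units.val_mul, Units.val_inv_eq_inv_val, map_mul, map_inv₀]
    have hd0 : ordv (bel K P) (d : K) = 0 :=
      (val_eq_one_iff _ d.ne_zero).mp (hdS _ hP)
    have h1 : P.valuation E (b : E) = (bel K P).valuation K (a : K) :=
      unram hk P (fun h => hP (h3 _ h)) hd0 a
    rw [h1, val_eq_exp _ a.ne_zero, ha2 P hP, val_eq_exp _ y₀.ne_zero]
    exact mul_inv_cancel₀ WithZero.exp_ne_zero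
  · rw [Units.val_mul, Units.val_inv_eq_inv_val, map_mul, map_inv₀, ← mul_assoc, hy₀]
    have h2 : σ (b : E) = b := AlgEquiv.commutes σ (a : K)
    rw [h2]

end Pool.Agent.Lib.MP_fdb342_lc
end

section

/-!
# The rank of the group of S-units
-/

open IsDedekindDomain NumberField

namespace Pool.Agent.Lib.MP_fdb342_lc

variable {K : Type} [Field K] [NumberField K]

/-- the orders of an `S`-unit at the places of `S` -/
private noncomputable def hn7_phi (S : Finset (Pl K)) : Additive (SU S) →ₗ[ℤ] (S → ℤ) :=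
  AddMonoidHom.toIntLinearMap
    { toFun := fun x v => ordv v.1 ((x.toMul : Kˣ) : K)
      map_zero' := by
        funext v
        simp
      map_add' := by
        intro x y
        funext v
        show ordv v.1 (((x + y).toMul : Kˣ) : K) = _
        rw [toMul_add]
        show ordv v.1 (((x.toMul : Kˣ) * (y.toMul : Kˣ) : Kˣ) : K) = _
        rw [Units.val_mul, ordv_mul _ (Units.ne_zero _) (Units.ne_zero _)]
        rfl }

private lemma hn7_phi_apply (S : Finset (Pl K)) (x : SU S) (v : S) :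
    hn7_phi S (Additive.ofMul x) v = ordv v.1 ((x : Kˣ) : K) := rfl

/-- units are `S`-units -/
private noncomputable def hn7_psi (S : Finset (Pl K)) : Additive (𝓞 K)ˣ →ₗ[ℤ] Additive (SU S) :=
  AddMonoidHom.toIntLinearMap (MonoidHom.toAdditive
    (MonoidHom.codRestrict (Units.map (algebraMap (𝓞 K) K).toMonoidHom) (SU S) (by
      intro u v _
      have h1 : v.valuation K (algebraMap (𝓞 K) K (u : 𝓞 K)) ≤ 1 := v.valuation_le_one _
      have h2 : v.valuation K (algebraMap (𝓞 K) K ((u⁻¹ : (𝓞 K)ˣ) : 𝓞 K)) ≤ 1 :=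
        v.valuation_le_one _
      have h3 : v.valuation K (algebraMap (𝓞 K) K (u : 𝓞 K)) *
          v.valuation K (algebraMap (𝓞 K) K ((u⁻¹ : (𝓞 K)ˣ) : 𝓞 K)) = 1 := by
        rw [← map_mul, ← map_mul, Units.mul_inv, map_one, map_one]
      show v.valuation K (algebraMap (𝓞 K) K (u : 𝓞 K)) = 1
      refine le_antisymm h1 ?_
      by_contra hlt
      push Not at hlt
      have h4 := mul_lt_one_of_lt_of_le hlt h2
      rw [h3] at h4
      exact lt_irrefl _ h4)))

private lemma hn7_psi_apply (S : Finset (Pl K)) (u : (𝓞 K)ˣ) :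
    (((hn7_psi S (Additive.ofMul u)).toMul : SU S) : Kˣ) =
      Units.map (algebraMap (𝓞 K) K).toMonoidHom u := rfl

private lemma hn7_psi_inj (S : Finset (Pl K)) : Function.Injective (hn7_psi S) := by
  intro u w h
  have h1 : Units.map (algebraMap (𝓞 K) K).toMonoidHom u.toMul =
      Units.map (algebraMap (𝓞 K) K).toMonoidHom w.toMul := by
    rw [← hn7_psi_apply S, ← hn7_psi_apply S]
    exact congrArg (fun t : Additive (SU S) => ((t.toMul : SU S) : Kˣ)) h
  have h2 : algebraMap (𝓞 K) K (u.toMul : 𝓞 K) = algebraMap (𝓞 K) K (w.toMul : 𝓞 K) :=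
    congrArg (fun t : Kˣ => (t : K)) h1
  have h3 := IsFractionRing.injective (𝓞 K) K h2
  exact Units.ext h3

private lemma hn7_ker (S : Finset (Pl K)) :
    LinearMap.ker (hn7_phi S) = LinearMap.range (hn7_psi S) := by
  ext x
  constructor
  · intro hx
    have hx' : ∀ v : Pl K, v.valuation K ((x.toMul : Kˣ) : K) = 1 := by
      intro v
      by_cases hv : v ∈ S
      · have := congrFun (LinearMap.mem_ker.1 hx) ⟨v, hv⟩
        exact (val_eq_one_iff v (Units.ne_zero _)).2 this
      · exact x.toMul.2 v hv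
    have hxi : ∀ v : Pl K, v.valuation K (((x.toMul : Kˣ)⁻¹ : Kˣ) : K) = 1 := by
      intro v
      rw [Units.val_inv_eq_inv_val, map_inv₀, hx' v, inv_one]
    obtain ⟨a, ha⟩ := HeightOneSpectrum.mem_integers_of_valuation_le_one (R := 𝓞 K) K
      ((x.toMul : Kˣ) : K) fun v => (hx' v).le
    obtain ⟨b, hb⟩ := HeightOneSpectrum.mem_integers_of_valuation_le_one (R := 𝓞 K) K
      (((x.toMul : Kˣ)⁻¹ : Kˣ) : K) fun v => (hxi v).le
    have hab : a * b = 1 := by
      apply IsFractionRing.injective (𝓞 K) K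
      rw [map_mul, map_one]
      exact (congrArg₂ (· * ·) ha hb).trans (Units.mul_inv _)
    refine ⟨Additive.ofMul ⟨a, b, hab, by rw [mul_comm]; exact hab⟩, ?_⟩
    apply Additive.toMul.injective
    apply Subtype.ext
    rw [hn7_psi_apply]
    apply Units.ext
    exact ha
  · rintro ⟨u, rfl⟩
    rw [LinearMap.mem_ker]
    funext v
    have h1 : v.1.valuation K (algebraMap (𝓞 K) K (u.toMul : 𝓞 K)) = 1 := by
      -- `psi` lands in `SU ∅`
      have := (hn7_psi (∅ : Finset (Pl K)) u).toMul.2 v.1 (by simp)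
      exact this
    have h0 : algebraMap (𝓞 K) K (u.toMul : 𝓞 K) ≠ 0 := by
      intro h0
      rw [h0, map_zero] at h1
      exact zero_ne_one h1
    exact (val_eq_one_iff v.1 h0).1 h1

theorem SU_fg (S : Finset (Pl K)) : Module.Finite ℤ (Additive (SU S)) := by
  rw [Module.finite_def]
  refine Submodule.fg_of_fg_map_of_fg_inf_ker (hn7_phi S) ?_ ?_
  · exact IsNoetherian.noetherian _
  · rw [inf_of_le_right le_top, hn7_ker]
    rw [← Submodule.map_top]
    exact Submodule.FG.map _ (Module.finite_def.1 inferInstance)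

private lemma hn7_exists (S : Finset (Pl K)) (v : S) : ∃ x : SU S,
    ordv v.1 ((x : Kˣ) : K) ≠ 0 ∧ ∀ w : S, w ≠ v → ordv w.1 ((x : Kˣ) : K) = 0 := by
  classical
  have h0 : v.1.asIdeal ≠ ⊥ := v.1.ne_bot
  have h0' : v.1.asIdeal ∈ nonZeroDivisors (Ideal (𝓞 K)) :=
    mem_nonZeroDivisors_of_ne_zero h0
  have h1 : ClassGroup.mk0 (⟨v.1.asIdeal, h0'⟩ ^ Fintype.card (ClassGroup (𝓞 K))) = 1 := by
    rw [map_pow, pow_card_eq_one]
  rw [ClassGroup.mk0_eq_one_iff] at h1
  obtain ⟨a, ha⟩ := h1.principal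
  have ha' : v.1.asIdeal ^ Fintype.card (ClassGroup (𝓞 K)) = Ideal.span {a} := ha
  have hcard : Fintype.card (ClassGroup (𝓞 K)) ≠ 0 := Fintype.card_ne_zero
  have ha0 : a ≠ 0 := by
    rintro rfl
    rw [Ideal.span_singleton_zero] at ha'
    exact h0 (eq_bot_iff.2 (by
      have := pow_eq_zero_iff hcard |>.1 (show v.1.asIdeal ^ _ = 0 from ha')
      rw [this]; exact le_rfl))
  have haK : algebraMap (𝓞 K) K a ≠ 0 := by
    rwa [Ne, IsFractionRing.to_map_eq_zero_iff]
  have hval : ∀ w : Pl K, w ≠ v.1 → w.valuation K (algebraMap (𝓞 K) K a) = 1 := by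
    intro w hw
    rw [HeightOneSpectrum.valuation_eq_one_iff_notMem]
    intro haw
    have h2 : v.1.asIdeal ^ Fintype.card (ClassGroup (𝓞 K)) ≤ w.asIdeal := by
      rw [ha', Ideal.span_singleton_le_iff_mem]
      exact haw
    have h3 : v.1.asIdeal ≤ w.asIdeal := (w.isPrime.pow_le_iff hcard).1 h2
    have h4 : v.1.asIdeal = w.asIdeal :=
      (v.1.isPrime.isMaximal h0).eq_of_le w.isPrime.ne_top h3
    exact hw (HeightOneSpectrum.ext h4).symm
  refine ⟨⟨Units.mk0 _ haK, ?_⟩, ?_, ?_⟩
  · intro w hw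
    apply hval w
    rintro rfl
    exact hw v.2
  · have h2 : v.1.valuation K (algebraMap (𝓞 K) K a) < 1 := by
      rw [HeightOneSpectrum.valuation_lt_one_iff_mem]
      have : a ∈ v.1.asIdeal ^ Fintype.card (ClassGroup (𝓞 K)) := by
        rw [ha']; exact Ideal.mem_span_singleton_self a
      exact Ideal.pow_le_self hcard this
    intro h3
    exact h2.ne ((val_eq_one_iff v.1 haK).2 h3)
  · intro w hw
    exact (val_eq_one_iff w.1 haK).1 (hval w.1 fun h => hw (Subtype.ext h))

theorem SU_rank (S : Finset (Pl K)) :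
    Module.finrank ℤ (Additive (SU S)) = Units.rank K + S.card := by
  classical
  have := SU_fg S
  have h1 : Module.finrank ℤ (LinearMap.ker (hn7_phi S)) = Units.rank K := by
    rw [hn7_ker, LinearMap.finrank_range_of_inj (hn7_psi_inj S), Units.finrank_eq]
  have h2 : Module.finrank ℤ (LinearMap.range (hn7_phi S)) = S.card := by
    apply le_antisymm
    · have := Submodule.finrank_le (LinearMap.range (hn7_phi S))
      simpa using this
    · choose x hx1 hx2 using hn7_exists S
      have hli : LinearIndependent ℤ (fun v : S =>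
          (⟨hn7_phi S (Additive.ofMul (x v)), LinearMap.mem_range_self _ _⟩ :
            LinearMap.range (hn7_phi S))) := by
        rw [Fintype.linearIndependent_iff]
        intro g hg v
        have h3 := congrArg (fun t : LinearMap.range (hn7_phi S) => (t : S → ℤ) v) hg
        simp only [AddSubmonoidClass.coe_finsetSum, SetLike.val_smul, Finset.sum_apply,
          Pi.smul_apply, smul_eq_mul, hn7_phi_apply, ZeroMemClass.coe_zero, Pi.zero_apply] at h3
        rw [Finset.sum_eq_single v] at h3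
        · rcases mul_eq_zero.1 h3 with h | h
          · exact h
          · exact absurd h (hx1 v)
        · intro w _ hw
          rw [hx2 w v (Ne.symm hw), mul_zero]
        · intro h; exact absurd (Finset.mem_univ v) h
      have := hli.fintype_card_le_finrank
      simpa using this
  have h3 := LinearMap.rank_range_add_rank_ker (hn7_phi S)
  have h4 : Module.finrank ℤ (LinearMap.range (hn7_phi S)) +
      Module.finrank ℤ (LinearMap.ker (hn7_phi S)) = Module.finrank ℤ (Additive (SU S)) := by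
    have h5 := Submodule.finrank_quotient_add_finrank (LinearMap.ker (hn7_phi S))
    rwa [(hn7_phi S).quotKerEquivRange.finrank_eq] at h5
  omega

end Pool.Agent.Lib.MP_fdb342_lc
end

section

/-!
# S-units modulo cubes
-/

open IsDedekindDomain NumberField

namespace Pool.Agent.Lib.MP_fdb342_lc

variable {K : Type} [Field K] [NumberField K]

private theorem HN8b_index_fin (B : Type) [AddCommGroup B] [Finite B] :
    (zsmulAddGroupHom (3 : ℤ) : B →+ B).range.index =
      Nat.card (zsmulAddGroupHom (3 : ℤ) : B →+ B).ker := by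
  obtain ⟨f, hf⟩ : ∃ f : B →+ B, f = zsmulAddGroupHom (3 : ℤ) := ⟨_, rfl⟩
  rw [← hf]
  have h1 := f.range.card_mul_index
  have h2 := f.ker.card_mul_index
  rw [AddSubgroup.index_ker f, ← h1, mul_comm] at h2
  have hpos : 0 < Nat.card f.range := Nat.card_pos
  exact (Nat.eq_of_mul_eq_mul_left hpos h2).symm

private theorem HN8b_zsmul_eq (B : Type) [AddCommGroup B] :
    (zsmulAddGroupHom (3 : ℤ) : B →+ B) = nsmulAddMonoidHom 3 := by
  ext x
  change (3 : ℤ) • x = (3 : ℕ) • x
  exact ofNat_zsmul x 3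

private theorem HN8b_free (F : Type) [AddCommGroup F] [Module.Free ℤ F] [Module.Finite ℤ F] :
    (zsmulAddGroupHom (3 : ℤ) : F →+ F).range.index = 3 ^ Module.finrank ℤ F ∧
      (zsmulAddGroupHom (3 : ℤ) : F →+ F).ker = ⊥ := by
  constructor
  · rw [HN8b_zsmul_eq]
    exact AddSubgroup.index_range_nsmul F 3
  · rw [eq_bot_iff]
    intro x hx
    have h : (3 : ℤ) • x = 0 := hx
    rcases smul_eq_zero.1 h with h | h
    · norm_num at h
    · exact h

private theorem HN8b_prod (F B : Type) [AddCommGroup F] [AddCommGroup B] [Module.Free ℤ F]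
    [Module.Finite ℤ F] [Finite B] :
    (zsmulAddGroupHom (3 : ℤ) : F × B →+ F × B).range.index =
      3 ^ Module.finrank ℤ (F × B) *
        Nat.card (zsmulAddGroupHom (3 : ℤ) : F × B →+ F × B).ker := by
  have hr : (zsmulAddGroupHom (3 : ℤ) : F × B →+ F × B).range =
      ((zsmulAddGroupHom (3 : ℤ) : F →+ F).range).prod
        ((zsmulAddGroupHom (3 : ℤ) : B →+ B).range) := by
    ext ⟨x, y⟩
    rw [AddSubgroup.mem_prod]
    constructor
    · rintro ⟨⟨a, b⟩, h⟩
      have h' : ((3 : ℤ) • a, (3 : ℤ) • b) = (x, y) := h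
      rw [Prod.mk.injEq] at h'
      exact ⟨⟨a, h'.1⟩, ⟨b, h'.2⟩⟩
    · rintro ⟨⟨a, ha⟩, ⟨b, hb⟩⟩
      exact ⟨(a, b), Prod.ext ha hb⟩
  have hk : (zsmulAddGroupHom (3 : ℤ) : F × B →+ F × B).ker =
      ((zsmulAddGroupHom (3 : ℤ) : F →+ F).ker).prod
        ((zsmulAddGroupHom (3 : ℤ) : B →+ B).ker) := by
    ext ⟨x, y⟩
    rw [AddSubgroup.mem_prod]
    constructor
    · intro h
      have h' : ((3 : ℤ) • x, (3 : ℤ) • y) = ((0 : F), (0 : B)) := h
      rw [Prod.mk.injEq] at h'
      exact ⟨h'.1, h'.2⟩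
    · rintro ⟨ha, hb⟩
      exact Prod.ext ha hb
  have hcard : Nat.card (((zsmulAddGroupHom (3 : ℤ) : F →+ F).ker).prod
        ((zsmulAddGroupHom (3 : ℤ) : B →+ B).ker)) =
      Nat.card (zsmulAddGroupHom (3 : ℤ) : B →+ B).ker := by
    rw [(HN8b_free F).2]
    rw [Nat.card_congr (AddSubgroup.prodEquiv _ _).toEquiv, Nat.card_prod, AddSubgroup.card_bot,
      one_mul]
  have hrank : Module.finrank ℤ (F × B) = Module.finrank ℤ F := by
    have h1 : Module.finrank ℤ B = 0 := by
      rw [Module.finrank, rank_eq_zero_iff.2, map_zero]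
      intro x
      refine ⟨(Nat.card B : ℤ), by exact_mod_cast (Nat.card_pos (α := B)).ne', ?_⟩
      rw [natCast_zsmul]
      exact card_nsmul_eq_zero'
    have h2 := (LinearMap.ker (LinearMap.fst ℤ F B)).finrank_quotient_add_finrank
    rw [((LinearMap.fst ℤ F B).quotKerEquivOfSurjective LinearMap.fst_surjective).finrank_eq] at h2
    have h3 : Module.finrank ℤ (LinearMap.ker (LinearMap.fst ℤ F B)) = Module.finrank ℤ B := by
      rw [LinearMap.ker_fst]
      exact (LinearMap.finrank_range_of_inj LinearMap.inr_injective)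
    rw [h3, h1, add_zero] at h2
    exact h2.symm
  rw [hr, hk, AddSubgroup.index_prod, hcard, hrank, (HN8b_free F).1, HN8b_index_fin B]

/-- number of classes modulo `3` of a finitely generated abelian group -/
theorem card_mod_three (A : Type) [AddCommGroup A] [Module.Finite ℤ A] :
    (zsmulAddGroupHom (3 : ℤ) : A →+ A).range.index =
      3 ^ Module.finrank ℤ A * Nat.card (zsmulAddGroupHom (3 : ℤ) : A →+ A).ker := by
  obtain ⟨n, ι, hι, p, hp, e, ⟨l⟩⟩ := Module.equiv_free_prod_directSum (R := ℤ) (M := A)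
  have h1 : ∀ i : ι, NeZero (p i ^ e i).natAbs := fun i =>
    ⟨Int.natAbs_ne_zero.mpr <| pow_ne_zero (e i) (hp i).ne_zero⟩
  have h2 : ∀ i : ι, Finite <| ℤ ⧸ Submodule.span ℤ {p i ^ e i} := fun i =>
    Finite.of_equiv _ (p i ^ e i).quotientSpanEquivZMod.symm.toEquiv
  have h3 : Finite (DirectSum ι fun i => ℤ ⧸ (Submodule.span ℤ {p i ^ e i} : Submodule ℤ ℤ)) := by
    classical
    exact Finite.of_equiv _ DFinsupp.equivFunOnFintype.symm
  have key := HN8b_prod (Fin n →₀ ℤ)
    (DirectSum ι fun i => ℤ ⧸ (Submodule.span ℤ {p i ^ e i} : Submodule ℤ ℤ))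
  rw [← l.finrank_eq] at key
  have hr : (zsmulAddGroupHom (3 : ℤ) : A →+ A).range.map (l.toAddEquiv : A →+ (Fin n →₀ ℤ) ×
        (DirectSum ι fun i => ℤ ⧸ (Submodule.span ℤ {p i ^ e i} : Submodule ℤ ℤ))) =
      (zsmulAddGroupHom (3 : ℤ) : (Fin n →₀ ℤ) ×
        (DirectSum ι fun i => ℤ ⧸ (Submodule.span ℤ {p i ^ e i} : Submodule ℤ ℤ)) →+
        (Fin n →₀ ℤ) × (DirectSum ι fun i => ℤ ⧸ (Submodule.span ℤ {p i ^ e i} :
          Submodule ℤ ℤ))).range := by
    ext y
    constructor
    · rintro ⟨_, ⟨x, rfl⟩, rfl⟩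
      refine ⟨l x, ?_⟩
      change (3 : ℤ) • l x = l ((3 : ℤ) • x)
      rw [map_zsmul]
    · rintro ⟨z, rfl⟩
      refine ⟨(3 : ℤ) • l.symm z, ⟨l.symm z, rfl⟩, ?_⟩
      change l ((3 : ℤ) • l.symm z) = (3 : ℤ) • z
      rw [map_zsmul, LinearEquiv.apply_symm_apply]
  have hk : Nat.card (zsmulAddGroupHom (3 : ℤ) : A →+ A).ker =
      Nat.card (zsmulAddGroupHom (3 : ℤ) : (Fin n →₀ ℤ) ×
        (DirectSum ι fun i => ℤ ⧸ (Submodule.span ℤ {p i ^ e i} : Submodule ℤ ℤ)) →+ _).ker := by
    refine Nat.card_congr (l.toEquiv.subtypeEquiv fun x => ?_)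
    change (3 : ℤ) • x = 0 ↔ (3 : ℤ) • l x = 0
    rw [← map_zsmul, LinearEquiv.map_eq_zero_iff]
  rw [hk, ← key, ← hr, AddSubgroup.index_map_equiv]

theorem cubes_relIndex {ζ : K} (hζ : IsPrimitiveRoot ζ 3) (S : Finset (Pl K)) :
    (Cubes K).relIndex (SU S) = 3 ^ (Units.rank K + S.card + 1) := by
  have hfin := SU_fg S
  have h1 := card_mod_three (Additive (SU S))
  rw [SU_rank] at h1
  have h2 : (Cubes K).subgroupOf (SU S) = (powMonoidHom 3 : SU S →* SU S).range := by
    ext x
    rw [Subgroup.mem_subgroupOf]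
    constructor
    · rintro ⟨y, hy⟩
      have hy' : y ^ 3 = (x : Kˣ) := hy
      have hyS : y ∈ SU S := by
        intro v hv
        have h := x.2 v hv
        rw [← hy', Units.val_pow_eq_pow_val, map_pow] at h
        exact (pow_eq_one_iff.1 h).resolve_right (by norm_num)
      exact ⟨⟨y, hyS⟩, Subtype.ext hy⟩
    · rintro ⟨y, hy⟩
      exact ⟨(y : Kˣ), congrArg Subtype.val hy⟩
  have h3 : (zsmulAddGroupHom (3 : ℤ) : Additive (SU S) →+ Additive (SU S)).range.index =
      (powMonoidHom 3 : SU S →* SU S).range.index := by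
    rw [HN8b_zsmul_eq, ← Subgroup.index_toAddSubgroup]
    rfl
  have h4 : Nat.card (zsmulAddGroupHom (3 : ℤ) : Additive (SU S) →+ Additive (SU S)).ker = 3 := by
    rw [HN8b_zsmul_eq]
    refine Eq.trans ?_ hζ.card_rootsOfUnity
    refine Nat.card_congr ⟨fun x => ⟨((Additive.toMul x.1 : SU S) : Kˣ), ?_⟩,
      fun x => ⟨Additive.ofMul ⟨x.1, ?_⟩, ?_⟩, fun x => ?_, fun x => ?_⟩
    · have h : (3 : ℕ) • x.1 = 0 := x.2
      have h' : (Additive.toMul x.1 : SU S) ^ 3 = 1 := h
      rw [mem_rootsOfUnity]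
      exact congrArg Subtype.val h'
    · intro v hv
      have h := (mem_rootsOfUnity _ _).1 x.2
      have h' : ((x.1 : Kˣ) : K) ^ 3 = 1 := by
        rw [← Units.val_pow_eq_pow_val, h, Units.val_one]
      have h'' := congrArg (v.valuation K) h'
      rw [map_pow, map_one] at h''
      exact (pow_eq_one_iff.1 h'').resolve_right (by norm_num)
    · have h := (mem_rootsOfUnity _ _).1 x.2
      exact Subtype.ext h
    · rfl
    · rfl
  rw [Subgroup.relIndex, h2, ← h3, h1, h4, ← pow_succ]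

end Pool.Agent.Lib.MP_fdb342_lc
end

section

/-!
# The Herbrand quotient of a group of order three
-/

namespace Pool.Agent.Lib.MP_fdb342_lc

variable {A : Type} [AddCommGroup A]

/-- the fixed elements -/
def Fx (σ : A ≃+ A) : AddSubgroup A where
  carrier := {x | σ x = x}
  add_mem' := by
    intro a b ha hb
    show σ (a + b) = a + b
    rw [map_add, ha, hb]
  zero_mem' := map_zero σ
  neg_mem' := by
    intro a ha
    show σ (-a) = -a
    rw [map_neg, ha]

/-- the norms -/
def Nm (σ : A ≃+ A) : AddSubgroup A where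
  carrier := {y | ∃ x, y = x + σ x + σ (σ x)}
  add_mem' := by
    rintro a b ⟨x, rfl⟩ ⟨y, rfl⟩
    exact ⟨x + y, by simp only [map_add]; abel⟩
  zero_mem' := ⟨0, by simp⟩
  neg_mem' := by
    rintro a ⟨x, rfl⟩
    exact ⟨-x, by simp only [map_neg]; abel⟩

/-- the Herbrand quotient of `f ∘ f` is the square of that of `f` -/
private theorem herb_sq {C : Type} [AddCommGroup C] (f : C →+ C) :
    (f.comp f).range.index * Nat.card f.ker ^ 2 =
      Nat.card (f.comp f).ker * f.range.index ^ 2 := by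
  have h1 : (f.comp f).range = f.range.map f := by
    ext x
    simp only [AddMonoidHom.mem_range, AddSubgroup.mem_map, AddMonoidHom.comp_apply,
      exists_exists_eq_and]
  have h1' : (f.comp f).range.index = (f.range ⊔ f.ker).index * f.range.index := by
    rw [h1, AddSubgroup.index_map]
  have h2 : f.range.relIndex f.ker * (f.range ⊔ f.ker).index = f.range.index := by
    rw [← AddSubgroup.relIndex_mul_index (le_sup_left : f.range ≤ f.range ⊔ f.ker),
      AddSubgroup.relIndex_sup_left]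
  have h3 : Nat.card (f.range ⊓ f.ker : AddSubgroup C) * f.range.relIndex f.ker =
      Nat.card f.ker := by
    have := AddSubgroup.relIndex_mul_relIndex ⊥ (f.range ⊓ f.ker) f.ker bot_le inf_le_right
    rwa [AddSubgroup.relIndex_bot_left, AddSubgroup.relIndex_bot_left,
      AddSubgroup.inf_relIndex_right] at this
  have hle : f.ker ≤ (f.comp f).ker := by
    intro x hx
    rw [AddMonoidHom.mem_ker] at hx ⊢
    rw [AddMonoidHom.comp_apply, hx, map_zero]
  have h4 : Nat.card f.ker * Nat.card (f.range ⊓ f.ker : AddSubgroup C) =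
      Nat.card (f.comp f).ker := by
    have h5 := AddSubgroup.relIndex_mul_relIndex ⊥ f.ker (f.comp f).ker bot_le hle
    rw [AddSubgroup.relIndex_bot_left, AddSubgroup.relIndex_bot_left,
      AddSubgroup.relIndex_ker] at h5
    have h6 : (f.comp f).ker.map f = f.range ⊓ f.ker := by
      ext y
      simp only [AddSubgroup.mem_map, AddSubgroup.mem_inf, AddMonoidHom.mem_range,
        AddMonoidHom.mem_ker, AddMonoidHom.comp_apply]
      constructor
      · rintro ⟨x, hx, rfl⟩
        exact ⟨⟨x, rfl⟩, hx⟩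
      · rintro ⟨⟨x, rfl⟩, hx⟩
        exact ⟨x, hx, rfl⟩
    rw [h6] at h5
    exact h5
  rw [h1', ← h4]
  calc (f.range ⊔ f.ker).index * f.range.index * Nat.card f.ker ^ 2
      = Nat.card f.ker * f.range.index * ((f.range ⊔ f.ker).index * Nat.card f.ker) := by ring
    _ = Nat.card f.ker * f.range.index * ((f.range ⊔ f.ker).index *
          (Nat.card (f.range ⊓ f.ker : AddSubgroup C) * f.range.relIndex f.ker)) := by rw [h3]
    _ = Nat.card f.ker * f.range.index * (Nat.card (f.range ⊓ f.ker : AddSubgroup C) *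
          (f.range.relIndex f.ker * (f.range ⊔ f.ker).index)) := by ring
    _ = Nat.card f.ker * f.range.index * (Nat.card (f.range ⊓ f.ker : AddSubgroup C) *
          f.range.index) := by rw [h2]
    _ = _ := by ring

private theorem herb_finite_ker [Module.Finite ℤ A] :
    Finite (zsmulAddGroupHom (3 : ℤ) : A →+ A).ker := by
  have h1 : Module.Finite ℤ (AddSubgroup.toIntSubmodule (zsmulAddGroupHom (3 : ℤ) : A →+ A).ker) :=
    inferInstance
  have h2 : AddGroup.FG (zsmulAddGroupHom (3 : ℤ) : A →+ A).ker := by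
    have h3 := Module.Finite.iff_addGroup_fg.mp h1
    exact h3
  refine AddCommGroup.finite_of_fg_isAddTorsion _ ?_
  intro x
  rw [isOfFinAddOrder_iff_nsmul_eq_zero]
  refine ⟨3, by norm_num, ?_⟩
  apply Subtype.ext
  have h4 : ((3 : ℕ) : ℤ) • (x : A) = 0 := x.2
  rwa [natCast_zsmul] at h4

/-- if `H^{-1} = 0` then the order of `H^0` is determined by the ranks -/
theorem herbrand [Module.Finite ℤ A] (σ : A ≃+ A) (hσ : ∀ x, σ (σ (σ x)) = x)
    (hH : ∀ x, x + σ x + σ (σ x) = 0 → ∃ y, x = σ y - y) :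
    (Nm σ).relIndex (Fx σ) ^ 2 * 3 ^ Module.finrank ℤ A =
      3 ^ (3 * Module.finrank ℤ (Fx σ)) := by
  set N : A →+ A := AddMonoidHom.id A + σ.toAddMonoidHom +
    σ.toAddMonoidHom.comp σ.toAddMonoidHom with hN
  set D : A →+ A := σ.toAddMonoidHom - AddMonoidHom.id A with hD
  have hNx : ∀ x, N x = x + σ x + σ (σ x) := fun x => rfl
  have hDx : ∀ x, D x = σ x - x := fun x => rfl
  have hF : D.ker = Fx σ := by
    ext x
    rw [AddMonoidHom.mem_ker, hDx, sub_eq_zero]
    rfl
  have hNr : N.range = Nm σ := by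
    ext x
    constructor
    · rintro ⟨y, rfl⟩
      exact ⟨y, hNx y⟩
    · rintro ⟨y, rfl⟩
      exact ⟨y, hNx y⟩
  have hC : N.ker = D.range := by
    ext x
    rw [AddMonoidHom.mem_ker, hNx]
    constructor
    · intro h
      obtain ⟨y, hy⟩ := hH x h
      exact ⟨y, hy.symm⟩
    · rintro ⟨y, rfl⟩
      rw [hDx]
      simp only [map_sub, hσ]
      abel
  -- the restriction of `D` to `C`
  have hDC : ∀ x ∈ N.ker, D x ∈ N.ker := by
    intro x _
    rw [hC]
    exact ⟨x, rfl⟩
  let f : N.ker →+ N.ker := (D.comp N.ker.subtype).codRestrict N.ker (fun x => hDC x x.2)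
  have hf : ∀ x : N.ker, ((f x : N.ker) : A) = σ x - x := fun x => rfl
  have hff : ∀ x : N.ker, ((f (f x) : N.ker) : A) = -((3 : ℤ) • σ (x : A)) := by
    intro x
    rw [hf, hf]
    have hx : (x : A) + σ x + σ (σ x) = 0 := x.2
    have h3 : (3 : ℤ) • σ (x : A) = σ x + σ x + σ x := by
      rw [show (3 : ℤ) = 1 + 1 + 1 by norm_num, add_smul, add_smul, one_smul]
    rw [h3, map_sub]
    have : σ (σ (x : A)) = -((x : A) + σ x) := by
      rw [eq_neg_iff_add_eq_zero, add_comm]
      exact hx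
    rw [this]
    abel
  -- `σ` preserves `C`
  have hσC : ∀ x ∈ N.ker, σ x ∈ N.ker := by
    intro x hx
    rw [AddMonoidHom.mem_ker, hNx] at hx ⊢
    rw [← map_add, ← map_add, hx, map_zero]
  have hr : (f.comp f).range = (zsmulAddGroupHom (3 : ℤ) : N.ker →+ N.ker).range := by
    ext y
    constructor
    · rintro ⟨x, rfl⟩
      refine ⟨-⟨σ x, hσC x x.2⟩, ?_⟩
      apply Subtype.ext
      rw [AddMonoidHom.comp_apply, hff]
      simp
    · rintro ⟨x, rfl⟩
      refine ⟨-⟨σ (σ x), hσC _ (hσC x x.2)⟩, ?_⟩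
      apply Subtype.ext
      rw [AddMonoidHom.comp_apply, hff]
      simp [hσ]
  have hk : (f.comp f).ker = (zsmulAddGroupHom (3 : ℤ) : N.ker →+ N.ker).ker := by
    ext x
    rw [AddMonoidHom.mem_ker, AddMonoidHom.mem_ker, AddMonoidHom.comp_apply,
      ← Subtype.coe_inj, hff, ← Subtype.coe_inj]
    have h1 : ((zsmulAddGroupHom (3 : ℤ) x : N.ker) : A) = (3 : ℤ) • (x : A) := by simp
    rw [h1, AddSubgroup.coe_zero, neg_eq_zero, ← map_zsmul, map_eq_zero_iff σ σ.injective]
  have hfinC : Module.Finite ℤ N.ker :=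
    inferInstanceAs (Module.Finite ℤ (AddSubgroup.toIntSubmodule N.ker))
  have hfinF : Module.Finite ℤ (Fx σ) :=
    inferInstanceAs (Module.Finite ℤ (AddSubgroup.toIntSubmodule (Fx σ)))
  -- (4)
  have h4 := herb_sq f
  rw [hr, hk, card_mod_three] at h4
  have hK2 : 0 < Nat.card (zsmulAddGroupHom (3 : ℤ) : N.ker →+ N.ker).ker := by
    have := herb_finite_ker (A := N.ker)
    exact Nat.card_pos
  -- (1)
  have hNF : ∀ x ∈ Fx σ, N x = (3 : ℤ) • x := by
    intro x hx
    have hx' : σ x = x := hx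
    rw [hNx, hx', hx', show (3 : ℤ) = 1 + 1 + 1 by norm_num, add_smul, add_smul, one_smul]
  have h1 : ((Fx σ).map N).relIndex (Fx σ) = 3 ^ Module.finrank ℤ (Fx σ) *
      Nat.card (zsmulAddGroupHom (3 : ℤ) : Fx σ →+ Fx σ).ker := by
    rw [← card_mod_three]
    unfold AddSubgroup.relIndex
    congr 1
    ext y
    rw [AddSubgroup.mem_addSubgroupOf, AddSubgroup.mem_map]
    constructor
    · rintro ⟨x, hx, hxy⟩
      refine ⟨⟨x, hx⟩, ?_⟩
      apply Subtype.ext
      rw [← hxy, hNF x hx]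
      simp
    · rintro ⟨x, rfl⟩
      refine ⟨x, x.2, ?_⟩
      rw [hNF x x.2]
      simp
  -- (2)
  have h2 : (Fx σ ⊔ N.ker).index * (Nm σ).relIndex (Fx σ) = ((Fx σ).map N).relIndex (Fx σ) := by
    have hle1 : (Fx σ).map N ≤ Nm σ := by
      rw [← hNr]
      rintro y ⟨x, _, rfl⟩
      exact ⟨x, rfl⟩
    have hle2 : Nm σ ≤ Fx σ := by
      rintro y ⟨x, rfl⟩
      show σ _ = _
      simp only [map_add, hσ]
      abel
    rw [← AddSubgroup.relIndex_mul_relIndex _ _ _ hle1 hle2]
    congr 1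
    rw [← hNr, AddMonoidHom.range_eq_map, AddSubgroup.relIndex_map_map, top_sup_eq,
      AddSubgroup.relIndex_top_right]
  -- (3)
  have h3 : f.range.index = (Fx σ ⊔ N.ker).index := by
    have e1 : f.range.index = (N.ker.map D).relIndex N.ker := by
      unfold AddSubgroup.relIndex
      congr 1
      ext y
      rw [AddSubgroup.mem_addSubgroupOf, AddSubgroup.mem_map]
      constructor
      · rintro ⟨x, rfl⟩
        exact ⟨x, x.2, rfl⟩
      · rintro ⟨x, hx, hxy⟩
        exact ⟨⟨x, hx⟩, Subtype.ext hxy⟩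
    have e2 : (N.ker.map D).relIndex N.ker = (N.ker.map D).relIndex (AddSubgroup.map D ⊤) := by
      rw [← AddMonoidHom.range_eq_map, ← hC]
    rw [e1, e2, AddSubgroup.relIndex_map_map, top_sup_eq, AddSubgroup.relIndex_top_right, hF,
      sup_comm]
  -- kernels
  have hkk : Nat.card f.ker = Nat.card (zsmulAddGroupHom (3 : ℤ) : Fx σ →+ Fx σ).ker := by
    refine Nat.card_congr
      { toFun := fun x => ⟨⟨x.1.1, ?_⟩, ?_⟩
        invFun := fun x => ⟨⟨x.1.1, ?_⟩, ?_⟩
        left_inv := fun x => rfl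
        right_inv := fun x => rfl }
    · have := x.2
      rw [AddMonoidHom.mem_ker, ← Subtype.coe_inj, hf, AddSubgroup.coe_zero, sub_eq_zero] at this
      exact this
    · rw [AddMonoidHom.mem_ker]
      apply Subtype.ext
      have h5 := x.2
      rw [AddMonoidHom.mem_ker, ← Subtype.coe_inj, hf, AddSubgroup.coe_zero, sub_eq_zero] at h5
      have h6 : (x.1.1 : A) + σ x.1.1 + σ (σ x.1.1) = 0 := x.1.2
      rw [h5, h5] at h6
      show (3 : ℤ) • (x.1.1 : A) = 0
      rw [show (3 : ℤ) = 1 + 1 + 1 by norm_num, add_smul, add_smul, one_smul]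
      exact h6
    · have h5 := x.2
      rw [AddMonoidHom.mem_ker, ← Subtype.coe_inj] at h5
      have h6 : (3 : ℤ) • (x.1.1 : A) = 0 := h5
      rw [AddMonoidHom.mem_ker, hNF x.1.1 x.1.2]
      exact h6
    · rw [AddMonoidHom.mem_ker]
      apply Subtype.ext
      show σ (x.1.1 : A) - x.1.1 = 0
      exact sub_eq_zero.mpr x.1.2
  have hk1 : 0 < Nat.card (zsmulAddGroupHom (3 : ℤ) : Fx σ →+ Fx σ).ker := by
    have := herb_finite_ker (A := Fx σ)
    exact Nat.card_pos
  -- (5)
  have h5 : Module.finrank ℤ A = Module.finrank ℤ N.ker + Module.finrank ℤ (Fx σ) := by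
    have e1 := Submodule.finrank_quotient_add_finrank (LinearMap.ker D.toIntLinearMap)
    have e2 : Module.finrank ℤ (A ⧸ LinearMap.ker D.toIntLinearMap) =
        Module.finrank ℤ N.ker := by
      have e3 : Module.finrank ℤ (A ⧸ LinearMap.ker D.toIntLinearMap) =
          Module.finrank ℤ (LinearMap.range D.toIntLinearMap) :=
        (D.toIntLinearMap.quotKerEquivRange).finrank_eq
      rw [e3]
      have e4 : (LinearMap.range D.toIntLinearMap) ≃+ N.ker :=
        { toFun := fun x => ⟨x.1, by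
            rw [hC]
            obtain ⟨y, hy⟩ := x.2
            exact ⟨y, hy⟩⟩
          invFun := fun x => ⟨x.1, by
            have h7 : (x : A) ∈ D.range := by
              rw [← hC]
              exact x.2
            obtain ⟨y, hy⟩ := h7
            exact ⟨y, hy⟩⟩
          left_inv := fun x => rfl
          right_inv := fun x => rfl
          map_add' := fun x y => rfl }
      exact e4.toIntLinearEquiv.finrank_eq
    have e5 : Module.finrank ℤ (LinearMap.ker D.toIntLinearMap) = Module.finrank ℤ (Fx σ) := by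
      have e6 : (LinearMap.ker D.toIntLinearMap) ≃+ Fx σ :=
        { toFun := fun x => ⟨x.1, by
            rw [← hF]
            exact x.2⟩
          invFun := fun x => ⟨x.1, by
            have h7 : (x : A) ∈ D.ker := by
              rw [hF]
              exact x.2
            exact h7⟩
          left_inv := fun x => rfl
          right_inv := fun x => rfl
          map_add' := fun x y => rfl }
      exact e6.toIntLinearEquiv.finrank_eq
    rw [← e1, e2, e5]
  -- the final computation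
  rw [hkk, h3] at h4
  rw [h1] at h2
  set d := (Fx σ ⊔ N.ker).index
  set h := (Nm σ).relIndex (Fx σ)
  set a := Module.finrank ℤ (Fx σ)
  set c := Module.finrank ℤ N.ker
  set k := Nat.card (zsmulAddGroupHom (3 : ℤ) : Fx σ →+ Fx σ).ker
  set K := Nat.card (zsmulAddGroupHom (3 : ℤ) : N.ker →+ N.ker).ker
  have h6 : 3 ^ c * k ^ 2 = d ^ 2 := by
    have : K * (3 ^ c * k ^ 2) = K * d ^ 2 := by
      rw [← h4]; ring
    exact Nat.eq_of_mul_eq_mul_left hK2 this
  have h7 : k ^ 2 * (h ^ 2 * 3 ^ c) = k ^ 2 * (3 ^ a) ^ 2 := by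
    calc k ^ 2 * (h ^ 2 * 3 ^ c) = (3 ^ c * k ^ 2) * h ^ 2 := by ring
      _ = (d * h) ^ 2 := by rw [h6]; ring
      _ = _ := by rw [h2]; ring
  have h8 : h ^ 2 * 3 ^ c = (3 ^ a) ^ 2 := Nat.eq_of_mul_eq_mul_left (by positivity) h7
  rw [h5, pow_add, ← mul_assoc, h8]
  ring

end Pool.Agent.Lib.MP_fdb342_lc
end
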