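import Pool.Agent.Lib.MP_fdb342_lc.Mg.G003
import Pool.Agent.Lib.MP_fdb342_lc.Mg.G002
import Pool.Agent.Lib.MP_fdb342_lc.Mg.G001
import Pool.Agent.Lib.MP_fdb342_lc.Mg.G005
import Pool.Agent.Lib.MP_1ef7cf_nt.Frob2
import Pool.Agent.Lib.MP_fdb342_lc.Mg.G006

section

/-!
# The definition of `RR 3`: elements satisfying the definition are integral outside of `3`
-/

open IsDedekindDomain NumberField

namespace Pool.Agent.Lib.MP_fdb342_lc

private theorem f3_exists_good {K : IntermediateField ℚ ℂ} (hK : Good K) (l : List ℂ)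
    (hl : ∀ z ∈ l, z ∈ Omega) :
    ∃ L : IntermediateField ℚ ℂ, K ≤ L ∧ Good L ∧ ∀ z ∈ l, z ∈ L := by
  induction l with
  | nil => exact ⟨K, le_rfl, hK, by simp⟩
  | cons w l ih =>
    obtain ⟨L, h1, h2, h3⟩ := ih (fun z hz => hl z (List.mem_cons_of_mem _ hz))
    obtain ⟨M, h4, h5⟩ := IsConstructible.exists_good (mem_Omega.1 (hl w List.mem_cons_self))
    refine ⟨L ⊔ M, h1.trans le_sup_left, good_sup h2 h4, fun z hz => ?_⟩
    rcases List.mem_cons.1 hz with rfl | hz
    · exact (le_sup_right : M ≤ L ⊔ M) h5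
    · exact (le_sup_left : L ≤ L ⊔ M) (h3 z hz)

private theorem f3_zeta {ζ : ℂ} (hζ : IsPrimitiveRoot ζ 3) : ζ ∈ Omega := by
  have h1 : ζ ≠ 1 := hζ.ne_one (by norm_num)
  have h2 : (ζ - 1) * (ζ ^ 2 + ζ + 1) = 0 := by
    have := hζ.pow_eq_one
    linear_combination this
  have h3 : ζ ^ 2 + ζ + 1 = 0 := by
    rcases mul_eq_zero.1 h2 with h | h
    · exact absurd (sub_eq_zero.1 h) h1
    · exact h
  exact omega_quad (one_mem _) (one_mem _) (by linear_combination h3)

private theorem f3_xi {ξ : ℂ} (hξ : IsPrimitiveRoot ξ 5) : ξ ∈ Omega := by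
  have h1 : ξ ≠ 1 := hξ.ne_one (by norm_num)
  have h0 : ξ ≠ 0 := hξ.ne_zero (by norm_num)
  have h2 : (ξ - 1) * (ξ ^ 4 + ξ ^ 3 + ξ ^ 2 + ξ + 1) = 0 := by
    have := hξ.pow_eq_one
    linear_combination this
  have h3 : ξ ^ 4 + ξ ^ 3 + ξ ^ 2 + ξ + 1 = 0 := by
    rcases mul_eq_zero.1 h2 with h | h
    · exact absurd (sub_eq_zero.1 h) h1
    · exact h
  have h4 : ξ + ξ⁻¹ ∈ Omega := by
    refine omega_quad (one_mem _) (neg_mem (one_mem Omega)) ?_
    field_simp
    linear_combination h3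
  refine omega_quad (neg_mem h4) (one_mem _) ?_
  field_simp
  ring

private theorem f3_galois {K L : IntermediateField ℚ ℂ} (hK : Good K) (hL : Good L) (h : K ≤ L) :
    letI : Algebra K L := (IntermediateField.inclusion h).toAlgebra
    IsGalois K L ∧ ∃ k : ℕ, Module.finrank K L = 2 ^ k := by
  let _ : Algebra K L := (IntermediateField.inclusion h).toAlgebra
  have : IsScalarTower ℚ K L := IsScalarTower.of_algebraMap_eq (fun _ => rfl)
  have := hK.finiteDimensional
  have := hL.finiteDimensional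
  have := hL.1
  refine ⟨IsGalois.tower_top_of_isGalois ℚ K L, ?_⟩
  obtain ⟨n, hn⟩ := hL.2
  have h1 := Module.finrank_mul_finrank ℚ K L
  rw [hn] at h1
  obtain ⟨k, -, hk⟩ := (Nat.dvd_prime_pow Nat.prime_two).1 (Dvd.intro_left _ h1)
  exact ⟨k, hk⟩

theorem mem_RR_of_QQ {x : ℂ} (h : QQ x) : x ∈ RR 3 := by
  obtain ⟨hx, h⟩ := h
  have hζ : IsPrimitiveRoot (Complex.exp (2 * Real.pi * Complex.I / (3 : ℕ))) 3 :=
    Complex.isPrimitiveRoot_exp 3 (by norm_num)
  have hξ : IsPrimitiveRoot (Complex.exp (2 * Real.pi * Complex.I / (5 : ℕ))) 5 :=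
    Complex.isPrimitiveRoot_exp 5 (by norm_num)
  set ζ := Complex.exp (2 * Real.pi * Complex.I / (3 : ℕ))
  set ξ := Complex.exp (2 * Real.pi * Complex.I / (5 : ℕ))
  obtain ⟨K, -, hK, hmem⟩ := f3_exists_good good_bot [x, ζ, ξ] (by
    intro z hz
    simp only [List.mem_cons, List.not_mem_nil, or_false] at hz
    rcases hz with rfl | rfl | rfl
    · exact hx
    · exact f3_zeta hζ
    · exact f3_xi hξ)
  have hxK : x ∈ K := hmem x (by simp)
  have hζK : ζ ∈ K := hmem ζ (by simp)
  have hξK : ξ ∈ K := hmem ξ (by simp)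
  have := hK.finiteDimensional
  have : NumberField K := {}
  by_contra hcon
  have h1 : ¬ ∀ v : Pl K, ¬ Above3 v → v.valuation K (⟨x, hxK⟩ : K) ≤ 1 :=
    fun h1 => hcon (mem_RR_of_val hK ⟨x, hxK⟩ h1)
  push Not at h1
  obtain ⟨v, hv, hvx⟩ := h1
  have hζ' : IsPrimitiveRoot (⟨ζ, hζK⟩ : K) 3 :=
    IsPrimitiveRoot.of_map_of_injective (f := algebraMap K ℂ) hζ (algebraMap K ℂ).injective
  have hξ' : IsPrimitiveRoot (⟨ξ, hξK⟩ : K) 5 :=
    IsPrimitiveRoot.of_map_of_injective (f := algebraMap K ℂ) hξ (algebraMap K ℂ).injective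
  obtain ⟨β, ε, a, hε, ha, ha0, haL⟩ := exists_beta hζ' hξ' v hv
  obtain ⟨π, hπ⟩ := v.valuation_exists_uniformizer K
  have hπ0 : π ≠ 0 := by
    rintro rfl
    rw [map_zero] at hπ
    exact WithZero.exp_ne_zero hπ.symm
  have hb : ¬ (3 : ℤ) ∣ ordv v ((Units.mk0 π hπ0 : Kˣ) : K) := by
    have : ordv v ((Units.mk0 π hπ0 : Kˣ) : K) = 1 := by
      rw [Units.val_mk0]
      unfold ordv
      rw [hπ]
      simp
    rw [this]
    norm_num
  have ha' : ((a : K) : ℂ) * (1 + 3 * (β : ℂ) ^ 3) = 10 + 3 * (β : ℂ) ^ 3 ∨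
      ((a : K) : ℂ) * (1 + 3 * (β : ℂ) ^ 3) = 19 + 3 * (β : ℂ) ^ 3 := by
    have h2 := congrArg (algebraMap K ℂ) ha
    simp only [map_mul, map_add, map_one, map_pow, map_ofNat] at h2
    rcases hε with rfl | rfl
    · left
      simp only [map_one] at h2
      have h3 : (algebraMap K ℂ) (a : K) = ((a : K) : ℂ) := rfl
      have h4 : (algebraMap K ℂ) β = (β : ℂ) := rfl
      rw [h3, h4] at h2
      linear_combination h2
    · right
      simp only [map_ofNat] at h2
      have h3 : (algebraMap K ℂ) (a : K) = ((a : K) : ℂ) := rfl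
      have h4 : (algebraMap K ℂ) β = (β : ℂ) := rfl
      rw [h3, h4] at h2
      linear_combination h2
  obtain ⟨t, ht, p₀, hp₀, q₀, hq₀, r₀, hr₀, p₁, hp₁, q₁, hq₁, r₁, hr₁, p₂, hp₂, q₂, hq₂, r₂, hr₂,
    heq⟩ := h (β : ℂ) (hK.le_Omega β.2) ((a : K) : ℂ) (hK.le_Omega (a : K).2) (π : ℂ)
      (hK.le_Omega π.2) (fun h0 => hπ0 (Subtype.ext h0)) ha'
  obtain ⟨L, hKL, hL, hmem⟩ := f3_exists_good hK [t, p₀, q₀, r₀, p₁, q₁, r₁, p₂, q₂, r₂] (by
    intro z hz
    simp only [List.mem_cons, List.not_mem_nil, or_false] at hz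
    rcases hz with rfl | rfl | rfl | rfl | rfl | rfl | rfl | rfl | rfl | rfl <;> assumption)
  have := hL.finiteDimensional
  have : NumberField L := {}
  let _ : Algebra K L := (IntermediateField.inclusion hKL).toAlgebra
  obtain ⟨hgal, k, hk⟩ := f3_galois hK hL hKL
  obtain ⟨P, hP⟩ := exists_above (E := L) v
  subst hP
  have : IsGalois K L := hgal
  have hodd : Odd3 K P := odd3_of_galois hk P hv
  have hT := hodd.tame ha0 haL hb
  obtain ⟨e, he, hval⟩ := val_bel (K := K) P
  have hP3 : ¬ Above3 P := by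
    intro h3
    apply hv
    unfold Above3 at h3 ⊢
    have e3 : (3 : L) = algebraMap K L 3 := by rw [map_ofNat]
    rw [e3, hval] at h3
    by_contra hcon
    rw [not_lt] at hcon
    exact absurd h3 (not_lt.2 (one_le_pow_of_one_le' hcon e))
  have hPx : 1 < P.valuation L (algebraMap K L ⟨x, hxK⟩) := by
    rw [hval]
    exact one_lt_pow' hvx he.ne'
  refine nfA_ne hP3 hPx hT.1 hT.2.1 hT.2.2.1 ⟨t, hmem t (by simp)⟩
    (⟨p₀, hmem p₀ (by simp)⟩, ⟨q₀, hmem q₀ (by simp)⟩, ⟨r₀, hmem r₀ (by simp)⟩)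
    (⟨p₁, hmem p₁ (by simp)⟩, ⟨q₁, hmem q₁ (by simp)⟩, ⟨r₁, hmem r₁ (by simp)⟩)
    (⟨p₂, hmem p₂ (by simp)⟩, ⟨q₂, hmem q₂ (by simp)⟩, ⟨r₂, hmem r₂ (by simp)⟩) ?_
  have h1 := congrArg (fun u : ℂ × ℂ × ℂ => u.1) heq
  have h2 := congrArg (fun u : ℂ × ℂ × ℂ => u.2.1) heq
  have h3 := congrArg (fun u : ℂ × ℂ × ℂ => u.2.2) heq
  refine Prod.ext ?_ (Prod.ext ?_ ?_)
  · exact Subtype.ext h1
  · exact Subtype.ext h2
  · exact Subtype.ext h3

end Pool.Agent.Lib.MP_fdb342_lc
end

section

/-!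
# Symbols in cubic extensions
-/

open IsDedekindDomain NumberField

namespace Pool.Agent.Lib.MP_fdb342_lc

variable {K : Type} [Field K] [NumberField K] {E : Type} [Field E] [NumberField E] [Algebra K E]

private lemma F4b_arith {q N a : ℕ} (hq : 1 < q) (h3 : 3 ∣ q - 1) {m : ℕ} (hN : N = q ^ (3 * m) - 1)
    (h : N ∣ a * (q - 1)) : 3 ∣ a := by
  obtain ⟨r, rfl⟩ : ∃ r, q = r + 1 := ⟨q - 1, by omega⟩
  have hr : 0 < r := by omega
  rw [Nat.add_sub_cancel] at h h3
  have h1 : 3 * r ∣ N := by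
    have e1 : 3 * r ∣ (r + 1) ^ 3 - 1 := by
      obtain ⟨s, rfl⟩ := h3
      have : (3 * s + 1) ^ 3 - 1 = 3 * (3 * s) * (3 * s ^ 2 + 3 * s + 1) := by
        have : (3 * s + 1) ^ 3 = 3 * (3 * s) * (3 * s ^ 2 + 3 * s + 1) + 1 := by ring
        omega
      rw [this]
      exact Dvd.intro _ rfl
    have e2 : (r + 1) ^ 3 - 1 ∣ N := by
      rw [hN, pow_mul]
      have := Nat.sub_dvd_pow_sub_pow ((r + 1) ^ 3) 1 m
      rwa [one_pow] at this
    exact e1.trans e2
  have h2 := h1.trans h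
  exact Nat.dvd_of_mul_dvd_mul_right hr h2

private lemma F4b_ff {k kP : Type} [Field k] [Field kP] [Finite k] [Finite kP] [Algebra k kP]
    {z : k} (hz : z ^ 3 = 1) (hz1 : z ≠ 1) {θ : kP} {x t : k}
    (hirr : ∀ y : k, y ^ 3 - x * y ^ 2 + t * y - 1 ≠ 0)
    (hθ : θ ^ 3 - algebraMap k kP x * θ ^ 2 + algebraMap k kP t * θ - 1 = 0)
    {c : k} (hc : c ≠ 0) : ∃ y : kP, y ≠ 0 ∧ algebraMap k kP c * y ^ 3 = 1 := by
  classical
  open Polynomial in
  have hdeg : 3 ∣ Module.finrank k kP := by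
    set f : k[X] := X ^ 3 - C x * X ^ 2 + C t * X - 1 with hf
    have hfd : f.natDegree = 3 := by
      rw [hf]; compute_degree!
    have hfm : f.Monic := by
      rw [hf]; monicity!
    have hfi : Irreducible f := by
      refine Polynomial.irreducible_of_degree_le_three_of_not_isRoot
        (by rw [hfd]; decide) fun y hy => ?_
      rw [Polynomial.IsRoot.def, hf] at hy
      simp only [eval_sub, eval_add, eval_pow, eval_X, eval_mul, eval_C, eval_one] at hy
      exact hirr y hy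
    have hfθ : Polynomial.aeval θ f = 0 := by
      rw [hf]
      simp only [map_sub, map_add, map_pow, aeval_X, map_mul, aeval_C, map_one]
      exact hθ
    have hmin := minpoly.eq_of_irreducible_of_monic hfi hfθ hfm
    have hint : IsIntegral k θ := ⟨f, hfm, hfθ⟩
    have := minpoly.degree_dvd hint
    rwa [← hmin, hfd] at this
  obtain ⟨m, hm⟩ := hdeg
  set q := Nat.card k with hq
  have hq1 : 1 < q := Finite.one_lt_card
  have hcard : Nat.card kP = q ^ (3 * m) := by
    rw [Module.natCard_eq_pow_finrank (K := k), hm]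
  have hN : Nat.card kPˣ = q ^ (3 * m) - 1 := by rw [Nat.card_units, hcard]
  have hku : Nat.card kˣ = q - 1 := by rw [Nat.card_units]
  have h3 : 3 ∣ q - 1 := by
    have hz0 : z ≠ 0 := by
      rintro rfl
      rw [zero_pow three_ne_zero] at hz
      exact zero_ne_one hz
    have : Fact (Nat.Prime 3) := ⟨Nat.prime_three⟩
    have ho : orderOf (Units.mk0 z hz0) = 3 := by
      refine orderOf_eq_prime (Units.ext ?_) fun h => hz1 ?_
      · rw [Units.val_pow_eq_pow_val, Units.val_mk0, hz, Units.val_one]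
      · have := congrArg Units.val h
        rwa [Units.val_mk0, Units.val_one] at this
    rw [← hku, ← ho]
    exact orderOf_dvd_natCard _
  set D : kPˣ := Units.map (algebraMap k kP : k →* kP) (Units.mk0 c hc) with hD
  have hDq : D ^ (q - 1) = 1 := by
    rw [hD, ← map_pow, ← hku, pow_card_eq_one', map_one]
  obtain ⟨g, hg⟩ := IsCyclic.exists_generator (α := kPˣ)
  obtain ⟨a, ha⟩ := (mem_powers_iff_mem_zpowers).2 (hg D)
  have ha' : g ^ a = D := ha
  have hog : orderOf g = Nat.card kPˣ := orderOf_eq_card_of_forall_mem_zpowers hg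
  have hdvd : Nat.card kPˣ ∣ a * (q - 1) := by
    rw [← hog]
    apply orderOf_dvd_of_pow_eq_one
    rw [pow_mul, ha', hDq]
  obtain ⟨b, rfl⟩ := F4b_arith hq1 h3 hN hdvd
  refine ⟨((g ^ b)⁻¹ : kPˣ), Units.ne_zero _, ?_⟩
  have e : D * ((g ^ b)⁻¹) ^ 3 = 1 := by
    rw [← ha', inv_pow, ← pow_mul, mul_comm b 3, mul_inv_cancel]
  have := congrArg Units.val e
  rwa [Units.val_mul, Units.val_pow_eq_pow_val, Units.val_one] at this

private lemma F4b_approx (P : Pl E) {x : E} (hx : P.valuation E x ≤ 1) :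
    ∃ a : 𝓞 E, P.valuation E (algebraMap (𝓞 E) E a - x) < 1 := by
  obtain ⟨a, ha⟩ := P.exists_valuation_sub_lt_of_integer hx 1
  exact ⟨a, by simpa using ha⟩

private lemma F4b_le_of_near (P : Pl E) {x y : E} (hx : P.valuation E x ≤ 1)
    (h : P.valuation E (y - x) < 1) : P.valuation E y ≤ 1 := by
  have : y = (y - x) + x := by ring
  rw [this]
  exact Valuation.map_add_le _ h.le hx

/-- all elements of the residue field of `K` are cubes in a cubic extension -/
theorem cube_above {ζ : K} (hζ : IsPrimitiveRoot ζ 3) (P : Pl E) (h3 : ¬ Above3 (bel K P))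
    {x t : K} (hx : (bel K P).valuation K x ≤ 1) (ht : (bel K P).valuation K t ≤ 1)
    (hirr : ∀ y : K, (bel K P).valuation K y ≤ 1 →
      (bel K P).valuation K (y ^ 3 - x * y ^ 2 + t * y - 1) = 1)
    {θ : E} (hθ : θ ^ 3 = algebraMap K E x * θ ^ 2 - algebraMap K E t * θ + 1)
    {c : Kˣ} (hc : ordv (bel K P) (c : K) = 0) : up E c ∈ LCv P := by
  obtain ⟨e, he, hval⟩ := val_bel (K := K) P
  have htow : ∀ a : 𝓞 K, algebraMap (𝓞 E) E (algebraMap (𝓞 K) (𝓞 E) a) =
      algebraMap K E (algebraMap (𝓞 K) K a) := fun a => rfl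
  have hltE : ∀ y : K, (bel K P).valuation K y < 1 → P.valuation E (algebraMap K E y) < 1 := by
    intro y hy
    rw [hval]
    exact pow_lt_one₀ zero_le hy he.ne'
  have hleE : ∀ y : K, (bel K P).valuation K y ≤ 1 → P.valuation E (algebraMap K E y) ≤ 1 := by
    intro y hy
    rw [hval]
    exact pow_le_one₀ zero_le hy
  -- `θ` is integral at `P`
  have hθ1 : P.valuation E θ ≤ 1 := by
    by_contra hcon
    rw [not_le] at hcon
    have hx' := hleE x hx
    have ht' := hleE t ht
    have hθp : (0 : WithZero (Multiplicative ℤ)) < P.valuation E θ := zero_lt_one.trans hcon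
    have h1 : P.valuation E (algebraMap K E x * θ ^ 2 - algebraMap K E t * θ + 1) ≤
        P.valuation E θ ^ 2 := by
      refine Valuation.map_add_le _ (Valuation.map_sub_le _ ?_ ?_) ?_
      · rw [map_mul, map_pow]
        exact mul_le_of_le_one_left' hx'
      · rw [map_mul]
        calc P.valuation E (algebraMap K E t) * P.valuation E θ ≤ 1 * P.valuation E θ :=
              mul_le_mul_left ht' _
          _ = P.valuation E θ := one_mul _
          _ ≤ P.valuation E θ ^ 2 := le_self_pow hcon.le two_ne_zero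
      · rw [map_one]
        exact one_le_pow₀ hcon.le
    rw [← hθ, map_pow] at h1
    exact absurd h1 (not_le.2 (pow_lt_pow_right₀ hcon (by norm_num)))
  obtain ⟨θ', hθ'⟩ := F4b_approx P hθ1
  obtain ⟨x', hx'⟩ := F4b_approx (bel K P) hx
  obtain ⟨t', ht'⟩ := F4b_approx (bel K P) ht
  have hc1 : (bel K P).valuation K (c : K) = 1 := (val_eq_one_iff _ c.ne_zero).2 hc
  obtain ⟨c', hc'⟩ := F4b_approx (bel K P) hc1.le
  obtain ⟨z', hz'⟩ : ∃ z' : 𝓞 K, algebraMap (𝓞 K) K z' = ζ := by
    have : IsIntegral ℤ ζ := hζ.isIntegral (by norm_num)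
    exact ⟨⟨ζ, this⟩, rfl⟩
  let k := 𝓞 K ⧸ (bel K P).asIdeal
  let kP := 𝓞 E ⧸ P.asIdeal
  have : (bel K P).asIdeal.IsMaximal := (bel K P).isMaximal
  have : P.asIdeal.IsMaximal := P.isMaximal
  let _ : Field k := Ideal.Quotient.field _
  let _ : Field kP := Ideal.Quotient.field _
  have : Finite k := Ideal.finiteQuotientOfFreeOfNeBot _ (bel K P).ne_bot
  have : Finite kP := Ideal.finiteQuotientOfFreeOfNeBot _ P.ne_bot
  let φ : k →+* kP := Ideal.quotientMap P.asIdeal (algebraMap (𝓞 K) (𝓞 E)) le_rfl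
  let _ : Algebra k kP := φ.toAlgebra
  have hφ : ∀ a : 𝓞 K, algebraMap k kP (Ideal.Quotient.mk _ a) =
      Ideal.Quotient.mk _ (algebraMap (𝓞 K) (𝓞 E) a) := fun a => rfl
  have hmemK : ∀ a : 𝓞 K, (bel K P).valuation K (algebraMap (𝓞 K) K a) < 1 ↔
      (Ideal.Quotient.mk (bel K P).asIdeal a = 0) := fun a => by
    rw [Ideal.Quotient.eq_zero_iff_mem]
    exact (bel K P).valuation_lt_one_iff_mem a
  have hmemE : ∀ a : 𝓞 E, P.valuation E (algebraMap (𝓞 E) E a) < 1 ↔
      (Ideal.Quotient.mk P.asIdeal a = 0) := fun a => by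
    rw [Ideal.Quotient.eq_zero_iff_mem]
    exact P.valuation_lt_one_iff_mem a
  have hz3 : ζ ^ 3 = 1 := hζ.pow_eq_one
  have hz1 : (Ideal.Quotient.mk (bel K P).asIdeal z' : k) ^ 3 = 1 := by
    rw [← map_pow, ← map_one (Ideal.Quotient.mk (bel K P).asIdeal), Ideal.Quotient.eq]
    have : z' ^ 3 - 1 = 0 := by
      apply FaithfulSMul.algebraMap_injective (𝓞 K) K
      rw [map_sub, map_pow, map_one, map_zero, hz', hz3, sub_self]
    rw [this]
    exact zero_mem _
  have hz2 : (Ideal.Quotient.mk (bel K P).asIdeal z' : k) ≠ 1 := by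
    intro h
    apply h3
    rw [← map_one (Ideal.Quotient.mk (bel K P).asIdeal), Ideal.Quotient.eq] at h
    have h1 : (bel K P).valuation K (algebraMap (𝓞 K) K (z' - 1)) < 1 :=
      ((bel K P).valuation_lt_one_iff_mem (K := K) (z' - 1)).2 h
    rw [map_sub, map_one, hz'] at h1
    have h2 : ζ ^ 2 + ζ + 1 = 0 := by
      have h3 : (ζ - 1) * (ζ ^ 2 + ζ + 1) = 0 := by
        linear_combination hz3
      rcases mul_eq_zero.1 h3 with h4 | h4
      · exact absurd (sub_eq_zero.1 h4) (hζ.ne_one (by norm_num))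
      · exact h4
    have h4 : (3 : K) = -((ζ - 1) * (ζ + 2)) := by linear_combination h2
    unfold Above3
    rw [h4, Valuation.map_neg, map_mul]
    refine mul_lt_one_of_lt_of_le h1 ?_
    have h5 : ζ + 2 = algebraMap (𝓞 K) K (z' + 2) := by
      rw [map_add, hz', map_ofNat]
    rw [h5]
    exact (bel K P).valuation_le_one _
  have hirr' : ∀ y : k, y ^ 3 - (Ideal.Quotient.mk (bel K P).asIdeal x') * y ^ 2 +
      (Ideal.Quotient.mk (bel K P).asIdeal t') * y - 1 ≠ 0 := by
    intro y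
    obtain ⟨y', rfl⟩ := Ideal.Quotient.mk_surjective y
    intro h
    have h1 : Ideal.Quotient.mk (bel K P).asIdeal (y' ^ 3 - x' * y' ^ 2 + t' * y' - 1) = 0 := by
      simpa using h
    rw [← hmemK] at h1
    have hy1 : (bel K P).valuation K (algebraMap (𝓞 K) K y') ≤ 1 :=
      (bel K P).valuation_le_one y'
    have h2 := hirr (algebraMap (𝓞 K) K y') hy1
    have h3 : algebraMap (𝓞 K) K y' ^ 3 - x * algebraMap (𝓞 K) K y' ^ 2 +
        t * algebraMap (𝓞 K) K y' - 1 =
        algebraMap (𝓞 K) K (y' ^ 3 - x' * y' ^ 2 + t' * y' - 1) +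
        (algebraMap (𝓞 K) K x' - x) * algebraMap (𝓞 K) K y' ^ 2 -
        (algebraMap (𝓞 K) K t' - t) * algebraMap (𝓞 K) K y' := by
      simp only [map_sub, map_add, map_mul, map_pow, map_one]
      ring
    rw [h3] at h2
    have h4 : (bel K P).valuation K (algebraMap (𝓞 K) K (y' ^ 3 - x' * y' ^ 2 + t' * y' - 1) +
        (algebraMap (𝓞 K) K x' - x) * algebraMap (𝓞 K) K y' ^ 2 -
        (algebraMap (𝓞 K) K t' - t) * algebraMap (𝓞 K) K y') < 1 := by
      refine Valuation.map_sub_lt _ (Valuation.map_add_lt _ h1 ?_) ?_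
      · rw [map_mul, map_pow]
        exact mul_lt_one_of_lt_of_le hx' (pow_le_one₀ zero_le hy1)
      · rw [map_mul]
        exact mul_lt_one_of_lt_of_le ht' hy1
    rw [h2] at h4
    exact lt_irrefl _ h4
  have hθ'' : (Ideal.Quotient.mk P.asIdeal θ' : kP) ^ 3 -
      algebraMap k kP (Ideal.Quotient.mk (bel K P).asIdeal x') *
        (Ideal.Quotient.mk P.asIdeal θ') ^ 2 +
      algebraMap k kP (Ideal.Quotient.mk (bel K P).asIdeal t') *
        (Ideal.Quotient.mk P.asIdeal θ') - 1 = 0 := by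
    rw [hφ, hφ]
    have h1 : Ideal.Quotient.mk P.asIdeal (θ' ^ 3 - algebraMap (𝓞 K) (𝓞 E) x' * θ' ^ 2 +
        algebraMap (𝓞 K) (𝓞 E) t' * θ' - 1) = 0 := by
      rw [← hmemE]
      set T := algebraMap (𝓞 E) E θ' with hT
      have hT1 : P.valuation E T ≤ 1 := P.valuation_le_one θ'
      have h3 : algebraMap (𝓞 E) E (θ' ^ 3 - algebraMap (𝓞 K) (𝓞 E) x' * θ' ^ 2 +
          algebraMap (𝓞 K) (𝓞 E) t' * θ' - 1) =
          (T - θ) * (T ^ 2 + T * θ + θ ^ 2 - algebraMap K E x * (T + θ) + algebraMap K E t) -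
          algebraMap K E (algebraMap (𝓞 K) K x' - x) * T ^ 2 +
          algebraMap K E (algebraMap (𝓞 K) K t' - t) * T := by
        simp only [map_sub, map_add, map_mul, map_pow, map_one, htow]
        rw [← hT]
        linear_combination hθ
      rw [h3]
      refine Valuation.map_add_lt _ (Valuation.map_sub_lt _ ?_ ?_) ?_
      · rw [map_mul]
        refine mul_lt_one_of_lt_of_le hθ' ?_
        refine Valuation.map_add_le _ (Valuation.map_sub_le _ (Valuation.map_add_le _
          (Valuation.map_add_le _ ?_ ?_) ?_) ?_) ?_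
        · rw [map_pow]; exact pow_le_one₀ zero_le hT1
        · rw [map_mul]; exact mul_le_one' hT1 hθ1
        · rw [map_pow]; exact pow_le_one₀ zero_le hθ1
        · rw [map_mul]
          exact mul_le_one' (hleE x hx) (Valuation.map_add_le _ hT1 hθ1)
        · exact hleE t ht
      · rw [map_mul, map_pow]
        exact mul_lt_one_of_lt_of_le (hltE _ hx') (pow_le_one₀ zero_le hT1)
      · rw [map_mul]
        exact mul_lt_one_of_lt_of_le (hltE _ ht') hT1
    simpa using h1
  have hc0 : (Ideal.Quotient.mk (bel K P).asIdeal c' : k) ≠ 0 := by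
    intro h
    rw [← hmemK] at h
    have h1 : (c : K) = algebraMap (𝓞 K) K c' - (algebraMap (𝓞 K) K c' - c) := by ring
    have h2 : (bel K P).valuation K (c : K) < 1 := by
      rw [h1]
      exact Valuation.map_sub_lt _ h hc'
    rw [hc1] at h2
    exact lt_irrefl _ h2
  obtain ⟨y, hy0, hy⟩ := F4b_ff hz1 hz2 hirr' hθ'' hc0
  obtain ⟨y', rfl⟩ := Ideal.Quotient.mk_surjective y
  have hy'0 : algebraMap (𝓞 E) E y' ≠ 0 := by
    intro h
    apply hy0
    have : y' = 0 := FaithfulSMul.algebraMap_injective (𝓞 E) E (by rw [h, map_zero])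
    rw [this, map_zero]
  refine ⟨Units.mk0 _ hy'0, ?_⟩
  rw [hφ] at hy
  have h1 : Ideal.Quotient.mk P.asIdeal (algebraMap (𝓞 K) (𝓞 E) c' * y' ^ 3 - 1) = 0 := by
    rw [map_sub, map_mul, map_pow, map_one]
    exact sub_eq_zero.2 hy
  rw [← hmemE] at h1
  have h2 : ((up E c * Units.mk0 _ hy'0 ^ 3 : Eˣ) : E) - 1 =
      algebraMap (𝓞 E) E (algebraMap (𝓞 K) (𝓞 E) c' * y' ^ 3 - 1) -
      algebraMap K E (algebraMap (𝓞 K) K c' - c) * algebraMap (𝓞 E) E y' ^ 3 := by
    have e1 : ((up E c : Eˣ) : E) = algebraMap K E (c : K) := rfl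
    rw [Units.val_mul, Units.val_pow_eq_pow_val, Units.val_mk0, e1]
    simp only [map_sub, map_mul, map_pow, map_one, htow]
    ring
  rw [h2]
  refine Valuation.map_sub_lt _ h1 ?_
  rw [map_mul, map_pow]
  exact mul_lt_one_of_lt_of_le (hltE _ hc') (pow_le_one₀ zero_le (P.valuation_le_one y'))

theorem LCv_up (P : Pl E) {c : Kˣ} (hc : c ∈ LCv (bel K P)) : up E c ∈ LCv P := by
  obtain ⟨y, hy⟩ := hc
  obtain ⟨e, he, hval⟩ := val_bel (K := K) P
  refine ⟨up E y, ?_⟩
  have h1 : ((up E c * up E y ^ 3 : Eˣ) : E) - 1 =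
      algebraMap K E (((c * y ^ 3 : Kˣ) : K) - 1) := by
    unfold up
    rw [map_sub, map_one, ← map_pow, ← map_mul]
    rfl
  rw [h1, hval]
  exact pow_lt_one₀ zero_le hy he.ne'

theorem L3_up {c : Kˣ} (hc : c ∈ L3 K) : up E c ∈ L3 E := by
  obtain ⟨y, hy⟩ := hc
  refine ⟨up E y, fun P hP => ?_⟩
  obtain ⟨e, he, hval⟩ := val_bel (K := K) P
  have h3 : Above3 (bel K P) := by
    unfold Above3 at hP ⊢
    have e3 : (3 : E) = algebraMap K E 3 := (map_ofNat _ 3).symm
    rw [e3, hval] at hP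
    exact lt_of_pow_lt_pow_left₀ e zero_le (by rwa [one_pow])
  have h1 : ((up E c * up E y ^ 3 : Eˣ) : E) - 1 =
      algebraMap K E (((c * y ^ 3 : Kˣ) : K) - 1) := by
    unfold up
    rw [map_sub, map_one, ← map_pow, ← map_mul]
    rfl
  have e9 : (9 : E) = algebraMap K E 9 := (map_ofNat _ 9).symm
  rw [h1, e9, hval, hval]
  exact pow_le_pow_left₀ zero_le (hy _ h3) e

theorem tame_up (P : Pl E) : ∃ e : ℕ, ∀ b a : Kˣ,
    tame P (up E b) (up E a) = up E (tame (bel K P) b a) ^ e := by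
  obtain ⟨e, he, hval⟩ := val_bel (K := K) P
  have hord : ∀ x : Kˣ, ordv P ((up E x : Eˣ) : E) = ordv (bel K P) (x : K) * (e : ℤ) := by
    intro x
    unfold ordv
    have : ((up E x : Eˣ) : E) = algebraMap K E (x : K) := rfl
    rw [this, hval, WithZero.log_pow]
    simp [mul_comm]
  refine ⟨e, fun b a => ?_⟩
  unfold tame
  rw [hord, hord]
  unfold up
  rw [map_mul, map_inv, map_zpow, map_zpow, mul_pow, inv_pow, zpow_mul, zpow_mul, zpow_natCast,
    zpow_natCast]

end Pool.Agent.Lib.MP_fdb342_lc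
end

section

/-!
# The index of the group of norms of S-units
-/

open IsDedekindDomain NumberField

namespace Pool.Agent.Lib.MP_fdb342_lc

variable {K : Type} [Field K] [NumberField K] {E : Type} [Field E] [NumberField E] [Algebra K E]


/-- norms of `S`-units of `E` -/
noncomputable def NSU (E : Type) [Field E] [NumberField E] [Algebra K E] (S : Finset (Pl K)) : Subgroup Kˣ :=
  (SU (SE E S)).map (Units.map (Algebra.norm K : E →* K))

private theorem hn12b_mem (τ : E ≃ₐ[K] E) (S : Finset (Pl K)) {u : Eˣ} (hu : u ∈ SU (SE E S)) :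
    Units.map (τ : E →* E) u ∈ SU (SE E S) := by
  intro P hP
  obtain ⟨Q, hQ, hv⟩ := exists_sm τ.symm P
  show P.valuation E (τ (u : E)) = 1
  rw [← hv, AlgEquiv.symm_apply_apply]
  apply hu
  rw [mem_SE, hQ, ← mem_SE]
  exact hP

/-- the action of `τ` on the `S`-units -/
private noncomputable def hn12b_act (τ : E ≃ₐ[K] E) (S : Finset (Pl K)) :
    SU (SE E S) ≃* SU (SE E S) where
  toFun u := ⟨Units.map (τ : E →* E) u.1, hn12b_mem τ S u.2⟩
  invFun u := ⟨Units.map (τ.symm : E →* E) u.1, hn12b_mem τ.symm S u.2⟩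
  left_inv u := by
    apply Subtype.ext
    apply Units.ext
    show τ.symm (τ _) = _
    simp
  right_inv u := by
    apply Subtype.ext
    apply Units.ext
    show τ (τ.symm _) = _
    simp
  map_mul' u v := by
    apply Subtype.ext
    show Units.map _ (u.1 * v.1) = _
    rw [map_mul]
    rfl

private theorem hn12b_incl (S : Finset (Pl K)) {x : Kˣ} :
    Units.map (algebraMap K E : K →* E) x ∈ SU (SE E S) ↔ x ∈ SU S := by
  constructor
  · intro h v hv
    obtain ⟨P, rfl⟩ := exists_above (E := E) v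
    have h1 := h P (by rwa [mem_SE])
    obtain ⟨e, he, h2⟩ := val_bel (K := K) P
    have h3 : P.valuation E (algebraMap K E (x : K)) = 1 := h1
    rw [h2] at h3
    exact (pow_eq_one_iff_left he.ne').1 h3
  · intro h P hP
    obtain ⟨e, he, h2⟩ := val_bel (K := K) P
    show P.valuation E (algebraMap K E (x : K)) = 1
    rw [h2, h (bel K P) (by rwa [← mem_SE]), one_pow]

/-- the norm of a cubic Kummer extension is the product of the conjugates -/
private theorem hn12b_norm {ζ : K} {d : Kˣ} {α : E} {σ : E ≃ₐ[K] E} (hk : Kum K ζ d E α σ)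
    (u : E) : algebraMap K E (Algebra.norm K u) = u * σ u * σ (σ u) := by
  have := hk.gal
  have hfd : FiniteDimensional K E := FiniteDimensional.of_finrank_pos (by rw [hk.deg]; norm_num)
  have hcard : Nat.card (E ≃ₐ[K] E) = 3 := by rw [IsGalois.card_aut_eq_finrank, hk.deg]
  have hσ3 : σ ^ 3 = 1 := by rw [← hcard]; exact pow_card_eq_one'
  have hsur : Function.Surjective (fun i : Fin 3 => σ ^ (i : ℕ)) := by
    intro τ
    obtain ⟨i, rfl⟩ := hk.gen τ
    refine ⟨⟨i % 3, Nat.mod_lt _ (by norm_num)⟩, ?_⟩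
    show σ ^ (i % 3) = σ ^ i
    rw [← pow_mod_natCard σ i, hcard]
  have hbij : Function.Bijective (fun i : Fin 3 => σ ^ (i : ℕ)) := by
    rw [Fintype.bijective_iff_surjective_and_card]
    refine ⟨hsur, ?_⟩
    rw [← Nat.card_eq_fintype_card (α := E ≃ₐ[K] E), hcard, Fintype.card_fin]
  rw [Algebra.norm_eq_prod_automorphisms, ← hbij.prod_comp, Fin.prod_univ_three]
  rfl

theorem norm_index {ζ : K} {d : Kˣ} {α : E} {σ : E ≃ₐ[K] E} (hk : Kum K ζ d E α σ)
    (hd : d ∈ L3 K) (S : Finset (Pl K)) (h3 : ∀ v, Above3 v → v ∈ S) (hdS : d ∈ SU S)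
    (hcl : ClTriv S) :
    (NSU E S).relIndex (SU S) ≠ 0 ∧ 3 * (NSU E S).relIndex (SU S) ≤ 3 ^ (bad d S).card := by
  have := hk.gal
  have hfd : FiniteDimensional K E := FiniteDimensional.of_finrank_pos (by rw [hk.deg]; norm_num)
  have hcard : Nat.card (E ≃ₐ[K] E) = 3 := by rw [IsGalois.card_aut_eq_finrank, hk.deg]
  have hσ3 : σ ^ 3 = 1 := by rw [← hcard]; exact pow_card_eq_one'
  have hσ : ∀ x : E, σ (σ (σ x)) = x := fun x => by
    have := congrArg (fun τ : E ≃ₐ[K] E => τ x) hσ3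
    exact this
  let s : Additive (SU (SE E S)) ≃+ Additive (SU (SE E S)) := (hn12b_act σ S).toAdditive
  have : Module.Finite ℤ (Additive (SU (SE E S))) := SU_fg _
  have hsv : ∀ x : Additive (SU (SE E S)), (((s x).toMul : Eˣ) : E) = σ ((x.toMul : Eˣ) : E) :=
    fun x => rfl
  have hinj : ∀ x y : Additive (SU (SE E S)), ((x.toMul : Eˣ) : E) = ((y.toMul : Eˣ) : E) →
      x = y := by
    intro x y h
    apply Additive.toMul.injective
    apply Subtype.ext
    exact Units.ext h
  have hher := herbrand s (fun x => by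
    apply hinj
    rw [hsv, hsv, hsv, hσ]) (fun x hx => by
    have h1 : ((x.toMul : Eˣ) : E) * σ ((x.toMul : Eˣ) : E) * σ (σ ((x.toMul : Eˣ) : E)) = 1 := by
      have := congrArg (fun y : Additive (SU (SE E S)) => ((y.toMul : Eˣ) : E)) hx
      exact this
    obtain ⟨y, hy, hxy⟩ := hilbert90_SU hk S h3 hdS hcl x.toMul.2 h1
    refine ⟨Additive.ofMul ⟨y, hy⟩, ?_⟩
    rw [eq_sub_iff_add_eq]
    apply hinj
    exact hxy)
  -- the fixed elements
  let g : Additive (SU S) →+ Fx s :=
    { toFun := fun x => ⟨Additive.ofMul ⟨Units.map (algebraMap K E : K →* E) x.toMul.1,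
        (hn12b_incl S).2 x.toMul.2⟩, by
          apply hinj
          show σ (algebraMap K E _) = algebraMap K E _
          exact σ.commutes _⟩
      map_zero' := by
        apply Subtype.ext
        apply hinj
        show algebraMap K E 1 = 1
        exact map_one _
      map_add' := fun x y => by
        apply Subtype.ext
        apply hinj
        show algebraMap K E (_ * _) = algebraMap K E _ * algebraMap K E _
        exact map_mul _ _ _ }
  have hgv : ∀ x : Additive (SU S), ((((g x).1).toMul : Eˣ) : E) =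
      algebraMap K E ((x.toMul : Kˣ) : K) := fun x => rfl
  have hgi : Function.Injective g := by
    intro x y h
    have h1 := congrArg (fun z : Fx s => ((z.1.toMul : Eˣ) : E)) h
    simp only [hgv] at h1
    apply Additive.toMul.injective
    apply Subtype.ext
    apply Units.ext
    exact (algebraMap K E).injective h1
  have hgs : Function.Surjective g := by
    rintro ⟨z, hz⟩
    have h1 : σ ((z.toMul : Eˣ) : E) = ((z.toMul : Eˣ) : E) := by
      have h1 : s z = z := hz
      have h2 := hsv z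
      rw [h1] at h2
      exact h2.symm
    have h2 : ∀ τ : E ≃ₐ[K] E, τ ((z.toMul : Eˣ) : E) = ((z.toMul : Eˣ) : E) := by
      intro τ
      obtain ⟨i, rfl⟩ := hk.gen τ
      induction i with
      | zero => rfl
      | succ i ih => rw [pow_succ, AlgEquiv.mul_apply, h1, ih]
    obtain ⟨x, hx⟩ := (IsGalois.mem_range_algebraMap_iff_fixed _).2 h2
    have hx0 : x ≠ 0 := by
      rintro rfl
      rw [map_zero] at hx
      exact (z.toMul : Eˣ).ne_zero hx.symm
    have hxu : Units.map (algebraMap K E : K →* E) (Units.mk0 x hx0) = (z.toMul : Eˣ) :=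
      Units.ext hx
    have hxS : Units.mk0 x hx0 ∈ SU S := by
      rw [← hn12b_incl (E := E), hxu]
      exact z.toMul.2
    refine ⟨Additive.ofMul ⟨Units.mk0 x hx0, hxS⟩, ?_⟩
    apply Subtype.ext
    apply hinj
    exact hx
  have hrank : Module.finrank ℤ (Fx s) = Units.rank K + S.card := by
    rw [← SU_rank S]
    exact ((AddEquiv.ofBijective g ⟨hgi, hgs⟩).toIntLinearEquiv.finrank_eq).symm
  have hidx : (Nm s).relIndex (Fx s) = (NSU E S).relIndex (SU S) := by
    have h1 : ((Nm s).addSubgroupOf (Fx s)).comap g =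
        Subgroup.toAddSubgroup ((NSU E S).subgroupOf (SU S)) := by
      ext x
      rw [AddSubgroup.mem_comap, AddSubgroup.mem_addSubgroupOf]
      show ((g x).1 ∈ Nm s) ↔ (x.toMul : Kˣ) ∈ NSU E S
      constructor
      · rintro ⟨y, hy⟩
        refine ⟨(y.toMul : Eˣ), y.toMul.2, ?_⟩
        apply Units.ext
        apply (algebraMap K E).injective
        show algebraMap K E (Algebra.norm K ((y.toMul : Eˣ) : E)) = _
        rw [hn12b_norm hk, ← hgv, hy]
        rfl
      · rintro ⟨u, hu, hux⟩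
        refine ⟨Additive.ofMul ⟨u, hu⟩, ?_⟩
        apply hinj
        rw [hgv, ← hux]
        show algebraMap K E (Algebra.norm K (u : E)) = _
        rw [hn12b_norm hk]
        rfl
    show ((Nm s).addSubgroupOf (Fx s)).index = ((NSU E S).subgroupOf (SU S)).index
    rw [← AddSubgroup.index_comap_of_surjective _ hgs, h1, Subgroup.index_toAddSubgroup]
  rw [hidx, hrank, SU_rank] at hher
  obtain ⟨ζE, hζE⟩ : ∃ ζE : E, IsPrimitiveRoot ζE 3 :=
    ⟨algebraMap K E ζ, hk.prim.map_of_injective (algebraMap K E).injective⟩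
  have hrK := two_rank hk.prim
  have hrE := two_rank hζE
  have hdeg : Module.finrank ℚ E = 3 * Module.finrank ℚ K := by
    rw [← Module.finrank_mul_finrank ℚ K E, hk.deg, mul_comm]
  have hr : Units.rank E = 3 * Units.rank K + 2 := by omega
  have hcS := card_SE hk hd S
  set hh := (NSU E S).relIndex (SU S) with hhh
  constructor
  · intro h0
    rw [h0] at hher
    have : 0 < 3 ^ (3 * (Units.rank K + S.card)) := by positivity
    rw [← hher] at this
    simp at this
  · have h5 : (3 * hh) ^ 2 ≤ (3 ^ (bad d S).card) ^ 2 := by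
      have h6 : 0 < 3 ^ (3 * Units.rank K + (SE E S).card) := by positivity
      apply Nat.le_of_mul_le_mul_right _ h6
      calc (3 * hh) ^ 2 * 3 ^ (3 * Units.rank K + (SE E S).card)
          = hh ^ 2 * 3 ^ (Units.rank E + (SE E S).card) := by
            rw [hr]
            ring
        _ = 3 ^ (3 * (Units.rank K + S.card)) := hher
        _ ≤ 3 ^ (3 * Units.rank K + ((SE E S).card + 2 * (bad d S).card)) :=
            Nat.pow_le_pow_right (by norm_num) (by omega)
        _ = (3 ^ (bad d S).card) ^ 2 * 3 ^ (3 * Units.rank K + (SE E S).card) := by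
            rw [← pow_mul, ← pow_add]
            congr 1
            ring
    exact (Nat.pow_le_pow_iff_left (by norm_num)).1 h5

end Pool.Agent.Lib.MP_fdb342_lc
end

section

/-!
# Non-residues: a weak form of Chebotarev's theorem for Kummer extensions
-/

open IsDedekindDomain NumberField

namespace Pool.Agent.Lib.MP_fdb342_lc

section E

open Pool.Agent.ST

theorem E_finite_mem {R : Type} [CommRing R] [IsDedekindDomain R] {r : R} (hr : r ≠ 0) :
    {v : HeightOneSpectrum R | r ∈ v.asIdeal}.Finite := by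
  have h : Ideal.span {r} ≠ ⊥ := by
    simpa using hr
  refine (Ideal.finite_factors h).subset ?_
  intro v hv
  exact Ideal.dvd_span_singleton.2 hv

set_option linter.unusedSectionVars false

variable {F L : Type} [Field F] [NumberField F] [Field L] [NumberField L] [Algebra F L]

theorem E_mem_und {P : PrI L} (a : 𝓞 F) :
    algebraMap (𝓞 F) (𝓞 L) a ∈ P.asIdeal ↔ a ∈ (und F P).asIdeal := Iff.rfl

theorem E_algebraMap (a : 𝓞 F) : algebraMap F L (algebraMap (𝓞 F) F a) =
    algebraMap (𝓞 L) L (algebraMap (𝓞 F) (𝓞 L) a) := rfl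

/-- Integers at the prime below are integers at the prime above, non-units are non-units. -/
theorem E_up (P : PrI L) (a : F) (ha : (und F P).valuation F a ≤ 1) :
    P.valuation L (algebraMap F L a) ≤ 1 ∧
      ((und F P).valuation F a < 1 → P.valuation L (algebraMap F L a) < 1) := by
  obtain ⟨n, d, hnd⟩ := (und F P).exists_primeCompl_mul_eq_of_integer a ha
  have hd : (und F P).valuation F (algebraMap (𝓞 F) F (d : 𝓞 F)) = 1 :=
    (und F P).valuation_eq_one_iff_notMem.2 d.2
  have hd' : P.valuation L (algebraMap F L (algebraMap (𝓞 F) F (d : 𝓞 F))) = 1 := by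
    rw [E_algebraMap]
    exact P.valuation_eq_one_iff_notMem.2 d.2
  have h1 : P.valuation L (algebraMap F L a) = P.valuation L (algebraMap (𝓞 L) L
      (algebraMap (𝓞 F) (𝓞 L) n)) := by
    rw [← E_algebraMap, ← hnd, map_mul, map_mul, hd', mul_one]
  have h2 : (und F P).valuation F a = (und F P).valuation F (algebraMap (𝓞 F) F n) := by
    rw [← hnd, map_mul, hd, mul_one]
  rw [h1, h2]
  refine ⟨P.valuation_le_one _, ?_⟩
  rw [(und F P).valuation_lt_one_iff_mem, P.valuation_lt_one_iff_mem]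
  exact id

/-- The Frobenius element is the `N`-th power on the integers at the prime. -/
theorem E_frob [IsGalois F L] {P : PrI L} {τ : L ≃ₐ[F] L} (hτ : IsFrob F P τ) (z : L)
    (hz : P.valuation L z ≤ 1) : P.valuation L (τ z - z ^ pn (und F P)) < 1 := by
  set N := pn (und F P) with hN
  obtain ⟨n, d, hnd⟩ := P.exists_primeCompl_mul_eq_of_integer z hz
  have hd : P.valuation L (algebraMap (𝓞 L) L (d : 𝓞 L)) = 1 :=
    P.valuation_eq_one_iff_notMem.2 d.2
  have hfr : ∀ w : 𝓞 L, P.valuation L (τ (algebraMap (𝓞 L) L w) - (algebraMap (𝓞 L) L w) ^ N) < 1 := by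
    intro w
    rw [← coe_smul', ← map_pow, ← map_sub, P.valuation_lt_one_iff_mem]
    exact hτ w
  have hdN : P.valuation L ((algebraMap (𝓞 L) L (d : 𝓞 L)) ^ N) = 1 := by
    rw [map_pow, hd, one_pow]
  have hτd : P.valuation L (τ (algebraMap (𝓞 L) L (d : 𝓞 L))) = 1 := by
    have h1 : τ (algebraMap (𝓞 L) L (d : 𝓞 L)) = (algebraMap (𝓞 L) L (d : 𝓞 L)) ^ N +
        (τ (algebraMap (𝓞 L) L (d : 𝓞 L)) - (algebraMap (𝓞 L) L (d : 𝓞 L)) ^ N) := by ring
    rw [h1, Valuation.map_add_eq_of_lt_left, hdN]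
    rw [hdN]
    exact hfr _
  have h1 : (τ z - z ^ N) * (τ (algebraMap (𝓞 L) L (d : 𝓞 L)) * (algebraMap (𝓞 L) L (d : 𝓞 L)) ^ N) =
      (τ (algebraMap (𝓞 L) L n) - (algebraMap (𝓞 L) L n) ^ N) * (algebraMap (𝓞 L) L (d : 𝓞 L)) ^ N -
      (algebraMap (𝓞 L) L n) ^ N *
        (τ (algebraMap (𝓞 L) L (d : 𝓞 L)) - (algebraMap (𝓞 L) L (d : 𝓞 L)) ^ N) := by
    rw [← hnd, map_mul]
    ring
  have h2 : P.valuation L (τ z - z ^ N) = P.valuation L ((τ z - z ^ N) *
      (τ (algebraMap (𝓞 L) L (d : 𝓞 L)) * (algebraMap (𝓞 L) L (d : 𝓞 L)) ^ N)) := by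
    rw [map_mul, map_mul, hτd, hdN, mul_one, mul_one]
  rw [h2, h1]
  refine (Valuation.map_sub _ _ _).trans_lt (max_lt ?_ ?_)
  · rw [map_mul, hdN, mul_one]
    exact hfr n
  · rw [map_mul]
    have h3 : P.valuation L ((algebraMap (𝓞 L) L n) ^ N) ≤ 1 := by
      rw [← map_pow]
      exact P.valuation_le_one _
    exact (mul_le_of_le_one_left' h3).trans_lt (hfr _)

/-- Congruences can be raised to powers. -/
theorem E_pow (v : Valuation L (WithZero (Multiplicative ℤ))) {a b : L} (ha : v a ≤ 1)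
    (hb : v b ≤ 1) (h : v (a - b) < 1) (n : ℕ) : v (a ^ n - b ^ n) < 1 := by
  induction n with
  | zero => simp
  | succ n ih =>
    have h1 : a ^ (n + 1) - b ^ (n + 1) = a ^ n * (a - b) + (a ^ n - b ^ n) * b := by ring
    rw [h1]
    refine (Valuation.map_add _ _ _).trans_lt (max_lt ?_ ?_)
    · rw [map_mul, map_pow]
      exact (mul_le_of_le_one_left' (pow_le_one' ha n)).trans_lt h
    · rw [map_mul]
      exact (mul_le_of_le_one_right' hb).trans_lt ih

end E

/-- An element `x` which is not an `l`-th power is not an `l`-th power modulo some prime `q`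
outside of a given finite set of primes. -/
theorem exists_nonresidue {F : Type} [Field F] [NumberField F] {l : ℕ} (hl : l.Prime) {ζ : F}
    (hζ : IsPrimitiveRoot ζ l) {x : F} (hx : x ≠ 0) (hxl : ¬ ∃ y : F, y ^ l = x)
    (B : Set (HeightOneSpectrum (𝓞 F))) (hB : B.Finite) :
    ∃ q : HeightOneSpectrum (𝓞 F), q ∉ B ∧ q.valuation F x = 1 ∧
      ¬ ∃ y : F, q.valuation F (x - y ^ l) < 1 := by
  have : NeZero l := ⟨hl.ne_zero⟩
  obtain ⟨L, _, _, _, α, σ, hGal, hdeg, hαl, hσα, hpow, hadj⟩ := exists_kummer hl hζ hxl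
  obtain ⟨a, b, hb, hab⟩ := IsFractionRing.div_surjective (A := 𝓞 F) x
  have hb0 : b ≠ 0 := nonZeroDivisors.ne_zero hb
  have ha0 : a ≠ 0 := by
    rintro rfl
    apply hx
    rw [← hab]
    simp
  have hl0 : (l : 𝓞 F) ≠ 0 := Nat.cast_ne_zero.2 hl.ne_zero
  set B' : Set (HeightOneSpectrum (𝓞 F)) := B ∪ ({v | a ∈ v.asIdeal} ∪ ({v | b ∈ v.asIdeal} ∪
    {v | (l : 𝓞 F) ∈ v.asIdeal})) with hB'
  have hB'fin : B'.Finite := hB.union ((E_finite_mem ha0).union ((E_finite_mem hb0).union
    (E_finite_mem hl0)))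
  have hbt : (⊥ : IntermediateField F L) ≠ ⊤ := by
    intro h
    have h1 : Module.finrank F L = 1 := by
      rw [← IntermediateField.finrank_top', ← h, IntermediateField.finrank_bot]
    rw [hdeg] at h1
    exact hl.one_lt.ne' h1
  obtain ⟨P, hPB, hun, τ, hτ, -, hτ1⟩ := Pool.Agent.ST.exists_frob (K := F) (L := L)
    (⊥ : IntermediateField F L) hbt B' hB'fin
  set q := Pool.Agent.ST.und F P with hq
  simp only [hB', Set.mem_union, not_or] at hPB
  obtain ⟨hqB, hqa, hqb, hql⟩ := hPB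
  have hva : q.valuation F (algebraMap (𝓞 F) F a) = 1 := q.valuation_eq_one_iff_notMem.2 hqa
  have hvb : q.valuation F (algebraMap (𝓞 F) F b) = 1 := q.valuation_eq_one_iff_notMem.2 hqb
  have hvx : q.valuation F x = 1 := by
    rw [← hab, map_div₀, hva, hvb, div_one]
  refine ⟨q, hqB, hvx, ?_⟩
  rintro ⟨y, hy⟩
  set v := P.valuation L with hv
  -- valuations
  have hup : ∀ z : F, q.valuation F z = 1 → v (algebraMap F L z) = 1 := by
    intro z hz
    have hz0 : z ≠ 0 := by
      rintro rfl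
      simp at hz
    refine le_antisymm (E_up P z hz.le).1 ?_
    have hzi : q.valuation F z⁻¹ ≤ 1 := by rw [map_inv₀, hz, inv_one]
    have h1 := (E_up P z⁻¹ hzi).1
    rw [map_inv₀, map_inv₀] at h1
    have h2 : v (algebraMap F L z) ≠ 0 := by
      rw [Valuation.ne_zero_iff]
      exact (map_ne_zero _).2 hz0
    rwa [inv_le_one₀ (zero_lt_iff.2 h2)] at h1
  have hvx' : v (algebraMap F L x) = 1 := hup x hvx
  have hvα : v α = 1 := by
    have h1 : v α ^ l = 1 := by rw [← map_pow, hαl, hvx']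
    exact (pow_eq_one_iff.1 h1).resolve_right hl.ne_zero
  have hvyl : q.valuation F (y ^ l) = 1 := by
    have h1 : y ^ l = x - (x - y ^ l) := by ring
    rw [h1, Valuation.map_sub_eq_of_lt_left, hvx]
    rw [hvx]
    exact hy
  have hvy : q.valuation F y = 1 := by
    rw [map_pow] at hvyl
    exact (pow_eq_one_iff.1 hvyl).resolve_right hl.ne_zero
  have hvζ : q.valuation F ζ = 1 := by
    have h1 : q.valuation F ζ ^ l = 1 := by rw [← map_pow, hζ.pow_eq_one, map_one]
    exact (pow_eq_one_iff.1 h1).resolve_right hl.ne_zero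
  -- a factor
  have hprim : IsPrimitiveRoot (algebraMap F L ζ) l :=
    hζ.map_of_injective (algebraMap F L).injective
  obtain ⟨w, hw1, hw2⟩ : ∃ w : F, q.valuation F w = 1 ∧ v (α - algebraMap F L w) < 1 := by
    have h1 := hprim.pow_sub_pow_eq_prod_sub_mul α (algebraMap F L y) hl.pos
    have h2 : v (α ^ l - (algebraMap F L y) ^ l) < 1 := by
      rw [hαl, ← map_pow, ← map_sub]
      exact (E_up P _ hy.le).2 hy
    rw [h1, map_prod] at h2
    by_contra hcon
    push Not at hcon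
    refine absurd h2 (not_lt.2 ?_)
    apply Finset.one_le_prod'
    intro η hη
    have hη1 : η ^ l = 1 := by
      rw [Polynomial.mem_nthRootsFinset hl.pos] at hη
      exact hη
    obtain ⟨j, -, hj⟩ := hprim.eq_pow_of_pow_eq_one hη1
    have h3 := hcon (ζ ^ j * y) (by rw [map_mul, map_pow, hvζ, hvy, one_pow, one_mul])
    rw [map_mul, map_pow, hj] at h3
    exact h3
  have hvw : v (algebraMap F L w) = 1 := hup w hw1
  -- Frobenius
  set N := Pool.Agent.ST.pn q with hN
  have f1 : v (τ α - α ^ N) < 1 := E_frob hτ α hvα.le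
  have f2 : v (α ^ N - (algebraMap F L w) ^ N) < 1 := E_pow v hvα.le hvw.le hw2 N
  have f3 : v (algebraMap F L w - (algebraMap F L w) ^ N) < 1 := by
    have := E_frob hτ (algebraMap F L w) hvw.le
    rwa [AlgEquiv.commutes] at this
  have f4 : v (τ α - α) < 1 := by
    have h1 : τ α - α = ((τ α - α ^ N) + (α ^ N - (algebraMap F L w) ^ N)) -
        ((algebraMap F L w - (algebraMap F L w) ^ N) + (α - algebraMap F L w)) := by ring
    rw [h1]
    refine (Valuation.map_sub _ _ _).trans_lt (max_lt ?_ ?_)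
    · exact (Valuation.map_add _ _ _).trans_lt (max_lt f1 f2)
    · exact (Valuation.map_add _ _ _).trans_lt (max_lt f3 hw2)
  obtain ⟨i, hi⟩ := hpow τ
  have hσi : ∀ i : ℕ, (σ ^ i) α = algebraMap F L (ζ ^ i) * α := by
    intro i
    induction i with
    | zero => simp
    | succ i ih =>
      rw [pow_succ', AlgEquiv.mul_apply, ih, map_mul, AlgEquiv.commutes, hσα, pow_succ, map_mul]
      ring
  have hτα : τ α = algebraMap F L (ζ ^ i) * α := by rw [hi, hσi]
  have f5 : v (algebraMap F L (ζ ^ i) - 1) < 1 := by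
    have h1 : τ α - α = (algebraMap F L (ζ ^ i) - 1) * α := by rw [hτα]; ring
    rw [h1, map_mul, hvα, mul_one] at f4
    exact f4
  have hne : ζ ^ i ≠ 1 := by
    intro h1
    apply hτ1
    rw [h1, map_one, one_mul] at hτα
    have h2 : ∀ z ∈ IntermediateField.adjoin F {α}, τ z = z := by
      intro z hz
      induction hz using IntermediateField.adjoin_induction with
      | mem z hz =>
        rw [Set.mem_singleton_iff] at hz
        rw [hz, hτα]
      | algebraMap z => exact τ.commutes z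
      | add z z' _ _ h h' => rw [map_add, h, h']
      | inv z _ h => rw [map_inv₀, h]
      | mul z z' _ _ h h' => rw [map_mul, h, h']
    ext z
    exact h2 z (by rw [hadj]; trivial)
  -- the geometric sum
  set η := algebraMap F L (ζ ^ i) with hη
  have hη1 : η ≠ 1 := by
    intro h1
    apply hne
    apply (algebraMap F L).injective
    rw [map_one]
    exact h1
  have hηl : η ^ l = 1 := by
    rw [hη, ← map_pow, ← pow_mul, mul_comm, pow_mul, hζ.pow_eq_one, one_pow, map_one]
  have hsum : ∑ k ∈ Finset.range l, η ^ k = 0 := by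
    have h1 := mul_geom_sum η l
    rw [hηl, sub_self] at h1
    exact (mul_eq_zero.1 h1).resolve_left (sub_ne_zero.2 hη1)
  have hvη : v η ≤ 1 := by
    have h1 : v η ^ l = 1 := by rw [← map_pow, hηl, map_one]
    exact ((pow_eq_one_iff.1 h1).resolve_right hl.ne_zero).le
  have hl1 : v (l : L) < 1 := by
    have h1 : (l : L) = -∑ k ∈ Finset.range l, (η ^ k - 1) := by
      rw [Finset.sum_sub_distrib, hsum]
      simp
    rw [h1, Valuation.map_neg]
    refine Valuation.map_sum_lt _ one_ne_zero ?_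
    intro k _
    have := E_pow v hvη (le_of_eq (map_one v)) f5 k
    rwa [one_pow] at this
  have hl2 : v (l : L) = 1 := by
    have h1 : (l : L) = algebraMap (𝓞 L) L (algebraMap (𝓞 F) (𝓞 L) (l : 𝓞 F)) := by simp
    rw [h1]
    exact P.valuation_eq_one_iff_notMem.2 hql
  rw [hl2] at hl1
  exact lt_irrefl _ hl1

end Pool.Agent.Lib.MP_fdb342_lc
end

section

/-!
# Auxiliary places
-/

open IsDedekindDomain NumberField

namespace Pool.Agent.Lib.MP_fdb342_lc

variable {K : Type} [Field K] [NumberField K]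

private lemma HN13_j {ζ : K} (hζ : IsPrimitiveRoot ζ 3) {v : Pl K} (hv : ¬ Above3 v) {y p : Kˣ}
    (hy0 : ordv v (y : K) = 0) (hy : y ∉ LCv v) (hp0 : ordv v (p : K) = 0) :
    ∃ j : ℕ, p * y ^ j ∈ LCv v := by
  obtain ⟨g, hg0, hg, hgu⟩ := exists_nonresidue_unit hζ v hv
  let q : Kˣ →* Kˣ ⧸ LCv v := QuotientGroup.mk' (LCv v)
  have hq : ∀ z : Kˣ, z ∈ LCv v ↔ q z = 1 := fun z => (QuotientGroup.eq_one_iff z).symm
  have hg3 : q g ^ 3 = 1 := by
    rw [← map_pow, ← hq]
    exact cube_mem_LCv v g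
  have hcl : ∀ u : Kˣ, ordv v (u : K) = 0 → q u = 1 ∨ q u = q g ∨ q u = q g ^ 2 := by
    intro u hu
    rcases hgu u hu with h | h | h
    · left; exact (hq u).1 h
    · right; left
      have h1 := (hq _).1 h
      rw [map_mul, map_inv, inv_mul_eq_one] at h1
      exact h1.symm
    · right; right
      have h1 := (hq _).1 h
      rw [map_mul, map_inv, map_pow, inv_mul_eq_one] at h1
      exact h1.symm
  have hy1 : q y ≠ 1 := fun h => hy ((hq y).2 h)
  rcases hcl y hy0 with h | h | h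
  · exact absurd h hy1
  · rcases hcl p hp0 with h' | h' | h'
    · exact ⟨0, by rw [hq, map_mul, map_pow, h', h]; simp⟩
    · exact ⟨2, by rw [hq, map_mul, map_pow, h', h, ← pow_succ', hg3]⟩
    · exact ⟨1, by rw [hq, map_mul, map_pow, h', h, pow_one, ← pow_succ, hg3]⟩
  · rcases hcl p hp0 with h' | h' | h'
    · exact ⟨0, by rw [hq, map_mul, map_pow, h', h]; simp⟩
    · exact ⟨1, by rw [hq, map_mul, map_pow, h', h, pow_one, ← pow_succ', hg3]⟩
    · exact ⟨2, by rw [hq, map_mul, map_pow, h', h, ← pow_mul, ← pow_add]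
                   show q g ^ (3 * 2) = 1
                   rw [pow_mul, hg3, one_pow]⟩

/-- the index of the local cubes in a group of units is three -/
private lemma HN13_index {ζ : K} (hζ : IsPrimitiveRoot ζ 3) {v : Pl K} (hv : ¬ Above3 v)
    (T : Subgroup Kˣ) (hT : ∀ x ∈ T, ordv v (x : K) = 0) (hy : ∃ y ∈ T, y ∉ LCv v) :
    ((LCv v).subgroupOf T).index = 3 := by
  obtain ⟨y, hyT, hy⟩ := hy
  set L := (LCv v).subgroupOf T with hL
  let q : T →* T ⧸ L := QuotientGroup.mk' L
  have hq : ∀ z : T, (z : Kˣ) ∈ LCv v ↔ q z = 1 := by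
    intro z
    rw [← Subgroup.mem_subgroupOf]
    exact (QuotientGroup.eq_one_iff z).symm
  have hord : orderOf (q ⟨y, hyT⟩) = 3 := by
    have hp : Fact (Nat.Prime 3) := ⟨Nat.prime_three⟩
    refine orderOf_eq_prime ?_ ?_
    · rw [← map_pow, ← hq]
      exact cube_mem_LCv v y
    · intro h
      exact hy ((hq ⟨y, hyT⟩).2 h)
  have htop : Subgroup.zpowers (q ⟨y, hyT⟩) = ⊤ := by
    rw [eq_top_iff]
    rintro a -
    obtain ⟨p, rfl⟩ := QuotientGroup.mk'_surjective L a
    obtain ⟨j, hj⟩ := HN13_j hζ hv (hT y hyT) hy (hT p p.2)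
    have h1 : q (p * ⟨y, hyT⟩ ^ j) = 1 := (hq _).1 hj
    rw [map_mul, map_pow] at h1
    have h2 := mul_eq_one_iff_eq_inv.1 h1
    rw [h2]
    exact inv_mem (pow_mem (Subgroup.mem_zpowers _) j)
  have h1 : Nat.card (T ⧸ L) = 3 := by
    rw [← hord, ← Nat.card_zpowers, htop]
    exact (Subgroup.card_top).symm
  exact h1

/-- an element which is not in `⟨d⟩ (Kˣ)³` is a non-residue at some place where `d` is a cube -/
private lemma HN13_step {ζ : K} (hζ : IsPrimitiveRoot ζ 3) {d : Kˣ} (hd : d ∉ Cubes K)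
    (S T : Finset (Pl K)) (h3 : ∀ v, Above3 v → v ∈ S) (hdS : d ∈ SU S) {x : Kˣ}
    (hxS : x ∈ SU S) (hx : ∀ i : ℕ, x * d ^ i ∉ Cubes K) :
    ∃ w : Pl K, w ∉ S ∧ w ∉ T ∧ d ∈ LCv w ∧ x ∉ LCv w := by
  classical
  have hd' : ¬ ∃ y : K, y ^ 3 = (d : K) := by
    rintro ⟨y, hy⟩
    have hy0 : y ≠ 0 := by
      rintro rfl
      rw [zero_pow (by norm_num)] at hy
      exact d.ne_zero hy.symm
    exact hd ⟨Units.mk0 y hy0, Units.ext (by simpa using hy)⟩
  obtain ⟨E, _, _, _, α, σ, hgal, hdeg, hpow, hact, hgen, -⟩ := exists_kummer Nat.prime_three hζ hd'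
  have hk : Kum K ζ d E α σ := ⟨hζ, hgal, hdeg, hpow, hact, hgen⟩
  have hζE : IsPrimitiveRoot (algebraMap K E ζ) 3 :=
    hζ.map_of_injective (FaithfulSMul.algebraMap_injective K E)
  have hxE0 : algebraMap K E (x : K) ≠ 0 := by
    rw [Ne, map_eq_zero]
    exact x.ne_zero
  have hxE : ¬ ∃ y : E, y ^ 3 = algebraMap K E (x : K) := by
    rintro ⟨y, hy⟩
    obtain ⟨i, hi⟩ := cube_in_kummer hk hy
    exact hx i hi
  let B : Set (Pl E) := ⋃ v ∈ (S ∪ T), {P : Pl E | bel K P = v}
  have hB : B.Finite := by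
    refine Set.Finite.biUnion (Finset.finite_toSet _) ?_
    intro v _
    exact finite_above v
  obtain ⟨q, hqB, hqx, hq⟩ := exists_nonresidue Nat.prime_three hζE hxE0 hxE B hB
  set w := bel K q with hw
  have hwST : w ∉ S ∪ T := by
    intro h
    apply hqB
    simp only [B, Set.mem_iUnion, Set.mem_ofPred_eq]
    exact ⟨w, h, rfl⟩
  rw [Finset.mem_union, not_or] at hwST
  obtain ⟨e, he, hval⟩ := val_bel (K := K) q
  have hα0 : α ≠ 0 := by
    rintro rfl
    rw [zero_pow (by norm_num)] at hpow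
    exact d.ne_zero ((map_eq_zero (algebraMap K E)).1 hpow.symm)
  -- the key point
  have key : ∀ j : ℕ, x * d ^ j ∉ LCv w := by
    rintro j ⟨y, hy⟩
    have h1 : q.valuation E (algebraMap K E (((x * d ^ j * y ^ 3 : Kˣ) : K) - 1)) < 1 := by
      rw [hval]
      exact pow_lt_one₀ zero_le hy he.ne'
    set Y : E := α ^ j * algebraMap K E (y : K) with hY
    have hY0 : Y ≠ 0 := mul_ne_zero (pow_ne_zero _ hα0) (by
      rw [Ne, map_eq_zero]; exact y.ne_zero)
    have e1 : algebraMap K E (((x * d ^ j * y ^ 3 : Kˣ) : K) - 1) =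
        algebraMap K E (x : K) * Y ^ 3 - 1 := by
      simp only [Units.val_mul, Units.val_pow_eq_pow_val, map_sub, map_mul, map_pow, map_one]
      rw [← hpow, hY]
      ring
    rw [e1] at h1
    have h2 : q.valuation E (algebraMap K E (x : K) * Y ^ 3) = 1 := by
      have := Valuation.map_one_add_of_lt (v := q.valuation E) h1
      rw [← this]; congr 1; ring
    have h3 : q.valuation E (Y ^ 3) = 1 := by
      rw [map_mul, hqx, one_mul] at h2
      exact h2
    refine hq ⟨Y⁻¹, ?_⟩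
    have e2 : algebraMap K E (x : K) - Y⁻¹ ^ 3 = (algebraMap K E (x : K) * Y ^ 3 - 1) / Y ^ 3 := by
      field_simp
    rw [e2, map_div₀, h3, div_one]
    exact h1
  have hxw : x ∉ LCv w := by simpa using key 0
  refine ⟨w, hwST.1, hwST.2, ?_, hxw⟩
  by_contra hdw
  have hd0 : ordv w (d : K) = 0 := (val_eq_one_iff w d.ne_zero).1 (hdS w hwST.1)
  have hx0 : ordv w (x : K) = 0 := (val_eq_one_iff w x.ne_zero).1 (hxS w hwST.1)
  obtain ⟨j, hj⟩ := HN13_j hζ (fun h => hwST.1 (h3 w h)) hd0 hdw hx0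
  exact key j hj

private lemma HN13_ind {ζ : K} (hζ : IsPrimitiveRoot ζ 3) {d : Kˣ} (hd : d ∉ Cubes K)
    (S : Finset (Pl K)) (h3 : ∀ v, Above3 v → v ∈ S) (hdS : d ∈ SU S) (k : ℕ)
    (hk : k ≤ Units.rank K + S.card) :
    ∃ W : Finset (Pl K), Disjoint W S ∧ W.card = k ∧
      (∀ w ∈ W, d ∈ LCv w) ∧
      ∀ w ∈ W, ∃ x ∈ SU S, x ∉ LCv w ∧ ∀ w' ∈ W, w' ≠ w → x ∈ LCv w' := by
  classical
  induction k with
  | zero => exact ⟨∅, by simp, by simp, by simp, by simp⟩
  | succ k ih =>
    obtain ⟨W, hdis, hcard, hdW, hW⟩ := ih (by omega)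
    have hWS : ∀ w ∈ W, w ∉ S := fun w hw hS => Finset.disjoint_left.1 hdis hw hS
    have hord : ∀ w, w ∉ S → ∀ c ∈ SU S, ordv w (c : K) = 0 := by
      intro w hw c hc
      exact (val_eq_one_iff w c.ne_zero).1 (hc w hw)
    -- the subgroup `H`
    set H : Subgroup (SU S) := ⨅ w ∈ W, (LCv w).subgroupOf (SU S) with hH
    have hHi : H.index = 3 ^ k := by
      have h := relIndex_iInf W (fun w => (LCv w).subgroupOf (SU S)) (by
        intro w hw
        obtain ⟨x, hx1, hx2, -⟩ := hW w hw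
        exact HN13_index hζ (fun h => hWS w hw (h3 w h)) (SU S) (hord w (hWS w hw))
          ⟨x, hx1, hx2⟩) ⊤ (by
        intro w hw
        obtain ⟨x, hx1, hx2, hx3⟩ := hW w hw
        refine ⟨⟨x, hx1⟩, Subgroup.mem_top _, ?_, ?_⟩
        · rw [Subgroup.mem_subgroupOf]; exact hx2
        · intro w' hw' hne
          rw [Subgroup.mem_subgroupOf]
          exact hx3 w' hw' hne)
      rw [Subgroup.relIndex_top_right, hcard] at h
      exact h
    set C : Subgroup (SU S) := (Cubes K).subgroupOf (SU S) with hC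
    have hCi : C.index = 3 ^ (Units.rank K + S.card + 1) := cubes_relIndex hζ S
    have hCH : C ≤ H := by
      intro c hc
      rw [hC, Subgroup.mem_subgroupOf] at hc
      obtain ⟨y, hy⟩ := hc
      rw [hH, Subgroup.mem_iInf]
      intro w
      rw [Subgroup.mem_iInf]
      intro _
      rw [Subgroup.mem_subgroupOf, ← hy]
      exact cube_mem_LCv w y
    let π := QuotientGroup.mk' C
    have hπs : Function.Surjective π := QuotientGroup.mk'_surjective C
    have hmap : (H.map π).index = 3 ^ k := by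
      rw [Subgroup.index_map_eq _ hπs (by rw [QuotientGroup.ker_mk']; exact hCH), hHi]
    have hcm := Subgroup.card_mul_index (H.map π)
    have hQ : Nat.card (SU S ⧸ C) = 3 ^ (Units.rank K + S.card + 1) := hCi
    have hex : ∃ x ∈ H, π x ∉ Subgroup.zpowers (π ⟨d, hdS⟩) := by
      by_contra hcon
      push Not at hcon
      have hle : H.map π ≤ Subgroup.zpowers (π ⟨d, hdS⟩) := by
        rintro a ⟨x, hx, rfl⟩
        exact hcon x hx
      have hfin : Finite (SU S ⧸ C) := Nat.finite_of_card_ne_zero (by rw [hQ]; positivity)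
      have h1 : Nat.card (H.map π) ≤ Nat.card (Subgroup.zpowers (π ⟨d, hdS⟩)) :=
        Nat.card_le_card_of_injective _ (Subgroup.inclusion_injective hle)
      have h2 : Nat.card (Subgroup.zpowers (π ⟨d, hdS⟩)) ≤ 3 := by
        rw [Nat.card_zpowers]
        refine orderOf_le_of_pow_eq_one (by norm_num) ?_
        rw [← map_pow]
        refine (QuotientGroup.eq_one_iff _).2 ?_
        rw [hC, Subgroup.mem_subgroupOf]
        exact ⟨d, rfl⟩
      rw [hmap, hQ] at hcm
      have h4 : 3 ^ (Units.rank K + S.card + 1) ≤ 3 * 3 ^ k := by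
        rw [← hcm]
        exact Nat.mul_le_mul_right _ (h1.trans h2)
      have h5 : 3 * 3 ^ k = 3 ^ (k + 1) := by rw [pow_succ]; ring
      rw [h5] at h4
      have h6 := (Nat.pow_le_pow_iff_right (by norm_num : 1 < 3)).1 h4
      omega
    obtain ⟨x, hxH, hxd⟩ := hex
    have hx : ∀ i : ℕ, (x : Kˣ) * d ^ i ∉ Cubes K := by
      intro i hi
      apply hxd
      have h1 : π (x * ⟨d, hdS⟩ ^ i) = 1 := by
        refine (QuotientGroup.eq_one_iff _).2 ?_
        rw [hC, Subgroup.mem_subgroupOf]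
        exact hi
      rw [map_mul, map_pow] at h1
      have h2 := mul_eq_one_iff_eq_inv.1 h1
      rw [h2]
      exact inv_mem (pow_mem (Subgroup.mem_zpowers _) i)
    have hxW : ∀ w ∈ W, (x : Kˣ) ∈ LCv w := by
      intro w hw
      rw [hH, Subgroup.mem_iInf] at hxH
      have h1 := hxH w
      rw [Subgroup.mem_iInf] at h1
      exact Subgroup.mem_subgroupOf.1 (h1 hw)
    obtain ⟨w, hwS, hwW, hdw, hxw⟩ := HN13_step hζ hd S W h3 hdS x.2 hx
    refine ⟨insert w W, ?_, ?_, ?_, ?_⟩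
    · rw [Finset.disjoint_insert_left]
      exact ⟨hwS, hdis⟩
    · rw [Finset.card_insert_of_notMem hwW, hcard]
    · intro w' hw'
      rcases Finset.mem_insert.1 hw' with rfl | h
      · exact hdw
      · exact hdW w' h
    · intro w' hw'
      rcases Finset.mem_insert.1 hw' with rfl | h
      · refine ⟨x, x.2, hxw, ?_⟩
        intro w'' hw'' hne
        rcases Finset.mem_insert.1 hw'' with rfl | h'
        · exact absurd rfl hne
        · exact hxW w'' h'
      · obtain ⟨y, hy1, hy2, hy3⟩ := hW w' h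
        obtain ⟨j, hj⟩ := HN13_j hζ (fun h => hwS (h3 w h)) (hord w hwS x x.2) hxw
          (hord w hwS y hy1)
        refine ⟨y * (x : Kˣ) ^ j, mul_mem hy1 (pow_mem x.2 j), ?_, ?_⟩
        · intro hmem
          apply hy2
          have := mul_mem hmem (inv_mem (pow_mem (hxW w' h) j))
          rwa [mul_inv_cancel_right] at this
        · intro w'' hw'' hne
          rcases Finset.mem_insert.1 hw'' with rfl | h'
          · exact hj
          · exact mul_mem (hy3 w'' h' hne) (pow_mem (hxW w'' h') j)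

theorem exists_aux {ζ : K} (hζ : IsPrimitiveRoot ζ 3) {d : Kˣ} (hd : d ∉ Cubes K)
    (S : Finset (Pl K)) (h3 : ∀ v, Above3 v → v ∈ S) (hdS : d ∈ SU S) :
    ∃ W : Finset (Pl K), Disjoint W S ∧ W.card = Units.rank K + S.card ∧
      (∀ w ∈ W, d ∈ LCv w) ∧
      ∀ w ∈ W, ∃ x ∈ SU S, x ∉ LCv w ∧ ∀ w' ∈ W, w' ≠ w → x ∈ LCv w' :=
  HN13_ind hζ hd S h3 hdS _ le_rfl

end Pool.Agent.Lib.MP_fdb342_lc
end
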